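import Pool.Agent.Work.MP_c3bd4f_as.Interface

set_option autoImplicit false

open scoped ContDiff Manifold Topology
open Set MeasureTheory

noncomputable section

namespace HDP

open HDC HDE

theorem AVG_zero {Γ : Type} {m : ℕ} (ρ : Γ → EE m → EE m) (S : Set (EE m))
    (w : EE (m + m) → Lam (m + m)) (hw : ∀ z, q1 m z ∉ S → w z = 0) (γ : Γ) (z : EE (m + m))
    (h : ρ γ (q1 m z) ∉ S) : pf (r2 ρ γ) w z = 0 := by
  have h1 : w (r2 ρ γ z) = 0 := hw _ (by rw [q1_r2]; exact h)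
  unfold pf
  rw [h1, map_zero]

theorem AVG_near {Γ : Type} {m : ℕ} (ρ : Γ → EE m → EE m) (S : Set (EE m)) (hS : Lf ρ S)
    (z0 : EE (m + m)) : ∃ T : Finset Γ, ∀ᶠ z in 𝓝 z0, ∀ w : EE (m + m) → Lam (m + m),
      (∀ z, q1 m z ∉ S → w z = 0) → Av ρ w z = ∑ γ ∈ T, pf (r2 ρ γ) w z := by
  obtain ⟨W, hW, hf⟩ := hS.lf (q1 m z0)
  refine ⟨hf.toFinset, ?_⟩
  have hc : Filter.Tendsto (fun z => q1 m z) (𝓝 z0) (𝓝 (q1 m z0)) :=
    (q1 m).continuous.tendsto z0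
  filter_upwards [hc hW] with z hz
  intro w hw
  unfold Av
  refine finsum_eq_sum_of_support_subset _ ?_
  intro γ hγ
  rw [Function.mem_support] at hγ
  simp only [Finite.coe_toFinset]
  by_contra hn
  apply hγ
  apply AVG_zero ρ S w hw
  intro hs
  exact hn ⟨q1 m z, hz, hs⟩

theorem AVG_D0 {m : ℕ} (S : Set (EE m)) (hS : IsClosed S) (w : EE (m + m) → Lam (m + m))
    (hw : ∀ z, q1 m z ∉ S → w z = 0) (z : EE (m + m)) (hz : q1 m z ∉ S) : D w z = 0 := by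
  have hc : Filter.Tendsto (fun z => q1 m z) (𝓝 z) (𝓝 (q1 m z)) := (q1 m).continuous.tendsto z
  have hev : w =ᶠ[𝓝 z] fun _ => (0 : Lam (m + m)) := by
    filter_upwards [hc (hS.isOpen_compl.mem_nhds hz)] with y hy
    exact hw y hy
  unfold D
  rw [hev.fderiv_eq]
  simp

theorem AVG_congr {a : ℕ} {f g : EE a → Lam a} {x : EE a} (h : f =ᶠ[𝓝 x] g) :
    D f x = D g x := by
  unfold D
  rw [h.fderiv_eq]

theorem AVG_sum {a : ℕ} {Γ : Type} (T : Finset Γ) (f : Γ → EE a → Lam a) (x : EE a)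
    (h : ∀ γ ∈ T, DifferentiableAt ℝ (f γ) x) :
    D (fun y => ∑ γ ∈ T, f γ y) x = ∑ γ ∈ T, D (f γ) x := by
  unfold D
  rw [fderiv_fun_sum h]
  simp only [_root_.sum_apply, Finset.mul_sum]
  rw [Finset.sum_comm]

theorem p_AVG (hPFA : Stmt_PFA) (_hFRA : Stmt_FRA) (hR2A : Stmt_R2A) : Stmt_AVG := by
  intro Γ _ m ρ S hρ hS k w hw h0
  obtain ⟨-, -, -, hP4, hP5⟩ := hPFA
  obtain ⟨hr, -, -, -, -⟩ := hR2A Γ m ρ hρ
  have hD0 : ∀ z, q1 m z ∉ S → D w z = 0 := fun z hz => AVG_D0 S hS.cl w h0 z hz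
  have hterm : ∀ γ, Fr k (pf (r2 ρ γ) w) := fun γ => hP4 _ _ k (r2 ρ γ) w (hr γ) hw
  refine ⟨⟨?_, ?_⟩, ?_, hD0⟩
  · rw [contDiff_iff_contDiffAt]
    intro z0
    obtain ⟨T, hT⟩ := AVG_near ρ S hS z0
    have hs : ContDiff ℝ ∞ (fun z => ∑ γ ∈ T, pf (r2 ρ γ) w z) :=
      ContDiff.sum fun γ _ => (hterm γ).sm
    refine hs.contDiffAt.congr_of_eventuallyEq ?_
    filter_upwards [hT] with z hz
    exact hz w h0
  · intro z
    obtain ⟨T, hT⟩ := AVG_near ρ S hS z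
    rw [hT.self_of_nhds w h0]
    exact Submodule.sum_mem _ fun γ _ => (hterm γ).dg z
  · funext z0
    obtain ⟨T, hT⟩ := AVG_near ρ S hS z0
    have hev : Av ρ w =ᶠ[𝓝 z0] fun z => ∑ γ ∈ T, pf (r2 ρ γ) w z := by
      filter_upwards [hT] with z hz
      exact hz w h0
    rw [AVG_congr hev, AVG_sum T (fun γ => pf (r2 ρ γ) w) z0
      (fun γ _ => (hterm γ).sm.differentiable (by simp) z0), hT.self_of_nhds (D w) hD0]
    refine Finset.sum_congr rfl fun γ _ => ?_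
    exact hP5 _ _ (r2 ρ γ) w z0 ((hr γ).contDiffAt.of_le (by norm_cast))
      (hw.sm.differentiable (by simp) _)

end HDP
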