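import Pool.Agent.Work.MP_c3bd4f_as.Interface

set_option autoImplicit false

/-! # Block AVI: algebraic properties of the average -/

open scoped ContDiff Manifold Topology
open Set MeasureTheory

noncomputable section

namespace HDP

open HDC HDE

theorem AVI_fin {Γ : Type} [Group Γ] {m : ℕ} {ρ : Γ → EE m → EE m} {S : Set (EE m)}
    (hL : Lf ρ S) {w : EE (m + m) → Lam (m + m)} (hw : ∀ z, q1 m z ∉ S → w z = 0)
    (z : EE (m + m)) : (Function.support fun γ : Γ => pf (r2 ρ γ) w z).Finite := by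
  obtain ⟨W, hW, hfin⟩ := hL.lf (q1 m z)
  refine hfin.subset ?_
  intro γ hγ
  refine ⟨q1 m z, mem_of_mem_nhds hW, ?_⟩
  by_contra hn
  apply hγ
  have h0 : w (r2 ρ γ z) = 0 := hw _ (by rw [q1_r2]; exact hn)
  change pq (fderiv ℝ (r2 ρ γ) z) (w (r2 ρ γ z)) = 0
  rw [h0, map_zero]

theorem AVI_1 {Γ : Type} [Group Γ] {m : ℕ} {ρ : Γ → EE m → EE m} {S : Set (EE m)}
    (hR : ∀ (γ δ : Γ) (w : EE (m + m) → Lam (m + m)),
      pf (r2 ρ δ) (pf (r2 ρ γ) w) = pf (r2 ρ (γ * δ)) w)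
    (hL : Lf ρ S) {w : EE (m + m) → Lam (m + m)} (hw : ∀ z, q1 m z ∉ S → w z = 0) :
    Iv (r2 ρ) (Av ρ w) := by
  intro δ
  funext z
  have h1 : pf (r2 ρ δ) (Av ρ w) z =
      (pq (fderiv ℝ (r2 ρ δ) z)).toRingHom.toAddMonoidHom
        (∑ᶠ γ : Γ, pf (r2 ρ γ) w (r2 ρ δ z)) := rfl
  rw [h1, AddMonoidHom.map_finsum _ (AVI_fin hL hw (r2 ρ δ z))]
  have h2 : ∀ γ : Γ, (pq (fderiv ℝ (r2 ρ δ) z)).toRingHom.toAddMonoidHom
      (pf (r2 ρ γ) w (r2 ρ δ z)) = pf (r2 ρ (γ * δ)) w z := by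
    intro γ
    rw [← hR γ δ w]
    rfl
  rw [finsum_congr h2]
  exact finsum_comp_equiv (Equiv.mulRight δ) (f := fun γ : Γ => pf (r2 ρ γ) w z)

theorem p_AVI (hPQA : Stmt_PQA) (hFLT : Stmt_FLT) (hR2A : Stmt_R2A) : Stmt_AVI := by
  intro Γ _ m ρ S hA hL
  obtain ⟨-, -, -, hR4, hR5⟩ := hR2A Γ m ρ hA
  refine ⟨fun w hw => AVI_1 hR5 hL hw, ?_, ?_, ?_, ?_⟩
  · intro w w' hw hw'
    funext z
    change ∑ᶠ γ : Γ, pf (r2 ρ γ) (w + w') z =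
      (∑ᶠ γ : Γ, pf (r2 ρ γ) w z) + ∑ᶠ γ : Γ, pf (r2 ρ γ) w' z
    rw [← finsum_add_distrib (AVI_fin hL hw z) (AVI_fin hL hw' z)]
    refine finsum_congr fun γ => ?_
    exact map_add (pq (fderiv ℝ (r2 ρ γ) z)) _ _
  · intro w hw x
    refine finsum_eq_zero_of_forall_eq_zero fun γ => ?_
    change pq (fderiv ℝ (r2 ρ γ) (dd m x)) (w (r2 ρ γ (dd m x))) = 0
    rw [r2_dd, hw, map_zero]
  · intro j w hw z
    refine finsum_induction (fun y => y ∈ Bf m j) (Submodule.zero_mem _)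
      (fun x y hx hy => Submodule.add_mem _ hx hy) fun γ => ?_
    exact (hFLT m).2.2.2.2.2 j (fderiv ℝ (r2 ρ γ) z) (fderiv ℝ (ρ γ) (q1 m z)) (w (r2 ρ γ z))
      (hR4 γ z) (hw _)
  · intro χ θ hχ hθ
    funext z
    have h1 : ∀ γ : Γ, pf (r2 ρ γ) (X0 χ * θ) z = χ (ρ γ (q1 m z)) • θ z := by
      intro γ
      have h2 : pf (r2 ρ γ) θ z = θ z := congrFun (hθ γ) z
      change pq (fderiv ℝ (r2 ρ γ) z) (algebraMap ℝ (Lam (m + m)) (χ (q1 m (r2 ρ γ z))) *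
        θ (r2 ρ γ z)) = _
      rw [map_mul, AlgHom.commutes, q1_r2, Algebra.smul_def]
      congr 1
    change ∑ᶠ γ : Γ, pf (r2 ρ γ) (X0 χ * θ) z = θ z
    rw [finsum_congr h1, ← finsum_smul, hχ.sum, one_smul]

end HDP
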