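import Pool.Agent.Work.MP_c3bd4f_as.Interface

set_option autoImplicit false

/-!
# Block CAR (helper10): Cartan's formula for families
-/

open scoped ContDiff Manifold Topology
open Set MeasureTheory

noncomputable section

namespace HDP

open HDC HDE

theorem CAR_two : (2 : WithTop ℕ∞) ≤ ∞ := by
  have h : ((2 : ℕ∞) : WithTop ℕ∞) ≤ ((⊤ : ℕ∞) : WithTop ℕ∞) := WithTop.coe_le_coe.mpr le_top
  exact h

theorem CAR_set {a : ℕ} (U : Set (EE a)) :
    ((Icc (0 : ℝ) 1 ×ˢ (univ : Set (EE a))) ∩ ((univ : Set ℝ) ×ˢ U)) = Icc (0 : ℝ) 1 ×ˢ U := by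
  rw [Set.prod_inter_prod, inter_univ, univ_inter]

theorem CAR_sum {b : ℕ} (X : EE b) (θ' : EE b →L[ℝ] Lam b) (y : Lam b)
    (hy : y = ∑ k : Fin b, dx k * θ' (ee k)) :
    ∑ k : Fin b, dx k * ctr X (θ' (ee k)) = θ' X - ctr X y := by
  obtain ⟨hA1, hA2, hA3, hA4, hA5, hA6, hA7⟩ := HDC.q_ALG b
  have h2 : ctr X y = ∑ i, (dxB b i X • θ' (ee i) - dx i * ctr X (θ' (ee i))) := by
    rw [hy, map_sum]
    refine Finset.sum_congr rfl fun i _ => ?_
    rw [hA2]
    have e1 : ctr X (dx (N := b) i) = algebraMap ℝ (Lam b) (dxB b i X) := hA3 _ _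
    have e2 : inv (dx (N := b) i) = - dx i := CliffordAlgebra.involute_ι _
    rw [e1, e2, neg_mul, ← Algebra.smul_def, sub_eq_add_neg]
  have h3 : θ' X = ∑ i, dxB b i X • θ' (ee i) := by
    conv_lhs => rw [← CTN_dual b X]
    rw [map_sum]
    refine Finset.sum_congr rfl fun i _ => ?_
    rw [map_smul]
  rw [h2, h3, Finset.sum_sub_distrib]
  abel

theorem p_CAR (hPQA : Stmt_PQA) (hPQS : Stmt_PQS) (hDPF : Stmt_DPF) (hPFA : Stmt_PFA)
    (hDTS : Stmt_DTS) (hCAS : Stmt_CAS) : Stmt_CAR := by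
  intro a b U C θ hU hC hθ
  obtain ⟨-, -, -, -, hP5⟩ := hPFA
  have hf : ContDiffOn ℝ ∞ (fun p : ℝ × EE a => C p.1 p.2)
      ((Icc (0 : ℝ) 1 ×ˢ (univ : Set (EE a))) ∩ ((univ : Set ℝ) ×ˢ U)) := by
    rw [CAR_set]
    exact hC
  obtain ⟨hPDL1, hPDL2⟩ := HDC.q_PDL (EE a) (EE b) (fun p : ℝ × EE a => C p.1 p.2)
    ((univ : Set ℝ) ×ˢ U) (isOpen_univ.prod hU) hf
  rw [CAR_set] at hPDL1 hPDL2
  have hθd : Differentiable ℝ θ := hθ.differentiable (by simp)
  refine ⟨?_, ?_⟩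
  · intro t ht x hx
    have h1 : ContDiffAt ℝ ∞ (C t) x := hPDL1 (t, x) ⟨ht, hx⟩
    exact hP5 a b (C t) θ x (h1.of_le CAR_two) (hθd _)
  · intro t ht x hx
    have htI : t ∈ Icc (0 : ℝ) 1 := Ioo_subset_Icc_self ht
    have hIcc : Icc (0 : ℝ) 1 ∈ 𝓝 t := Icc_mem_nhds ht.1 ht.2
    have hnh : Icc (0 : ℝ) 1 ×ˢ U ∈ 𝓝 (t, x) := prod_mem_nhds hIcc (hU.mem_nhds hx)
    have hfat : ContDiffAt ℝ ∞ (fun p : ℝ × EE a => C p.1 p.2) (t, x) := hC.contDiffAt hnh
    have hCt : ContDiffAt ℝ ∞ (C t) x := hPDL1 (t, x) ⟨htI, hx⟩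
    have hCt2 : ContDiffAt ℝ 2 (C t) x := hCt.of_le CAR_two
    obtain ⟨hD1, hD2⟩ := hDTS (EE a) (EE b) (fun p : ℝ × EE a => C p.1 p.2) U hU hC
    -- the velocity
    have hXdef : ∀ y, dC C t y = deriv (fun u => C u y) t := fun y =>
      derivWithin_of_mem_nhds hIcc
    have hXd : ContDiffAt ℝ ∞ (fun y => dC C t y) x := by
      have h1 : ContDiffAt ℝ ∞ (fun p : ℝ × EE a =>
          derivWithin (fun u => C u p.2) (Icc 0 1) p.1) (t, x) := hD1.contDiffAt hnh
      have h2 : ContDiffAt ℝ ∞ (fun y : EE a => (t, y)) x := contDiffAt_const.prodMk contDiffAt_id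
      exact ContDiffAt.comp x h1 h2
    have hXdiff : DifferentiableAt ℝ (fun y => dC C t y) x := hXd.differentiableAt (by simp)
    set X' := fderiv ℝ (fun y => dC C t y) x with hX'
    have hA1 : HasDerivAt (fun s => fderiv ℝ (C s) x) X' t := by
      have h1 := HDC.q_MXP (EE a) (EE b) (fun p : ℝ × EE a => C p.1 p.2) t x
        (hfat.of_le CAR_two)
      have h2 : (fun y => deriv (fun s => C s y) t) = fun y => dC C t y := by
        funext y
        exact (hXdef y).symm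
      have h3 : HasDerivAt (fun s => fderiv ℝ (fun y => C s y) x)
          (fderiv ℝ (fun y => deriv (fun s => C s y) t) x) t := h1
      rw [h2] at h3
      exact h3
    have hCs : HasDerivAt (fun s => C s x) (dC C t x) t :=
      (hD2 t htI x hx).hasDerivAt hIcc
    have hθs : HasDerivAt (fun s => θ (C s x)) (fderiv ℝ θ (C t x) (dC C t x)) t :=
      (hθd (C t x)).hasFDerivAt.comp_hasDerivAt t hCs
    obtain ⟨hS1, hS2, hS3, hS4, hS5, hS6⟩ := hPQS a b
    set A : EE a →L[ℝ] EE b := fderiv ℝ (C t) x with hA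
    set θ' := fderiv ℝ θ (C t x) with hθ'
    set y := θ (C t x) with hy
    -- the derivative of `wq`
    obtain ⟨L, hL, hLv⟩ := hS2 ℝ t (fun s => fderiv ℝ (C s) x) (fun s => θ (C s x)) _ _
      hA1.hasFDerivAt hθs.hasFDerivAt
    have hL1 : L 1 = dpq A X' y + pq A (θ' (dC C t x)) := by
      rw [hLv]
      simp [hA, hy]
    have hmain : HasDerivAt (fun s => wq C θ s x) (dpq A X' y + pq A (θ' (dC C t x))) t := by
      have h1 := hL.hasDerivAt
      rw [hL1] at h1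
      exact h1
    -- the derivative of `bq`
    have hSS : HasFDerivAt (fderiv ℝ (C t)) (fderiv ℝ (fderiv ℝ (C t)) x) x := by
      have h1 : ContDiffAt ℝ 1 (fderiv ℝ (C t)) x := hCt2.fderiv_right (by norm_num)
      exact (h1.differentiableAt (by norm_num)).hasFDerivAt
    have hsym : ∀ u v, fderiv ℝ (fderiv ℝ (C t)) x u v = fderiv ℝ (fderiv ℝ (C t)) x v u := by
      have h1 := hCt2.isSymmSndFDerivAt (n := 2) (by simp)
      intro u v
      exact h1 u v
    have hθz : HasFDerivAt (fun z => θ (C t z)) (θ'.comp A) x :=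
      (hθd (C t x)).hasFDerivAt.comp x (hCt2.differentiableAt (by norm_num)).hasFDerivAt
    obtain ⟨-, hDR2, -⟩ := HDC.q_DRV b (EE a) x
    obtain ⟨L2, hL2, hL2v⟩ := hDR2 (fun z => dC C t z) (fun z => θ (C t z)) _ _
      hXdiff.hasFDerivAt hθz
    obtain ⟨L3, hL3, hL3v⟩ := hS2 (EE a) x (fderiv ℝ (C t))
      (fun z => ctr (dC C t z) (θ (C t z))) _ _ hSS hL2
    obtain ⟨hF1, hF2, hF3⟩ := hDPF a b
    have hDb : D (bq C θ t) x = dpq A X' y +
        pq A (∑ k : Fin b, dx k * ctr (dC C t x) (θ' (ee k))) := by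
      have h0 : D (bq C θ t) x = ∑ i : Fin a, dx i * L3 (ee i) := by
        unfold D
        have : fderiv ℝ (bq C θ t) x = L3 := hL3.fderiv
        rw [this]
      have h1 : ∀ i : Fin a, dx i * L3 (ee i) =
          dx i * dpq A (fderiv ℝ (fderiv ℝ (C t)) x (ee i)) (ctr (dC C t x) y) +
          (dx i * pq A (ctr (X' (ee i)) y) +
            dx i * pq A (ctr (dC C t x) (θ' (A (ee i))))) := by
        intro i
        rw [hL3v, hL2v, map_add, mul_add, mul_add]
        rfl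
      rw [h0, Finset.sum_congr rfl fun i _ => h1 i, Finset.sum_add_distrib,
        Finset.sum_add_distrib, hF2 A _ hsym, zero_add, ← hF1 A X' y]
      congr 1
      exact hF3 A ((ctr (dC C t x)) ∘ₗ θ'.toLinearMap)
    have hsum := CAR_sum (dC C t x) θ' (D θ (C t x)) rfl
    rw [hsum, map_sub] at hDb
    have hbD : bq C (D θ) t x = pq A (ctr (dC C t x) (D θ (C t x))) := rfl
    rw [hDb, hbD]
    have hfin : pq A (ctr (dC C t x) (D θ (C t x))) +
        (dpq A X' y + (pq A (θ' (dC C t x)) - pq A (ctr (dC C t x) (D θ (C t x))))) =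
        dpq A X' y + pq A (θ' (dC C t x)) := by abel
    rw [hfin]
    exact hmain

end HDP
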