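import Pool.Agent.Work.MP_c3bd4f_as.Interface

set_option autoImplicit false

/-! # Block CAS: `wq` and `bq` are smooth -/

open scoped ContDiff Manifold Topology
open Set MeasureTheory

noncomputable section

namespace HDP

open HDC HDE

theorem CAS_fd (a b : ℕ) (U : Set (EE a)) (C : ℝ → EE a → EE b) (hU : IsOpen U)
    (hC : ContDiffOn ℝ ∞ (fun p : ℝ × EE a => C p.1 p.2) (Icc 0 1 ×ˢ U)) :
    ContDiffOn ℝ ∞ (fun p : ℝ × EE a => fderiv ℝ (C p.1) p.2) (Icc 0 1 ×ˢ U) := by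
  have hset : (Icc (0 : ℝ) 1 ×ˢ (univ : Set (EE a))) ∩ ((univ : Set ℝ) ×ˢ U)
      = Icc (0 : ℝ) 1 ×ˢ U := by
    ext p
    simp only [mem_inter_iff, mem_prod, mem_univ, and_true, true_and]
  have h1 := HDC.q_PDL (EE a) (EE b) (fun p : ℝ × EE a => C p.1 p.2)
    ((univ : Set ℝ) ×ˢ U) (isOpen_univ.prod hU) (by rw [hset]; exact hC)
  have h2 := h1.2
  rw [hset] at h2
  exact h2

theorem CAS_ct (a b : ℕ) (S : Set (ℝ × EE a)) (v : ℝ × EE a → EE b) (u : ℝ × EE a → Lam b)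
    (hv : ContDiffOn ℝ ∞ v S) (hu : ContDiffOn ℝ ∞ u S) :
    ContDiffOn ℝ ∞ (fun p : ℝ × EE a => ctr (v p) (u p)) S := by
  have h : ContDiff ℝ ∞ (fun q : EE b × Lam b => ctr q.1 q.2) := (HDC.q_SMA b).2.1
  exact ContDiff.comp_contDiffOn (g := fun q : EE b × Lam b => ctr q.1 q.2)
    (f := fun p => (v p, u p)) h (hv.prodMk hu)

theorem CAS_pq (hPQS : Stmt_PQS) (a b : ℕ) (S : Set (ℝ × EE a))
    (v : ℝ × EE a → EE a →L[ℝ] EE b) (u : ℝ × EE a → Lam b)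
    (hv : ContDiffOn ℝ ∞ v S) (hu : ContDiffOn ℝ ∞ u S) :
    ContDiffOn ℝ ∞ (fun p : ℝ × EE a => pq (v p) (u p)) S := by
  have h : ContDiff ℝ ∞ (fun q : (EE a →L[ℝ] EE b) × Lam b => pq q.1 q.2) := (hPQS a b).1
  exact ContDiff.comp_contDiffOn (g := fun q : (EE a →L[ℝ] EE b) × Lam b => pq q.1 q.2)
    (f := fun p => (v p, u p)) h (hv.prodMk hu)

theorem p_CAS (hPQS : Stmt_PQS) (hDTS : Stmt_DTS) : Stmt_CAS := by
  intro a b U C θ hU hC hθ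
  have hC' : ContDiffOn ℝ ∞ (fun p : ℝ × EE a => C p.1 p.2) (Icc 0 1 ×ˢ U) := hC
  have hfd : ContDiffOn ℝ ∞ (fun p : ℝ × EE a => fderiv ℝ (C p.1) p.2) (Icc 0 1 ×ˢ U) :=
    CAS_fd a b U C hU hC'
  have hth : ContDiffOn ℝ ∞ (fun p : ℝ × EE a => θ (C p.1 p.2)) (Icc 0 1 ×ˢ U) :=
    hθ.comp_contDiffOn hC'
  have hdc : ContDiffOn ℝ ∞ (fun p : ℝ × EE a => dC C p.1 p.2) (Icc 0 1 ×ˢ U) :=
    (hDTS (EE a) (EE b) (fun p : ℝ × EE a => C p.1 p.2) U hU hC').1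
  have hct : ContDiffOn ℝ ∞ (fun p : ℝ × EE a => ctr (dC C p.1 p.2) (θ (C p.1 p.2)))
      (Icc 0 1 ×ˢ U) := CAS_ct a b _ _ _ hdc hth
  exact ⟨CAS_pq hPQS a b _ _ _ hfd hth, CAS_pq hPQS a b _ _ _ hfd hct⟩

end HDP
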