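import Pool.Agent.Work.MP_c3bd4f_as.Interface

set_option autoImplicit false

open scoped ContDiff Manifold Topology
open Set MeasureTheory

noncomputable section

namespace HDP

open HDC HDE

/-- The points with a translate of norm at most `i - 1/2`. -/
def CHF_A {Γ : Type} {m : ℕ} (ρ : Γ → EE m → EE m) (i : ℕ) : Set (EE m) :=
  ⋃ γ : Γ, {x | ‖ρ γ x‖ ≤ (i : ℝ) - 1 / 2}

theorem CHF_closed {Γ : Type} [Group Γ] {m : ℕ} {ρ : Γ → EE m → EE m} (hρ : Act ρ) (i : ℕ) :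
    IsClosed (CHF_A ρ i) := by
  unfold CHF_A
  refine LocallyFinite.isClosed_iUnion ?_ ?_
  · intro x
    refine ⟨Metric.ball x 1, Metric.ball_mem_nhds x one_pos, ?_⟩
    refine (hρ.fin (max (‖x‖ + 1) ((i : ℝ) + 1))).subset ?_
    rintro γ ⟨y, hy1, hy2⟩
    refine ⟨y, le_trans ?_ (le_max_left _ _), le_trans ?_ (le_max_right _ _)⟩
    · have h1 : ‖y - x‖ < 1 := by
        rw [← dist_eq_norm]
        exact Metric.mem_ball.mp hy2
      have h2 : ‖y‖ ≤ ‖x‖ + ‖y - x‖ := by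
        have h3 := norm_add_le x (y - x)
        rwa [add_sub_cancel] at h3
      linarith
    · have h1 : ‖ρ γ y‖ ≤ (i : ℝ) - 1 / 2 := hy1
      linarith
  · intro γ
    exact isClosed_le ((hρ.sm γ).continuous.norm) continuous_const

/-- The open set `O i`. -/
def CHF_O {Γ : Type} {m : ℕ} (ρ : Γ → EE m → EE m) (i : ℕ) : Set (EE m) :=
  Metric.ball 0 ((i : ℝ) + 1) \ CHF_A ρ i

theorem CHF_open {Γ : Type} [Group Γ] {m : ℕ} {ρ : Γ → EE m → EE m} (hρ : Act ρ) (i : ℕ) :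
    IsOpen (CHF_O ρ i) := Metric.isOpen_ball.sdiff (CHF_closed hρ i)

/-- A point of `O i`. -/
theorem CHF_memO {Γ : Type} [Group Γ] {m : ℕ} {ρ : Γ → EE m → EE m} {i : ℕ}
    {y : EE m} (hy : y ∈ CHF_O ρ i) : ‖y‖ < (i : ℝ) + 1 ∧ ∀ γ, (i : ℝ) - 1 / 2 < ‖ρ γ y‖ := by
  refine ⟨?_, ?_⟩
  · have h1 := hy.1
    rwa [Metric.mem_ball, dist_zero_right] at h1
  · intro γ
    by_contra hc
    rw [not_lt] at hc
    exact hy.2 (mem_iUnion.mpr ⟨γ, hc⟩)

theorem CHF_inv {Γ : Type} [Group Γ] {m : ℕ} {ρ : Γ → EE m → EE m} (hρ : Act ρ) (γ : Γ)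
    (x : EE m) : ρ γ⁻¹ (ρ γ x) = x := by
  rw [← hρ.mul, inv_mul_cancel, hρ.one]

theorem CHF_sum {Γ : Type} [Group Γ] {m : ℕ} {ρ : Γ → EE m → EE m} (hρ : Act ρ)
    (f : ℕ → EE m → ℝ) (hf : ∀ i, (f i).support = CHF_O ρ i) (R : ℝ) (B : ℕ) (hB : R + 1 ≤ B)
    (y : EE m) (hy : ‖y‖ ≤ R) : ∑ᶠ i, f i y = ∑ i ∈ Finset.range B, f i y := by
  refine finsum_eq_sum_of_support_subset _ ?_
  intro i hi
  rw [Finset.coe_range, mem_Iio]
  have h1 : y ∈ CHF_O ρ i := by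
    rw [← hf i]
    exact hi
  have h2 := (CHF_memO h1).2 1
  rw [hρ.one] at h2
  have h3 : (i : ℝ) < B := by linarith
  exact_mod_cast h3

theorem p_CHF : Stmt_CHF := by
  intro Γ _ m ρ hρ
  have hex : ∀ i : ℕ, ∃ f : EE m → ℝ, f.support = CHF_O ρ i ∧ ContDiff ℝ ∞ f ∧
      Set.range f ⊆ Set.Icc 0 1 := fun i => (CHF_open hρ i).exists_contDiff_support_eq (n := ⊤)
  choose f hf1 hf2 hf3 using hex
  have hf0 : ∀ i x, 0 ≤ f i x := fun i x => (hf3 i (mem_range_self x)).1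
  have hS := CHF_sum hρ f hf1
  refine ⟨fun x => ∑ᶠ i, f i x, ?_, ?_, ?_, ?_⟩
  · rw [contDiff_iff_contDiffAt]
    intro x
    obtain ⟨B, hB⟩ := exists_nat_ge (‖x‖ + 1 + 1)
    have h1 : ContDiffAt ℝ ∞ (fun y => ∑ i ∈ Finset.range B, f i y) x :=
      (ContDiff.sum (fun i _ => hf2 i)).contDiffAt
    refine h1.congr_of_eventuallyEq ?_
    filter_upwards [Metric.ball_mem_nhds x one_pos] with y hy
    refine hS (‖x‖ + 1) B hB y ?_
    have h2 : ‖y - x‖ < 1 := by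
      rw [← dist_eq_norm]
      exact Metric.mem_ball.mp hy
    have h3 := norm_add_le x (y - x)
    rw [add_sub_cancel] at h3
    linarith
  · intro x
    exact finsum_nonneg (fun i => hf0 i x)
  · intro R
    refine (hρ.fin (R + 2)).subset ?_
    rintro γ ⟨x, hx, hne⟩
    obtain ⟨i, hi⟩ : ∃ i, f i (ρ γ x) ≠ 0 := by
      by_contra hc
      push Not at hc
      exact hne (finsum_eq_zero_of_forall_eq_zero hc)
    have h1 : ρ γ x ∈ CHF_O ρ i := by
      rw [← hf1 i]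
      exact hi
    obtain ⟨h2, h3⟩ := CHF_memO h1
    have h4 := h3 γ⁻¹
    rw [CHF_inv hρ] at h4
    exact ⟨x, by linarith, by linarith⟩
  · intro x
    classical
    have hP : ∃ i : ℕ, ∃ γ : Γ, ‖ρ γ x‖ < (i : ℝ) + 1 := by
      obtain ⟨i, hi⟩ := exists_nat_ge ‖x‖
      exact ⟨i, 1, by rw [hρ.one]; linarith⟩
    obtain ⟨γ, hγ⟩ := Nat.find_spec hP
    have hmin := fun j (hj : j < Nat.find hP) => Nat.find_min hP hj
    set i := Nat.find hP with hi
    have hO : ρ γ x ∈ CHF_O ρ i := by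
      refine ⟨?_, ?_⟩
      · rw [Metric.mem_ball, dist_zero_right]
        exact hγ
      · intro hA
        obtain ⟨δ, hδ⟩ := mem_iUnion.mp hA
        have hδ' : ‖ρ δ (ρ γ x)‖ ≤ (i : ℝ) - 1 / 2 := hδ
        rw [← hρ.mul] at hδ'
        have h0 : 0 ≤ ‖ρ (δ * γ) x‖ := norm_nonneg _
        rcases Nat.eq_zero_or_pos i with hz | hz
        · rw [hz] at hδ'
          norm_num at hδ'
          linarith
        · obtain ⟨j, hj⟩ : ∃ j, i = j + 1 := ⟨i - 1, by omega⟩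
          refine hmin j (by omega) ⟨δ * γ, ?_⟩
          rw [hj] at hδ'
          push_cast at hδ'
          linarith
    refine ⟨γ, ?_⟩
    have hpos : 0 < f i (ρ γ x) := by
      refine lt_of_le_of_ne (hf0 i _) (Ne.symm ?_)
      have : ρ γ x ∈ (f i).support := by rw [hf1 i]; exact hO
      exact this
    obtain ⟨B, hB⟩ := exists_nat_ge (max (‖ρ γ x‖ + 1) ((i : ℝ) + 1))
    have hB1 : ‖ρ γ x‖ + 1 ≤ B := le_trans (le_max_left _ _) hB
    have hB2 : (i : ℝ) + 1 ≤ B := le_trans (le_max_right _ _) hB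
    have hiB : i ∈ Finset.range B := by
      rw [Finset.mem_range]
      have : (i : ℝ) < B := by linarith
      exact_mod_cast this
    change 0 < ∑ᶠ i, f i (ρ γ x)
    rw [hS ‖ρ γ x‖ B hB1 _ le_rfl]
    exact lt_of_lt_of_le hpos
      (Finset.single_le_sum (f := fun i => f i (ρ γ x)) (fun j _ => hf0 j _) hiB)

end HDP
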