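import Pool.Agent.Work.MP_c3bd4f_as.Interface

set_option autoImplicit false

/-! # Block CHI (MP_c3bd4f, THEOREM AS, helper95): the partition function -/

open scoped ContDiff Manifold Topology
open Set MeasureTheory

noncomputable section

namespace HDP

open HDC HDE

theorem p_CHI (hF : Stmt_CHF) : Stmt_CHI := by
  intro Γ _ m ρ hρ
  obtain ⟨h, hsm, h0, hfin, hpos⟩ := hF Γ m ρ hρ
  have hsupp : ∀ x0 x : EE m, x ∈ Metric.ball x0 1 →
      (Function.support fun γ : Γ => h (ρ γ x)) ⊆ ((hfin (‖x0‖ + 1)).toFinset : Set Γ) := by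
    intro x0 x hx γ hγ
    rw [Set.Finite.coe_toFinset]
    refine ⟨x, ?_, hγ⟩
    have h1 : ‖x - x0‖ < 1 := by rwa [← dist_eq_norm]
    have h2 : ‖x‖ ≤ ‖x0‖ + ‖x - x0‖ := by
      calc ‖x‖ = ‖x0 + (x - x0)‖ := by rw [add_sub_cancel]
        _ ≤ ‖x0‖ + ‖x - x0‖ := norm_add_le _ _
    linarith
  have hFs : ∀ x0 x : EE m, x ∈ Metric.ball x0 1 →
      ∑ᶠ γ : Γ, h (ρ γ x) = ∑ γ ∈ (hfin (‖x0‖ + 1)).toFinset, h (ρ γ x) :=
    fun x0 x hx => finsum_eq_sum_of_support_subset _ (hsupp x0 x hx)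
  have hself : ∀ x : EE m, x ∈ Metric.ball x 1 := fun x => Metric.mem_ball_self one_pos
  set F : EE m → ℝ := fun x => ∑ᶠ γ : Γ, h (ρ γ x) with hFdef
  have hFsm : ContDiff ℝ ∞ F := by
    rw [contDiff_iff_contDiffAt]
    intro x0
    have h1 : ContDiffAt ℝ ∞ (fun x => ∑ γ ∈ (hfin (‖x0‖ + 1)).toFinset, h (ρ γ x)) x0 :=
      (ContDiff.sum fun γ _ => hsm.comp (hρ.sm γ)).contDiffAt
    refine h1.congr_of_eventuallyEq ?_
    filter_upwards [Metric.ball_mem_nhds x0 one_pos] with x hx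
    exact hFs x0 x hx
  have hFpos : ∀ x, 0 < F x := by
    intro x
    obtain ⟨γ, hγ⟩ := hpos x
    change 0 < ∑ᶠ γ : Γ, h (ρ γ x)
    rw [hFs x x (hself x)]
    refine Finset.sum_pos' (fun δ _ => h0 _) ⟨γ, ?_, hγ⟩
    have := hsupp x x (hself x) (show γ ∈ Function.support fun γ : Γ => h (ρ γ x) from hγ.ne')
    exact_mod_cast this
  have hFinv : ∀ δ x, F (ρ δ x) = F x := by
    intro δ x
    change ∑ᶠ γ : Γ, h (ρ γ (ρ δ x)) = ∑ᶠ γ : Γ, h (ρ γ x)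
    rw [← finsum_comp_equiv (Equiv.mulRight δ) (f := fun γ : Γ => h (ρ γ x))]
    apply finsum_congr
    intro γ
    rw [Equiv.coe_mulRight, hρ.mul]
  refine ⟨closure (Function.support h), fun x => h x / F x, ?_, ?_, ?_, ?_⟩
  · exact hsm.div hFsm fun x => (hFpos x).ne'
  · refine ⟨isClosed_closure, fun x0 => ⟨Metric.ball x0 1, Metric.ball_mem_nhds x0 one_pos, ?_⟩⟩
    refine (hfin (‖x0‖ + 1)).subset ?_
    rintro γ ⟨y, hy, hyS⟩
    have hopen : IsOpen (ρ γ⁻¹ ⁻¹' Metric.ball x0 1) :=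
      Metric.isOpen_ball.preimage (hρ.sm γ⁻¹).continuous
    have hmem : ρ γ y ∈ ρ γ⁻¹ ⁻¹' Metric.ball x0 1 := by
      rw [mem_preimage, ← hρ.mul, inv_mul_cancel, hρ.one]
      exact hy
    obtain ⟨z, hz, hzs⟩ := mem_closure_iff.1 hyS _ hopen hmem
    refine ⟨ρ γ⁻¹ z, ?_, ?_⟩
    · have h1 : ‖ρ γ⁻¹ z - x0‖ < 1 := by
        rw [← dist_eq_norm]
        exact hz
      have h2 : ‖ρ γ⁻¹ z‖ ≤ ‖x0‖ + ‖ρ γ⁻¹ z - x0‖ := by
        calc ‖ρ γ⁻¹ z‖ = ‖x0 + (ρ γ⁻¹ z - x0)‖ := by rw [add_sub_cancel]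
          _ ≤ ‖x0‖ + ‖ρ γ⁻¹ z - x0‖ := norm_add_le _ _
      linarith
    · rw [← hρ.mul, mul_inv_cancel, hρ.one]
      exact hzs
  · intro x hx
    have : h x = 0 := by
      by_contra hne
      exact hx (subset_closure hne)
    change h x / F x = 0
    rw [this, zero_div]
  · intro x
    change ∑ᶠ γ : Γ, h (ρ γ x) / F (ρ γ x) = 1
    have h1 : ∑ᶠ γ : Γ, h (ρ γ x) / F (ρ γ x) = ∑ᶠ γ : Γ, h (ρ γ x) / F x :=
      finsum_congr fun γ => by rw [hFinv]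
    have h2 : (Function.support fun γ : Γ => h (ρ γ x) / F x) ⊆
        ((hfin (‖x‖ + 1)).toFinset : Set Γ) := by
      intro γ hγ
      apply hsupp x x (hself x)
      intro h3
      apply hγ
      change h (ρ γ x) / F x = 0
      rw [show h (ρ γ x) = 0 from h3, zero_div]
    rw [h1, finsum_eq_sum_of_support_subset _ h2, ← Finset.sum_div, ← hFs x x (hself x)]
    exact div_self (hFpos x).ne'

end HDP
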