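import Pool.Agent.Work.MP_c3bd4f_as.Interface

set_option autoImplicit false

/-! # Block DPF: formulas for the derivative of `pq` -/

open scoped ContDiff Manifold Topology
open Set MeasureTheory

noncomputable section

namespace HDP

open HDC HDE

theorem p_DPF (hPQA : Stmt_PQA) (hPQS : Stmt_PQS) : Stmt_DPF := by
  intro a b
  obtain ⟨k1, k2, k3, k4, -, -, -⟩ := HDC.q_ALG b
  obtain ⟨hcomm, -⟩ := HDC.q_ALG a
  obtain ⟨hio, -, -, -, hinv, -, -⟩ := hPQA
  obtain ⟨-, -, d3, d4, d5, d6⟩ := hPQS a b
  refine ⟨?_, ?_, ?_⟩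
  · intro A B y
    induction y using ExteriorAlgebra.induction with
    | algebraMap r =>
      rw [d6]
      symm
      refine Finset.sum_eq_zero fun i _ => ?_
      rw [k4, map_zero, mul_zero]
    | ι α =>
      have h1 : dpq A B (io α) = io (α ∘ₗ B.toLinearMap) := d3 A B α
      refine h1.trans ?_
      rw [HDC.NAT_bexp]
      refine Finset.sum_congr rfl fun i _ => ?_
      have h2 : ctr (B (ee i)) (io α) = algebraMap ℝ (Lam b) (α (B (ee i))) := k3 _ _
      show _ = dx i * pq A (ctr (B (ee i)) (io α))
      rw [h2, AlgHom.commutes, ← Algebra.commutes, ← Algebra.smul_def]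
      rfl
    | mul y z hy hz =>
      rw [d4, hy, hz, Finset.sum_mul, Finset.mul_sum, ← Finset.sum_add_distrib]
      refine Finset.sum_congr rfl fun i _ => ?_
      have h2 : dx i * pq A (inv y) = inv (pq A (inv y)) * dx i := hcomm _ _
      have h3 : ∀ w : Lam a, inv (inv w) = w := fun w => CliffordAlgebra.involute_involute w
      have h4 : pq A y * dx i = dx i * pq A (inv y) := by rw [h2, hinv, h3]
      rw [k2, map_add, map_mul, map_mul, mul_add, mul_assoc (dx i),
        ← mul_assoc (dx i) (pq A (inv y)), ← h4, mul_assoc (pq A y)]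
    | add y z hy hz =>
      rw [d5, hy, hz, ← Finset.sum_add_distrib]
      refine Finset.sum_congr rfl fun i _ => ?_
      rw [map_add, map_add, mul_add]
  · intro A S hsym y
    induction y using ExteriorAlgebra.induction with
    | algebraMap r => simp only [d6, mul_zero, Finset.sum_const_zero]
    | ι α =>
      have h1 : ∀ i, dx i * dpq A (S (ee i)) (io α) =
          ∑ l, α (S (ee i) (ee l)) • (dx i * dx l : Lam a) := by
        intro i
        rw [d3, HDC.NAT_bexp, Finset.mul_sum]
        refine Finset.sum_congr rfl fun l _ => ?_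
        rw [mul_smul_comm]
        rfl
      have h2 : ∑ i, dx i * dpq A (S (ee i)) (io α) =
          ∑ i, ∑ l, α (S (ee i) (ee l)) • (dx i * dx l : Lam a) :=
        Finset.sum_congr rfl fun i _ => h1 i
      exact h2.trans (HDC.NAT_sym _ fun i l => by rw [hsym])
    | mul y z hy hz =>
      have h1 : ∀ i, dx i * dpq A (S (ee i)) (y * z) =
          dx i * dpq A (S (ee i)) y * pq A z + inv (pq A y) * (dx i * dpq A (S (ee i)) z) := by
        intro i
        rw [d4, mul_add, ← mul_assoc, ← mul_assoc]
        have h2 : dx i * pq A y = inv (pq A y) * dx i := hcomm _ _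
        rw [h2, mul_assoc (inv (pq A y))]
      rw [Finset.sum_congr rfl fun i _ => h1 i, Finset.sum_add_distrib, ← Finset.sum_mul,
        ← Finset.mul_sum, hy, hz, zero_mul, mul_zero, add_zero]
    | add y z hy hz =>
      simp only [d5, mul_add, Finset.sum_add_distrib, hy, hz, add_zero]
  · intro A L
    have hR : pq A (∑ k : Fin b, dx k * L (ee k)) =
        ∑ k, ∑ i, dxB b k (A (ee i)) • (dx i * pq A (L (ee k)) : Lam a) := by
      rw [map_sum]
      refine Finset.sum_congr rfl fun k _ => ?_
      rw [map_mul]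
      have h1 : pq A (dx k) = io (dxB b k ∘ₗ A.toLinearMap) := hio _ _ A _
      rw [h1, HDC.NAT_bexp, Finset.sum_mul]
      refine Finset.sum_congr rfl fun i _ => ?_
      rw [smul_mul_assoc]
      rfl
    rw [hR, Finset.sum_comm]
    refine Finset.sum_congr rfl fun i _ => ?_
    have h3 : L (A (ee i)) = ∑ k, dxB b k (A (ee i)) • L (ee k) := by
      conv_lhs => rw [HDC.NAT_vexp (A (ee i))]
      rw [map_sum]
      simp only [map_smul]
    rw [h3, map_sum, Finset.mul_sum]
    refine Finset.sum_congr rfl fun k _ => ?_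
    rw [map_smul, mul_smul_comm]

end HDP
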