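import Pool.Agent.Work.MP_c3bd4f_as.Interface

/-! # Block DTS (helper71) -/

set_option autoImplicit false

open scoped ContDiff Manifold Topology
open Set MeasureTheory

noncomputable section

namespace HDP

open HDC HDE

theorem p_DTS : Stmt_DTS := by
  intro E F _ _ _ _ f U hU hf
  have hud : UniqueDiffOn ℝ (Icc (0 : ℝ) 1 ×ˢ U) :=
    (uniqueDiffOn_Icc zero_lt_one).prod hU.uniqueDiffOn
  have key : ∀ t ∈ Icc (0 : ℝ) 1, ∀ x ∈ U, HasDerivWithinAt (fun u => f (u, x))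
      (fderivWithin ℝ f (Icc (0 : ℝ) 1 ×ˢ U) (t, x) (1, 0)) (Icc 0 1) t := by
    intro t ht x hx
    have h3 : HasFDerivWithinAt f (fderivWithin ℝ f (Icc (0 : ℝ) 1 ×ˢ U) (t, x))
        (Icc (0 : ℝ) 1 ×ˢ U) (t, x) :=
      ((hf (t, x) ⟨ht, hx⟩).differentiableWithinAt (by simp)).hasFDerivWithinAt
    have h4 : HasDerivWithinAt (fun u : ℝ => (u, x)) ((1 : ℝ), (0 : E)) (Icc (0 : ℝ) 1) t :=
      (hasDerivWithinAt_id t _).prodMk (hasDerivWithinAt_const t _ x)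
    exact HasFDerivWithinAt.comp_hasDerivWithinAt (t := Icc (0 : ℝ) 1 ×ˢ U) t h3 h4
      (fun u hu => ⟨hu, hx⟩)
  have hval : ∀ t ∈ Icc (0 : ℝ) 1, ∀ x ∈ U, derivWithin (fun u => f (u, x)) (Icc 0 1) t =
      fderivWithin ℝ f (Icc (0 : ℝ) 1 ×ˢ U) (t, x) (1, 0) := fun t ht x hx =>
    (key t ht x hx).derivWithin (uniqueDiffOn_Icc zero_lt_one t ht)
  refine ⟨?_, ?_⟩
  · have h2 := hf.fderivWithin (m := ∞) hud (by simp)
    have h1 : ContDiffOn ℝ ∞ (fun q : ℝ × E => fderivWithin ℝ f (Icc (0 : ℝ) 1 ×ˢ U) q (1, 0))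
        (Icc (0 : ℝ) 1 ×ˢ U) := h2.clm_apply contDiffOn_const
    refine h1.congr ?_
    rintro ⟨t, x⟩ ⟨ht, hx⟩
    exact hval t ht x hx
  · intro t ht x hx
    rw [hval t ht x hx]
    exact key t ht x hx

end HDP
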