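import Pool.Agent.Work.MP_c3bd4f_as.Interface

/-! # Block ESW: the step from `Φ` to `Φ'` -/

set_option autoImplicit false

open scoped ContDiff Manifold Topology
open Set MeasureTheory

noncomputable section

namespace HDP

open HDC HDE

theorem p_ESW (hALH : Stmt_ALH) (hH3C : Stmt_H3C) : Stmt_ESW := by
  intro n M _ _ _ _ _ _ _ Ω vol K hn hS X X' wt nu c xi hX hX' hwt dX dX' dwt hnu hc hxi dnu dc
    hVc hVxi dxi
  obtain ⟨k, rfl⟩ : ∃ k, n = k + 1 := ⟨n - 1, by omega⟩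
  obtain ⟨A1, A2, A3, A4, A5, A6, A7, A8⟩ := q_DFA (2 * (k + 1)) M
  obtain ⟨B1, B2, B3, B4, B5⟩ := q_DDA (2 * (k + 1)) M
  obtain ⟨N1, N2, N3, N4, N5, N6⟩ := q_NLA (k + 1) M Ω vol K hS
  obtain ⟨-, -, T1, T2⟩ := hH3C (2 * (k + 1)) M k X X' wt hX hX' hwt dX dX' dwt
  obtain ⟨R1, R2, -, -⟩ := hH3C (2 * (k + 1)) M (k + 1) X X' wt hX hX' hwt dX dX' dwt
  have hcen : ∀ F : PFam (2 * (k + 1)) M, DFm 2 F → ∀ t ∈ Icc (0 : ℝ) 1,
      ∀ c ∈ atlas (EE (2 * (k + 1))) M, ∀ x ∈ c.target, ∀ y, F t c x * y = y * F t c x :=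
    fun F hF t ht c hc x hx y => (q_PLA (2 * (k + 1))).1 _ _ (A6 2 F hF t ht c hc x hx)
  set T : PFam (2 * (k + 1)) M := h3 k X X' wt with hT
  have hcT : DFm (1 + 2 * k) (c * T) := A3 _ _ _ _ hc T1
  have dcT : DD (c * T) ((X' - X) * T) := by
    have := q_LBP (2 * (k + 1)) M 1 (2 * k) c T (X' - X) 0 hc T1 dc T2
    simpa using this
  have hE : DFm (2 * (k + 1)) (nu * (c * T)) := by
    have := A3 _ _ _ _ hnu hcT
    rwa [show 1 + (1 + 2 * k) = 2 * (k + 1) by omega] at this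
  have dE : DD (nu * (c * T)) ((wt - X) * (c * T) - nu * ((X' - X) * T)) := by
    have := q_LBP (2 * (k + 1)) M 1 (1 + 2 * k) nu (c * T) (wt - X) ((X' - X) * T) hnu hcT
      dnu dcT
    rw [pow_one, neg_smul, one_smul, ← sub_eq_add_neg] at this
    exact this
  have hG : DFm (2 * (k + 1) + 1) ((wt - X) * (c * T) - nu * ((X' - X) * T)) := by
    have h1 := A3 _ _ _ _ (A1 _ _ _ hwt hX).2 hcT
    have h2 := A3 _ _ _ _ hnu (A3 _ _ _ _ (A1 _ _ _ hX' hX).2 T1)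
    rw [show 2 + (1 + 2 * k) = 2 * (k + 1) + 1 by omega] at h1
    rw [show 1 + (2 + 2 * k) = 2 * (k + 1) + 1 by omega] at h2
    exact (A1 _ _ _ h1 h2).2
  have hVE : Vn K (nu * (c * T)) := by
    refine ⟨fun t ht e he x hx hxK => ?_, fun e he x hx => ?_, fun e he x hx => ?_⟩
    · change nu t e x * (c t e x * T t e x) = 0
      rw [hVc.cs t ht e he x hx hxK, zero_mul, mul_zero]
    · change (nu 0 e x * (c 0 e x * T 0 e x)).1 = 0
      rw [PL.mul_fst, PL.mul_fst, hVc.v0 e he x hx, zero_mul, mul_zero]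
    · change (nu 1 e x * (c 1 e x * T 1 e x)).1 = 0
      rw [PL.mul_fst, PL.mul_fst, hVc.v1 e he x hx, zero_mul, mul_zero]
  have hN1 := q_STD (k + 1) M Ω vol K hn hS _ _ hE hG hVE dE
  have hG2 : DFm (2 * (k + 1) + 1) (c * h2 (k + 1) X X') := by
    have h1 := A3 _ _ _ _ hc R1
    rwa [show 1 + 2 * (k + 1) = 2 * (k + 1) + 1 by omega] at h1
  have hN2 := q_STD (k + 1) M Ω vol K hn hS _ _ hxi hG2 hVxi dxi
  have hN3 := (N4 _ _ (-1) (N4 _ _ 1 hN1 hN2).1 hN2).2.2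
  refine ⟨nu - c, (A1 _ _ _ hnu hc).2, ?_, ?_, ?_⟩
  · have := (B1 _ _ _ _ _ hnu hc dnu dc).2
    rwa [sub_sub_sub_cancel_right] at this
  · have hsub : nu - c - nu = -c := by abel
    rw [hsub]
    refine ⟨fun t ht e he x hx hxK => ?_, fun e he x hx => ?_, fun e he x hx => ?_⟩
    · change -(c t e x) = 0
      rw [hVc.cs t ht e he x hx hxK, neg_zero]
    · change (-(c 0 e x)).1 = 0
      rw [PL.neg_fst, hVc.v0 e he x hx, neg_zero]
    · change (-(c 1 e x)).1 = 0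
      rw [PL.neg_fst, hVc.v1 e he x hx, neg_zero]
  · refine N5 _ _ (fun t ht e he x hx => ?_) hN3
    obtain ⟨-, U2, U3⟩ := hALH (PL (2 * (k + 1)))
    have c1 := hcen X hX t ht e he x hx
    have c2 := hcen X' hX' t ht e he x hx
    have c3 := hcen wt hwt t ht e he x hx
    have u1 := U2 (k + 1) (X' t e x) (wt t e x) (c2 _)
    have u2 := U2 (k + 1) (X t e x) (wt t e x) (c1 _)
    obtain ⟨u3, u4⟩ := U3 k (X t e x) (X' t e x) (wt t e x) (c1 _) (c1 _) (c2 _)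
    change (-1 : ℝ) • (((wt t e x - X t e x) * (c t e x * T t e x) -
        nu t e x * ((X' t e x - X t e x) * T t e x)) + c t e x * (h2 (k + 1) X X') t e x) =
      (nu t e x - c t e x) *
        (HP (k + 1 + 1 - 1) (k + 1 + 1) (bc (k + 1 + 1)) X' (wt - X')) t e x -
        nu t e x * (HP (k + 1 + 1 - 1) (k + 1 + 1) (bc (k + 1 + 1)) X (wt - X)) t e x
    rw [HP_apply, HP_apply, h2_apply, hT, h3_apply]
    change (-1 : ℝ) • (((wt t e x - X t e x) * (c t e x * h3 k (X t e x) (X' t e x) (wt t e x)) -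
        nu t e x * ((X' t e x - X t e x) * h3 k (X t e x) (X' t e x) (wt t e x))) +
        c t e x * (h2 (k + 1) (X t e x) (X' t e x))) =
      (nu t e x - c t e x) * UU (k + 1) (k + 1) 1 (X' t e x) (wt t e x - X' t e x) -
        nu t e x * UU (k + 1) (k + 1) 1 (X t e x) (wt t e x - X t e x)
    rw [u1, u2, ← u3]
    have hcc : (wt t e x - X t e x) * (c t e x * h3 k (X t e x) (X' t e x) (wt t e x)) =
        c t e x * (h2 (k + 1) (X' t e x) (wt t e x) - h2 (k + 1) (X t e x) (X' t e x)) := by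
      rw [u4, ← mul_assoc, ← mul_assoc]
      congr 1
      rw [sub_mul, mul_sub, c3, c1]
    rw [hcc, neg_smul, one_smul, mul_sub, mul_sub, sub_mul]
    abel

end HDP
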