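import Pool.Agent.Work.MP_c3bd4f_as.Interface

set_option autoImplicit false

/-! # Block EUC: the forms `κ` and `ξ` on `ℝ^m × ℝ^m` -/

open scoped ContDiff Manifold Topology
open Set MeasureTheory

noncomputable section

namespace HDP

open HDC HDE

theorem EUC_D (hPFA : Stmt_PFA) {a b : ℕ} (h : EE a →L[ℝ] EE b) (θ : EE b → Lam b)
    (hθ : ContDiff ℝ ∞ θ) : D (pf h θ) = pf h (D θ) := by
  obtain ⟨_, _, _, _, P5⟩ := hPFA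
  funext z
  exact P5 a b h θ z (h.contDiff.contDiffAt) (hθ.differentiable (by simp) _)

theorem EUC_zero {a b : ℕ} (h : EE a → EE b) : pf h (0 : EE b → Lam b) = 0 := by
  funext z
  simp [pf]

theorem EUC_iv (hPFA : Stmt_PFA) (hR2A : Stmt_R2A) {Γ : Type} [Group Γ] {m : ℕ}
    (ρ : Γ → EE m → EE m) (hact : Act ρ) (q : EE (m + m) →L[ℝ] EE m)
    (hq : ∀ γ z, q (r2 ρ γ z) = ρ γ (q z)) (θ : EE m → Lam m) (hθ : Iv ρ θ) :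
    Iv (r2 ρ) (pf q θ) := by
  obtain ⟨_, P2, _, _, _⟩ := hPFA
  obtain ⟨R1, _⟩ := hR2A Γ m ρ hact
  intro γ
  have h1 : Differentiable ℝ (r2 ρ γ) := (R1 γ).differentiable (by simp)
  have h2 : Differentiable ℝ (q : EE (m + m) → EE m) := q.differentiable
  have h3 : Differentiable ℝ (ρ γ) := (hact.sm γ).differentiable (by simp)
  rw [P2 _ _ _ (r2 ρ γ) q θ h1 h2]
  have h4 : (fun x => q (r2 ρ γ x)) = fun x => ρ γ (q x) := funext fun x => hq γ x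
  rw [h4, ← P2 _ _ _ q (ρ γ) θ h2 h3, hθ γ]

theorem EUC_rr (hPFA : Stmt_PFA) {m : ℕ} (q : EE (m + m) →L[ℝ] EE m)
    (hq : ∀ z, q (rr m z) = q1 m z) (θ : EE m → Lam m) :
    pf (rr m) (pf q θ) = pf (q1 m) θ := by
  obtain ⟨_, P2, _, _, _⟩ := hPFA
  rw [P2 _ _ _ (rr m) q θ (rr m).differentiable q.differentiable]
  have h4 : (fun x => q (rr m x)) = fun x => q1 m x := funext fun x => hq x
  rw [h4]

theorem p_EUC (hPFA : Stmt_PFA) (hFRA : Stmt_FRA) (hALH : Stmt_ALH) (hR2A : Stmt_R2A)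
    (hREL : Stmt_REL) : Stmt_EUC := by
  intro Γ _ m n ρ σ η hact hs hds hsi he hde hei
  obtain ⟨P1, P2, P3, P4, P5⟩ := id hPFA
  obtain ⟨F1, F2, F3, F4, F5, F6⟩ := hFRA (m + m)
  obtain ⟨s1, hs1⟩ : ∃ s1, s1 = pf (q1 m) σ := ⟨_, rfl⟩
  obtain ⟨s2, hs2⟩ : ∃ s2, s2 = pf (q2 m) σ := ⟨_, rfl⟩
  obtain ⟨e1, he1⟩ : ∃ e1, e1 = pf (q1 m) η := ⟨_, rfl⟩
  obtain ⟨e2, he2⟩ : ∃ e2, e2 = pf (q2 m) η := ⟨_, rfl⟩
  have fs1 : Fr 2 s1 := by rw [hs1]; exact P4 _ _ 2 _ σ (q1 m).contDiff hs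
  have fs2 : Fr 2 s2 := by rw [hs2]; exact P4 _ _ 2 _ σ (q2 m).contDiff hs
  have fe1 : Fr (2 * n + 1) e1 := by rw [he1]; exact P4 _ _ _ _ η (q1 m).contDiff he
  have fe2 : Fr (2 * n + 1) e2 := by rw [he2]; exact P4 _ _ _ _ η (q2 m).contDiff he
  have ds1 : D s1 = 0 := by rw [hs1, EUC_D hPFA _ _ hs.sm, hds, EUC_zero]
  have ds2 : D s2 = 0 := by rw [hs2, EUC_D hPFA _ _ hs.sm, hds, EUC_zero]
  have de1 : D e1 = s1 ^ (n + 1) := by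
    obtain ⟨F, hF⟩ := P1 _ _ (q1 m)
    rw [he1, EUC_D hPFA _ _ he.sm, hde, ← hF, map_pow, hF, ← hs1]
  have de2 : D e2 = s2 ^ (n + 1) := by
    obtain ⟨F, hF⟩ := P1 _ _ (q2 m)
    rw [he2, EUC_D hPFA _ _ he.sm, hde, ← hF, map_pow, hF, ← hs2]
  have is1 : Iv (r2 ρ) s1 := by
    rw [hs1]; exact EUC_iv hPFA hR2A ρ hact (q1 m) (fun γ z => q1_r2 ρ γ z) σ hsi
  have is2 : Iv (r2 ρ) s2 := by
    rw [hs2]; exact EUC_iv hPFA hR2A ρ hact (q2 m) (fun γ z => q2_r2 ρ γ z) σ hsi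
  have ie1 : Iv (r2 ρ) e1 := by
    rw [he1]; exact EUC_iv hPFA hR2A ρ hact (q1 m) (fun γ z => q1_r2 ρ γ z) η hei
  have ie2 : Iv (r2 ρ) e2 := by
    rw [he2]; exact EUC_iv hPFA hR2A ρ hact (q2 m) (fun γ z => q2_r2 ρ γ z) η hei
  have rs : pf (rr m) s2 = pf (rr m) s1 := by
    rw [hs1, hs2, EUC_rr hPFA (q1 m) (fun z => q1_rr z), EUC_rr hPFA (q2 m) (fun z => q2_rr z)]
  have re : pf (rr m) e2 = pf (rr m) e1 := by
    rw [he1, he2, EUC_rr hPFA (q1 m) (fun z => q1_rr z), EUC_rr hPFA (q2 m) (fun z => q2_rr z)]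
  obtain ⟨κ, fκ, iκ, κd, dκ⟩ := hREL Γ m 1 ρ (s2 - s1) hact (F2 2 s2 s1 1 fs2 fs1).2.1
    (by rw [(F4 2 2 s2 s1 fs2 fs1).2.2, ds1, ds2, sub_zero])
    (fun γ => by
      obtain ⟨F, hF⟩ := P1 _ _ (r2 ρ γ)
      rw [← hF, map_sub, hF, hF, is1 γ, is2 γ])
    (by
      obtain ⟨F, hF⟩ := P1 _ _ (rr m)
      rw [← hF, map_sub, hF, hF, rs, sub_self])
  have fh : Fr (2 * n) (h2 n s1 s2) ∧ D (h2 n s1 s2) = 0 := F5 n s1 s2 fs1 fs2 ds1 ds2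
  have fκh : Fr (1 + 2 * n) (κ * h2 n s1 s2) := F1 1 (2 * n) κ _ fκ fh.1
  have fκh' : Fr (2 * n + 1) (κ * h2 n s1 s2) := by
    rw [show 2 * n + 1 = 1 + 2 * n by omega]; exact fκh
  have fe21 : Fr (2 * n + 1) (e2 - e1) := (F2 _ e2 e1 1 fe2 fe1).2.1
  have hcomm : s1 * s2 = s2 * s1 := by
    funext z
    exact (HDC.q_CPW (m + m) (s1 z) (fs1.dg z)).1 (s2 z)
  have hgeo : (s2 - s1) * h2 n s1 s2 = s2 ^ (n + 1) - s1 ^ (n + 1) :=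
    (hALH (EE (m + m) → Lam (m + m))).1 n s1 s2 hcomm
  obtain ⟨ξ, fξ, iξ, ξd, dξ⟩ := hREL Γ m (2 * n) ρ (κ * h2 n s1 s2 - (e2 - e1)) hact
    (F2 _ _ _ 1 fκh' fe21).2.1
    (by
      rw [(F4 _ _ _ _ fκh' fe21).2.2, (F4 1 (2 * n) κ _ fκ fh.1).1, fh.2, dκ, hgeo,
        (F4 _ _ e2 e1 fe2 fe1).2.2, de1, de2, mul_zero, smul_zero, add_zero, sub_self])
    (fun γ => by
      obtain ⟨F, hF⟩ := P1 _ _ (r2 ρ γ)
      rw [← hF, map_sub, map_sub, map_mul, map_h2, hF, hF, hF, hF, hF, is1 γ, is2 γ, ie1 γ,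
        ie2 γ, iκ γ])
    (by
      obtain ⟨F, hF⟩ := P1 _ _ (rr m)
      have h0 : pf (rr m) κ = 0 := by
        funext z
        show pq _ (κ (rr m z)) = 0
        rw [rr_eq, κd, map_zero]
      rw [← hF, map_sub, map_sub, map_mul, hF κ, h0, hF e2, hF e1, re, zero_mul, sub_self,
        sub_self])
  refine ⟨κ, ξ, fκ, fξ, iκ, iξ, κd, ξd, ?_, ?_⟩
  · rw [dκ, hs1, hs2]
  · rw [dξ, hs1, hs2, he1, he2]

end HDP
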