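import Pool.Agent.Work.MP_c3bd4f_as.Interface

set_option autoImplicit false

open scoped ContDiff Manifold Topology
open Set MeasureTheory

noncomputable section

namespace HDP

open HDC HDE

theorem p_EVW : Stmt_EVW := by
  intro n M _ _ _ Ω μ w H Φ hΩ hμ hw
  obtain ⟨⟨h, hh⟩, hE⟩ := HDE.q_GSM (2 * n) M Ω H Φ
  set f : Fam (2 * n) M := μ * UU n n 1 w (Ω - w) with hf
  have e1 : GS Ω H Φ μ * UU n n 1 (GS Ω H Φ w) (GS Ω H Φ Ω - GS Ω H Φ w) = GS Ω H Φ f := by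
    rw [← hh, ← hh, ← hh, ← hh, ← map_sub, ← EVL_map, ← map_mul]
  have e3 : EqF f 0 := by
    intro c hc x hx
    have hXc : w c x ∈ ⋀[ℝ]^2 (VV (2 * n)) := hw.deg c hc x hx
    have hYc : Ω c x - w c x ∈ ⋀[ℝ]^2 (VV (2 * n)) :=
      Submodule.sub_mem _ (hΩ.deg c hc x hx) hXc
    have e4 : f c x = μ c x * UU n n 1 (w c x) (Ω c x - w c x) := by
      show μ c x * (UU n n 1 w (Ω - w)) c x = _
      congr 1
      unfold UU HP
      simp only [Finset.sum_apply, Pi.smul_apply, Pi.mul_apply, Pi.pow_apply, Pi.sub_apply]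
    rw [e4]
    have h5 := EVL_mul (m := 2 * n + 1) (hμ.deg c hc x hx) (EVL_UU hXc hYc n n 1 le_rfl) (by omega)
    exact (HDC.q_DEG (2 * n)).2.2.2.2.1 (2 * n + 1) _ (by omega) h5
  have e5 := hE f 0 e3
  have e6 : GS Ω H Φ (0 : Fam (2 * n) M) = 0 := by
    rw [← hh, map_zero]
  rw [e1]
  rw [e6] at e5
  exact e5

end HDP
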