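import Pool.Agent.Work.MP_c3bd4f_as.Interface

set_option autoImplicit false

/-! # Block FLT: the filtration -/

open scoped ContDiff Manifold Topology
open Set MeasureTheory

noncomputable section

namespace HDP

open HDC HDE

theorem FLT_mem {m j : ℕ} {u : Lam m} (hu : u ∈ ⋀[ℝ]^j (VV m)) (y : Lam (m + m)) :
    pq (q1 m) u * y ∈ Bf m j :=
  Submodule.subset_span ⟨u, hu, y, rfl⟩

theorem FLT_ind {m j : ℕ} {p : Lam (m + m) → Prop} {z : Lam (m + m)} (hz : z ∈ Bf m j)
    (h1 : ∀ (u : Lam m), u ∈ ⋀[ℝ]^j (VV m) → ∀ y : Lam (m + m), p (pq (q1 m) u * y))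
    (h0 : p 0) (ha : ∀ x y, p x → p y → p (x + y)) (hs : ∀ (r : ℝ) x, p x → p (r • x)) :
    p z := by
  unfold Bf at hz
  induction hz using Submodule.span_induction with
  | mem x hx =>
    obtain ⟨u, hu, y, rfl⟩ := hx
    exact h1 u hu y
  | zero => exact h0
  | add x y _ _ hx hy => exact ha x y hx hy
  | smul r x _ hx => exact hs r x hx

theorem p_FLT (hPQA : Stmt_PQA) : Stmt_FLT := by
  obtain ⟨hA1, hA2, hA3, hA4, hA5, hA6, hA7⟩ := hPQA
  intro m
  refine ⟨?_, ?_, ?_, ?_, ?_, ?_⟩
  · intro z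
    have h := FLT_mem (m := m) (j := 0) (u := 1)
      (by
        have h1 := (HDC.q_DEG m).2.2.2.2.2.2.2 1
        rwa [map_one] at h1) z
    rwa [map_one, one_mul] at h
  · intro z hz
    refine FLT_ind (p := fun z => z = 0) hz ?_ rfl ?_ ?_
    · intro u hu y
      have h : u = 0 := (HDC.q_DEG m).2.2.2.2.1 (m + 1) u (Nat.lt_succ_self m) hu
      rw [h, map_zero, zero_mul]
    · intro x y hx hy
      rw [hx, hy, add_zero]
    · intro r x hx
      rw [hx, smul_zero]
  · intro j z y hz
    refine FLT_ind (p := fun z => z * y ∈ Bf m j) hz ?_ ?_ ?_ ?_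
    · intro u hu x
      show pq (q1 m) u * x * y ∈ Bf m j
      rw [mul_assoc]
      exact FLT_mem hu _
    · show (0 : Lam (m + m)) * y ∈ Bf m j
      rw [zero_mul]
      exact Submodule.zero_mem _
    · intro x x' hx hx'
      show (x + x') * y ∈ Bf m j
      rw [add_mul]
      exact Submodule.add_mem _ hx hx'
    · intro r x hx
      show (r • x) * y ∈ Bf m j
      rw [smul_mul_assoc]
      exact Submodule.smul_mem _ _ hx
  · intro j χ z y hχ hy
    have hd : D (X0 χ) z = pq (q1 m) (io (fderiv ℝ χ (q1 m z)).toLinearMap) := by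
      have hχd : DifferentiableAt ℝ χ (q1 m z) := (hχ.differentiable (by simp)) _
      have h1 : HasFDerivAt (fun w : EE (m + m) => χ (q1 m w))
          ((fderiv ℝ χ (q1 m z)).comp (q1 m)) z :=
        hχd.hasFDerivAt.comp z (q1 m).hasFDerivAt
      have h2 := (HDC.q_DDZ (m + m)).2 (fun w : EE (m + m) => χ (q1 m w)) z
        h1.differentiableAt
      rw [hA1]
      rw [h1.fderiv] at h2
      exact h2
    rw [hd]
    refine FLT_ind (p := fun y => pq (q1 m) (io (fderiv ℝ χ (q1 m z)).toLinearMap) * y ∈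
      Bf m (j + 1)) hy ?_ ?_ ?_ ?_
    · intro u hu x
      show pq (q1 m) (io (fderiv ℝ χ (q1 m z)).toLinearMap) * (pq (q1 m) u * x) ∈ Bf m (j + 1)
      rw [← mul_assoc, ← map_mul]
      refine FLT_mem ?_ _
      have h := SetLike.mul_mem_graded ((HDC.q_DEG m).2.2.2.2.2.2.1
        (fderiv ℝ χ (q1 m z)).toLinearMap) hu
      rwa [add_comm 1 j] at h
    · show pq (q1 m) (io (fderiv ℝ χ (q1 m z)).toLinearMap) * 0 ∈ Bf m (j + 1)
      rw [mul_zero]
      exact Submodule.zero_mem _
    · intro x x' hx hx'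
      show pq (q1 m) (io (fderiv ℝ χ (q1 m z)).toLinearMap) * (x + x') ∈ Bf m (j + 1)
      rw [mul_add]
      exact Submodule.add_mem _ hx hx'
    · intro r x hx
      show pq (q1 m) (io (fderiv ℝ χ (q1 m z)).toLinearMap) * (r • x) ∈ Bf m (j + 1)
      rw [mul_smul_comm]
      exact Submodule.smul_mem _ _ hx
  · intro j v y hv hy
    refine FLT_ind (p := fun y => ctr v y ∈ Bf m j) hy ?_ ?_ ?_ ?_
    · intro u hu x
      show ctr v (pq (q1 m) u * x) ∈ Bf m j
      have h0 : ctr v (pq (q1 m) u) = 0 := by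
        rw [← hA4, hv]
        have h := (HDC.q_ALG m).2.2.2.2.2.2 0 0 u
        rw [zero_smul, zero_smul] at h
        rw [h, map_zero]
      rw [(HDC.q_ALG (m + m)).2.1, h0, zero_mul, zero_add, ← hA5,
        (HDC.q_DEG m).1 j u hu]
      exact FLT_mem (Submodule.smul_mem _ _ hu) _
    · show ctr v (0 : Lam (m + m)) ∈ Bf m j
      rw [map_zero]
      exact Submodule.zero_mem _
    · intro x x' hx hx'
      show ctr v (x + x') ∈ Bf m j
      rw [map_add]
      exact Submodule.add_mem _ hx hx'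
    · intro r x hx
      show ctr v (r • x) ∈ Bf m j
      rw [map_smul]
      exact Submodule.smul_mem _ _ hx
  · intro j T A y hT hy
    refine FLT_ind (p := fun y => pq T y ∈ Bf m j) hy ?_ ?_ ?_ ?_
    · intro u hu x
      show pq T (pq (q1 m) u * x) ∈ Bf m j
      rw [map_mul, ← hA2, hT, hA2]
      exact FLT_mem (hA6 m m j A u hu) _
    · show pq T (0 : Lam (m + m)) ∈ Bf m j
      rw [map_zero]
      exact Submodule.zero_mem _
    · intro x x' hx hx'
      show pq T (x + x') ∈ Bf m j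
      rw [map_add]
      exact Submodule.add_mem _ hx hx'
    · intro r x hx
      show pq T (r • x) ∈ Bf m j
      rw [map_smul]
      exact Submodule.smul_mem _ _ hx

end HDP
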