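import Pool.Agent.Work.MP_c3bd4f_as.Interface2

set_option autoImplicit false

/-! # Block FNU: manifolds with the universal covering `ℝ^(2n)` -/

open scoped ContDiff Manifold Topology
open Set MeasureTheory

noncomputable section

namespace HDP

open HDC HDE

theorem FNU_zero {N : ℕ} {M : Type} [TopologicalSpace M] [ChartedSpace (EE N) M] (k : ℕ) :
    IsForm k (0 : Fam N M) where
  smooth := fun _ _ => contDiffOn_const
  compat := fun _ _ _ _ _ _ _ => (map_zero _).symm
  deg := fun _ _ _ _ => Submodule.zero_mem _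

theorem FNU_dzero {N : ℕ} {M : Type} [TopologicalSpace M] : dF (0 : Fam N M) = 0 := by
  funext c x
  show D (fun _ : EE N => (0 : Lam N)) x = 0
  unfold D
  simp

theorem p_FNU (hFNX : Stmt_FNX) : Stmt_FNU := by
  intro n M _ _ _ _ _ _ _ _ p Ω vol hn hnc hΩ hvol hfin cov hp hld
  have hcont : Continuous p := cov.continuous
  have hNoC : NoC M := by
    intro x hx
    have h1 : IsPreconnected (univ : Set M) := by
      rw [← hp.range_eq]
      exact isPreconnected_range hcont
    have h2 : connectedComponent x = univ :=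
      eq_univ_of_univ_subset (h1.subset_connectedComponent (mem_univ x))
    rw [h2] at hx
    exact hnc ⟨hx⟩
  refine hFNX n (2 * n) M M p id Ω 0 Ω 0 vol hn hNoC hΩ hvol hfin cov hp hld contMDiff_id
    hΩ.form hΩ.closed (FNU_zero _) ?_ (FNU_zero _) ?_
  · intro c hc x hx
    rw [FNU_dzero]
    obtain ⟨-, -, -, -, -, h6, -, -⟩ := HDC.q_FO2 (2 * n) M
    have h1 : IsForm (2 * (n + 1)) (Ω ^ (n + 1)) := h6 (n + 1) Ω hΩ.form
    have h2 := h1.deg c hc x hx
    obtain ⟨-, -, -, -, h5, -, -, -⟩ := HDC.q_DEG (2 * n)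
    exact (h5 _ _ (by omega) h2).symm
  · intro c hc x hx
    rw [FNU_dzero, sub_zero]
    exact hΩ.form.compat c hc (chartAt (EE (2 * n)) (c.symm x)) (chart_mem_atlas _ _) x hx
      (mem_chart_source _ _)

end HDP
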