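import Pool.Agent.Work.MP_c3bd4f_as.Interface2

/-!
# MP_c3bd4f_gt, THEOREM AS, block FNX: maps to manifolds covered by `ℝ^m`
-/

set_option autoImplicit false

open scoped ContDiff Manifold Topology
open Set MeasureTheory

noncomputable section

namespace HDP

open HDC HDE

theorem p_FNX (hUC8 : Stmt_UC8) (hFNW : Stmt_FNW) : Stmt_FNX := by
  intro n m M X _ _ _ _ _ _ _ _ _ _ _ _ p f σ η Ω μ vol hn hnc hsym hvol hfin hcov hsurj hloc hf
    hσ hdσ hη hdη hμ hw
  obtain ⟨hdat, hpb⟩ := hUC8 n m M X p f σ η (Ω - dF μ) hcov hsurj hloc hf hσ hdσ hη hdη hw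
  exact hFNW n m M (FP f p) (Dk p) (fq f p) (dr p) (fg f p) (QF p σ) (QF p η) Ω μ vol hn hnc hsym
    hvol hfin hdat hμ hpb

end HDP
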