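import Pool.Agent.Work.MP_c3bd4f_as.Interface

set_option autoImplicit false

/-!
# Block FRA: calculus of smooth forms on `ℝ^b` (helper46)
-/

open scoped ContDiff Manifold Topology
open Set MeasureTheory

noncomputable section

namespace HDP

open HDC HDE

variable {b : ℕ}

theorem FRA_mul {k l : ℕ} {θ κ : EE b → Lam b} (h1 : Fr k θ) (h2 : Fr l κ) :
    Fr (k + l) (θ * κ) := by
  refine ⟨?_, fun x => ?_⟩
  · exact (HDC.q_SMA b).1.comp (h1.sm.prodMk h2.sm)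
  · exact SetLike.mul_mem_graded (A := fun i : ℕ => ⋀[ℝ]^i (VV b)) (h1.dg x) (h2.dg x)

theorem FRA_add {k : ℕ} {θ κ : EE b → Lam b} (h1 : Fr k θ) (h2 : Fr k κ) : Fr k (θ + κ) :=
  ⟨h1.sm.add h2.sm, fun x => Submodule.add_mem _ (h1.dg x) (h2.dg x)⟩

theorem FRA_sub {k : ℕ} {θ κ : EE b → Lam b} (h1 : Fr k θ) (h2 : Fr k κ) : Fr k (θ - κ) :=
  ⟨h1.sm.sub h2.sm, fun x => Submodule.sub_mem _ (h1.dg x) (h2.dg x)⟩

theorem FRA_neg {k : ℕ} {θ : EE b → Lam b} (h1 : Fr k θ) : Fr k (-θ) :=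
  ⟨h1.sm.neg, fun x => Submodule.neg_mem _ (h1.dg x)⟩

theorem FRA_smul {k : ℕ} {θ : EE b → Lam b} (r : ℝ) (h1 : Fr k θ) : Fr k (r • θ) :=
  ⟨h1.sm.const_smul r, fun x => Submodule.smul_mem _ r (h1.dg x)⟩

theorem FRA_zero (k : ℕ) : Fr k (0 : EE b → Lam b) :=
  ⟨contDiff_const, fun _ => Submodule.zero_mem _⟩

theorem FRA_diff {k : ℕ} {θ : EE b → Lam b} (h : Fr k θ) (x : EE b) :
    DifferentiableAt ℝ θ x := (h.sm.differentiable (by simp)) x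

theorem FRA_D {k : ℕ} {θ : EE b → Lam b} (h : Fr k θ) : Fr (k + 1) (D θ) := by
  refine ⟨?_, fun x => HDC.q_DGD b k θ x (Filter.Eventually.of_forall h.dg)⟩
  unfold D
  apply ContDiff.sum
  intro i _
  have h1 : ContDiff ℝ ∞ fun x => fderiv ℝ θ x (ee i) :=
    (h.sm.fderiv_right (by simp)).clm_apply contDiff_const
  exact (HDC.q_SMA b).1.comp (contDiff_const.prodMk h1)

theorem FRA_DD {k : ℕ} {θ : EE b → Lam b} (h : Fr k θ) : D (D θ) = 0 := by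
  funext x
  exact (HDC.q_DDZ b).1 θ x ((contDiff_infty.1 h.sm 2).contDiffAt)

theorem FRA_Dmul {k l : ℕ} {θ κ : EE b → Lam b} (h1 : Fr k θ) (h2 : Fr l κ) :
    D (θ * κ) = D θ * κ + (-1 : ℝ) ^ k • (θ * D κ) := by
  funext x
  have h := HDC.q_LBZ b θ κ x (FRA_diff h1 x) (FRA_diff h2 x)
  have h3 : D (θ * κ) x = D (fun y => θ y * κ y) x := rfl
  rw [h3, h, (HDC.q_DEG b).1 k (θ x) (h1.dg x), smul_mul_assoc]
  rfl

theorem FRA_Dadd {k l : ℕ} {θ κ : EE b → Lam b} (h1 : Fr k θ) (h2 : Fr l κ) :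
    D (θ + κ) = D θ + D κ := by
  funext x
  unfold D
  rw [Pi.add_apply, ← Finset.sum_add_distrib]
  apply Finset.sum_congr rfl
  intro i _
  rw [fderiv_add (FRA_diff h1 x) (FRA_diff h2 x), ← mul_add]
  rfl

theorem FRA_Dsub {k l : ℕ} {θ κ : EE b → Lam b} (h1 : Fr k θ) (h2 : Fr l κ) :
    D (θ - κ) = D θ - D κ := by
  funext x
  unfold D
  rw [Pi.sub_apply, ← Finset.sum_sub_distrib]
  apply Finset.sum_congr rfl
  intro i _
  rw [fderiv_sub (FRA_diff h1 x) (FRA_diff h2 x), ← mul_sub]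
  rfl

theorem FRA_one : Fr 0 (1 : EE b → Lam b) := by
  refine ⟨contDiff_const, fun x => ?_⟩
  have h := (HDC.q_DEG b).2.2.2.2.2.2.2 1
  rw [map_one] at h
  exact h

theorem FRA_Dconst (y : Lam b) : D (fun _ : EE b => y) = 0 := by
  funext x
  unfold D
  apply Finset.sum_eq_zero
  intro i _
  rw [fderiv_const_apply]
  show dx i * (0 : Lam b) = 0
  rw [mul_zero]

theorem FRA_pow {X : EE b → Lam b} (hX : Fr 2 X) (hD : D X = 0) (n : ℕ) :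
    Fr (2 * n) (X ^ n) ∧ D (X ^ n) = 0 := by
  induction n with
  | zero =>
    rw [pow_zero]
    exact ⟨FRA_one, FRA_Dconst 1⟩
  | succ n ih =>
    rw [pow_succ]
    refine ⟨FRA_mul ih.1 hX, ?_⟩
    rw [FRA_Dmul ih.1 hX, ih.2, hD, zero_mul, mul_zero, smul_zero, add_zero]

theorem p_FRA : Stmt_FRA := by
  intro b
  refine ⟨fun k l θ κ h1 h2 => FRA_mul h1 h2, fun k θ κ r h1 h2 => ⟨FRA_add h1 h2, FRA_sub h1 h2,
    FRA_neg h1, FRA_smul r h1, FRA_zero k⟩, fun k θ h => ⟨FRA_D h, FRA_DD h⟩,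
    fun k l θ κ h1 h2 => ⟨FRA_Dmul h1 h2, ?_, ?_⟩, ?_, FRA_one⟩
  · exact FRA_Dadd h1 h2
  · exact FRA_Dsub h1 h2
  · intro j X Y hX hY hDX hDY
    unfold h2
    apply Finset.sum_induction (fun i => X ^ i * Y ^ (j - i))
      (fun θ => Fr (2 * j) θ ∧ D θ = 0)
    · rintro θ κ ⟨h1, h2⟩ ⟨h3, h4⟩
      refine ⟨FRA_add h1 h3, ?_⟩
      rw [FRA_Dadd h1 h3, h2, h4, add_zero]
    · exact ⟨FRA_zero _, FRA_Dconst 0⟩
    · intro i hi
      have hi' : i ≤ j := Nat.lt_succ_iff.1 (Finset.mem_range.1 hi)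
      obtain ⟨h1, h2⟩ := FRA_pow hX hDX i
      obtain ⟨h3, h4⟩ := FRA_pow hY hDY (j - i)
      have e : 2 * i + 2 * (j - i) = 2 * j := by omega
      refine ⟨e ▸ FRA_mul h1 h3, ?_⟩
      rw [FRA_Dmul h1 h3, h2, h4, zero_mul, mul_zero, smul_zero, add_zero]

end HDP
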