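import Pool.Agent.Work.MP_c3bd4f_as.Interface

set_option autoImplicit false

/-! # Block GE1: the map `G` -/

open scoped ContDiff Manifold Topology
open Set MeasureTheory

noncomputable section

namespace HDP

open HDC HDE

theorem p_GE1 (hLSX : Stmt_LSX) (hLFT : Stmt_LFT) (hLFE : Stmt_LFE) (hEMG : Stmt_EMG)
    (hPLV : Stmt_PLV) (hR2A : Stmt_R2A) : Stmt_GE1 := by
  intro n m M E Γ _ _ _ _ _ _ _ q ρ g Ω H H' Φ Φ' K hq hact hg hnoc hT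
  have hsm : SmI (2 * n) Φ := hT.h.iso.smooth
  have hsm' : SmI (2 * n) Φ' := hT.h'.iso.smooth
  have hc1 := (HDC.q_PHL (2 * n) M Φ hsm).1
  have hc1' := (HDC.q_PHL (2 * n) M Φ' hsm').1
  have hoff := (HDC.q_OFK n M Ω H Φ K hT.h hT.cpt hT.s).1
  have hoff' := (HDC.q_OFK n M Ω H' Φ' K hT.h' hT.cpt hT.s').1
  obtain ⟨Ψ, hΨ⟩ := hLFT M E Γ q Φ hq hc1 hT.h.iso.zero
  obtain ⟨Ψ', hΨ'⟩ := hLFT M E Γ q Φ' hq hc1' hT.h'.iso.zero
  have h1 : ∀ e, Ψ 1 e = Ψ' 1 e := hLFE (2 * n) M E Γ q Φ Φ' Ψ Ψ' K hnoc hq hT.cpt hoff hoff'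
    hT.e hΨ hΨ'
  have hE := hEMG (2 * n) m M E Γ q ρ hq
  have hEG : EM (2 * n) q (r2 ρ) (fun t e => pr (g (Ψ t e)) (g (Ψ' t e))) :=
    hE.2 _ _ (hE.1 g Φ Ψ hg hsm hΨ) (hE.1 g Φ' Ψ' hg hsm' hΨ')
  refine ⟨Ψ, Ψ', hΨ, hΨ', hEG, ?_⟩
  intro θ hθ hd
  have hr := (hR2A Γ m ρ hact).1
  -- the value at a point where the two lifts agree
  have key : ∀ t ∈ Icc (0 : ℝ) 1, ∀ c ∈ atlas (EE (2 * n)) M, ∀ x ∈ c.target,
      (∀ e, q e = c.symm x → Ψ t e = Ψ' t e) →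
      Pl (N := 2 * n) q (fun t e => pr (g (Ψ t e)) (g (Ψ' t e))) θ t c x = 0 := by
    intro t ht c hc x hx heq
    obtain ⟨e, he⟩ := (hLSX M E Γ q hq).1 (c.symm x)
    obtain ⟨U, s, hs, hxU, hsx⟩ := (hLSX M E Γ q hq).2.1 (2 * n) c x hx e he
    rw [hPLV (2 * n) (m + m) M E Γ q (r2 ρ) _ θ hq hr hEG hθ t ht c hc U s hs x hxU]
    have h2 : θ (pr (g (Ψ t (s x))) (g (Ψ' t (s x)))) = 0 := by
      rw [← heq (s x) (hs.sec x hxU), ← dd_eq, hd]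
    have hw : wq (fun u y => pr (g (Ψ u (s y))) (g (Ψ' u (s y)))) θ t x = 0 := by
      unfold wq
      rw [h2, map_zero]
    have hb : bq (fun u y => pr (g (Ψ u (s y))) (g (Ψ' u (s y)))) θ t x = 0 := by
      unfold bq
      rw [h2, map_zero, map_zero]
    unfold PG
    rw [hw, hb]
    rfl
  have h01 : (0 : ℝ) ∈ Icc (0 : ℝ) 1 := ⟨le_rfl, zero_le_one⟩
  have h11 : (1 : ℝ) ∈ Icc (0 : ℝ) 1 := ⟨zero_le_one, le_rfl⟩
  refine ⟨?_, ?_, ?_⟩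
  · intro t ht c hc x hx hK
    apply key t ht c hc x hx
    intro e he
    rw [hΨ.fx e (fun u hu => by rw [he]; exact hoff u hu _ hK) t ht,
      hΨ'.fx e (fun u hu => by rw [he]; exact hoff' u hu _ hK) t ht]
  · intro c hc x hx
    rw [key 0 h01 c hc x hx (fun e _ => by rw [hΨ.zero, hΨ'.zero])]
    rfl
  · intro c hc x hx
    rw [key 1 h11 c hc x hx (fun e _ => h1 e)]
    rfl

end HDP
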