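import Pool.Agent.Work.MP_c3bd4f_as.Interface3

set_option autoImplicit false

/-!
# Block GEV: the start value (helper18)
-/

open scoped ContDiff Manifold Topology
open Set MeasureTheory

noncomputable section

namespace HDP

open HDC HDE

theorem GEV_WW {N : ℕ} {x y : Lam N} (hx : x ∈ ⋀[ℝ]^2 (VV N)) (hy : y ∈ ⋀[ℝ]^2 (VV N))
    (n r : ℕ) : WW n r x y ∈ ⋀[ℝ]^(2 * (n - r)) (VV N) := by
  unfold WW HP
  refine Submodule.sum_mem _ fun i hi => Submodule.smul_mem _ _ ?_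
  have hi' := Finset.mem_range.mp hi
  exact EVL_mul (EVL_pow hx i) (EVL_pow hy _) (by omega)

theorem GEV_map {R S : Type} [Ring R] [Algebra ℝ R] [Ring S] [Algebra ℝ S] (h : R →ₐ[ℝ] S)
    (n r : ℕ) (x y : R) : h (WW n r x y) = WW n r (h x) (h y) := by
  unfold WW HP
  rw [map_sum]
  refine Finset.sum_congr rfl fun i _ => ?_
  rw [map_smul, map_mul, map_pow, map_pow]

theorem p_GEV : Stmt_GEV := by
  intro n r j M _ _ _ Ω w e μ H Φ hj hr hΩ hw he hμ
  obtain ⟨⟨h, hh⟩, hE⟩ := HDE.q_GSM (2 * n) M Ω H Φ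
  set f : Fam (2 * n) M := μ * UU n r j w (Ω - w) + e * WW n r w (Ω - w) with hf
  have e1 : GS Ω H Φ μ * UU n r j (GS Ω H Φ w) (GS Ω H Φ Ω - GS Ω H Φ w) +
      GS Ω H Φ e * WW n r (GS Ω H Φ w) (GS Ω H Φ Ω - GS Ω H Φ w) = GS Ω H Φ f := by
    rw [← hh, ← hh, ← hh, ← hh, ← hh, ← map_sub, ← EVL_map, ← GEV_map, ← map_mul, ← map_mul,
      ← map_add]
  have e3 : EqF f 0 := by
    intro c hc x hx
    have hXc : w c x ∈ ⋀[ℝ]^2 (VV (2 * n)) := hw.deg c hc x hx
    have hYc : Ω c x - w c x ∈ ⋀[ℝ]^2 (VV (2 * n)) :=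
      Submodule.sub_mem _ (hΩ.deg c hc x hx) hXc
    have e4 : f c x = μ c x * UU n r j (w c x) (Ω c x - w c x) +
        e c x * WW n r (w c x) (Ω c x - w c x) := by
      show μ c x * (UU n r j w (Ω - w)) c x + e c x * (WW n r w (Ω - w)) c x = _
      congr 1
      · congr 1
        unfold UU HP
        simp only [Finset.sum_apply, Pi.smul_apply, Pi.mul_apply, Pi.pow_apply, Pi.sub_apply]
      · congr 1
        unfold WW HP
        simp only [Finset.sum_apply, Pi.smul_apply, Pi.mul_apply, Pi.pow_apply, Pi.sub_apply]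
    rw [e4]
    have h5 := EVL_mul (m := 2 * n + 1) (hμ.deg c hc x hx) (EVL_UU hXc hYc n r j hr) (by omega)
    have h6 : e c x * WW n r (w c x) (Ω c x - w c x) = 0 := by
      rcases le_or_gt r n with hrn | hrn
      · have h7 := EVL_mul (m := 2 * n + 1) (he.deg c hc x hx) (GEV_WW hXc hYc n r) (by omega)
        exact (HDC.q_DEG (2 * n)).2.2.2.2.1 (2 * n + 1) _ (by omega) h7
      · have h7 : e c x = 0 :=
          (HDC.q_DEG (2 * n)).2.2.2.2.1 (2 * r + 1) _ (by omega) (he.deg c hc x hx)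
        rw [h7, zero_mul]
    rw [h6, add_zero]
    exact (HDC.q_DEG (2 * n)).2.2.2.2.1 (2 * n + 1) _ (by omega) h5
  have e5 := hE f 0 e3
  have e6 : GS Ω H Φ (0 : Fam (2 * n) M) = 0 := by
    rw [← hh, map_zero]
  rw [e1]
  rw [e6] at e5
  exact e5

end HDP
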