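import Pool.Agent.Work.MP_c3bd4f_as.Interface3

set_option autoImplicit false

open scoped ContDiff Manifold Topology
open Set MeasureTheory

noncomputable section

namespace HDP

open HDC HDE

theorem GEX_inv1 (hPFA : Stmt_PFA) {Γ : Type} [Group Γ] {m : ℕ} {ρ : Γ → EE m → EE m}
    (hA : Act ρ) (hr : ∀ γ, ContDiff ℝ ∞ (r2 ρ γ)) {θ : EE m → Lam m} (hθ : Iv ρ θ) :
    Iv (r2 ρ) (pf (q1 m) θ) := by
  intro γ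
  have h1 : Differentiable ℝ (r2 ρ γ) := (hr γ).differentiable (by simp)
  have h2 : Differentiable ℝ (q1 m) := (q1 m).differentiable
  have h3 : Differentiable ℝ (ρ γ) := (hA.sm γ).differentiable (by simp)
  rw [hPFA.2.1 _ _ _ (r2 ρ γ) (q1 m) θ h1 h2]
  have h4 : (fun x => q1 m (r2 ρ γ x)) = fun x => ρ γ (q1 m x) := by
    funext x
    rw [q1_r2]
  rw [h4, ← hPFA.2.1 _ _ _ (q1 m) (ρ γ) θ h2 h3, hθ γ]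

theorem GEX_inv2 (hPFA : Stmt_PFA) {Γ : Type} [Group Γ] {m : ℕ} {ρ : Γ → EE m → EE m}
    (hA : Act ρ) (hr : ∀ γ, ContDiff ℝ ∞ (r2 ρ γ)) {θ : EE m → Lam m} (hθ : Iv ρ θ) :
    Iv (r2 ρ) (pf (q2 m) θ) := by
  intro γ
  have h1 : Differentiable ℝ (r2 ρ γ) := (hr γ).differentiable (by simp)
  have h2 : Differentiable ℝ (q2 m) := (q2 m).differentiable
  have h3 : Differentiable ℝ (ρ γ) := (hA.sm γ).differentiable (by simp)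
  rw [hPFA.2.1 _ _ _ (r2 ρ γ) (q2 m) θ h1 h2]
  have h4 : (fun x => q2 m (r2 ρ γ x)) = fun x => ρ γ (q2 m x) := by
    funext x
    rw [q2_r2]
  rw [h4, ← hPFA.2.1 _ _ _ (q2 m) (ρ γ) θ h2 h3, hθ γ]

theorem GEX_sub (hPFA : Stmt_PFA) {Γ : Type} {a : ℕ} {ρ : Γ → EE a → EE a}
    {x y : EE a → Lam a} (hx : Iv ρ x) (hy : Iv ρ y) : Iv ρ (x - y) := by
  intro γ
  obtain ⟨F, hF⟩ := hPFA.1 _ _ (ρ γ)
  rw [← hF, map_sub, hF, hF, hx γ, hy γ]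

theorem GEX_mul (hPFA : Stmt_PFA) {Γ : Type} {a : ℕ} {ρ : Γ → EE a → EE a}
    {x y : EE a → Lam a} (hx : Iv ρ x) (hy : Iv ρ y) : Iv ρ (x * y) := by
  intro γ
  obtain ⟨F, hF⟩ := hPFA.1 _ _ (ρ γ)
  rw [← hF, map_mul, hF, hF, hx γ, hy γ]

theorem GEX_h2 (hPFA : Stmt_PFA) {Γ : Type} {a : ℕ} {ρ : Γ → EE a → EE a} (k : ℕ)
    {x y : EE a → Lam a} (hx : Iv ρ x) (hy : Iv ρ y) : Iv ρ (h2 k x y) := by
  intro γ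
  obtain ⟨F, hF⟩ := hPFA.1 _ _ (ρ γ)
  rw [← hF, map_h2, hF, hF, hx γ, hy γ]

theorem p_GEX (hPFA : Stmt_PFA) (hR2A : Stmt_R2A) (hEUC : Stmt_EUC)
    (hPLF : Stmt_PLF) (hPLD : Stmt_PLD) (hPLM : Stmt_PLM) (hGE1 : Stmt_GE1)
    (hGE2 : Stmt_GE2) : Stmt_GEX := by
  intro n m r M E Γ _ _ _ _ _ _ _ q ρ g σ η Ω w e H H' Φ Φ' K hD hN hT hw he
  obtain ⟨hr2s, -, -, -, -⟩ := hR2A Γ m ρ hD.act
  obtain ⟨Ψ, Ψ', hL, hL', hEM, hVn⟩ := hGE1 n m M E Γ q ρ g Ω H H' Φ Φ' K hD.cov hD.act hD.gm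
    hN hT
  obtain ⟨κ, ξ, hκ, hξ, hκi, hξi, hκd, hξd, hDκ, hDξ⟩ := hEUC Γ m r ρ σ η hD.act hD.fs hD.cs
    hD.is hD.fe hD.ce hD.ie
  have hs1 := GEX_inv1 hPFA hD.act hr2s hD.is
  have hs2 := GEX_inv2 hPFA hD.act hr2s hD.is
  have he1 := GEX_inv1 hPFA hD.act hr2s hD.ie
  have he2 := GEX_inv2 hPFA hD.act hr2s hD.ie
  have hσ := hGE2 n m M E Γ q ρ g Ω w H H' Φ Φ' Ψ Ψ' σ hD.cov hD.act hD.gm hT.h hT.h' hL hL'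
    hD.is hw
  have hη := hGE2 n m M E Γ q ρ g Ω e H H' Φ Φ' Ψ Ψ' η hD.cov hD.act hD.gm hT.h hT.h' hL hL'
    hD.ie he
  have hDκi : Iv (r2 ρ) (D κ) := by
    rw [hDκ]
    exact GEX_sub hPFA hs2 hs1
  have hDξi : Iv (r2 ρ) (D ξ) := by
    rw [hDξ]
    exact GEX_sub hPFA (GEX_mul hPFA hκi (GEX_h2 hPFA r hs1 hs2)) (GEX_sub hPFA he2 he1)
  have hM := hPLM (2 * n) (m + m) M E Γ q (r2 ρ) _ hD.cov hr2s hEM
  refine ⟨Pl q (fun t e => pr (g (Ψ t e)) (g (Ψ' t e))) κ,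
    Pl q (fun t e => pr (g (Ψ t e)) (g (Ψ' t e))) ξ,
    hPLF (2 * n) (m + m) M E Γ q (r2 ρ) _ 1 κ hD.cov hr2s hEM hκi hκ,
    hPLF (2 * n) (m + m) M E Γ q (r2 ρ) _ (2 * r) ξ hD.cov hr2s hEM hξi hξ,
    hVn κ hκi hκd, hVn ξ hξi hξd, ?_, ?_⟩
  · refine (HDE.q_DDA (2 * n) M).2.2.1 _ _ _ _ (fun _ _ _ _ _ _ => rfl) ?_
      (hPLD (2 * n) (m + m) M E Γ q (r2 ρ) _ κ hD.cov hr2s hEM hκi hκ.sm)
    intro t ht c hc x hx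
    obtain ⟨F, hF⟩ := hM t ht c hc x hx
    rw [hF _ hDκi, hDκ, map_sub, ← hF _ hs2, ← hF _ hs1, hσ.1 t ht c hc x hx,
      hσ.2 t ht c hc x hx]
    rfl
  · refine (HDE.q_DDA (2 * n) M).2.2.1 _ _ _ _ (fun _ _ _ _ _ _ => rfl) ?_
      (hPLD (2 * n) (m + m) M E Γ q (r2 ρ) _ ξ hD.cov hr2s hEM hξi hξ.sm)
    intro t ht c hc x hx
    obtain ⟨F, hF⟩ := hM t ht c hc x hx
    rw [hF _ hDξi, hDξ, map_sub, map_mul, map_h2, map_sub, ← hF _ he1, ← hF _ he2,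
      ← hF _ hs2, ← hF _ hs1, ← hF _ hκi, hσ.1 t ht c hc x hx, hσ.2 t ht c hc x hx,
      hη.1 t ht c hc x hx, hη.2 t ht c hc x hx]
    simp only [Pi.mul_apply, Pi.sub_apply, h2_apply]

end HDP
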