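import Pool.Agent.Work.MP_c3bd4f_as.Interface3

/-! # Block GFX (helper98): the general theorem -/

set_option autoImplicit false

open scoped ContDiff Manifold Topology
open Set MeasureTheory

noncomputable section

namespace HDP

open HDC HDE

section

variable {N : ℕ} {M : Type} [TopologicalSpace M] [ChartedSpace (EE N) M]

theorem GFX_tr {a b c : Fam N M} (h1 : EqF a b) (h2 : EqF b c) : EqF a c :=
  fun ch hc x hx => (h1 ch hc x hx).trans (h2 ch hc x hx)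

theorem GFX_sy {a b : Fam N M} (h1 : EqF a b) : EqF b a :=
  fun ch hc x hx => (h1 ch hc x hx).symm

theorem GFX_pow {a b : Fam N M} (h1 : EqF a b) (k : ℕ) : EqF (a ^ k) (b ^ k) := by
  intro ch hc x hx
  show a ch x ^ k = b ch x ^ k
  rw [h1 ch hc x hx]

theorem GFX_form [IsManifold 𝓘(ℝ, EE N) ∞ M] {k : ℕ} {a b : Fam N M} (h1 : EqF a b)
    (h2 : IsForm k a) : IsForm k b := by
  obtain ⟨-, -, -, f4, f5, -, -, f8⟩ := HDC.q_FO2 N M
  have h3 := f8 k (fun _ => a) (fun _ => b) (fun _ _ => h1) (f4 k a h2)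
  exact f5 k _ h3 0 (left_mem_Icc.2 zero_le_one)

end

theorem p_GFX (hUC6 : Stmt_UC6) (hGMA : Stmt_GMA) (hGNC : Stmt_GNC) (hUFP : Stmt_UFP)
    (hGU8 : Stmt_GU8) : Stmt_GFX := by
  intro n m r j M X _ _ _ _ _ _ _ _ _ _ _ _ p f σ η Ω w μ vol hn hj hrj hΩ hvol hfin hcov
    hsur hloc hf hσ hdσ hη hdη hw hμ hdμ
  have hfm : IsFiniteMeasure vol := ⟨hfin⟩
  obtain ⟨hfc, hfs⟩ := hUC6 (2 * n) m M X f hf
  obtain ⟨u1, u2, u3⟩ := hUFP (2 * n) m M X f hfc hfs
  have hcng := fun a b => (HDC.q_CNG.1 (2 * n) M a b)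
  -- the form `e`
  obtain ⟨e, he⟩ : ∃ e : Fam (2 * n) M, e = MPB f η := ⟨_, rfl⟩
  have heE : EqF e (MPB f η) := fun _ _ _ _ => by rw [he]
  have hef : IsForm (2 * r + 1) e := by
    rw [he]
    exact (u1 (2 * r + 1) η hη).2.1
  have hde : EqF (dF e) (w ^ (r + 1)) := by
    rw [he]
    refine GFX_tr (u1 (2 * r + 1) η hη).2.2 (GFX_tr (u3 (dF η) (σ ^ (r + 1)) hdη) ?_)
    rw [u2]
    exact GFX_pow (GFX_sy hw) (r + 1)
  have hwf : IsForm 2 w := GFX_form (GFX_sy hw) (u1 2 σ hσ).2.1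
  have hdw : EqF (dF w) 0 := by
    refine GFX_tr (hcng _ _ hw).1 (GFX_tr (u1 2 σ hσ).2.2 (GFX_tr (u3 (dF σ) 0 hdσ) ?_))
    intro ch hc x hx
    show pq _ ((0 : Fam m X) _ _) = 0
    exact map_zero _
  have hDatM : DatM n r j Ω w e μ := ⟨hwf, hdw, hef, hde, hμ, hdμ⟩
  have hNoC : NoC M := by
    rcases hrj with h | ⟨-, -, h⟩
    · exact hGNC n r j M Ω w e μ vol hΩ hvol hfin hj h hDatM
    · exact h
  have hrj' : r + 2 * j ≤ n + 1 ∨ (j = 1 ∧ r ≤ n) := hrj.imp id fun h => ⟨h.1, h.2.1⟩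
  obtain ⟨hDatR, hPB⟩ := hGU8 n m r M X p f σ η hcov hsur hloc hf hσ hdσ hη hdη
  have hPBw := hPB 2 σ w hσ hw
  have hPBe := hPB (2 * r + 1) η e hη heE
  have h1 : ∀ (H H' : ℝ → M → ℝ) (φ : M → M), IsHam (2 * n) H → IsHam (2 * n) H' →
      Generates Ω H φ → Generates Ω H' φ → Cal vol H = Cal vol H' := by
    intro H H' φ hH hH' hG hG'
    obtain ⟨Φ, hΦ, hΦ1⟩ := hG
    obtain ⟨Φ', hΦ', hΦ1'⟩ := hG'
    obtain ⟨K, hK, hK0⟩ := hH.supp
    obtain ⟨K', hK', hK0'⟩ := hH'.supp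
    have hKK : IsCompact (K ∪ K') := hK.union hK'
    refine hGMA n m r j M (FP f p) (Dk p) (fq f p) (dr p) (fg f p) (QF p σ) (QF p η) Ω w e μ
      vol (K ∪ K') hn hj hrj' ⟨hΩ, hvol, hfm, hKK⟩ hNoC hDatR hDatM hPBw hPBe
      H H' Φ Φ' ⟨⟨hΩ, hH, hΦ⟩, ⟨hΩ, hH', hΦ'⟩, hKK, ?_, ?_, hΦ1.trans hΦ1'.symm⟩
    · exact fun t ht p hp => hK0 t ht p fun h => hp (Or.inl h)
    · exact fun t ht p hp => hK0' t ht p fun h => hp (Or.inr h)
  have hbd : ∀ H : ℝ → M → ℝ, IsHam (2 * n) H →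
      |Cal vol H| ≤ (vol univ).toReal * len H := by
    intro H hH
    obtain ⟨K, hK, hK0⟩ := hH.supp
    obtain ⟨p, hp⟩ : ∃ p, p ∉ K := by
      by_contra hcon
      push Not at hcon
      have hKu : K = univ := eq_univ_of_forall hcon
      rw [hKu] at hK
      exact hNoC (Classical.arbitrary M)
        (hK.of_isClosed_subset isClosed_connectedComponent (subset_univ _))
    exact q_HOF _ M vol H hH ⟨p, fun t ht => hK0 t ht p hp⟩
  have h2 : ∀ (H : ℝ → M → ℝ) (φ : M → M), IsHam (2 * n) H → Generates Ω H φ →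
      |Cal vol H| ≤ (vol univ).toReal * hofer Ω φ := by
    intro H φ hH hG
    rcases (ENNReal.toReal_nonneg (a := vol univ)).lt_or_eq with hV | hV
    · have h3 : |Cal vol H| / (vol univ).toReal ≤ hofer Ω φ := by
        unfold HDC.hofer
        refine le_csInf ⟨len H, H, hH, hG, rfl⟩ ?_
        rintro l ⟨H', hH', hG', rfl⟩
        rw [div_le_iff₀ hV, h1 H H' φ hH hH' hG hG', mul_comm]
        exact hbd H' hH'
      rw [div_le_iff₀ hV, mul_comm] at h3
      exact h3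
    · have h3 := hbd H hH
      rw [← hV, zero_mul] at h3
      rw [← hV, zero_mul]
      exact h3
  refine ⟨h1, h2, ?_⟩
  intro C
  obtain ⟨H0, hpos, hgen⟩ := q_EXH n M Ω vol hΩ hvol
  have hV : 0 < (vol univ).toReal := by
    rcases (ENNReal.toReal_nonneg (a := vol univ)).lt_or_eq with h | h
    · exact h
    · exfalso
      have h3 : vol univ = 0 := by
        rcases (ENNReal.toReal_eq_zero_iff _).1 h.symm with h' | h'
        · exact h'
        · exact absurd h' (measure_ne_top vol univ)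
      have h4 : vol = 0 := Measure.measure_univ_eq_zero.1 h3
      rw [h4] at hpos
      simp at hpos
  obtain ⟨hH, φ, hφ⟩ := hgen (C * (vol univ).toReal / ∫ p, H0 p ∂vol)
  refine ⟨φ, ⟨_, hH, hφ⟩, ?_⟩
  have h3 := h2 _ φ hH hφ
  have h4 : Cal vol (fun (_ : ℝ) p => (C * (vol univ).toReal / ∫ p, H0 p ∂vol) * H0 p) =
      C * (vol univ).toReal := by
    unfold Cal
    rw [intervalIntegral.integral_const, integral_const_mul, sub_zero, one_smul]
    field_simp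
  rw [h4] at h3
  have h5 : C * (vol univ).toReal ≤ (vol univ).toReal * hofer Ω φ := (le_abs_self _).trans h3
  rw [mul_comm] at h5
  exact le_of_mul_le_mul_left h5 hV

end HDP
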