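import Pool.Agent.Work.MP_c3bd4f_as.Interface3

set_option autoImplicit false

open scoped ContDiff Manifold Topology
open Set MeasureTheory

noncomputable section

namespace HDP

open HDC HDE

section

variable {N : ℕ} {M : Type} [TopologicalSpace M] [ChartedSpace (EE N) M]
  [IsManifold 𝓘(ℝ, EE N) ∞ M]

/-- closed forms of degree `k` -/
def GHC_C (k : ℕ) (F : PFam N M) : Prop := DFm k F ∧ DD F 0

theorem GHC_zero (k : ℕ) : GHC_C k (0 : PFam N M) := by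
  obtain ⟨a1, a2, a3, a4, a5, a6, a7, a8⟩ := q_DFA N M
  obtain ⟨d1, d2, d3, d4, d5⟩ := q_DDA N M
  exact ⟨a8 _, d5⟩

theorem GHC_mul {k l : ℕ} {F G : PFam N M} (hF : GHC_C k F) (hG : GHC_C l G) :
    GHC_C (k + l) (F * G) := by
  obtain ⟨a1, a2, a3, a4, a5, a6, a7, a8⟩ := q_DFA N M
  refine ⟨a3 k l F G hF.1 hG.1, ?_⟩
  have h := q_LBP N M k l F G 0 0 hF.1 hG.1 hF.2 hG.2
  have h0 : (0 : PFam N M) * G + (-1 : ℝ) ^ k • (F * (0 : PFam N M)) = 0 := by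
    rw [zero_mul, mul_zero, smul_zero, add_zero]
  rw [h0] at h
  exact h

theorem GHC_sub {k : ℕ} {F G : PFam N M} (hF : GHC_C k F) (hG : GHC_C k G) :
    GHC_C k (F - G) := by
  obtain ⟨a1, a2, a3, a4, a5, a6, a7, a8⟩ := q_DFA N M
  obtain ⟨d1, d2, d3, d4, d5⟩ := q_DDA N M
  refine ⟨(a1 k F G hF.1 hG.1).2, ?_⟩
  have h := (d1 k F G 0 0 hF.1 hG.1 hF.2 hG.2).2
  rw [sub_zero] at h
  exact h

theorem GHC_add {k : ℕ} {F G : PFam N M} (hF : GHC_C k F) (hG : GHC_C k G) :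
    GHC_C k (F + G) := by
  obtain ⟨a1, a2, a3, a4, a5, a6, a7, a8⟩ := q_DFA N M
  obtain ⟨d1, d2, d3, d4, d5⟩ := q_DDA N M
  refine ⟨(a1 k F G hF.1 hG.1).1, ?_⟩
  have h := (d1 k F G 0 0 hF.1 hG.1 hF.2 hG.2).1
  rw [add_zero] at h
  exact h

theorem GHC_smul {k : ℕ} {F : PFam N M} (r : ℝ) (hF : GHC_C k F) : GHC_C k (r • F) := by
  obtain ⟨a1, a2, a3, a4, a5, a6, a7, a8⟩ := q_DFA N M
  obtain ⟨d1, d2, d3, d4, d5⟩ := q_DDA N M
  refine ⟨a2 k F r hF.1, ?_⟩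
  have h := d2 k F 0 r hF.1 hF.2
  rw [smul_zero] at h
  exact h

theorem GHC_sum {k : ℕ} (s : ℕ) (f : ℕ → PFam N M) (h : ∀ i < s, GHC_C k (f i)) :
    GHC_C k (∑ i ∈ Finset.range s, f i) := by
  induction s with
  | zero =>
    rw [Finset.range_zero, Finset.sum_empty]
    exact GHC_zero k
  | succ s ih =>
    rw [Finset.sum_range_succ]
    exact GHC_add (ih fun i hi => h i (Nat.lt_succ_of_lt hi)) (h s (Nat.lt_succ_self s))

theorem GHC_pow {X : PFam N M} (hX : GHC_C 2 X) (j : ℕ) : GHC_C (2 * j) (X ^ j) :=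
  (q_HPC N M X X hX.1 hX.1 hX.2 hX.2).1 j

theorem GHC_HP {X Y : PFam N M} (hX : GHC_C 2 X) (hY : GHC_C 2 Y) (m s : ℕ) (q : ℕ → ℝ)
    (h : ∀ i < s, q i ≠ 0 → i ≤ m) : GHC_C (2 * m) (HP m s q X Y) :=
  (q_HPC N M X Y hX.1 hY.1 hX.2 hY.2).2 m s q h

theorem GHC_hm0 (X Y : PFam N M) : hm 0 X Y = 0 := by
  unfold hm
  rw [Finset.range_zero, Finset.sum_empty]

theorem GHC_hm {X Y : PFam N M} (hX : GHC_C 2 X) (hY : GHC_C 2 Y) (k : ℕ) :
    GHC_C (2 * (k - 1)) (hm k X Y) := by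
  unfold hm
  refine GHC_sum k _ fun i hi => ?_
  have h := GHC_mul (GHC_pow hX i) (GHC_pow hY (k - 1 - i))
  rwa [show 2 * i + 2 * (k - 1 - i) = 2 * (k - 1) by omega] at h

/-- the terms of `AA` and `BB`: `m = d + 1` -/
theorem GHC_term {X X' Y Y' : PFam N M} (hX : GHC_C 2 X) (hX' : GHC_C 2 X') (hY : GHC_C 2 Y)
    (hY' : GHC_C 2 Y') (m i : ℕ) (hi : i ≤ m) :
    GHC_C (2 * (m - 1)) (hm i X X' * Y' ^ (m - i) - X ^ i * hm (m - i) Y Y') := by
  refine GHC_sub ?_ ?_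
  · rcases Nat.eq_zero_or_pos i with h0 | h0
    · rw [h0, GHC_hm0, zero_mul]
      exact GHC_zero _
    · have h := GHC_mul (GHC_hm hX hX' i) (GHC_pow hY' (m - i))
      rwa [show 2 * (i - 1) + 2 * (m - i) = 2 * (m - 1) by omega] at h
  · rcases Nat.eq_zero_or_pos (m - i) with h0 | h0
    · rw [h0, GHC_hm0, mul_zero]
      exact GHC_zero _
    · have h := GHC_mul (GHC_pow hX i) (GHC_hm hY hY' (m - i))
      rwa [show 2 * i + 2 * (m - i - 1) = 2 * (m - 1) by omega] at h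

end

theorem p_GHC : Stmt_GHC := by
  intro N M _ _ _ n r j X X' Y Y' hj hjn hrj hX hX' hY hY' dX dX' dY dY'
  have cX : GHC_C 2 X := ⟨hX, dX⟩
  have cX' : GHC_C 2 X' := ⟨hX', dX'⟩
  have cY : GHC_C 2 Y := ⟨hY, dY⟩
  have cY' : GHC_C 2 Y' := ⟨hY', dY'⟩
  have hrn : r ≤ n := by omega
  have hWY : GHC_C (2 * (n - r - 1)) (WY n r X Y) := by
    refine GHC_HP cX cY _ _ _ fun i hi hq => ?_
    by_contra hcon
    apply hq
    have h1 : i = n - r := by omega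
    have h2 : (i : ℝ) = n - r := by
      rw [h1, Nat.cast_sub hrn]
    rw [h2, sub_self, mul_zero]
  have hBB : GHC_C (2 * (n - r - 1)) (BB n r X X' Y Y') := by
    unfold BB
    refine GHC_sum _ _ fun l hl => GHC_smul _ ?_
    exact GHC_term cX cX' cY cY' (n - r) l (by omega)
  refine ⟨?_, ?_, ?_, ⟨fun _ => hWY.1, hWY.2, fun h => ?_⟩, ?_,
    ⟨fun _ => hBB.1, hBB.2, fun h => ?_⟩, ?_⟩
  · exact GHC_HP cX cY _ _ _ fun i hi _ => by omega
  · exact GHC_HP cX cY _ _ _ fun i hi _ => by omega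
  · refine GHC_HP cX cY _ _ _ fun i hi hq => ?_
    by_contra hcon
    apply hq
    have h1 : i = n + 1 - j := by omega
    have h2 : (i : ℝ) + j = n + 1 := by
      have : i + j = n + 1 := by omega
      exact_mod_cast this
    rw [show (n : ℝ) + 1 - i - j = 0 by linarith, mul_zero]
  · subst h
    unfold WY HP
    rw [Nat.sub_self, Finset.sum_range_one]
    simp
  · unfold AA
    refine GHC_sum _ _ fun i hi => GHC_smul _ ?_
    have h := GHC_term cX cX' cY cY' (n + 1 - j) i (by omega)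
    rwa [show 2 * (n + 1 - j - 1) = 2 * (n - j) by omega] at h
  · subst h
    unfold BB
    rw [Nat.sub_self, Finset.sum_range_one, GHC_hm0, GHC_hm0, zero_mul, mul_zero, sub_self,
      smul_zero]
  · exact GHC_hm cY cY' j

end HDP
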