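import Pool.Agent.Work.MP_c3bd4f_as.Interface3

set_option autoImplicit false

/-! # Block GMA: the Calabi invariant (helper55), after `B_MAW.lean` -/

open scoped ContDiff Manifold Topology
open Set MeasureTheory

noncomputable section

namespace HDP

open HDC HDE

/-- The pullback of a closed form of degree `k`. -/
theorem GMA_cl (n : ℕ) (M : Type) [TopologicalSpace M] [ChartedSpace (EE (2 * n)) M]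
    [IsManifold 𝓘(ℝ, EE (2 * n)) ∞ M] (Ω : Fam (2 * n) M) (H : ℝ → M → ℝ) (Φ : ℝ → M → M)
    (hS : HS n Ω H Φ) (k : ℕ) (f F : Fam (2 * n) M) (hf : IsForm k f) (hdf : EqF (dF f) F) :
    DFm k (GS Ω H Φ f) ∧ DD (GS Ω H Φ f) (GS Ω H Φ F) := by
  obtain ⟨-, -, d3, -, -⟩ := HDE.q_DDA (2 * n) M
  obtain ⟨-, hcong⟩ := HDE.q_GSM (2 * n) M Ω H Φ
  have hrefl : ∀ F : PFam (2 * n) M, EqP F F := fun F t _ c _ x _ => rfl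
  obtain ⟨g1, g2⟩ := HDE.q_GSD n M Ω H Φ hS k f hf
  exact ⟨g1, d3 _ _ _ _ (hrefl _) (hcong _ _ hdf) g2⟩

theorem GMA_one (n r j : ℕ) (M : Type) [TopologicalSpace M] [ChartedSpace (EE (2 * n)) M]
    [IsManifold 𝓘(ℝ, EE (2 * n)) ∞ M] (Ω w e μ : Fam (2 * n) M) (hΩ : IsSymplectic n Ω)
    (hD : DatM n r j Ω w e μ) (H : ℝ → M → ℝ) (Φ : ℝ → M → M) (hS : HS n Ω H Φ) :
    (DFm 2 (GS Ω H Φ Ω) ∧ DD (GS Ω H Φ Ω) 0) ∧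
    (DFm 2 (GS Ω H Φ w) ∧ DD (GS Ω H Φ w) 0) ∧
    (DFm (2 * r + 1) (GS Ω H Φ e) ∧ DD (GS Ω H Φ e) (GS Ω H Φ w ^ (r + 1))) ∧
    (DFm (2 * j - 1) (GS Ω H Φ μ) ∧ DD (GS Ω H Φ μ) ((GS Ω H Φ Ω - GS Ω H Φ w) ^ j)) := by
  obtain ⟨⟨h, hh⟩, -⟩ := HDE.q_GSM (2 * n) M Ω H Φ
  have h0 : GS Ω H Φ (0 : Fam (2 * n) M) = 0 := by rw [← hh, map_zero]
  have a1 := GMA_cl n M Ω H Φ hS 2 Ω 0 hΩ.form hΩ.closed
  have a2 := GMA_cl n M Ω H Φ hS 2 w 0 hD.fw hD.cw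
  have a3 := GMA_cl n M Ω H Φ hS (2 * r + 1) e (w ^ (r + 1)) hD.fe hD.ce
  have a4 := GMA_cl n M Ω H Φ hS (2 * j - 1) μ ((Ω - w) ^ j) hD.fm hD.cm
  rw [h0] at a1 a2
  have e3 : GS Ω H Φ (w ^ (r + 1)) = GS Ω H Φ w ^ (r + 1) := by
    rw [← hh, ← hh, map_pow]
  have e4 : GS Ω H Φ ((Ω - w) ^ j) = (GS Ω H Φ Ω - GS Ω H Φ w) ^ j := by
    rw [← hh, ← hh, ← hh, map_pow, map_sub]
  rw [e3] at a3
  rw [e4] at a4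
  exact ⟨a1, a2, a3, a4⟩

theorem GMA_ring {R : Type} [Ring R] [Algebra ℝ R] (a b c ka m f f' U11 U01 U00 W11 W01 W00 g : R)
    (s : ℝ) (h1 : c = ka + m) :
    (a * U01 + f * W01 - (b * U00 + f * W00) + s • g) +
      (c * U11 + f' * W11 - (a * U01 + f * W01)) - ka * U11
      = s • g + ((m * U11 + f' * W11) - (b * U00 + f * W00)) := by
  rw [h1, add_mul]
  abel

theorem p_GMA (hGS0 : Stmt_GS0) (hGS1 : Stmt_GS1) (hGEX : Stmt_GEX) (hGEV : Stmt_GEV) :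
    Stmt_GMA := by
  intro n m r j M E Γ _ _ _ _ _ _ _ _ _ _ q ρ g σ η Ω w e μ vol K hn hj hrj hSg hNoC hDat hM
    hPB hPBe H H' Φ Φ' hT
  have hjn : j ≤ n := by omega
  have hrj' : r + j ≤ n + 1 := by omega
  obtain ⟨a1, -, -, -, -, -, -, -⟩ := HDE.q_DFA (2 * n) M
  obtain ⟨d1, -, d3, -, -⟩ := HDE.q_DDA (2 * n) M
  obtain ⟨-, n2, -, n4, n5, -⟩ := HDE.q_NLA n M Ω vol K hSg
  obtain ⟨o2, o3, oe, om⟩ := GMA_one n r j M Ω w e μ hSg.symp hM H Φ hT.h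
  obtain ⟨q2, q3, qe, qm⟩ := GMA_one n r j M Ω w e μ hSg.symp hM H' Φ' hT.h'
  obtain ⟨g1, g2, g3, g4, g5⟩ := HDE.q_GDF n M Ω H H' Φ Φ' K hT
  -- step 0
  have hY : DFm 2 (GS Ω H Φ Ω - GS Ω H Φ w) ∧ DD (GS Ω H Φ Ω - GS Ω H Φ w) 0 := by
    refine ⟨(a1 2 _ _ o2.1 o3.1).2, ?_⟩
    have h := (d1 2 _ _ _ _ o2.1 o3.1 o2.2 o3.2).2
    rwa [sub_zero] at h
  have hdg : DFm 2 (GS Ω H Φ Ω - GS Ω H' Φ' Ω) ∧ DD (GS Ω H Φ Ω - GS Ω H' Φ' Ω) 0 := by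
    refine ⟨(a1 2 _ _ o2.1 q2.1).2, ?_⟩
    have h := (d1 2 _ _ _ _ o2.1 q2.1 o2.2 q2.2).2
    rwa [sub_zero] at h
  obtain ⟨nu1, s1, s2, s3, s4⟩ := hGS0 n M Ω vol K hn hSg r j hj hjn hrj'
    (GS Ω H Φ w) (GS Ω H Φ Ω - GS Ω H Φ w)
    (gg (2 * n) H' Φ' - gg (2 * n) H Φ) (GS Ω H Φ Ω - GS Ω H' Φ' Ω) (GS Ω H Φ μ) (GS Ω H Φ e)
    o3.1 hY.1 g1 hdg.1 om.1 oe.1 o3.2 hY.2 g3 hdg.2 om.2 oe.2 g2 g4 g5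
  have e1 : GS Ω H Φ Ω - GS Ω H Φ w - (GS Ω H Φ Ω - GS Ω H' Φ' Ω)
      = GS Ω H' Φ' Ω - GS Ω H Φ w := by abel
  have e2 : GS Ω H Φ w + (GS Ω H Φ Ω - GS Ω H Φ w) = GS Ω H Φ Ω := by abel
  rw [e1] at s2 s4
  rw [e2] at s4
  -- the forms c and xi
  obtain ⟨c, xi, c1, c2, c3, c4, c5, c6⟩ := hGEX n m r M E Γ q ρ g σ η Ω w e H H' Φ Φ' K
    hDat hNoC hT hPB hPBe
  -- the step
  obtain ⟨nu2, t1, t2, t3, t4⟩ := hGS1 n M Ω vol K hn hSg r j hj hjn hrj' (GS Ω H Φ w)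
    (GS Ω H' Φ' w) (GS Ω H' Φ' Ω) nu1 (GS Ω H Φ e) (GS Ω H' Φ' e) c xi o3.1 q3.1 q2.1 o3.2 q3.2
    q2.2 s1 oe.1 qe.1 c1 c2 s2 oe.2 qe.2 c5 c3 c4 c6
  -- the end
  have hY' : DFm 2 (GS Ω H' Φ' Ω - GS Ω H' Φ' w) ∧ DD (GS Ω H' Φ' Ω - GS Ω H' Φ' w) 0 := by
    refine ⟨(a1 2 _ _ q2.1 q3.1).2, ?_⟩
    have h := (d1 2 _ _ _ _ q2.1 q3.1 q2.2 q3.2).2
    rwa [sub_zero] at h
  have hka1 : DFm (2 * j - 1) (nu2 - GS Ω H' Φ' μ) := (a1 _ _ _ t1 qm.1).2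
  have hka2 : DD (nu2 - GS Ω H' Φ' μ) 0 := by
    have h := (d1 (2 * j - 1) _ _ _ _ t1 qm.1 t2 qm.2).2
    rwa [sub_self] at h
  have hka3 : Vn K (nu2 - GS Ω H' Φ' μ) := by
    have h := HDE.MAI_vadd (HDE.MAI_vadd t3 s3) (HDE.q_VMU n M Ω H H' Φ Φ' K hT (2 * j - 1) μ hM.fm)
    have e3 : nu2 - nu1 + (nu1 - GS Ω H Φ μ) + (GS Ω H Φ μ - GS Ω H' Φ' μ)
        = nu2 - GS Ω H' Φ' μ := by abel
    rwa [e3] at h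
  have hend : Nl n Ω vol K ((nu2 - GS Ω H' Φ' μ) *
      UU n r j (GS Ω H' Φ' w) (GS Ω H' Φ' Ω - GS Ω H' Φ' w)) := by
    rcases hrj with h1 | ⟨h1, h2⟩
    · exact HDE.q_ENA n M Ω vol K hn hSg r j hj h1 _ _ _ (GS Ω H' Φ' μ) q3.1 hY'.1 q3.2 hY'.2
        hka1 qm.1 hka2 qm.2 hka3
    · subst h1
      exact HDE.q_ENB n M Ω vol K hn hSg hNoC r h2 _ _ _ q3.1 hY'.1 q3.2 hY'.2 hka1 hka2 hka3
  have v0 := hGEV n r j M Ω w e μ H Φ hj hrj' hSg.symp.form hM.fw hM.fe hM.fm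
  have v1 := hGEV n r j M Ω w e μ H' Φ' hj hrj' hSg.symp.form hM.fw hM.fe hM.fm
  -- adding up
  have hsum := (n4 _ _ 0 ((n4 _ _ 0 s4 t4).1) hend).2.1
  rw [GMA_ring nu1 (GS Ω H Φ μ) nu2 (nu2 - GS Ω H' Φ' μ) (GS Ω H' Φ' μ) _ _ _ _ _ _ _ _ _ _
    (sub_add_cancel nu2 (GS Ω H' Φ' μ)).symm] at hsum
  have hfin : Nl n Ω vol K (((n : ℝ) + 1) •
      ((gg (2 * n) H' Φ' - gg (2 * n) H Φ) * (GS Ω H Φ Ω) ^ n)) := by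
    refine n5 _ _ ?_ hsum
    intro t ht c hc x hx
    have w0 := v0 t ht c hc x hx
    have w1 := v1 t ht c hc x hx
    change _ + ((GS Ω H' Φ' μ * UU n r j (GS Ω H' Φ' w) (GS Ω H' Φ' Ω - GS Ω H' Φ' w) +
        GS Ω H' Φ' e * WW n r (GS Ω H' Φ' w) (GS Ω H' Φ' Ω - GS Ω H' Φ' w)) t c x -
      (GS Ω H Φ μ * UU n r j (GS Ω H Φ w) (GS Ω H Φ Ω - GS Ω H Φ w) +
        GS Ω H Φ e * WW n r (GS Ω H Φ w) (GS Ω H Φ Ω - GS Ω H Φ w)) t c x) = _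
    rw [w0, w1, sub_self, add_zero]
  have hJ := hfin.int
  rw [n2, HDE.q_GVL n M Ω vol K hn hSg H H' Φ Φ' hT] at hJ
  have hpos : ((n : ℝ) + 1) ≠ 0 := by positivity
  have := (mul_eq_zero.1 hJ).resolve_left hpos
  linarith

end HDP
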