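import Pool.Agent.Work.MP_c3bd4f_as.Interface3

set_option autoImplicit false

/-! # Block GNC: no compact component if `r + 2 j ≤ n + 1` -/

open scoped ContDiff Manifold Topology
open Set MeasureTheory

noncomputable section

namespace HDP

open HDC HDE

theorem GNC_alg {R : Type} [Ring R] [Algebra ℝ R] (n r j : ℕ) (x y : R) (hxy : Commute x y)
    (hr : r + j ≤ n) (hr1 : r + 1 ≤ n) :
    HP (n - j) (r + 1) (bc n) x y * y ^ j +
      HP (n - r - 1) (n - r) (fun l => bc n (l + r + 1)) x y * x ^ (r + 1) = (x + y) ^ n := by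
  rw [hxy.add_pow, show n + 1 = (r + 1) + (n - r) by omega, Finset.sum_range_add]
  unfold HP
  rw [Finset.sum_mul, Finset.sum_mul]
  congr 1
  · refine Finset.sum_congr rfl fun i hi => ?_
    have hi' := Finset.mem_range.1 hi
    rw [smul_mul_assoc, mul_assoc, ← pow_add, show n - j - i + j = n - i by omega]
    unfold bc
    rw [Nat.cast_smul_eq_nsmul ℝ, nsmul_eq_mul, (Nat.cast_commute _ _).eq]
  · refine Finset.sum_congr rfl fun l hl => ?_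
    have hl' := Finset.mem_range.1 hl
    have e1 : y ^ (n - r - 1 - l) * x ^ (r + 1) = x ^ (r + 1) * y ^ (n - r - 1 - l) :=
      ((hxy.pow_pow (r + 1) (n - r - 1 - l)).eq).symm
    rw [smul_mul_assoc, mul_assoc, e1, ← mul_assoc, ← pow_add,
      show l + (r + 1) = r + 1 + l by omega, show n - (r + 1 + l) = n - r - 1 - l by omega]
    show ((n.choose (l + r + 1) : ℕ) : ℝ) • (x ^ (r + 1 + l) * y ^ (n - r - 1 - l)) = _
    rw [show l + r + 1 = r + 1 + l by omega]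
    rw [Nat.cast_smul_eq_nsmul ℝ, nsmul_eq_mul, (Nat.cast_commute _ _).eq]

theorem GNC_prim (n r j : ℕ) (M : Type) [TopologicalSpace M] [ChartedSpace (EE (2 * n)) M]
    [IsManifold 𝓘(ℝ, EE (2 * n)) ∞ M] (Ω w e μ : Fam (2 * n) M) (hΩ : IsSymplectic n Ω)
    (hj : 1 ≤ j) (hrj : r + 2 * j ≤ n + 1) (hD : DatM n r j Ω w e μ) :
    ∃ (k : ℕ) (θ : Fam (2 * n) M), IsForm k θ ∧ EqF (dF θ) (Ω ^ n) := by
  obtain ⟨dadd, -, dmul, -, -, ddeg, -, -⟩ := q_DFA (2 * n) M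
  obtain ⟨ddadd, -, ddcongr, -, -⟩ := q_DDA (2 * n) M
  obtain ⟨csd, csm⟩ := q_CSD (2 * n) M
  obtain ⟨pl1, -, -, -, -, -⟩ := q_PLA (2 * n)
  have hrefl : ∀ F : PFam (2 * n) M, EqP F F := fun F _ _ _ _ _ _ => rfl
  have hcl : ∀ (k : ℕ) (f : Fam (2 * n) M), IsForm k f → EqF (dF f) 0 →
      DFm k (cst f) ∧ DD (cst f) 0 := fun k f hf h0 =>
    ⟨(csd k f hf).1, ddcongr _ _ _ _ (hrefl _) (NCA_eq0 h0) (csd k f hf).2⟩
  obtain ⟨X, hXw⟩ : ∃ X : PFam (2 * n) M, X = cst w := ⟨_, rfl⟩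
  have hX : DFm 2 X ∧ DD X 0 := by
    rw [hXw]
    exact hcl 2 w hD.fw hD.cw
  have hO := hcl 2 Ω hΩ.form hΩ.closed
  obtain ⟨Y, hYd⟩ : ∃ Y : PFam (2 * n) M, Y = cst Ω - X := ⟨_, rfl⟩
  have hY : DFm 2 Y ∧ DD Y 0 := by
    rw [hYd]
    have h := (ddadd 2 _ _ _ _ hO.1 hX.1 hO.2 hX.2).2
    rw [sub_zero] at h
    exact ⟨(dadd 2 _ _ hO.1 hX.1).2, h⟩
  have hYw : Y = cst (Ω - w) := by
    rw [hYd, hXw, NCA_cst_sub]
  obtain ⟨hT, hTD⟩ := (q_HPC (2 * n) M X Y hX.1 hY.1 hX.2 hY.2).2 (n - j) (r + 1) (bc n)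
    (fun i hi _ => by omega)
  obtain ⟨hS, hSD⟩ := (q_HPC (2 * n) M X Y hX.1 hY.1 hX.2 hY.2).2 (n - r - 1) (n - r)
    (fun l => bc n (l + r + 1)) (fun i hi _ => by omega)
  obtain ⟨hm1, hm2⟩ := csd (2 * j - 1) μ hD.fm
  obtain ⟨he1, he2⟩ := csd (2 * r + 1) e hD.fe
  have hE := dmul _ _ _ _ hT hm1
  have hED := q_LBP (2 * n) M _ _ _ _ _ _ hT hm1 hTD hm2
  have hG := dmul _ _ _ _ hS he1
  have hGD := q_LBP (2 * n) M _ _ _ _ _ _ hS he1 hSD he2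
  rw [show 2 * (n - j) + (2 * j - 1) = 2 * n - 1 by omega] at hE
  rw [show 2 * (n - r - 1) + (2 * r + 1) = 2 * n - 1 by omega] at hG
  have hA := (dadd _ _ _ hE hG).1
  have hAD := (ddadd _ _ _ _ _ hE hG hED hGD).1
  have h0 : (0 : ℝ) ∈ Icc (0 : ℝ) 1 := ⟨le_rfl, zero_le_one⟩
  refine ⟨_, _, hA.f0.form 0 h0, ?_⟩
  intro c hc x hx
  have h1 := hAD.d0 0 h0 c hc x hx
  show D (fun y => ((HP (n - j) (r + 1) (bc n) X Y * cst μ +
    HP (n - r - 1) (n - r) (fun l => bc n (l + r + 1)) X Y * cst e) 0 c y).1) x = (Ω ^ n) c x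
  rw [← h1]
  have hsgn : ∀ a : ℕ, (-1 : ℝ) ^ (2 * a) = 1 := by
    intro a
    rw [pow_mul]
    norm_num
  rw [zero_mul, zero_mul, zero_add, zero_add, hsgn, hsgn, one_smul, one_smul]
  have hcomm : Commute (X 0 c x) (Y 0 c x) :=
    pl1 _ _ (ddeg 2 _ hX.1 0 h0 c hc x hx)
  have halg := GNC_alg n r j (X 0 c x) (Y 0 c x) hcomm (by omega) (by omega)
  have hmu : cst (dF μ) 0 c x = (Y 0 c x) ^ j := by
    have e1 : cst ((Ω - w) ^ j) 0 c x = (Y 0 c x) ^ j := by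
      rw [NCA_cst_pow csm, ← hYw]
      rfl
    rw [← e1]
    exact PL.ext (hD.cm c hc x hx) rfl
  have he : cst (dF e) 0 c x = (X 0 c x) ^ (r + 1) := by
    have e1 : cst (w ^ (r + 1)) 0 c x = (X 0 c x) ^ (r + 1) := by
      rw [NCA_cst_pow csm, ← hXw]
      rfl
    rw [← e1]
    exact PL.ext (hD.ce c hc x hx) rfl
  have hsum : X 0 c x + Y 0 c x = cst Ω 0 c x := by
    rw [hYd]
    show X 0 c x + (cst Ω 0 c x - X 0 c x) = cst Ω 0 c x
    abel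
  have hfin : (HP (n - j) (r + 1) (bc n) X Y * cst (dF μ) +
      HP (n - r - 1) (n - r) (fun l => bc n (l + r + 1)) X Y * cst (dF e)) 0 c x =
      cst (Ω ^ n) 0 c x := by
    show (HP (n - j) (r + 1) (bc n) X Y) 0 c x * cst (dF μ) 0 c x +
      (HP (n - r - 1) (n - r) (fun l => bc n (l + r + 1)) X Y) 0 c x * cst (dF e) 0 c x = _
    rw [HP_apply, HP_apply, hmu, he, halg, hsum, NCA_cst_pow csm]
    rfl
  rw [hfin]
  rfl

theorem p_GNC : Stmt_GNC := by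
  intro n r j M _ _ _ _ _ _ _ Ω w e μ vol hΩ hvol hfin hj hrj hD
  obtain ⟨k, θ, hθ, hdθ⟩ := GNC_prim n r j M Ω w e μ hΩ hj hrj hD
  exact NCA_top n M Ω vol hΩ hvol hfin k θ hθ hdθ

end HDP
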