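import Pool.Agent.Work.MP_c3bd4f_as.Interface3

set_option autoImplicit false

/-!
# Block GP1: the algebra of step 1
-/

open scoped ContDiff Manifold Topology
open Set MeasureTheory

noncomputable section

namespace HDP

open HDC HDE

/-- all even values are polynomials: naturality under algebra homomorphisms -/
theorem GP1_hm {A R : Type} [Ring A] [Ring R] [Algebra ℝ A] [Algebra ℝ R] (φ : A →ₐ[ℝ] R)
    (k : ℕ) (x y : A) : φ (hm k x y) = hm k (φ x) (φ y) := by
  unfold hm
  simp only [map_sum, map_mul, map_pow]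

theorem GP1_HP {A R : Type} [Ring A] [Ring R] [Algebra ℝ A] [Algebra ℝ R] (φ : A →ₐ[ℝ] R)
    (m s : ℕ) (q : ℕ → ℝ) (x y : A) : φ (HP m s q x y) = HP m s q (φ x) (φ y) := by
  unfold HP
  simp only [map_sum, map_mul, map_pow, map_smul]

theorem GP1_AA {A R : Type} [Ring A] [Ring R] [Algebra ℝ A] [Algebra ℝ R] (φ : A →ₐ[ℝ] R)
    (n r j : ℕ) (x x' y y' : A) :
    φ (AA n r j x x' y y') = AA n r j (φ x) (φ x') (φ y) (φ y') := by
  unfold AA
  simp only [map_sum, map_mul, map_pow, map_smul, map_sub, GP1_hm]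

theorem GP1_BB {A R : Type} [Ring A] [Ring R] [Algebra ℝ A] [Algebra ℝ R] (φ : A →ₐ[ℝ] R)
    (n r : ℕ) (x x' y y' : A) :
    φ (BB n r x x' y y') = BB n r (φ x) (φ x') (φ y) (φ y') := by
  unfold BB
  simp only [map_sum, map_mul, map_pow, map_smul, map_sub, GP1_hm]

/-! ### The commutative case -/

theorem GP1_hm1 {S : Type} [CommRing S] (k : ℕ) (x y : S) :
    (x - y) * hm k x y = x ^ k - y ^ k :=
  (Commute.all x y).mul_geom_sum₂ k

theorem GP1_term {S : Type} [CommRing S] (i m : ℕ) (x x' y y' : S) (h : x + y = x' + y') :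
    x' ^ i * y' ^ m - x ^ i * y ^ m =
      (x' - x) * (hm i x x' * y' ^ m - x ^ i * hm m y y') := by
  have h1 := GP1_hm1 i x x'
  have h2 := GP1_hm1 m y y'
  have h3 : x' - x = y - y' := by linear_combination -h
  have h4 : (x' - x) * hm i x x' = x' ^ i - x ^ i := by linear_combination -h1
  have h5 : (x' - x) * hm m y y' = y ^ m - y' ^ m := by rw [h3]; exact h2
  linear_combination (-y' ^ m) * h4 + x ^ i * h5

theorem GP1_U {S : Type} [CommRing S] [Algebra ℝ S] (n r j : ℕ) (x x' y y' : S)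
    (h : x + y = x' + y') :
    UU n r j x' y' - UU n r j x y = (x' - x) * AA n r j x x' y y' := by
  unfold UU HP AA
  rw [← Finset.sum_sub_distrib, Finset.mul_sum]
  refine Finset.sum_congr rfl fun i _ => ?_
  rw [← smul_sub, mul_smul_comm, GP1_term i (n + 1 - j - i) x x' y y' h]

theorem GP1_W {S : Type} [CommRing S] [Algebra ℝ S] (n r : ℕ) (x x' y y' : S)
    (h : x + y = x' + y') :
    WW n r x' y' - WW n r x y = (x' - x) * BB n r x x' y y' := by
  unfold WW HP BB
  rw [← Finset.sum_sub_distrib, Finset.mul_sum]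
  refine Finset.sum_congr rfl fun i _ => ?_
  rw [← smul_sub, mul_smul_comm, GP1_term i (n - r - i) x x' y y' h]

/-- The binomial theorem, split at `i = r`. -/
theorem GP1_P {S : Type} [CommRing S] [Algebra ℝ S] (n r j : ℕ) (hj : 1 ≤ j)
    (hrj : r + j ≤ n + 1) (x y : S) :
    y ^ j * UU n r j x y + x ^ (r + 1) * WW n r x y = (x + y) ^ (n + 1) := by
  have hsm : ∀ (k i : ℕ) (z : S), bc k i • z = z * ((k.choose i : ℕ) : S) := by
    intro k i z
    unfold bc
    rw [Nat.cast_smul_eq_nsmul, nsmul_eq_mul, mul_comm]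
  have hn : n + 1 + 1 = (r + 1) + (n - r + 1) := by omega
  rw [add_pow, hn, Finset.sum_range_add]
  unfold UU WW HP
  rw [Finset.mul_sum, Finset.mul_sum]
  congr 1
  · refine Finset.sum_congr rfl fun i hi => ?_
    have hi' : i < r + 1 := Finset.mem_range.1 hi
    rw [hsm]
    have e1 : n + 1 - i = j + (n + 1 - j - i) := by omega
    rw [e1, pow_add]
    ring
  · refine Finset.sum_congr rfl fun i hi => ?_
    have hi' : i < n - r + 1 := Finset.mem_range.1 hi
    rw [hsm]
    have e1 : n + 1 - (r + 1 + i) = n - r - i := by omega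
    have e2 : i + r + 1 = r + 1 + i := by omega
    rw [e1, e2, pow_add x (r + 1) i]
    ring

/-- The third identity in a domain. -/
theorem GP1_T {S : Type} [CommRing S] [IsDomain S] [Algebra ℝ S] (n r j : ℕ) (hj : 1 ≤ j)
    (hrj : r + j ≤ n + 1) (x x' y y' : S) (h : x + y = x' + y') (hne : x' - x ≠ 0) :
    hm j y y' * UU n r j x' y' - hm (r + 1) x x' * WW n r x' y' =
      y ^ j * AA n r j x x' y y' + x ^ (r + 1) * BB n r x x' y y' := by
  apply mul_left_cancel₀ hne
  have h3 : x' - x = y - y' := by linear_combination -h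
  have h1 : (x' - x) * hm (r + 1) x x' = x' ^ (r + 1) - x ^ (r + 1) := by
    linear_combination -(GP1_hm1 (r + 1) x x')
  have h2 : (x' - x) * hm j y y' = y ^ j - y' ^ j := by
    rw [h3]
    exact GP1_hm1 j y y'
  have hU := GP1_U n r j x x' y y' h
  have hW := GP1_W n r x x' y y' h
  have hP := GP1_P n r j hj hrj x y
  have hP' := GP1_P n r j hj hrj x' y'
  rw [← h] at hP'
  linear_combination (UU n r j x' y') * h2 - (WW n r x' y') * h1 - hP' + hP + y ^ j * hU
    + x ^ (r + 1) * hW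

theorem p_GP1 : Stmt_GP1 := by
  intro R _ _ n r j x x' y y' hj hrj cx cx' cy cy' hsum
  have mx : x ∈ Subalgebra.center ℝ R := Subalgebra.mem_center_iff.2 fun z => (cx z).symm
  have mx' : x' ∈ Subalgebra.center ℝ R := Subalgebra.mem_center_iff.2 fun z => (cx' z).symm
  have my : y ∈ Subalgebra.center ℝ R := Subalgebra.mem_center_iff.2 fun z => (cy z).symm
  let v : Fin 3 → Subalgebra.center ℝ R :=
    ![⟨x, mx⟩, ⟨x', mx'⟩ - ⟨x, mx⟩, ⟨y, my⟩]
  let φ : MvPolynomial (Fin 3) ℝ →ₐ[ℝ] R :=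
    (Subalgebra.center ℝ R).val.comp (MvPolynomial.aeval v)
  have f0 : φ (MvPolynomial.X 0) = x := by
    show ((MvPolynomial.aeval v (MvPolynomial.X 0) : Subalgebra.center ℝ R) : R) = x
    rw [MvPolynomial.aeval_X]
    rfl
  have f1 : φ (MvPolynomial.X 1) = x' - x := by
    show ((MvPolynomial.aeval v (MvPolynomial.X 1) : Subalgebra.center ℝ R) : R) = x' - x
    rw [MvPolynomial.aeval_X]
    rfl
  have f2 : φ (MvPolynomial.X 2) = y := by
    show ((MvPolynomial.aeval v (MvPolynomial.X 2) : Subalgebra.center ℝ R) : R) = y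
    rw [MvPolynomial.aeval_X]
    rfl
  have g1 : φ (MvPolynomial.X 0 + MvPolynomial.X 1) = x' := by
    rw [map_add, f0, f1]
    abel
  have g2 : φ (MvPolynomial.X 2 - MvPolynomial.X 1) = y' := by
    rw [map_sub, f2, f1]
    have : y' = x + y - x' := by rw [hsum]; abel
    rw [this]
    abel
  have hP : (MvPolynomial.X 0 : MvPolynomial (Fin 3) ℝ) + MvPolynomial.X 2 =
      (MvPolynomial.X 0 + MvPolynomial.X 1) + (MvPolynomial.X 2 - MvPolynomial.X 1) := by ring
  have hne : ((MvPolynomial.X 0 + MvPolynomial.X 1 : MvPolynomial (Fin 3) ℝ)) -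
      MvPolynomial.X 0 ≠ 0 := by
    rw [add_sub_cancel_left]
    exact MvPolynomial.X_ne_zero 1
  have hU := congrArg φ (GP1_U n r j (MvPolynomial.X 0 : MvPolynomial (Fin 3) ℝ)
    (MvPolynomial.X 0 + MvPolynomial.X 1) (MvPolynomial.X 2)
    (MvPolynomial.X 2 - MvPolynomial.X 1) hP)
  have hW := congrArg φ (GP1_W n r (MvPolynomial.X 0 : MvPolynomial (Fin 3) ℝ)
    (MvPolynomial.X 0 + MvPolynomial.X 1) (MvPolynomial.X 2)
    (MvPolynomial.X 2 - MvPolynomial.X 1) hP)
  have hT := congrArg φ (GP1_T n r j hj hrj (MvPolynomial.X 0 : MvPolynomial (Fin 3) ℝ)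
    (MvPolynomial.X 0 + MvPolynomial.X 1) (MvPolynomial.X 2)
    (MvPolynomial.X 2 - MvPolynomial.X 1) hP hne)
  unfold UU at hU hT
  unfold WW at hW hT
  rw [map_sub, map_mul, map_sub, GP1_HP, GP1_HP, GP1_AA, g1, g2, f0, f2] at hU
  rw [map_sub, map_mul, map_sub, GP1_HP, GP1_HP, GP1_BB, g1, g2, f0, f2] at hW
  rw [map_sub, map_add, map_mul, map_mul, map_mul, map_mul, map_pow, map_pow, GP1_HP, GP1_HP,
    GP1_hm, GP1_hm, GP1_AA, GP1_BB, g1, g2, f0, f2] at hT
  refine ⟨hU, hW, hT, ?_, ?_⟩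
  · have h3 : x' - x = y - y' := by
      rw [sub_eq_sub_iff_add_eq_add, ← hsum]
      abel
    rw [h3]
    exact (show Commute y y' from cy y').mul_geom_sum₂ j
  · unfold hm h2
    rw [Nat.add_sub_cancel]

end HDP
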