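import Pool.Agent.Work.MP_c3bd4f_as.Interface3

/-! # Block GS1: the step from `Φ` to `Φ'` in the general theorem -/

set_option autoImplicit false

open scoped ContDiff Manifold Topology
open Set MeasureTheory

noncomputable section

namespace HDP

open HDC HDE

theorem GS1_hm {R : Type} [Ring R] (r : ℕ) (x y : R) : hm (r + 1) x y = h2 r x y := rfl

theorem GS1_vn {N : ℕ} {M : Type} [TopologicalSpace M] [ChartedSpace (EE N) M] (K : Set M)
    (F G : PFam N M) (hF : Vn K F) : Vn K (F * G) ∧ Vn K (G * F) := by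
  refine ⟨⟨fun t ht e he x hx hxK => ?_, fun e he x hx => ?_, fun e he x hx => ?_⟩,
    ⟨fun t ht e he x hx hxK => ?_, fun e he x hx => ?_, fun e he x hx => ?_⟩⟩
  · change F t e x * G t e x = 0
    rw [hF.cs t ht e he x hx hxK, zero_mul]
  · change (F 0 e x * G 0 e x).1 = 0
    rw [PL.mul_fst, hF.v0 e he x hx, zero_mul]
  · change (F 1 e x * G 1 e x).1 = 0
    rw [PL.mul_fst, hF.v1 e he x hx, zero_mul]
  · change G t e x * F t e x = 0
    rw [hF.cs t ht e he x hx hxK, mul_zero]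
  · change (G 0 e x * F 0 e x).1 = 0
    rw [PL.mul_fst, hF.v0 e he x hx, mul_zero]
  · change (G 1 e x * F 1 e x).1 = 0
    rw [PL.mul_fst, hF.v1 e he x hx, mul_zero]

theorem GS1_alg {R : Type} [Ring R] [Algebra ℝ R]
    (d nu e e' c U U' W W' A B hmj h2r yj xr : R)
    (h1 : U' - U = d * A) (h2 : W' - W = d * B)
    (h3 : hmj * U' - h2r * W' = yj * A + xr * B)
    (hyj : yj * c = c * yj) (hxr : xr * c = c * xr) :
    (-1 : ℝ) • ((yj * (c * A) - nu * (d * A)) + (xr * (c * B) - e * (d * B)) +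
      (c * h2r - (e' - e)) * W') = (nu - c * hmj) * U' + e' * W' - (nu * U + e * W) := by
  have e1 : nu * U' = nu * U + nu * (d * A) := by rw [← h1, mul_sub]; abel
  have e2 : e * W' = e * W + e * (d * B) := by rw [← h2, mul_sub]; abel
  have e3 : c * (hmj * U') = c * (h2r * W') + c * (yj * A) + c * (xr * B) := by
    have h4 : hmj * U' = h2r * W' + yj * A + xr * B := by
      rw [add_assoc, ← h3]; abel
    rw [h4, mul_add, mul_add]
  have e4 : yj * (c * A) = c * (yj * A) := by rw [← mul_assoc, hyj, mul_assoc]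
  have e5 : xr * (c * B) = c * (xr * B) := by rw [← mul_assoc, hxr, mul_assoc]
  rw [neg_smul, one_smul, sub_mul, sub_mul, sub_mul, mul_assoc c hmj, mul_assoc c h2r, e3, e4,
    e5, e1, e2]
  abel

theorem p_GS1 (hGP1 : Stmt_GP1) (hGHC : Stmt_GHC) : Stmt_GS1 := by
  intro n M _ _ _ _ _ _ _ Ω vol K hn hS r j hj hjn hrj X X' wt nu e e' c xi hX hX' hwt dX dX'
    dwt hnu he he' hc hxi dnu de de' dc hVc hVxi dxi
  obtain ⟨A1, A2, A3, A4, A5, A6, A7, A8⟩ := q_DFA (2 * n) M
  obtain ⟨B1, B2, B3, B4, B5⟩ := q_DDA (2 * n) M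
  obtain ⟨N1, N2, N3, N4, N5, N6⟩ := q_NLA n M Ω vol K hS
  have hcen : ∀ F : PFam (2 * n) M, DFm 2 F → ∀ t ∈ Icc (0 : ℝ) 1,
      ∀ c ∈ atlas (EE (2 * n)) M, ∀ x ∈ c.target, ∀ y, F t c x * y = y * F t c x :=
    fun F hF t ht c hc x hx y => (q_PLA (2 * n)).1 _ _ (A6 2 F hF t ht c hc x hx)
  have hY : DFm 2 (wt - X) := (A1 _ _ _ hwt hX).2
  have hY' : DFm 2 (wt - X') := (A1 _ _ _ hwt hX').2
  have dY : DD (wt - X) 0 := by
    have := (B1 _ _ _ _ _ hwt hX dwt dX).2
    rwa [sub_zero] at this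
  have dY' : DD (wt - X') 0 := by
    have := (B1 _ _ _ _ _ hwt hX' dwt dX').2
    rwa [sub_zero] at this
  obtain ⟨-, -, -, -, ⟨hA, dA⟩, ⟨hB, dB, hB0⟩, ⟨hH, dH⟩⟩ :=
    hGHC (2 * n) M n r j X X' (wt - X) (wt - X') hj hjn hrj hX hX' hY hY' dX dX' dY dY'
  obtain ⟨-, ⟨hW, dW⟩, -⟩ :=
    hGHC (2 * n) M n r j X' X (wt - X') (wt - X) hj hjn hrj hX' hX hY' hY dX' dX dY' dY
  obtain ⟨-, -, -, -, -, -, ⟨hh, dh⟩⟩ :=
    hGHC (2 * n) M (r + 1) 0 (r + 1) X X' X X' (by omega) le_rfl (by omega) hX hX' hX hX'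
      dX dX' dX dX'
  rw [GS1_hm, Nat.add_sub_cancel] at hh
  rw [GS1_hm] at dh
  have hYj := ((q_HPC (2 * n) M (wt - X) X hY hX dY dX).1 j).1
  have hXr := ((q_HPC (2 * n) M X X hX hX dX dX).1 (r + 1)).1
  have hd : DFm 2 (X' - X) := (A1 _ _ _ hX' hX).2
  generalize hAdef : AA n r j X X' (wt - X) (wt - X') = A at *
  generalize hBdef : BB n r X X' (wt - X) (wt - X') = B at *
  -- first term
  have hcA : DFm (1 + 2 * (n - j)) (c * A) := A3 _ _ _ _ hc hA
  have dcA : DD (c * A) ((X' - X) * A) := by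
    have := q_LBP (2 * n) M 1 (2 * (n - j)) c A (X' - X) 0 hc hA dc dA
    simpa using this
  have hE1 : DFm (2 * n) (nu * (c * A)) := by
    have := A3 _ _ _ _ hnu hcA
    rwa [show 2 * j - 1 + (1 + 2 * (n - j)) = 2 * n by omega] at this
  have hodd : (-1 : ℝ) ^ (2 * j - 1) = -1 := by
    obtain ⟨i, rfl⟩ : ∃ i, j = i + 1 := ⟨j - 1, by omega⟩
    rw [show 2 * (i + 1) - 1 = 2 * i + 1 by omega, pow_succ, pow_mul]
    norm_num
  have hodd2 : (-1 : ℝ) ^ (2 * r + 1) = -1 := by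
    rw [pow_succ, pow_mul]
    norm_num
  have dE1 : DD (nu * (c * A)) ((wt - X) ^ j * (c * A) - nu * ((X' - X) * A)) := by
    have := q_LBP (2 * n) M (2 * j - 1) (1 + 2 * (n - j)) nu (c * A) ((wt - X) ^ j)
      ((X' - X) * A) hnu hcA dnu dcA
    rw [hodd, neg_smul, one_smul, ← sub_eq_add_neg] at this
    exact this
  have hG1 : DFm (2 * n + 1) ((wt - X) ^ j * (c * A) - nu * ((X' - X) * A)) := by
    have h1 := A3 _ _ _ _ hYj hcA
    have h2 := A3 _ _ _ _ hnu (A3 _ _ _ _ hd hA)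
    rw [show 2 * j + (1 + 2 * (n - j)) = 2 * n + 1 by omega] at h1
    rw [show 2 * j - 1 + (2 + 2 * (n - j)) = 2 * n + 1 by omega] at h2
    exact (A1 _ _ _ h1 h2).2
  have hV1 : Vn K (nu * (c * A)) := (GS1_vn K _ nu (GS1_vn K c A hVc).1).2
  have hN1 := q_STD n M Ω vol K hn hS _ _ hE1 hG1 hV1 dE1
  -- second term
  have hN2 : Nl n Ω vol K (X ^ (r + 1) * (c * B) - e * ((X' - X) * B)) := by
    rcases lt_or_ge r n with hrn | hrn
    · have hB' := hB hrn
      have hcB : DFm (1 + 2 * (n - r - 1)) (c * B) := A3 _ _ _ _ hc hB'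
      have dcB : DD (c * B) ((X' - X) * B) := by
        have := q_LBP (2 * n) M 1 (2 * (n - r - 1)) c B (X' - X) 0 hc hB' dc dB
        simpa using this
      have hE2 : DFm (2 * n) (e * (c * B)) := by
        have := A3 _ _ _ _ he hcB
        rwa [show 2 * r + 1 + (1 + 2 * (n - r - 1)) = 2 * n by omega] at this
      have dE2 : DD (e * (c * B)) (X ^ (r + 1) * (c * B) - e * ((X' - X) * B)) := by
        have := q_LBP (2 * n) M (2 * r + 1) (1 + 2 * (n - r - 1)) e (c * B) (X ^ (r + 1))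
          ((X' - X) * B) he hcB de dcB
        rw [hodd2, neg_smul, one_smul, ← sub_eq_add_neg] at this
        exact this
      have hG2 : DFm (2 * n + 1) (X ^ (r + 1) * (c * B) - e * ((X' - X) * B)) := by
        have h1 := A3 _ _ _ _ hXr hcB
        have h2 := A3 _ _ _ _ he (A3 _ _ _ _ hd hB')
        rw [show 2 * (r + 1) + (1 + 2 * (n - r - 1)) = 2 * n + 1 by omega] at h1
        rw [show 2 * r + 1 + (2 + 2 * (n - r - 1)) = 2 * n + 1 by omega] at h2
        exact (A1 _ _ _ h1 h2).2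
      exact q_STD n M Ω vol K hn hS _ _ hE2 hG2 (GS1_vn K _ e (GS1_vn K c B hVc).1).2 dE2
    · have hrn' : r = n := by omega
      have hBz : B = 0 := hB0 hrn'
      rw [hBz, mul_zero, mul_zero, mul_zero, mul_zero, sub_zero]
      exact N6
  -- third term
  generalize hWdef : WW n r X' (wt - X') = W' at *
  have hE3 : DFm (2 * n) (xi * W') := by
    have := A3 _ _ _ _ hxi hW
    rwa [show 2 * r + 2 * (n - r) = 2 * n by omega] at this
  have dE3 : DD (xi * W') ((c * h2 r X X' - (e' - e)) * W') := by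
    have := q_LBP (2 * n) M (2 * r) (2 * (n - r)) xi W' (c * h2 r X X' - (e' - e)) 0 hxi hW
      dxi dW
    simpa using this
  have hG3 : DFm (2 * n + 1) ((c * h2 r X X' - (e' - e)) * W') := by
    have h1 := A3 _ _ _ _ hc hh
    rw [show 1 + 2 * r = 2 * r + 1 by omega] at h1
    have h2 := A3 _ _ _ _ (A1 _ _ _ h1 (A1 _ _ _ he' he).2).2 hW
    rwa [show 2 * r + 1 + 2 * (n - r) = 2 * n + 1 by omega] at h2
  have hN3 := q_STD n M Ω vol K hn hS _ _ hE3 hG3 (GS1_vn K xi W' hVxi).1 dE3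
  have hNs := (N4 _ _ (-1) (N4 _ _ 1 (N4 _ _ 1 hN1 hN2).1 hN3).1 hN3).2.2
  -- the new primitive
  have hcH : DFm (2 * j - 1) (c * hm j (wt - X) (wt - X')) := by
    have := A3 _ _ _ _ hc hH
    rwa [show 1 + 2 * (j - 1) = 2 * j - 1 by omega] at this
  have dcH : DD (c * hm j (wt - X) (wt - X')) ((X' - X) * hm j (wt - X) (wt - X')) := by
    have := q_LBP (2 * n) M 1 (2 * (j - 1)) c (hm j (wt - X) (wt - X')) (X' - X) 0 hc hH dc dH
    simpa using this
  have hpt : ∀ t ∈ Icc (0 : ℝ) 1, ∀ ch ∈ atlas (EE (2 * n)) M, ∀ x ∈ ch.target, _ :=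
    fun t ht ch hch x hx => hGP1 (PL (2 * n)) n r j (X t ch x) (X' t ch x)
      (wt t ch x - X t ch x) (wt t ch x - X' t ch x) hj hrj (hcen X hX t ht ch hch x hx)
      (hcen X' hX' t ht ch hch x hx) (hcen (wt - X) hY t ht ch hch x hx)
      (hcen (wt - X') hY' t ht ch hch x hx) (by abel)
  refine ⟨nu - c * hm j (wt - X) (wt - X'), (A1 _ _ _ hnu hcH).2, ?_, ?_, ?_⟩
  · have h1 := (B1 _ _ _ _ _ hnu hcH dnu dcH).2
    refine B3 _ _ _ _ (fun t ht ch hch x hx => rfl) (fun t ht ch hch x hx => ?_) h1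
    obtain ⟨-, -, -, h4, -⟩ := hpt t ht ch hch x hx
    change (wt t ch x - X t ch x) ^ j -
      (X' t ch x - X t ch x) * (hm j (wt - X) (wt - X')) t ch x = (wt t ch x - X' t ch x) ^ j
    rw [hm_apply]
    change (wt t ch x - X t ch x) ^ j - (X' t ch x - X t ch x) *
      hm j (wt t ch x - X t ch x) (wt t ch x - X' t ch x) = (wt t ch x - X' t ch x) ^ j
    rw [h4]
    abel
  · have hsub : nu - c * hm j (wt - X) (wt - X') - nu = -(c * hm j (wt - X) (wt - X')) := by
      abel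
    rw [hsub]
    have hV := (GS1_vn K c (hm j (wt - X) (wt - X')) hVc).1
    refine ⟨fun t ht e he x hx hxK => ?_, fun e he x hx => ?_, fun e he x hx => ?_⟩
    · change -((c * hm j (wt - X) (wt - X')) t e x) = 0
      rw [hV.cs t ht e he x hx hxK, neg_zero]
    · change (-((c * hm j (wt - X) (wt - X')) 0 e x)).1 = 0
      rw [PL.neg_fst, hV.v0 e he x hx, neg_zero]
    · change (-((c * hm j (wt - X) (wt - X')) 1 e x)).1 = 0
      rw [PL.neg_fst, hV.v1 e he x hx, neg_zero]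
  · refine N5 _ _ (fun t ht ch hch x hx => ?_) hNs
    obtain ⟨g1, g2, g3, -, g5⟩ := hpt t ht ch hch x hx
    have hcY := hcen (wt - X) hY t ht ch hch x hx
    have hcX := hcen X hX t ht ch hch x hx
    have hyj : (wt t ch x - X t ch x) ^ j * c t ch x = c t ch x * (wt t ch x - X t ch x) ^ j :=
      Commute.pow_left (show Commute (wt t ch x - X t ch x) (c t ch x) from hcY _) j
    have hxr : X t ch x ^ (r + 1) * c t ch x = c t ch x * X t ch x ^ (r + 1) :=
      Commute.pow_left (show Commute (X t ch x) (c t ch x) from hcX _) (r + 1)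
    have key := GS1_alg (X' t ch x - X t ch x) (nu t ch x) (e t ch x) (e' t ch x) (c t ch x)
      _ _ _ _ _ _ _ _ _ _ g1 g2 g3 hyj hxr
    rw [g5] at key
    have eA : A t ch x = AA n r j (X t ch x) (X' t ch x) (wt t ch x - X t ch x)
        (wt t ch x - X' t ch x) := by
      rw [← hAdef]; exact AA_apply _ _ _ _ _ _ _ _ _ _
    have eB : B t ch x = BB n r (X t ch x) (X' t ch x) (wt t ch x - X t ch x)
        (wt t ch x - X' t ch x) := by
      rw [← hBdef]; exact BB_apply _ _ _ _ _ _ _ _ _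
    have eW' : W' t ch x = WW n r (X' t ch x) (wt t ch x - X' t ch x) := by
      rw [← hWdef]; exact WW_apply _ _ _ _ _ _ _
    have eW : (WW n r X (wt - X)) t ch x = WW n r (X t ch x) (wt t ch x - X t ch x) :=
      WW_apply _ _ _ _ _ _ _
    have eU' : (UU n r j X' (wt - X')) t ch x =
        UU n r j (X' t ch x) (wt t ch x - X' t ch x) := UU_apply _ _ _ _ _ _ _ _
    have eU : (UU n r j X (wt - X)) t ch x = UU n r j (X t ch x) (wt t ch x - X t ch x) :=
      UU_apply _ _ _ _ _ _ _ _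
    have eh : (hm j (wt - X) (wt - X')) t ch x =
        hm j (wt t ch x - X t ch x) (wt t ch x - X' t ch x) := hm_apply _ _ _ _ _ _
    have eh2 : (h2 r X X') t ch x = h2 r (X t ch x) (X' t ch x) := h2_apply _ _ _ _ _ _
    change (-1 : ℝ) • (((wt t ch x - X t ch x) ^ j * (c t ch x * A t ch x) -
        nu t ch x * ((X' t ch x - X t ch x) * A t ch x)) +
        (X t ch x ^ (r + 1) * (c t ch x * B t ch x) -
          e t ch x * ((X' t ch x - X t ch x) * B t ch x)) +
        (c t ch x * (h2 r X X') t ch x - (e' t ch x - e t ch x)) * W' t ch x) =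
      (nu t ch x - c t ch x * (hm j (wt - X) (wt - X')) t ch x) *
        (UU n r j X' (wt - X')) t ch x + e' t ch x * W' t ch x -
        (nu t ch x * (UU n r j X (wt - X)) t ch x + e t ch x * (WW n r X (wt - X)) t ch x)
    rw [eA, eB, eW', eW, eU', eU, eh, eh2]
    exact key

end HDP
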