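import Pool.Agent.Work.MP_c3bd4f_as.Interface

set_option autoImplicit false

open scoped ContDiff Manifold Topology
open Set MeasureTheory

noncomputable section

namespace HDP

open HDC HDE

/-- The derivative in the space direction. -/
theorem GSP_space (hLSX : Stmt_LSX) {N m : ℕ} {M E Γ : Type} [TopologicalSpace M]
    [ChartedSpace (EE N) M] [TopologicalSpace E] [Group Γ] [MulAction Γ E] {q : E → M}
    (hq : IsQuotientCoveringMap q Γ) {g : E → EE m} {Φ : ℝ → M → M} {Ψ : ℝ → E → E}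
    (hL : Lft Γ q Φ Ψ) {t : ℝ} (ht : t ∈ Icc (0 : ℝ) 1)
    {c c' : OpenPartialHomeomorph M (EE N)} {U U' : Set (EE N)} {s s' : EE N → E}
    (hs : LSec q c U s) (hs' : LSec q c' U' s') {x : EE N} (hxU : x ∈ U)
    (hp : c' (Φ t (c.symm x)) ∈ U')
    (he : s' (c' (Φ t (c.symm x))) = Ψ t (s x))
    (hd : ContinuousAt (fun y => c' (Φ t (c.symm y))) x)
    (hn : ∀ᶠ y in 𝓝 x, y ∈ c.target ∧ Φ t (c.symm y) ∈ c'.source) :
    ∀ᶠ y in 𝓝 x, g (Ψ t (s y)) = g (s' (c' (Φ t (c.symm y)))) := by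
  have hcs : ContinuousAt s x := hs.cont.continuousAt (hs.op.mem_nhds hxU)
  have hΨ : Continuous (fun e => Ψ t e) :=
    hL.ct.comp_continuous (f := fun e : E => ((t, e) : ℝ × E)) (by fun_prop)
      (fun e => ⟨ht, mem_univ _⟩)
  have h1 : ContinuousAt (fun y => Ψ t (s y)) x := hΨ.continuousAt.comp hcs
  have h2 : ContinuousAt (fun y => s' (c' (Φ t (c.symm y)))) x :=
    ContinuousAt.comp (f := fun y => c' (Φ t (c.symm y))) (g := s')
      (hs'.cont.continuousAt (hs'.op.mem_nhds hp)) hd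
  have h3 := (hLSX M E Γ q hq).2.2 (EE N) (fun y => Ψ t (s y))
    (fun y => s' (c' (Φ t (c.symm y)))) univ x h1.continuousWithinAt h2.continuousWithinAt
    he.symm
  rw [nhdsWithin_univ] at h3
  have h4 := h3 (by
    filter_upwards [hs.op.mem_nhds hxU, hn, hd.eventually_mem (hs'.op.mem_nhds hp)] with y
      hy1 hy2 hy3
    rw [hL.pr t ht, hs.sec y hy1, hs'.sec _ hy3, c'.left_inv hy2.2])
  filter_upwards [h4] with y hy
  rw [hy]

/-- The derivative in time. -/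
theorem GSP_time (hLSX : Stmt_LSX) {N m : ℕ} {M E Γ : Type} [TopologicalSpace M]
    [ChartedSpace (EE N) M] [TopologicalSpace E] [Group Γ] [MulAction Γ E] {q : E → M}
    (hq : IsQuotientCoveringMap q Γ) {g : E → EE m} {Φ : ℝ → M → M} {Ψ : ℝ → E → E}
    (hL : Lft Γ q Φ Ψ) {t : ℝ} (ht : t ∈ Icc (0 : ℝ) 1)
    {c c' : OpenPartialHomeomorph M (EE N)} {U U' : Set (EE N)} {s s' : EE N → E}
    (hs : LSec q c U s) (hs' : LSec q c' U' s') {x : EE N} (hxU : x ∈ U)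
    (hp : c' (Φ t (c.symm x)) ∈ U') (hps : Φ t (c.symm x) ∈ c'.source)
    (he : s' (c' (Φ t (c.symm x))) = Ψ t (s x))
    (hd : ContinuousWithinAt (fun u => c' (Φ u (c.symm x))) (Icc 0 1) t)
    (hc : ContinuousWithinAt (fun u => Φ u (c.symm x)) (Icc 0 1) t) :
    ∀ᶠ u in 𝓝[Icc 0 1] t, g (Ψ u (s x)) = g (s' (c' (Φ u (c.symm x)))) := by
  have h1 : ContinuousWithinAt (fun u => Ψ u (s x)) (Icc 0 1) t := by
    have h5 : ContinuousOn (fun u => Ψ u (s x)) (Icc 0 1) :=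
      hL.ct.comp (f := fun u : ℝ => ((u, s x) : ℝ × E)) (by fun_prop)
        (fun u hu => ⟨hu, mem_univ _⟩)
    exact h5 t ht
  have h2 : ContinuousWithinAt (fun u => s' (c' (Φ u (c.symm x)))) (Icc 0 1) t :=
    ContinuousAt.comp_continuousWithinAt (f := fun u => c' (Φ u (c.symm x))) (g := s')
      (hs'.cont.continuousAt (hs'.op.mem_nhds hp)) hd
  have h3 := (hLSX M E Γ q hq).2.2 ℝ (fun u => Ψ u (s x))
    (fun u => s' (c' (Φ u (c.symm x)))) (Icc 0 1) t h1 h2 he.symm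
  have h4 := h3 (by
    filter_upwards [self_mem_nhdsWithin, hd.eventually (hs'.op.mem_nhds hp),
      hc.eventually (c'.open_source.mem_nhds hps)] with u hu1 hu2 hu3
    rw [hL.pr u hu1, hs.sec x hxU, hs'.sec _ hu2, c'.left_inv hu3])
  filter_upwards [h4] with u hu
  rw [hu]

theorem p_GSP (hPQA : Stmt_PQA) (_hPGA : Stmt_PGA) (hLSX : Stmt_LSX) (hEMG : Stmt_EMG)
    (hPLV : Stmt_PLV) : Stmt_GSP := by
  intro n m M E Γ _ _ _ _ _ _ q ρ g Ω w H Φ Ψ θ hq hρ hg hHS hL hθ hw t ht c hc x hx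
  have hΦ : SmI (2 * n) Φ := hHS.iso.smooth
  have hEM : EM (2 * n) q ρ (fun t e => g (Ψ t e)) :=
    (hEMG (2 * n) m M E Γ q ρ hq).1 g Φ Ψ hg hΦ hL
  obtain ⟨e, he⟩ := (hLSX M E Γ q hq).1 (c.symm x)
  obtain ⟨U, s, hs, hxU, hsx⟩ := (hLSX M E Γ q hq).2.1 (2 * n) c x hx e he
  rw [hPLV (2 * n) m M E Γ q ρ (fun t e => g (Ψ t e)) θ hq hρ hEM hθ t ht c hc U s hs x hxU]
  have hp1 : Φ t (c.symm x) ∈ (chartAt (EE (2 * n)) (Φ t (c.symm x))).source :=
    mem_chart_source _ _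
  have hc' : chartAt (EE (2 * n)) (Φ t (c.symm x)) ∈ atlas (EE (2 * n)) M :=
    chart_mem_atlas _ _
  generalize hcc : chartAt (EE (2 * n)) (Φ t (c.symm x)) = c' at hp1 hc'
  have he1 : q (Ψ t (s x)) = c'.symm (c' (Φ t (c.symm x))) := by
    rw [c'.left_inv hp1, hL.pr t ht, hs.sec x hxU]
  obtain ⟨U', s', hs', hxU', hsx'⟩ := (hLSX M E Γ q hq).2.1 (2 * n) c'
    (c' (Φ t (c.symm x))) (c'.map_source hp1) (Ψ t (s x)) he1
  obtain ⟨hd, hnear⟩ := PBX_near q_PDL q_PHL hΦ ht hc hc' hx hp1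
  have hB : DifferentiableAt ℝ (fun y => g (s' y)) (c' (Φ t (c.symm x))) :=
    ((hg.sm c' hc' U' s' hs').contDiffAt (hs'.op.mem_nhds hxU')).differentiableAt (by simp)
  have hflw : Flw (XX Ω H) Φ :=
    (q_XHS (2 * n) M Ω H hHS.symp.form hHS.symp.nondeg hHS.ham).2.2 Φ hHS.iso
  have hode := hflw.ode t ht (c.symm x) c' hc' hp1
  have hΦc : ContinuousWithinAt (fun u => Φ u (c.symm x)) (Icc 0 1) t := by
    have h5 : ContinuousOn (fun u => Φ u (c.symm x)) (Icc 0 1) :=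
      (q_PHL (2 * n) M Φ hΦ).1.comp (f := fun u : ℝ => ((u, c.symm x) : ℝ × M)) (by fun_prop)
        (fun u hu => ⟨hu, mem_univ _⟩)
    exact h5 t ht
  -- space
  have hsp := GSP_space hLSX hq (g := g) hL ht hs hs' hxU hxU' hsx' hd.continuousAt hnear
  have hA : fderiv ℝ (fun y => g (Ψ t (s y))) x =
      (fderiv ℝ (fun y => g (s' y)) (c' (Φ t (c.symm x)))).comp
        (fderiv ℝ (fun y => c' (Φ t (c.symm y))) x) := by
    have h6 : (fun y => g (Ψ t (s y))) =ᶠ[𝓝 x]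
        (fun z => g (s' z)) ∘ (fun y => c' (Φ t (c.symm y))) := hsp
    rw [h6.fderiv_eq]
    exact fderiv_comp x hB (hd.differentiableAt (by simp))
  -- time
  have htm := GSP_time hLSX hq (g := g) hL ht hs hs' hxU hxU' hp1 hsx'
    hode.continuousWithinAt hΦc
  have hV : dC (fun u y => g (Ψ u (s y))) t x =
      fderiv ℝ (fun y => g (s' y)) (c' (Φ t (c.symm x)))
        (XX Ω H t c' (c' (Φ t (c.symm x)))) := by
    unfold dC
    have h7 : HasDerivWithinAt (fun u => g (s' (c' (Φ u (c.symm x)))))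
        (fderiv ℝ (fun y => g (s' y)) (c' (Φ t (c.symm x)))
          (XX Ω H t c' (c' (Φ t (c.symm x))))) (Icc 0 1) t :=
      HasFDerivAt.comp_hasDerivWithinAt (f := fun u => c' (Φ u (c.symm x)))
        (l := fun y => g (s' y)) t hB.hasFDerivAt hode
    have h8 := h7.congr_of_eventuallyEq htm (by rw [← hsx'])
    exact h8.derivWithin (uniqueDiffOn_Icc zero_lt_one t ht)
  -- the form
  have hwv : w c' (c' (Φ t (c.symm x))) =
      pq (fderiv ℝ (fun y => g (s' y)) (c' (Φ t (c.symm x)))) (θ (g (Ψ t (s x)))) := by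
    rw [hw c' hc' U' s' hs' _ hxU', ← hsx']
    rfl
  have key1 : (GS Ω H Φ w t c x).1 =
      pb (fderiv ℝ (fun y => c' (Φ t (c.symm y))) x) (w c' (c' (Φ t (c.symm x)))) := by
    rw [← hcc]
    rfl
  have key2 : (GS Ω H Φ w t c x).2 =
      pb (fderiv ℝ (fun y => c' (Φ t (c.symm y))) x)
        (ctr (XX Ω H t c' (c' (Φ t (c.symm x)))) (w c' (c' (Φ t (c.symm x))))) := by
    rw [← hcc]
    rfl
  obtain ⟨-, hP2, -, hP4, -, -, hP7⟩ := hPQA
  apply PL.ext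
  · rw [key1, hwv, ← hP7, ← hP2, ← hA]
    rfl
  · rw [key2, hwv, ← hP7, ← hP4, ← hP2, ← hA, ← hV]
    rfl

end HDP
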