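import Pool.Agent.Work.MP_c3bd4f_as.Interface

set_option autoImplicit false

open scoped ContDiff Manifold Topology
open Set MeasureTheory

noncomputable section

namespace HDP

open HDC HDE

theorem H3C_sum {N : ℕ} {M : Type} [TopologicalSpace M] [ChartedSpace (EE N) M]
    [IsManifold 𝓘(ℝ, EE N) ∞ M] (l : ℕ) (f : ℕ → PFam N M) (s : ℕ)
    (h : ∀ i < s, DFm l (f i) ∧ DD (f i) 0) :
    DFm l (∑ i ∈ Finset.range s, f i) ∧ DD (∑ i ∈ Finset.range s, f i) 0 := by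
  induction s with
  | zero =>
    rw [Finset.sum_range_zero]
    exact ⟨(HDE.q_DFA N M).2.2.2.2.2.2.2 l, (HDE.q_DDA N M).2.2.2.2⟩
  | succ s ih =>
    obtain ⟨i1, i2⟩ := ih fun i hi => h i (by omega)
    obtain ⟨j1, j2⟩ := h s (by omega)
    rw [Finset.sum_range_succ]
    refine ⟨((HDE.q_DFA N M).1 l _ _ i1 j1).1, ?_⟩
    have h2 := ((HDE.q_DDA N M).1 l _ _ _ _ i1 j1 i2 j2).1
    rwa [add_zero] at h2

theorem H3C_two {N : ℕ} {M : Type} [TopologicalSpace M] [ChartedSpace (EE N) M]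
    [IsManifold 𝓘(ℝ, EE N) ∞ M] (k : ℕ) (X Y : PFam N M) (hX : DFm 2 X) (hY : DFm 2 Y)
    (dX : DD X 0) (dY : DD Y 0) : DFm (2 * k) (h2 k X Y) ∧ DD (h2 k X Y) 0 := by
  have h1 := (HDE.q_HPC N M X Y hX hY dX dY).2 k (k + 1) (fun _ => 1) (fun i hi _ => by omega)
  have h2' : h2 k X Y = HP k (k + 1) (fun _ => 1) X Y := by
    unfold h2 HP
    simp only [one_smul]
  rw [h2']
  exact h1

theorem p_H3C : Stmt_H3C := by
  intro N M _ _ _ k X Y Z hX hY hZ dX dY dZ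
  have h1 := H3C_two k X Y hX hY dX dY
  refine ⟨h1.1, h1.2, ?_⟩
  unfold h3
  refine H3C_sum (2 * k) (fun i => X ^ i * h2 (k - i) Y Z) (k + 1) ?_
  intro i hi
  obtain ⟨a1, a2⟩ := (HDE.q_HPC N M X Y hX hY dX dY).1 i
  obtain ⟨b1, b2⟩ := H3C_two (k - i) Y Z hY hZ dY dZ
  have e : 2 * k = 2 * i + 2 * (k - i) := by omega
  refine ⟨?_, ?_⟩
  · rw [e]
    exact (HDE.q_DFA N M).2.2.1 _ _ _ _ a1 b1
  · have h2' := HDE.q_LBP N M _ _ _ _ _ _ a1 b1 a2 b2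
    have e2 : (0 : PFam N M) * h2 (k - i) Y Z + (-1 : ℝ) ^ (2 * i) • (X ^ i * (0 : PFam N M)) = 0 := by
      rw [zero_mul, mul_zero, smul_zero, add_zero]
    rw [e2] at h2'
    exact h2'

end HDP
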