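import Pool.Agent.Work.MP_c3bd4f_as.Interface

set_option autoImplicit false

open scoped ContDiff Manifold Topology
open Set MeasureTheory

noncomputable section

namespace HDP

open HDC HDE

theorem p_LFE : Stmt_LFE := by
  intro N M E Γ _ _ _ _ _ _ q Φ Φ' Ψ Ψ' K hNoC hq hK hΦ hΦ' h1 hΨ hΨ' e
  have cov : IsCoveringMap q := hq.isCoveringMap
  have hlpc : LocallyPathConnectedSpace M := ChartedSpace.locallyPathConnectedSpace (EE N) M
  obtain ⟨p', hp', hpK⟩ : ∃ p' ∈ connectedComponent (q e), p' ∉ K := by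
    by_contra hcon
    push Not at hcon
    exact hNoC (q e) (hK.of_isClosed_subset isClosed_connectedComponent hcon)
  rw [← pathComponent_eq_connectedComponent] at hp'
  obtain ⟨τ⟩ : Nonempty (Path (q e) p') := hp'
  obtain ⟨T, hT, hT0⟩ : ∃ T : C(unitInterval, E), (∀ u, q (T u) = τ u) ∧ T 0 = e :=
    ⟨cov.liftPath τ.toContinuousMap e τ.source,
      fun u => congrFun (cov.liftPath_lifts τ.toContinuousMap e τ.source) u,
      cov.liftPath_zero τ.toContinuousMap e τ.source⟩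
  have hone : (1 : ℝ) ∈ Icc (0 : ℝ) 1 := ⟨zero_le_one, le_rfl⟩
  have hc : ∀ Θ : ℝ → E → E, ContinuousOn (fun p : ℝ × E => Θ p.1 p.2) (Icc 0 1 ×ˢ univ) →
      Continuous (fun u => Θ 1 (T u)) := by
    intro Θ h
    exact h.comp_continuous (f := fun u : unitInterval => ((1 : ℝ), T u))
      (Continuous.prodMk continuous_const T.continuous) (fun u => ⟨hone, mem_univ _⟩)
  have hq1 : q (T 1) ∉ K := by
    rw [hT, τ.target]
    exact hpK
  have key := cov.eq_of_comp_eq (hc Ψ hΨ.ct) (hc Ψ' hΨ'.ct) (by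
    funext u
    show q (Ψ 1 (T u)) = q (Ψ' 1 (T u))
    rw [hΨ.pr 1 hone, hΨ'.pr 1 hone, h1]) 1 (by
    show Ψ 1 (T 1) = Ψ' 1 (T 1)
    rw [hΨ.fx (T 1) (fun t ht => hΦ t ht _ hq1) 1 hone,
      hΨ'.fx (T 1) (fun t ht => hΦ' t ht _ hq1) 1 hone])
  have h2 := congrFun key 0
  change Ψ 1 (T 0) = Ψ' 1 (T 0) at h2
  rwa [hT0] at h2

end HDP
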