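import Pool.Agent.Work.MP_c3bd4f_as.Interface

/-! Block LFT (helper98): the lift of an isotopy. -/

set_option autoImplicit false

open scoped ContDiff Manifold Topology
open Set MeasureTheory

noncomputable section

namespace HDP

open HDC HDE

theorem p_LFT : Stmt_LFT := by
  intro M E Γ _ _ _ _ q Φ hq hΦ h0
  have cov : IsCoveringMap q := hq.isCoveringMap
  have hcs : ContinuousConstSMul Γ E := hq.toContinuousConstSMul
  have hH : Continuous (fun z : unitInterval × E => Φ z.1 (q z.2)) := by
    refine hΦ.comp_continuous (f := fun z : unitInterval × E => ((z.1 : ℝ), q z.2)) ?_ ?_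
    · exact (continuous_subtype_val.comp continuous_fst).prodMk
        (cov.continuous.comp continuous_snd)
    · intro z
      exact ⟨z.1.2, mem_univ _⟩
  obtain ⟨H, hHd⟩ : ∃ H : C(unitInterval × E, M), ∀ z, H z = Φ z.1 (q z.2) :=
    ⟨⟨_, hH⟩, fun _ => rfl⟩
  have hH0 : ∀ e : E, H (0, e) = q ((ContinuousMap.id E) e) := by
    intro e
    rw [hHd]
    exact h0 _
  obtain ⟨L, hL1, hL2⟩ : ∃ L : C(unitInterval × E, E),
      (∀ z, q (L z) = Φ z.1 (q z.2)) ∧ ∀ e, L (0, e) = e :=
    ⟨cov.liftHomotopy H (ContinuousMap.id E) hH0, fun z => by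
      have h1 := congrFun (cov.liftHomotopy_lifts H (ContinuousMap.id E) hH0) z
      rw [← hHd]
      exact h1, fun e => cov.liftHomotopy_zero H (ContinuousMap.id E) hH0 e⟩
  have huniq : ∀ f f' : unitInterval → E, Continuous f → Continuous f' →
      (∀ t, q (f t) = q (f' t)) → f 0 = f' 0 → ∀ t, f t = f' t := by
    intro f f' h1 h2 h3 h4 t
    exact congrFun (cov.eq_of_comp_eq h1 h2 (funext h3) 0 h4) t
  have hcont : ∀ e, Continuous (fun t : unitInterval => L (t, e)) := fun e =>
    L.continuous.comp (continuous_id.prodMk continuous_const)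
  have hproj : ∀ t ∈ Icc (0 : ℝ) 1,
      ((projIcc (0 : ℝ) 1 zero_le_one t : unitInterval) : ℝ) = t := by
    intro t ht
    rw [projIcc_of_mem zero_le_one ht]
  refine ⟨fun t e => L (projIcc (0 : ℝ) 1 zero_le_one t, e), ?_, ?_, ?_, ?_, ?_⟩
  · refine Continuous.continuousOn ?_
    exact L.continuous.comp ((continuous_projIcc.comp continuous_fst).prodMk continuous_snd)
  · intro t ht e
    show q (L (projIcc (0 : ℝ) 1 zero_le_one t, e)) = Φ t (q e)
    rw [hL1]
    show Φ ((projIcc (0 : ℝ) 1 zero_le_one t : unitInterval) : ℝ) (q e) = Φ t (q e)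
    rw [hproj t ht]
  · intro e
    show L (projIcc (0 : ℝ) 1 zero_le_one 0, e) = e
    rw [projIcc_left]
    exact hL2 e
  · intro t _ γ e
    refine huniq (fun t => L (t, γ • e)) (fun t => γ • L (t, e)) (hcont _)
      ((hcont e).const_smul γ) ?_ ?_ _
    · intro t
      rw [hq.map_smul, hL1, hL1, hq.map_smul]
    · show L (0, γ • e) = γ • L (0, e)
      rw [hL2, hL2]
  · intro e he t _
    refine huniq (fun t => L (t, e)) (fun _ => e) (hcont _) continuous_const ?_ ?_ _
    · intro t
      rw [hL1]
      exact he t t.2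
    · exact hL2 e

end HDP
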