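import Pool.Agent.Work.MP_c3bd4f_as.Interface

set_option autoImplicit false

open scoped ContDiff Manifold Topology
open Set MeasureTheory

noncomputable section

namespace HDP

open HDC HDE

theorem p_LSU (hLSX : Stmt_LSX) : Stmt_LSU := by
  intro N M E Γ _ _ _ _ q hq c U U' s s' hs hs' x hxU hxU'
  have := hq.toContinuousConstSMul
  have h1 : q (s' x) = q (s x) := by rw [hs'.sec x hxU', hs.sec x hxU]
  obtain ⟨γ, hγ⟩ := MulAction.mem_orbit_iff.mp (hq.apply_eq_iff_mem_orbit.mp h1)
  refine ⟨γ, ?_⟩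
  have hcs : ContinuousAt s x := hs.cont.continuousAt (hs.op.mem_nhds hxU)
  have hcs' : ContinuousAt s' x := hs'.cont.continuousAt (hs'.op.mem_nhds hxU')
  have h3 := (hLSX M E Γ q hq).2.2 (EE N) s' (fun y => γ • s y) univ x
    hcs'.continuousWithinAt (hcs.const_smul γ).continuousWithinAt hγ.symm
  rw [nhdsWithin_univ] at h3
  apply h3
  filter_upwards [hs.op.mem_nhds hxU, hs'.op.mem_nhds hxU'] with y hy hy'
  rw [hs'.sec y hy', hq.map_smul, hs.sec y hy]

end HDP
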