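import Pool.Agent.Work.MP_c3bd4f_as.Interface

/-!
# MP_c3bd4f_gt, THEOREM AS, block LSX: local sections
-/

set_option autoImplicit false

open scoped ContDiff Manifold Topology
open Set MeasureTheory

noncomputable section

namespace HDP

open HDC HDE

theorem p_LSX : Stmt_LSX := by
  intro M E Γ _ _ _ _ q hq
  have hl : IsLocalHomeomorph q := hq.isCoveringMap.isLocalHomeomorph
  refine ⟨fun p => hq.toIsQuotientMap.surjective p, ?_, ?_⟩
  · intro N c x hx e he
    obtain ⟨h, hes, hqh⟩ := hl e
    refine ⟨c.target ∩ c.symm ⁻¹' h.target, fun y => h.symm (c.symm y),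
      ⟨?_, Set.inter_subset_left, ?_, ?_⟩, ⟨hx, ?_⟩, ?_⟩
    · exact c.isOpen_inter_preimage_symm h.open_target
    · exact h.continuousOn_symm.comp (c.continuousOn_symm.mono Set.inter_subset_left)
        (fun y hy => hy.2)
    · intro y hy
      show q (h.symm (c.symm y)) = c.symm y
      rw [hqh]
      exact h.right_inv hy.2
    · show c.symm x ∈ h.target
      rw [← he, hqh]
      exact h.map_source hes
    · show h.symm (c.symm x) = e
      rw [← he, hqh]
      exact h.left_inv hes
  · intro P _ f f' S x hf hf' hx hev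
    obtain ⟨h, hes, hqh⟩ := hl (f x)
    have h1 : ∀ᶠ y in 𝓝[S] x, f y ∈ h.source := hf (h.open_source.mem_nhds hes)
    have h2 : ∀ᶠ y in 𝓝[S] x, f' y ∈ h.source := hf' (h.open_source.mem_nhds (hx ▸ hes))
    filter_upwards [h1, h2, hev] with y hy1 hy2 hy3
    rw [hqh] at hy3
    exact h.injOn hy1 hy2 hy3

end HDP
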