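import Pool.Agent.Work.MP_c3bd4f_as.Interface

set_option autoImplicit false

/-! # Block MAW: the Calabi invariant (helper79) -/

open scoped ContDiff Manifold Topology
open Set MeasureTheory

noncomputable section

namespace HDP

open HDC HDE

/-- `D` of a difference. -/
theorem MAW_D {N : ℕ} (f g : EE N → Lam N) (x : EE N) (hf : DifferentiableAt ℝ f x)
    (hg : DifferentiableAt ℝ g x) : D (f - g) x = D f x - D g x := by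
  unfold D
  rw [fderiv_sub hf hg, ← Finset.sum_sub_distrib]
  refine Finset.sum_congr rfl fun i _ => ?_
  rw [← mul_sub]
  rfl

/-- `Ω - dF μ` is a closed form. -/
theorem MAW_form (n : ℕ) (M : Type) [TopologicalSpace M] [ChartedSpace (EE (2 * n)) M]
    [IsManifold 𝓘(ℝ, EE (2 * n)) ∞ M] (Ω μ : Fam (2 * n) M) (hΩ : IsSymplectic n Ω)
    (hμ : IsForm 1 μ) : IsForm 2 (Ω - dF μ) ∧ EqF (dF (Ω - dF μ)) 0 := by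
  obtain ⟨-, f2, -, f4, f5, -, -, -⟩ := HDC.q_FO2 (2 * n) M
  have h1 : TForm 2 (fun _ => dF μ) := HDC.q_FO1 (2 * n) M 1 (fun _ => μ) (f4 1 μ hμ)
  have h2 : TForm 2 (fun _ => Ω - dF μ) := (f2 2 (fun _ => Ω) _ (f4 2 Ω hΩ.form) h1).2
  have h3 : IsForm 2 (dF μ) := f5 2 _ h1 0 ⟨le_refl 0, zero_le_one⟩
  refine ⟨f5 2 _ h2 0 ⟨le_refl 0, zero_le_one⟩, ?_⟩
  intro c hc x hx
  have hn : c.target ∈ 𝓝 x := c.open_target.mem_nhds hx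
  have hd1 : DifferentiableAt ℝ (Ω c) x :=
    ((hΩ.form.smooth c hc).contDiffAt hn).differentiableAt (by simp)
  have hd2 : DifferentiableAt ℝ (dF μ c) x :=
    ((h3.smooth c hc).contDiffAt hn).differentiableAt (by simp)
  have e1 : dF (Ω - dF μ) c x = D (Ω c) x - D (dF μ c) x := MAW_D _ _ x hd1 hd2
  have e2 : D (Ω c) x = 0 := hΩ.closed c hc x hx
  have e3 : D (dF μ c) x = 0 :=
    (HDC.q_DDZ (2 * n)).1 (μ c) x (((hμ.smooth c hc).contDiffAt hn).of_le (by norm_cast))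
  rw [e1, e2, e3, sub_zero]
  rfl

/-- The pullbacks by one isotopy. -/
theorem MAW_one (n : ℕ) (M : Type) [TopologicalSpace M] [ChartedSpace (EE (2 * n)) M]
    [IsManifold 𝓘(ℝ, EE (2 * n)) ∞ M] (Ω μ : Fam (2 * n) M) (hΩ : IsSymplectic n Ω)
    (hμ : IsForm 1 μ) (H : ℝ → M → ℝ) (Φ : ℝ → M → M) (hS : HS n Ω H Φ) :
    (DFm 2 (GS Ω H Φ Ω) ∧ DD (GS Ω H Φ Ω) 0) ∧
    (DFm 2 (GS Ω H Φ (Ω - dF μ)) ∧ DD (GS Ω H Φ (Ω - dF μ)) 0) ∧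
    DFm 1 (GS Ω H Φ μ) ∧ DD (GS Ω H Φ μ) (GS Ω H Φ Ω - GS Ω H Φ (Ω - dF μ)) := by
  obtain ⟨-, -, d3, -, -⟩ := HDE.q_DDA (2 * n) M
  obtain ⟨⟨h, hh⟩, hcong⟩ := HDE.q_GSM (2 * n) M Ω H Φ
  have h0 : GS Ω H Φ (0 : Fam (2 * n) M) = 0 := by rw [← hh, map_zero]
  have hrefl : ∀ F : PFam (2 * n) M, EqP F F := fun F t _ c _ x _ => rfl
  have hcl : ∀ f : Fam (2 * n) M, IsForm 2 f → EqF (dF f) 0 →
      DFm 2 (GS Ω H Φ f) ∧ DD (GS Ω H Φ f) 0 := by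
    intro f hf hdf
    obtain ⟨g1, g2⟩ := HDE.q_GSD n M Ω H Φ hS 2 f hf
    refine ⟨g1, ?_⟩
    have h1 := hcong _ _ hdf
    rw [h0] at h1
    exact d3 _ _ _ _ (hrefl _) h1 g2
  obtain ⟨w1, w2⟩ := MAW_form n M Ω μ hΩ hμ
  refine ⟨hcl Ω hΩ.form hΩ.closed, hcl _ w1 w2, ?_⟩
  obtain ⟨g1, g2⟩ := HDE.q_GSD n M Ω H Φ hS 1 μ hμ
  refine ⟨g1, ?_⟩
  have e : GS Ω H Φ (dF μ) = GS Ω H Φ Ω - GS Ω H Φ (Ω - dF μ) := by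
    rw [← hh, ← hh, ← hh, ← map_sub, sub_sub_cancel]
  rwa [e] at g2

/-- `X ^ (n + 1) = 0` for reasons of degree. -/
theorem MAW_nil (n : ℕ) (M : Type) [TopologicalSpace M] [ChartedSpace (EE (2 * n)) M]
    [IsManifold 𝓘(ℝ, EE (2 * n)) ∞ M] (X : PFam (2 * n) M) (h1 : DFm 2 X) (h2 : DD X 0) :
    EqP (X ^ (n + 1)) 0 := by
  intro t ht c hc x hx
  have h3 : DFm (2 * (n + 1)) (X ^ (n + 1)) :=
    ((HDE.q_HPC (2 * n) M X X h1 h1 h2 h2).1 (n + 1)).1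
  obtain ⟨-, -, -, -, -, a6, -, -⟩ := HDE.q_DFA (2 * n) M
  have h4 := a6 _ _ h3 t ht c hc x hx
  obtain ⟨-, -, -, -, e5, -, -, -⟩ := HDC.q_DEG (2 * n)
  refine PL.ext ?_ ?_
  · exact e5 _ _ (by omega) h4.h0
  · exact e5 (2 * n + 1) _ (by omega) (h4.h1 (2 * n + 1) (by ring))

theorem MAW_vadd {N : ℕ} {M : Type} [TopologicalSpace M] [ChartedSpace (EE N) M] {K : Set M}
    {F G : PFam N M} (hF : Vn K F) (hG : Vn K G) : Vn K (F + G) := HDE.MAI_vadd hF hG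

theorem MAW_ring {R : Type} [Ring R] [Algebra ℝ R] (a b c ka m U11 U01 U00 g : R) (s : ℝ)
    (h1 : c = ka + m) :
    (a * U01 - b * U00 + s • g) + (c * U11 - a * U01) - ka * U11
      = s • g + (m * U11 - b * U00) := by
  rw [h1, add_mul]
  abel

theorem p_MAW (hGEO : Stmt_GEO) (hESW : Stmt_ESW) (hEVW : Stmt_EVW) : Stmt_MAW := by
  intro n m M E Γ _ _ _ _ _ _ _ _ _ _ q ρ g σ η Ω μ vol K hn hSg hNoC hDat hμ hPB H H' Φ Φ' hT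
  obtain ⟨a1, -, -, -, -, -, -, -⟩ := HDE.q_DFA (2 * n) M
  obtain ⟨d1, -, d3, -, -⟩ := HDE.q_DDA (2 * n) M
  obtain ⟨-, n2, -, n4, n5, -⟩ := HDE.q_NLA n M Ω vol K hSg
  have hw := MAW_form n M Ω μ hSg.symp hμ
  obtain ⟨o2, o3, o4, o5⟩ := MAW_one n M Ω μ hSg.symp hμ H Φ hT.h
  obtain ⟨q2, q3, q4, q5⟩ := MAW_one n M Ω μ hSg.symp hμ H' Φ' hT.h'
  obtain ⟨g1, g2, g3, g4, g5⟩ := HDE.q_GDF n M Ω H H' Φ Φ' K hT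
  -- step 0
  have hY : DFm 2 (GS Ω H Φ Ω - GS Ω H Φ (Ω - dF μ)) ∧
      DD (GS Ω H Φ Ω - GS Ω H Φ (Ω - dF μ)) 0 := by
    refine ⟨(a1 2 _ _ o2.1 o3.1).2, ?_⟩
    have h := (d1 2 _ _ _ _ o2.1 o3.1 o2.2 o3.2).2
    rwa [sub_zero] at h
  have hdg : DFm 2 (GS Ω H Φ Ω - GS Ω H' Φ' Ω) ∧ DD (GS Ω H Φ Ω - GS Ω H' Φ' Ω) 0 := by
    refine ⟨(a1 2 _ _ o2.1 q2.1).2, ?_⟩
    have h := (d1 2 _ _ _ _ o2.1 q2.1 o2.2 q2.2).2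
    rwa [sub_zero] at h
  have o5' : DD (GS Ω H Φ μ) ((GS Ω H Φ Ω - GS Ω H Φ (Ω - dF μ)) ^ 1) := by
    rw [pow_one]
    exact o5
  obtain ⟨nu1, s1, s2, s3, s4⟩ := HDE.q_S0L n M Ω vol K hn hSg n 1 le_rfl hn le_rfl
    (GS Ω H Φ (Ω - dF μ)) (GS Ω H Φ Ω - GS Ω H Φ (Ω - dF μ))
    (gg (2 * n) H' Φ' - gg (2 * n) H Φ) (GS Ω H Φ Ω - GS Ω H' Φ' Ω) (GS Ω H Φ μ)
    o3.1 hY.1 g1 hdg.1 o4 o3.2 hY.2 g3 hdg.2 o5' g2 g4 g5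
    (MAW_nil n M _ o3.1 o3.2)
  have e1 : GS Ω H Φ Ω - GS Ω H Φ (Ω - dF μ) - (GS Ω H Φ Ω - GS Ω H' Φ' Ω)
      = GS Ω H' Φ' Ω - GS Ω H Φ (Ω - dF μ) := by abel
  have e2 : GS Ω H Φ (Ω - dF μ) + (GS Ω H Φ Ω - GS Ω H Φ (Ω - dF μ)) = GS Ω H Φ Ω := by abel
  rw [e1] at s2 s4
  rw [e2] at s4
  rw [pow_one] at s2
  -- the forms c and xi
  obtain ⟨c, xi, c1, c2, c3, c4, c5, c6⟩ := hGEO n m M E Γ q ρ g σ η Ω (Ω - dF μ) H H' Φ Φ' K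
    hDat hNoC hT hPB
  -- the step
  obtain ⟨nu2, t1, t2, t3, t4⟩ := hESW n M Ω vol K hn hSg (GS Ω H Φ (Ω - dF μ))
    (GS Ω H' Φ' (Ω - dF μ)) (GS Ω H' Φ' Ω) nu1 c xi o3.1 q3.1 q2.1 o3.2 q3.2 q2.2 s1 c1 c2 s2
    c5 c3 c4 c6
  -- the end
  have hY' : DFm 2 (GS Ω H' Φ' Ω - GS Ω H' Φ' (Ω - dF μ)) ∧
      DD (GS Ω H' Φ' Ω - GS Ω H' Φ' (Ω - dF μ)) 0 := by
    refine ⟨(a1 2 _ _ q2.1 q3.1).2, ?_⟩
    have h := (d1 2 _ _ _ _ q2.1 q3.1 q2.2 q3.2).2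
    rwa [sub_zero] at h
  have hka1 : DFm 1 (nu2 - GS Ω H' Φ' μ) := (a1 _ _ _ t1 q4).2
  have hka2 : DD (nu2 - GS Ω H' Φ' μ) 0 := by
    have h := (d1 1 _ _ _ _ t1 q4 t2 q5).2
    rwa [sub_self] at h
  have hka3 : Vn K (nu2 - GS Ω H' Φ' μ) := by
    have h := MAW_vadd (MAW_vadd t3 s3) (HDE.q_VMU n M Ω H H' Φ Φ' K hT 1 μ hμ)
    have e3 : nu2 - nu1 + (nu1 - GS Ω H Φ μ) + (GS Ω H Φ μ - GS Ω H' Φ' μ)
        = nu2 - GS Ω H' Φ' μ := by abel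
    rwa [e3] at h
  have hend : Nl n Ω vol K ((nu2 - GS Ω H' Φ' μ) *
      UU n n 1 (GS Ω H' Φ' (Ω - dF μ)) (GS Ω H' Φ' Ω - GS Ω H' Φ' (Ω - dF μ))) :=
    HDE.q_ENB n M Ω vol K hn hSg hNoC n le_rfl _ _ _ q3.1 hY'.1 q3.2 hY'.2 hka1 hka2 hka3
  have v0 := hEVW n M Ω μ (Ω - dF μ) H Φ hSg.symp.form hμ hw.1
  have v1 := hEVW n M Ω μ (Ω - dF μ) H' Φ' hSg.symp.form hμ hw.1
  -- adding up
  have hsum := (n4 _ _ 0 ((n4 _ _ 0 s4 t4).1) hend).2.1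
  rw [MAW_ring nu1 (GS Ω H Φ μ) nu2 (nu2 - GS Ω H' Φ' μ) (GS Ω H' Φ' μ) _ _ _ _ _
    (sub_add_cancel nu2 (GS Ω H' Φ' μ)).symm] at hsum
  have hfin : Nl n Ω vol K (((n : ℝ) + 1) •
      ((gg (2 * n) H' Φ' - gg (2 * n) H Φ) * (GS Ω H Φ Ω) ^ n)) := by
    refine n5 _ _ ?_ hsum
    intro t ht c hc x hx
    have w0 := v0 t ht c hc x hx
    have w1 := v1 t ht c hc x hx
    change _ + ((GS Ω H' Φ' μ * UU n n 1 (GS Ω H' Φ' (Ω - dF μ))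
        (GS Ω H' Φ' Ω - GS Ω H' Φ' (Ω - dF μ))) t c x -
      (GS Ω H Φ μ * UU n n 1 (GS Ω H Φ (Ω - dF μ))
        (GS Ω H Φ Ω - GS Ω H Φ (Ω - dF μ))) t c x) = _
    rw [w0, w1, sub_self, add_zero]
  have hJ := hfin.int
  rw [n2, HDE.q_GVL n M Ω vol K hn hSg H H' Φ Φ' hT] at hJ
  have hpos : ((n : ℝ) + 1) ≠ 0 := by positivity
  have := (mul_eq_zero.1 hJ).resolve_left hpos
  linarith

end HDP
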