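import Pool.Agent.Work.MP_c3bd4f_as.Interface

set_option autoImplicit false

/-!
# Block PGA (helper15)
-/

open scoped ContDiff Manifold Topology
open Set MeasureTheory

noncomputable section

namespace HDP

open HDC HDE

theorem PGA_diff {a b : ℕ} {U : Set (EE a)} {C : ℝ → EE a → EE b} (hU : IsOpen U) (hC : SmC U C)
    {t : ℝ} (ht : t ∈ Icc (0 : ℝ) 1) {x : EE a} (hx : x ∈ U) : DifferentiableAt ℝ (C t) x := by
  have h := HDC.q_PDL (EE a) (EE b) (fun p : ℝ × EE a => C p.1 p.2) (univ ×ˢ U)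
    (isOpen_univ.prod hU)
  have e : (Icc (0 : ℝ) 1 ×ˢ (univ : Set (EE a))) ∩ (univ ×ˢ U) = Icc 0 1 ×ˢ U := by
    ext p; simp only [mem_inter_iff, mem_prod, mem_univ, and_true, true_and]
  rw [e] at h
  have h2 := (h hC).1 (t, x) ⟨ht, hx⟩
  exact h2.differentiableAt (by simp)

theorem PGA_one (hPQA : Stmt_PQA) (a b : ℕ) (C : ℝ → EE a → EE b) :
    ∃ F : (EE b → Lam b) →ₐ[ℝ] (ℝ → EE a → PL a), ∀ θ, F θ = PG C θ := by
  obtain ⟨-, -, -, -, h5, -, -⟩ := hPQA
  have hadd : ∀ θ θ' : EE b → Lam b, PG C (θ + θ') = PG C θ + PG C θ' := by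
    intro θ θ'
    funext s z
    apply PL.ext
    · show pq _ (θ _ + θ' _) = pq _ (θ _) + pq _ (θ' _)
      rw [map_add]
    · show pq _ (ctr _ (θ _ + θ' _)) = pq _ (ctr _ (θ _)) + pq _ (ctr _ (θ' _))
      rw [map_add, map_add]
  have hsmul : ∀ (r : ℝ) (θ : EE b → Lam b), PG C (r • θ) = r • PG C θ := by
    intro r θ
    funext s z
    apply PL.ext
    · show pq _ (r • θ _) = r • pq _ (θ _)
      rw [map_smul]
    · show pq _ (ctr _ (r • θ _)) = r • pq _ (ctr _ (θ _))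
      rw [map_smul, map_smul]
  have hone : PG C (1 : EE b → Lam b) = 1 := by
    funext s z
    apply PL.ext
    · show pq _ (1 : Lam b) = 1
      rw [map_one]
    · show pq _ (ctr _ (1 : Lam b)) = 0
      have e : ctr (dC C s z) (1 : Lam b) = 0 := by
        have := (HDC.q_ALG b).2.2.2.1 (dC C s z) 1
        rwa [map_one] at this
      rw [e, map_zero]
  have hmul : ∀ θ θ' : EE b → Lam b, PG C (θ * θ') = PG C θ * PG C θ' := by
    intro θ θ'
    funext s z
    apply PL.ext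
    · show pq _ (θ _ * θ' _) = pq _ (θ _) * pq _ (θ' _)
      rw [map_mul]
    · show pq _ (ctr _ (θ _ * θ' _)) = pq _ (ctr _ (θ _)) * pq _ (θ' _) +
        inv (pq _ (θ _)) * pq _ (ctr _ (θ' _))
      rw [(HDC.q_ALG b).2.1, map_add, map_mul, map_mul, h5]
  refine ⟨AlgHom.ofLinearMap ⟨⟨PG C, hadd⟩, hsmul⟩ hone hmul, fun θ => rfl⟩

theorem p_PGA (hPQA : Stmt_PQA) (hDTS : Stmt_DTS) : Stmt_PGA := by
  obtain ⟨-, h2, -, h4, h5, h6, -⟩ := id hPQA
  refine ⟨PGA_one hPQA, ?_, ?_, ?_, ?_, ?_⟩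
  · intro a b k C θ t x hθ
    refine ⟨h6 _ _ _ _ _ (hθ _), ?_, ?_⟩
    · intro l hl
      apply h6
      apply (HDC.q_DEG b).2.1
      rw [← hl]
      exact hθ _
    · intro hk
      subst hk
      show pq _ (ctr _ (θ _)) = 0
      rw [(HDC.q_DEG b).2.2.1 _ _ (hθ _), map_zero]
  · intro a b c U C h θ hU hC hh t ht x hx
    have d1 := PGA_diff hU hC ht hx
    have d2 : DifferentiableAt ℝ h (C t x) := (hh.differentiable (by simp)) _
    have e1 : fderiv ℝ (fun y => h (C t y)) x = (fderiv ℝ h (C t x)).comp (fderiv ℝ (C t) x) :=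
      fderiv_comp' x d2 d1
    have e2 : dC (fun s y => h (C s y)) t x = fderiv ℝ h (C t x) (dC C t x) := by
      have k1 := (hDTS (EE a) (EE b) (fun p : ℝ × EE a => C p.1 p.2) U hU hC).2 t ht x hx
      have k2 := d2.hasFDerivAt.comp_hasDerivWithinAt t k1
      exact k2.derivWithin ((uniqueDiffOn_Icc zero_lt_one) t ht)
    apply PL.ext
    · show pq (fderiv ℝ (fun y => h (C t y)) x) (θ (h (C t x))) =
        pq (fderiv ℝ (C t) x) (pq (fderiv ℝ h (C t x)) (θ (h (C t x))))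
      rw [e1, h2]
    · show pq (fderiv ℝ (fun y => h (C t y)) x) (ctr (dC (fun s y => h (C s y)) t x) (θ (h (C t x)))) =
        pq (fderiv ℝ (C t) x) (ctr (dC C t x) (pq (fderiv ℝ h (C t x)) (θ (h (C t x)))))
      rw [e1, e2, h2, h4]
  · intro a a' b U C ψ θ hU hC t ht x hx hψ
    have d1 := PGA_diff hU hC ht hx
    have e1 : fderiv ℝ (fun y => C t (ψ y)) x = (fderiv ℝ (C t) (ψ x)).comp (fderiv ℝ ψ x) :=
      fderiv_comp' x d1 hψ
    apply PL.ext
    · show pq (fderiv ℝ (fun y => C t (ψ y)) x) (θ (C t (ψ x))) =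
        pq (fderiv ℝ ψ x) (pq (fderiv ℝ (C t) (ψ x)) (θ (C t (ψ x))))
      rw [e1, h2]
    · show pq (fderiv ℝ (fun y => C t (ψ y)) x) (ctr (dC C t (ψ x)) (θ (C t (ψ x)))) =
        pq (fderiv ℝ ψ x) (pq (fderiv ℝ (C t) (ψ x)) (ctr (dC C t (ψ x)) (θ (C t (ψ x)))))
      rw [e1, h2]
  · intro a b C C' θ t ht x he hs
    have e1 : fderiv ℝ (C t) x = fderiv ℝ (C' t) x := Filter.EventuallyEq.fderiv_eq he
    have e2 : C t x = C' t x := he.self_of_nhds
    have e3 : dC C t x = dC C' t x := by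
      unfold dC
      exact derivWithin_congr (fun s hs' => hs s hs') e2
    apply PL.ext
    · show pq (fderiv ℝ (C t) x) (θ (C t x)) = pq (fderiv ℝ (C' t) x) (θ (C' t x))
      rw [e1, e2]
    · show pq (fderiv ℝ (C t) x) (ctr (dC C t x) (θ (C t x))) =
        pq (fderiv ℝ (C' t) x) (ctr (dC C' t x) (θ (C' t x)))
      rw [e1, e2, e3]
  · intro a b C θ t x h0
    apply PL.ext
    · show pq (fderiv ℝ (C t) x) (θ (C t x)) = 0
      rw [h0, map_zero]
    · show pq (fderiv ℝ (C t) x) (ctr (dC C t x) (θ (C t x))) = 0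
      rw [h0, map_zero, map_zero]

end HDP
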