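import Pool.Agent.Work.MP_c3bd4f_as.Interface

set_option autoImplicit false

/-! # Block PLD: `Pl` commutes with `d` -/

open scoped ContDiff Manifold Topology
open Set MeasureTheory

noncomputable section

namespace HDP

open HDC HDE

theorem PLD_cong {N : ℕ} {f g : EE N → Lam N} {x : EE N} (h : f =ᶠ[𝓝 x] g) : D f x = D g x := by
  unfold D
  rw [h.fderiv_eq]

theorem p_PLD (hPFA : Stmt_PFA) (hCAR : Stmt_CAR) (hLSX : Stmt_LSX) (hPLV : Stmt_PLV) :
    Stmt_PLD := by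
  obtain ⟨-, -, -, -, h5⟩ := hPFA
  intro N m M E Γ _ _ _ _ _ _ q ρ G θ hq hρ hG hI hθ
  have hD : Iv ρ (D θ) := by
    intro γ
    funext x
    have h2 : ContDiff ℝ 2 (ρ γ) := by exact_mod_cast contDiff_infty.1 (hρ γ) 2
    rw [← h5 m m (ρ γ) θ x h2.contDiffAt ((hθ.differentiable (by simp)) _), hI γ]
  obtain ⟨l1, l2, -⟩ := hLSX M E Γ q hq
  have key : ∀ c ∈ atlas (EE N) M, ∀ x ∈ c.target, ∃ (U : Set (EE N)) (s : EE N → E),
      LSec q c U s ∧ x ∈ U := by
    intro c hc x hx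
    obtain ⟨e, he⟩ := l1 (c.symm x)
    obtain ⟨U, s, h1, h2, -⟩ := l2 N c x hx e he
    exact ⟨U, s, h1, h2⟩
  constructor
  · intro t ht c hc x hx
    obtain ⟨U, s, hs, hxU⟩ := key c hc x hx
    have hC : SmC U (fun u y => G u (s y)) := hG.sm c hc U s hs
    have car1 := (hCAR N m U (fun u y => G u (s y)) θ hs.op hC hθ).1 t ht x hxU
    have ev : (fun y => (Pl (N := N) q G θ t c y).1) =ᶠ[𝓝 x]
        wq (fun u y => G u (s y)) θ t := by
      filter_upwards [hs.op.mem_nhds hxU] with y hy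
      rw [hPLV N m M E Γ q ρ G θ hq hρ hG hI t ht c hc U s hs y hy]
      rfl
    rw [hPLV N m M E Γ q ρ G (D θ) hq hρ hG hD t ht c hc U s hs x hxU, PLD_cong ev]
    exact car1.symm
  · intro t ht c hc x hx
    have ht' : t ∈ Icc (0 : ℝ) 1 := Ioo_subset_Icc_self ht
    obtain ⟨U, s, hs, hxU⟩ := key c hc x hx
    have hC : SmC U (fun u y => G u (s y)) := hG.sm c hc U s hs
    have car2 := (hCAR N m U (fun u y => G u (s y)) θ hs.op hC hθ).2 t ht x hxU
    have ev : (fun y => (Pl (N := N) q G θ t c y).2) =ᶠ[𝓝 x]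
        bq (fun u y => G u (s y)) θ t := by
      filter_upwards [hs.op.mem_nhds hxU] with y hy
      rw [hPLV N m M E Γ q ρ G θ hq hρ hG hI t ht' c hc U s hs y hy]
      rfl
    have ev3 : (fun u => (Pl (N := N) q G θ u c x).1) =ᶠ[𝓝 t]
        (fun u => wq (fun u y => G u (s y)) θ u x) := by
      filter_upwards [Icc_mem_nhds ht.1 ht.2] with u hu
      rw [hPLV N m M E Γ q ρ G θ hq hρ hG hI u hu c hc U s hs x hxU]
      rfl
    rw [hPLV N m M E Γ q ρ G (D θ) hq hρ hG hD t ht' c hc U s hs x hxU, PLD_cong ev]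
    exact car2.congr_of_eventuallyEq ev3

end HDP
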