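import Pool.Agent.Work.MP_c3bd4f_as.Interface

set_option autoImplicit false

/-! # Block PLF (helper25): `Pl` gives smooth forms -/

open scoped ContDiff Manifold Topology
open Set MeasureTheory

noncomputable section

namespace HDP

open HDC HDE

theorem PLF_sec {N : ℕ} {M E : Type} [TopologicalSpace M] [ChartedSpace (EE N) M]
    [IsManifold 𝓘(ℝ, EE N) ∞ M] [TopologicalSpace E] (q : E → M)
    {c c2 : OpenPartialHomeomorph M (EE N)} (hc : c ∈ atlas (EE N) M) (hc2 : c2 ∈ atlas (EE N) M)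
    (U2 : Set (EE N)) (s2 : EE N → E) (h : LSec q c2 U2 s2) :
    LSec q c ({y | y ∈ c.target ∧ c.symm y ∈ c2.source} ∩ (fun y => c2 (c.symm y)) ⁻¹' U2)
      (fun y => s2 (c2 (c.symm y))) := by
  obtain ⟨h1, h2, _⟩ := HDC.q_TRN N M c hc c2 hc2
  refine ⟨h2.continuousOn.isOpen_inter_preimage h1 h.op, fun y hy => hy.1.1, ?_, ?_⟩
  · exact ContinuousOn.comp h.cont (h2.continuousOn.mono inter_subset_left) (fun y hy => hy.2)
  · intro y hy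
    rw [h.sec _ hy.2, c2.left_inv hy.1.2]

theorem PLF_tf {N m : ℕ} {M E Γ : Type} [TopologicalSpace M] [ChartedSpace (EE N) M]
    [IsManifold 𝓘(ℝ, EE N) ∞ M] [TopologicalSpace E] [Group Γ] [MulAction Γ E] (hPQA : Stmt_PQA)
    (hLSX : Stmt_LSX) (q : E → M) (hq : IsQuotientCoveringMap q Γ) (ρ : Γ → EE m → EE m)
    (G : ℝ → E → EE m) (hG : EM N q ρ G) (l : ℕ) (f : ℝ → Fam N M)
    (P : (ℝ → EE N → EE m) → ℝ → EE N → Lam N)
    (h1 : ∀ (U : Set (EE N)) (C : ℝ → EE N → EE m), IsOpen U → SmC U C →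
      ContDiffOn ℝ ∞ (fun p : ℝ × EE N => P C p.1 p.2) (Icc 0 1 ×ˢ U))
    (h2 : ∀ t ∈ Icc (0 : ℝ) 1, ∀ c ∈ atlas (EE N) M, ∀ (U : Set (EE N)) (s : EE N → E),
      LSec q c U s → ∀ x ∈ U, f t c x = P (fun u y => G u (s y)) t x)
    (h3 : ∀ (U : Set (EE N)) (C : ℝ → EE N → EE m) (ψ : EE N → EE N), IsOpen U → SmC U C →
      ∀ t ∈ Icc (0 : ℝ) 1, ∀ x : EE N, ψ x ∈ U → DifferentiableAt ℝ ψ x →
      P (fun u y => C u (ψ y)) t x = pq (fderiv ℝ ψ x) (P C t (ψ x)))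
    (h4 : ∀ (C : ℝ → EE N → EE m) (t : ℝ) (x : EE N), P C t x ∈ ⋀[ℝ]^l (VV N)) :
    TForm l f := by
  obtain ⟨hL1, hL2, _⟩ := hLSX M E Γ q hq
  have hsec : ∀ (c : OpenPartialHomeomorph M (EE N)), ∀ x ∈ c.target,
      ∃ (U : Set (EE N)) (s : EE N → E), LSec q c U s ∧ x ∈ U := by
    intro c x hx
    obtain ⟨e, he⟩ := hL1 (c.symm x)
    obtain ⟨U, s, hs, hxU, _⟩ := hL2 N c x hx e he
    exact ⟨U, s, hs, hxU⟩
  have hS : ∀ c ∈ atlas (EE N) M,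
      ContDiffOn ℝ ∞ (fun q : ℝ × EE N => f q.1 c q.2) (Icc 0 1 ×ˢ c.target) := by
    intro c hc p hp
    obtain ⟨U, s, hs, hxU⟩ := hsec c p.2 hp.2
    have h5 := h1 U (fun u y => G u (s y)) hs.op (hG.sm c hc U s hs) p ⟨hp.1, hxU⟩
    have h6 : ContDiffWithinAt ℝ ∞ (fun q : ℝ × EE N => f q.1 c q.2) (Icc 0 1 ×ˢ U) p :=
      h5.congr (fun y hy => h2 y.1 hy.1 c hc U s hs y.2 hy.2) (h2 p.1 hp.1 c hc U s hs p.2 hxU)
    refine h6.mono_of_mem_nhdsWithin ?_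
    exact mem_nhdsWithin.2 ⟨univ ×ˢ U, isOpen_univ.prod hs.op, ⟨trivial, hxU⟩,
      fun y hy => ⟨hy.2.1, hy.1.2⟩⟩
  refine TForm.mk hS fun t ht => IsForm.mk ?_ ?_ ?_
  · intro c hc
    have h5 : ContDiffOn ℝ ∞ (fun y : EE N => ((t, y) : ℝ × EE N)) c.target :=
      (contDiff_const.prodMk contDiff_id).contDiffOn
    exact (hS c hc).comp h5 (fun y hy => ⟨ht, hy⟩)
  · intro c hc c2 hc2 x hx hx2
    obtain ⟨hT1, hT2, _⟩ := HDC.q_TRN N M c hc c2 hc2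
    have hz : c2 (c.symm x) ∈ c2.target := c2.map_source hx2
    obtain ⟨U2, s2, hs2, hxU2⟩ := hsec c2 _ hz
    have hs := PLF_sec q hc hc2 U2 s2 hs2
    have hd : DifferentiableAt ℝ (fun y => c2 (c.symm y)) x :=
      (hT2.contDiffAt (hT1.mem_nhds ⟨hx, hx2⟩)).differentiableAt (by simp)
    rw [h2 t ht c hc _ _ hs x ⟨⟨hx, hx2⟩, hxU2⟩, h2 t ht c2 hc2 U2 s2 hs2 _ hxU2,
      ← hPQA.2.2.2.2.2.2 N]
    exact h3 U2 (fun u y => G u (s2 y)) (fun y => c2 (c.symm y)) hs2.op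
      (hG.sm c2 hc2 U2 s2 hs2) t ht x hxU2 hd
  · intro c hc x hx
    obtain ⟨U, s, hs, hxU⟩ := hsec c x hx
    rw [h2 t ht c hc U s hs x hxU]
    exact h4 _ _ _

theorem p_PLF (hPQA : Stmt_PQA) (hCAS : Stmt_CAS) (hPGA : Stmt_PGA) (hLSX : Stmt_LSX)
    (hPLV : Stmt_PLV) : Stmt_PLF := by
  intro N m M E Γ _ _ _ _ _ _ q ρ G k θ hq hρ hG hθi hθ
  have hval := hPLV N m M E Γ q ρ G θ hq hρ hG hθi
  have hHg := fun (C : ℝ → EE N → EE m) (t : ℝ) (x : EE N) =>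
    hPGA.2.1 N m k C θ t x (fun z => hθ.dg z)
  refine ⟨?_, fun l hl => ?_, fun hk t ht c hc x hx => ?_⟩
  · refine PLF_tf hPQA hLSX q hq ρ G hG k _ (fun C t x => wq C θ t x) ?_ ?_ ?_ ?_
    · intro U C hU hC
      exact (hCAS N m U C θ hU hC hθ.sm).1
    · intro t ht c hc U s hs x hx
      exact congrArg (fun z : PL N => z.1) (hval t ht c hc U s hs x hx)
    · intro U C ψ hU hC t ht x hx hd
      exact congrArg (fun z : PL N => z.1) (hPGA.2.2.2.1 N N m U C ψ θ hU hC t ht x hx hd)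
    · intro C t x
      exact (hHg C t x).h0
  · refine PLF_tf hPQA hLSX q hq ρ G hG l _ (fun C t x => bq C θ t x) ?_ ?_ ?_ ?_
    · intro U C hU hC
      exact (hCAS N m U C θ hU hC hθ.sm).2
    · intro t ht c hc U s hs x hx
      exact congrArg (fun z : PL N => z.2) (hval t ht c hc U s hs x hx)
    · intro U C ψ hU hC t ht x hx hd
      exact congrArg (fun z : PL N => z.2) (hPGA.2.2.2.1 N N m U C ψ θ hU hC t ht x hx hd)
    · intro C t x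
      exact (hHg C t x).h1 l hl
  · obtain ⟨hL1, hL2, _⟩ := hLSX M E Γ q hq
    obtain ⟨e, he⟩ := hL1 (c.symm x)
    obtain ⟨U, s, hs, hxU, _⟩ := hL2 N c x hx e he
    rw [hval t ht c hc U s hs x hxU]
    exact (hHg _ t x).hz hk

end HDP
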