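import Pool.Agent.Work.MP_c3bd4f_as.Interface

set_option autoImplicit false

/-! # Block PLH: composition with an equivariant map -/

open scoped ContDiff Manifold Topology
open Set MeasureTheory

noncomputable section

namespace HDP

open HDC HDE

theorem p_PLH (hPFA : Stmt_PFA) (hPGA : Stmt_PGA) (hLSX : Stmt_LSX) (hPLV : Stmt_PLV) :
    Stmt_PLH := by
  intro N a b M E Γ _ _ _ _ _ q ρ ρ' h G hq hρ hρ' hh heq hG
  have hEM : EM N q ρ' (fun t e => h (G t e)) := by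
    refine ⟨?_, ?_⟩
    · intro t ht γ e
      show h (G t (γ • e)) = ρ' γ (h (G t e))
      rw [hG.eqv t ht, heq]
    · intro c hc U s hs
      exact hh.comp_contDiffOn (hG.sm c hc U s hs)
  refine ⟨hEM, ?_⟩
  intro θ hθ
  have hinf : (∞ : WithTop ℕ∞) ≠ 0 := by simp
  have hinv : Iv ρ (pf h θ) := by
    intro γ
    have e1 : (fun x => h (ρ γ x)) = fun x => ρ' γ (h x) := funext (heq γ)
    rw [hPFA.2.1 a a b (ρ γ) h θ ((hρ γ).differentiable hinf) (hh.differentiable hinf), e1,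
      ← hPFA.2.1 a b b h (ρ' γ) θ (hh.differentiable hinf) ((hρ' γ).differentiable hinf), hθ γ]
  refine ⟨hinv, ?_⟩
  intro t ht c hc x hx
  obtain ⟨e, he⟩ := (hLSX M E Γ q hq).1 (c.symm x)
  obtain ⟨U, s, hs, hxU, -⟩ := (hLSX M E Γ q hq).2.1 N c x hx e he
  rw [hPLV N b M E Γ q ρ' (fun t e => h (G t e)) θ hq hρ' hEM hθ t ht c hc U s hs x hxU,
    hPLV N a M E Γ q ρ G (pf h θ) hq hρ hG hinv t ht c hc U s hs x hxU]
  exact hPGA.2.2.1 N a b U (fun u y => G u (s y)) h θ hs.op (hG.sm c hc U s hs) hh t ht x hxU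

end HDP
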