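import Pool.Agent.Work.MP_c3bd4f_as.Interface

set_option autoImplicit false

/-! # Block PLM: `Pl` is a homomorphism at each point -/

open scoped ContDiff Manifold Topology
open Set MeasureTheory

noncomputable section

namespace HDP

open HDC HDE

theorem p_PLM (hPGA : Stmt_PGA) (hLSX : Stmt_LSX) (hPLV : Stmt_PLV) : Stmt_PLM := by
  intro N m M E Γ _ _ _ _ _ q ρ G hq hρ hG t ht c hc x hx
  obtain ⟨h1, h2, -⟩ := hLSX M E Γ q hq
  obtain ⟨e, he⟩ := h1 (c.symm x)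
  obtain ⟨U, s, hs, hxU, -⟩ := h2 N c x hx e he
  obtain ⟨F, hF⟩ := hPGA.1 N m (fun u y => G u (s y))
  refine ⟨((Pi.evalAlgHom ℝ (fun _ : EE N => PL N) x).comp
    (Pi.evalAlgHom ℝ (fun _ : ℝ => EE N → PL N) t)).comp F, ?_⟩
  intro θ hθ
  rw [hPLV N m M E Γ q ρ G θ hq hρ hG hθ t ht c hc U s hs x hxU, ← hF]
  rfl

end HDP
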