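import Pool.Agent.Work.MP_c3bd4f_as.Interface

set_option autoImplicit false

open scoped ContDiff Manifold Topology
open Set MeasureTheory

noncomputable section

namespace HDP

open HDC HDE

theorem p_PLV (hPGA : Stmt_PGA) (hLSU : Stmt_LSU) : Stmt_PLV := by
  intro N m M E Γ _ _ _ _ _ q ρ G θ hq hρ hG hθ t ht c hc U s hs x hx
  obtain ⟨_, _, hP3, _, hP5, _⟩ := hPGA
  have hcond : ∃ v : PL N, ∃ (U : Set (EE N)) (s : EE N → E), x ∈ U ∧ LSec q c U s ∧
      v = PG (fun u y => G u (s y)) θ t x := ⟨_, U, s, hx, hs, rfl⟩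
  unfold Pl
  rw [dif_pos hcond]
  obtain ⟨U', s', hx', hs', hv⟩ := hcond.choose_spec
  rw [hv]
  obtain ⟨γ, hγ⟩ := hLSU N M E Γ q hq c U U' s s' hs hs' x hx hx'
  have h5 : PG (fun u y => G u (s' y)) θ t x = PG (fun u y => ρ γ (G u (s y))) θ t x := by
    apply hP5 N m _ _ θ t ht x
    · filter_upwards [hγ] with y hy
      rw [hy, hG.eqv t ht]
    · intro u hu
      rw [hγ.self_of_nhds, hG.eqv u hu]
  have h3 := hP3 N m m U (fun u y => G u (s y)) (ρ γ) θ hs.op (hG.sm c hc U s hs) (hρ γ) t ht x hx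
  rw [h5, h3, hθ γ]

end HDP
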