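import Pool.Agent.Work.MP_c3bd4f_as.Interface

set_option autoImplicit false

/-! # Block PQA: the pullback by a linear map -/

open scoped ContDiff Manifold Topology
open Set MeasureTheory

noncomputable section

namespace HDP

open HDC HDE

theorem PQA_io {a b : ℕ} (A : EE a →L[ℝ] EE b) (α : VV b) :
    pq A (io α) = io (α ∘ₗ A.toLinearMap) := by
  show ExteriorAlgebra.map A.toLinearMap.dualMap (ExteriorAlgebra.ι ℝ α) = _
  rw [ExteriorAlgebra.map_apply_ι]
  rfl

theorem PQA_sc {a b : ℕ} (A : EE a →L[ℝ] EE b) (r : ℝ) :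
    pq A (algebraMap ℝ (Lam b) r) = algebraMap ℝ (Lam a) r := (pq A).commutes r

theorem PQA_inv {a b : ℕ} (A : EE a →L[ℝ] EE b) (x : Lam b) : pq A (inv x) = inv (pq A x) := by
  have h0 : ∀ (c : ℕ) (α : VV c), inv (io α) = -(io α : Lam c) :=
    fun c α => CliffordAlgebra.involute_ι α
  induction x using ExteriorAlgebra.induction with
  | algebraMap r =>
    rw [PQA_sc, AlgHom.commutes, AlgHom.commutes, AlgHom.commutes]
  | ι α =>
    show pq A (inv (io α)) = inv (pq A (io α))
    rw [h0, map_neg, PQA_io, h0]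
  | mul x y hx hy => rw [map_mul, map_mul, map_mul, map_mul, hx, hy]
  | add x y hx hy => rw [map_add, map_add, map_add, map_add, hx, hy]

theorem p_PQA : Stmt_PQA := by
  refine ⟨fun a b A α => PQA_io A α, fun a b c A B x => ?_, fun a x => ?_, fun a b A v x => ?_,
    fun a b A x => PQA_inv A x, fun a b k A => ?_, fun a A x => rfl⟩
  · have e : (A.comp B).toLinearMap.dualMap =
        B.toLinearMap.dualMap ∘ₗ A.toLinearMap.dualMap := rfl
    show ExteriorAlgebra.map (A.comp B).toLinearMap.dualMap x =
      ExteriorAlgebra.map B.toLinearMap.dualMap (ExteriorAlgebra.map A.toLinearMap.dualMap x)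
    rw [e, ← ExteriorAlgebra.map_comp_map]
    rfl
  · have e : (ContinuousLinearMap.id ℝ (EE a)).toLinearMap.dualMap = LinearMap.id := rfl
    show ExteriorAlgebra.map (ContinuousLinearMap.id ℝ (EE a)).toLinearMap.dualMap x = x
    rw [e, ExteriorAlgebra.map_id]
    rfl
  · obtain ⟨-, h2, h3, h4, -, -, -⟩ := HDC.q_ALG b
    obtain ⟨-, k2, k3, k4, -, -, -⟩ := HDC.q_ALG a
    induction x using ExteriorAlgebra.induction with
    | algebraMap r => rw [PQA_sc, h4, k4, map_zero]
    | ι α =>
      show pq A (ctr (A v) (io α)) = ctr v (pq A (io α))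
      rw [h3, PQA_sc, PQA_io, k3]
      rfl
    | mul x y hx hy =>
      rw [h2, map_add, map_mul, map_mul, map_mul, hx, hy, k2, PQA_inv]
    | add x y hx hy => rw [map_add, map_add, map_add, map_add, hx, hy]
  · revert k
    apply HDC.DEG_ind
    · intro r
      rw [PQA_sc]
      exact HDC.DEG_scal r
    · intro k α y _ hy
      rw [map_mul, PQA_io]
      exact HDC.DEG_io_mul k _ _ hy
    · intro k x y hx hy
      rw [map_add]
      exact Submodule.add_mem _ hx hy

end HDP
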