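import Pool.Agent.Work.MP_c3bd4f_as.Interface

set_option autoImplicit false

/-! # Block PQS: smoothness of `pq` and the rule for its derivative -/

open scoped ContDiff Manifold Topology
open Set MeasureTheory

noncomputable section

namespace HDP

open HDC HDE

lemma PQS_pq1 (a b : ℕ) (y : Lam b) : ContDiff ℝ ∞ (fun A : EE a →L[ℝ] EE b => pq A y) := by
  induction y using ExteriorAlgebra.induction with
  | algebraMap r =>
    have : (fun A : EE a →L[ℝ] EE b => pq A (algebraMap ℝ (Lam b) r)) =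
        fun _ => algebraMap ℝ (Lam a) r := by
      funext A
      exact AlgHom.commutes _ _
    rw [this]
    exact contDiff_const
  | ι α =>
    have h : (fun A : EE a →L[ℝ] EE b => pq A (ExteriorAlgebra.ι ℝ α)) =
        (io ∘ₗ (LinearMap.llcomp ℝ (EE a) (EE b) ℝ α) ∘ₗ
          (ContinuousLinearMap.coeLM ℝ : (EE a →L[ℝ] EE b) →ₗ[ℝ] (EE a →ₗ[ℝ] EE b))) := by
      funext A
      show ExteriorAlgebra.map A.toLinearMap.dualMap (ExteriorAlgebra.ι ℝ α) = _
      rw [ExteriorAlgebra.map_apply_ι]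
      rfl
    rw [h]
    exact HDC.SMA_lin _
  | mul x y hx hy =>
    have h : (fun A : EE a →L[ℝ] EE b => pq A (x * y)) = fun A => pq A x * pq A y := by
      funext A
      exact map_mul _ _ _
    rw [h]
    exact (HDC.SMA_mul a).comp (hx.prodMk hy)
  | add x y hx hy =>
    have h : (fun A : EE a →L[ℝ] EE b => pq A (x + y)) = fun A => pq A x + pq A y := by
      funext A
      exact map_add _ _ _
    rw [h]
    exact hx.add hy

lemma PQS_pq (a b : ℕ) : ContDiff ℝ ∞ (fun q : (EE a →L[ℝ] EE b) × Lam b => pq q.1 q.2) := by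
  have h : (fun q : (EE a →L[ℝ] EE b) × Lam b => pq q.1 q.2) =
      fun q => ∑ s, (dxB b).ExteriorAlgebra.coord s q.2 • pq q.1 ((dxB b).ExteriorAlgebra s) := by
    funext q
    conv_lhs => rw [← (dxB b).ExteriorAlgebra.sum_repr q.2]
    rw [map_sum]
    refine Finset.sum_congr rfl fun s _ => ?_
    rw [map_smul]
    rfl
  rw [h]
  refine ContDiff.sum fun s _ => ?_
  exact ((HDC.SMA_lin ((dxB b).ExteriorAlgebra.coord s)).comp contDiff_snd).smul
    ((PQS_pq1 a b _).comp contDiff_fst)

theorem PQS_der {a b : ℕ} (A B : EE a →L[ℝ] EE b) (y : Lam b) :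
    HasDerivAt (fun s : ℝ => pq (A + s • B) y) (dpq A B y) 0 := by
  have hd : HasFDerivAt (fun q : (EE a →L[ℝ] EE b) × Lam b => pq q.1 q.2) _ (A, y) :=
    (((PQS_pq a b).differentiable (by simp)) (A, y)).hasFDerivAt
  have h4 := HDC.DRV_dir _ _ (A, y) (B, 0) hd
  have h5 : (fun s : ℝ => (fun q : (EE a →L[ℝ] EE b) × Lam b => pq q.1 q.2)
      ((A, y) + s • (B, (0 : Lam b)))) = fun s : ℝ => pq (A + s • B) y := by
    funext s
    simp
  rw [h5] at h4
  rw [dpq, h4.deriv]
  exact h4

theorem p_PQS : Stmt_PQS := by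
  intro a b
  refine ⟨PQS_pq a b, ?_, ?_, ?_, ?_, ?_⟩
  · intro P _ _ x A f A' f' hA hf
    refine HDC.DRV_bil (fun q : (EE a →L[ℝ] EE b) × Lam b => pq q.1 q.2) (PQS_pq a b) x A f A' f'
      hA hf (fun u => dpq (A x) u (f x)) (fun u => pq (A x) u) (fun u => ?_) (fun u => ?_)
    · exact PQS_der (A x) u (f x)
    · have h : (fun s : ℝ => (fun q : (EE a →L[ℝ] EE b) × Lam b => pq q.1 q.2)
          (A x, f x + s • u)) = fun s : ℝ => pq (A x) (f x) + s • pq (A x) u := by
        funext s
        simp only [map_add, map_smul]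
      rw [h]
      exact HDC.DRV_aff _ _
  · intro A B α
    have h : (fun s : ℝ => pq (A + s • B) (io α)) =
        fun s : ℝ => io (α ∘ₗ A.toLinearMap) + s • io (α ∘ₗ B.toLinearMap) := by
      funext s
      rw [← map_smul, ← map_add]
      unfold pq
      rw [ExteriorAlgebra.map_apply_ι]
      congr 1
      ext v
      simp [LinearMap.dualMap_apply]
    unfold dpq
    rw [h, (HDC.DRV_aff _ _).deriv]
  · intro A B y z
    obtain ⟨hmul, -⟩ := HDC.q_DRV a ℝ 0
    obtain ⟨L, hL, hLv⟩ := hmul (fun s : ℝ => pq (A + s • B) y) (fun s : ℝ => pq (A + s • B) z)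
      _ _ (PQS_der A B y).hasFDerivAt (PQS_der A B z).hasFDerivAt
    have h1 : HasDerivAt (fun s : ℝ => pq (A + s • B) y * pq (A + s • B) z) (L 1) 0 :=
      hL.hasDerivAt
    have h2 : (fun s : ℝ => pq (A + s • B) (y * z)) =
        fun s : ℝ => pq (A + s • B) y * pq (A + s • B) z := by
      funext s
      rw [map_mul]
    have h3 : dpq A B (y * z) = L 1 := by
      unfold dpq
      rw [h2, h1.deriv]
    have h4 : A + (0 : ℝ) • B = A := by
      ext v
      simp
    rw [h3, hLv, h4]
    simp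
  · intro A B y z
    have h1 := (PQS_der A B y).add (PQS_der A B z)
    have h2 : (fun s : ℝ => pq (A + s • B) (y + z)) =
        (fun s : ℝ => pq (A + s • B) y) + fun s : ℝ => pq (A + s • B) z := by
      funext s
      rw [map_add]
      rfl
    rw [show dpq A B (y + z) = deriv (fun s : ℝ => pq (A + s • B) (y + z)) 0 from rfl, h2, h1.deriv]
  · intro A B r
    unfold dpq
    have h2 : (fun s : ℝ => pq (A + s • B) (algebraMap ℝ (Lam b) r)) =
        fun _ : ℝ => algebraMap ℝ (Lam a) r := by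
      funext s
      rw [AlgHom.commutes]
    rw [h2]
    exact deriv_const _ _

end HDP
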