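import Pool.Agent.Work.MP_c3bd4f_as.Interface

set_option autoImplicit false

open scoped ContDiff Manifold Topology
open Set MeasureTheory

noncomputable section

namespace HDP

open HDC HDE

theorem PZO_proj {N : ℕ} (S : Submodule ℝ (Lam N)) : ∃ P : Lam N →L[ℝ] Lam N,
    (∀ w ∈ S, P w = w) ∧ ∀ w, P w ∈ S := by
  obtain ⟨g, hg⟩ := LinearMap.exists_leftInverse_of_injective S.subtype (Submodule.ker_subtype _)
  refine ⟨LinearMap.toContinuousLinearMap (S.subtype ∘ₗ g), ?_, ?_⟩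
  · intro w hw
    have h1 := LinearMap.congr_fun hg ⟨w, hw⟩
    have h2 : g w = ⟨w, hw⟩ := by simpa using h1
    show ((g w : S) : Lam N) = w
    rw [h2]
  · intro w
    exact (g w).2

theorem PZO_sub {N : ℕ} (S : Submodule ℝ (Lam N)) (f : ℝ → Lam N)
    (hf : IntervalIntegrable f volume 0 1) (hk : ∀ s ∈ Icc (0 : ℝ) 1, f s ∈ S) :
    (∫ s in (0 : ℝ)..1, f s) ∈ S := by
  obtain ⟨P, hP1, hP2⟩ := PZO_proj S
  have h1 : (∫ s in (0 : ℝ)..1, f s) = ∫ s in (0 : ℝ)..1, P (f s) := by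
    apply intervalIntegral.integral_congr
    intro s hs
    rw [uIcc_of_le zero_le_one] at hs
    exact (hP1 _ (hk s hs)).symm
  rw [h1, P.intervalIntegral_comp_comm hf]
  exact hP2 _

theorem PZO_SmC (m : ℕ) : SmC univ (FF m) := by
  have h : ContDiff ℝ ∞ (fun p : ℝ × EE (m + m) => FF m p.1 p.2) := by
    unfold FF
    fun_prop
  exact h.contDiffOn

theorem PZO_dC (m : ℕ) (s : ℝ) (z : EE (m + m)) (hs : s ∈ Icc (0 : ℝ) 1) :
    dC (FF m) s z = z - rr m z := by
  have h1 : HasDerivAt (fun u : ℝ => FF m u z) (z - rr m z) s := by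
    have e1 : HasDerivAt (fun u : ℝ => (1 - u) • rr m z) ((-1 : ℝ) • rr m z) s := by
      have := ((hasDerivAt_id s).const_sub 1).smul_const (rr m z)
      simpa using this
    have e2 : HasDerivAt (fun u : ℝ => u • z) ((1 : ℝ) • z) s := (hasDerivAt_id s).smul_const z
    have e3 := e1.add e2
    rw [one_smul, neg_one_smul, neg_add_eq_sub] at e3
    exact e3
  exact h1.hasDerivWithinAt.derivWithin (uniqueDiffOn_Icc zero_lt_one s hs)

theorem PZO_fd (m : ℕ) (s : ℝ) (z : EE (m + m)) : fderiv ℝ (FF m s) z =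
    (1 - s) • rr m + s • ContinuousLinearMap.id ℝ (EE (m + m)) := by
  have h1 : FF m s = ⇑((1 - s) • rr m + s • ContinuousLinearMap.id ℝ (EE (m + m))) := by
    funext y
    simp [FF]
  rw [h1]
  exact ContinuousLinearMap.fderiv _

theorem PZO_q1 (m : ℕ) (s : ℝ) : (q1 m).comp ((1 - s) • rr m +
    s • ContinuousLinearMap.id ℝ (EE (m + m))) = q1 m := by
  ext1 y
  show q1 m (((1 - s) • rr m + s • ContinuousLinearMap.id ℝ (EE (m + m))) y) = q1 m y
  have : ((1 - s) • rr m + s • ContinuousLinearMap.id ℝ (EE (m + m))) y = FF m s y := by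
    simp [FF]
  rw [this, q1_FF]

/-- The linear map `T ↦ ∑ i, dx i * T (ee i)`. -/
theorem PZO_D {N : ℕ} (g : EE N → Lam N) (x : EE N) : D g x = PRM_L N (fderiv ℝ g x) := by
  rw [PRM_L_apply]
  rfl

theorem PZO_int {N : ℕ} {F : Type} [NormedAddCommGroup F] [NormedSpace ℝ F] (f : ℝ × EE N → F)
    (hf : ContDiffOn ℝ ∞ f (Icc 0 1 ×ˢ (univ : Set (EE N)))) (z : EE N) :
    IntervalIntegrable (fun s => f (s, z)) volume 0 1 :=
  PRM_cont f univ hf.continuousOn 1 ⟨zero_le_one, le_rfl⟩ z (mem_univ z)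

theorem p_PZO (hPQA : Stmt_PQA) (hPFA : Stmt_PFA) (hCAS : Stmt_CAS) (hCAR : Stmt_CAR)
    (hPGA : Stmt_PGA) (hFLT : Stmt_FLT) : Stmt_PZO := by
  intro m w
  have hone : (1 : ℝ) ∈ Icc (0 : ℝ) 1 := ⟨zero_le_one, le_rfl⟩
  have hsm : ∀ θ : EE (m + m) → Lam (m + m), ContDiff ℝ ∞ θ →
      ContDiffOn ℝ ∞ (fun p : ℝ × EE (m + m) => bq (FF m) θ p.1 p.2) (Icc 0 1 ×ˢ univ) :=
    fun θ hθ => (hCAS _ _ univ (FF m) θ isOpen_univ (PZO_SmC m) hθ).2
  have hctr0 : ∀ y : Lam (m + m), ctr (0 : EE (m + m)) y = 0 := by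
    intro y
    have := (HDC.q_ALG (m + m)).2.2.2.2.2.2 0 0 y
    rwa [zero_smul, zero_smul] at this
  refine ⟨?_, ?_, ?_, ?_⟩
  · -- degrees
    intro k hw
    refine ⟨?_, ?_⟩
    · have h1 := (HDE.q_PSM (EE (m + m)) (Lam (m + m))
        (fun p : ℝ × EE (m + m) => bq (FF m) w p.1 p.2) univ isOpen_univ (hsm w hw.sm)).1
      have h2 : ContDiffOn ℝ ∞ (fun x : EE (m + m) => (((1 : ℝ), x) : ℝ × EE (m + m))) univ :=
        (contDiff_const.prodMk contDiff_id).contDiffOn
      have h3 := h1.comp h2 (fun x _ => ⟨hone, mem_univ x⟩)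
      rw [contDiffOn_univ] at h3
      exact h3
    · intro z
      refine PZO_sub _ _ (PZO_int _ (hsm w hw.sm) z) ?_
      intro s _
      exact hPQA.2.2.2.2.2.1 _ _ _ _ _ ((HDC.q_DEG (m + m)).2.1 k _ _ (hw.dg _))
  · -- homotopy formula
    intro hw z
    have hDw : ContDiff ℝ ∞ (D w) := by
      have e1 : D w = fun x => PRM_L (m + m) (fderiv ℝ w x) := by
        funext x; exact PZO_D w x
      rw [e1]
      exact (PRM_L (m + m)).contDiff.comp (hw.fderiv_right (m := ∞) (by simp))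
    have hU : (Icc (0 : ℝ) 1 ×ˢ (univ : Set (EE (m + m)))) ∩ (univ : Set (ℝ × EE (m + m))) =
        Icc (0 : ℝ) 1 ×ˢ univ := inter_univ _
    have h3 := (HDC.q_PDL (EE (m + m)) (Lam (m + m))
      (fun p : ℝ × EE (m + m) => bq (FF m) w p.1 p.2) univ isOpen_univ
      (by rw [hU]; exact hsm w hw)).2
    rw [hU] at h3
    have hint1 := PZO_int _ (hsm (D w) hDw) z
    have hint2 := PZO_int _ h3 z
    have hint3 : IntervalIntegrable (fun s => D (bq (FF m) w s) z) volume 0 1 := by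
      have e1 : (fun s => D (bq (FF m) w s) z) =
          fun s => PRM_L (m + m) (fderiv ℝ (fun y => bq (FF m) w s y) z) := by
        funext s; exact PZO_D _ _
      rw [e1]
      exact ⟨(PRM_L (m + m)).integrable_comp hint2.1, (PRM_L (m + m)).integrable_comp hint2.2⟩
    have hDP : D (P0 w) z = ∫ s in (0 : ℝ)..1, D (bq (FF m) w s) z := by
      have h4 := ((HDE.q_PSM (EE (m + m)) (Lam (m + m))
        (fun p : ℝ × EE (m + m) => bq (FF m) w p.1 p.2) univ isOpen_univ (hsm w hw)).2.1 1 hone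
        z (mem_univ z)).fderiv
      rw [PZO_D]
      have e2 : fderiv ℝ (P0 w) z = ∫ s in (0 : ℝ)..1,
          fderiv ℝ (fun y => bq (FF m) w s y) z := h4
      rw [e2]
      have e1 : (fun s => D (bq (FF m) w s) z) =
          fun s => PRM_L (m + m) (fderiv ℝ (fun y => bq (FF m) w s y) z) := by
        funext s; exact PZO_D _ _
      rw [e1]
      exact (ContinuousLinearMap.intervalIntegral_comp_comm (PRM_L (m + m)) hint2).symm
    have hcont : ContinuousOn (fun s => wq (FF m) w s z) (Icc (0 : ℝ) 1) := by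
      have h5 := (hCAS _ _ univ (FF m) w isOpen_univ (PZO_SmC m) hw).1.continuousOn
      have h6 : ContinuousOn (fun s : ℝ => ((s, z) : ℝ × EE (m + m))) (Icc 0 1) :=
        (Continuous.prodMk_left z).continuousOn
      exact ContinuousOn.comp (g := fun p : ℝ × EE (m + m) => wq (FF m) w p.1 p.2)
        (f := fun s : ℝ => ((s, z) : ℝ × EE (m + m))) h5 h6 (fun s hs => ⟨hs, mem_univ z⟩)
    have hder : ∀ s ∈ Ioo (0 : ℝ) 1, HasDerivAt (fun s => wq (FF m) w s z)
        (bq (FF m) (D w) s z + D (bq (FF m) w s) z) s := fun s hs =>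
      (hCAR _ _ univ (FF m) w isOpen_univ (PZO_SmC m) hw).2 s hs z (mem_univ z)
    have key := intervalIntegral.integral_eq_sub_of_hasDerivAt_of_le zero_le_one hcont hder
      (hint1.add hint3)
    rw [intervalIntegral.integral_add hint1 hint3, ← hDP] at key
    have e1 : wq (FF m) w 1 z = w z := by
      rw [wq, PZO_fd, FF_one]
      have : (1 - (1 : ℝ)) • rr m + (1 : ℝ) • ContinuousLinearMap.id ℝ (EE (m + m)) =
          ContinuousLinearMap.id ℝ (EE (m + m)) := by
        ext1 y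
        simp
      rw [this]
      exact hPQA.2.2.1 _ _
    have e0 : wq (FF m) w 0 z = pf (rr m) w z := by
      have : FF m 0 = ⇑(rr m) := by
        funext y; exact FF_zero y
      rw [wq, this]
      rfl
    rw [e1, e0] at key
    rw [← key]
    exact add_comm (D (P0 w) z) (P0 (D w) z)
  · -- the diagonal
    intro x
    have h1 : P0 w (dd m x) = ∫ s in (0 : ℝ)..1, (0 : Lam (m + m)) := by
      apply intervalIntegral.integral_congr
      intro s hs
      rw [uIcc_of_le zero_le_one] at hs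
      show pq _ (ctr (dC (FF m) s (dd m x)) _) = 0
      rw [PZO_dC m s _ hs, rr_eq, q1_dd, sub_self, hctr0, map_zero]
    rw [h1]
    simp
  · intro j hw hj z
    refine PZO_sub _ _ (PZO_int _ (hsm w hw) z) ?_
    intro s hs
    show pq (fderiv ℝ (FF m s) z) (ctr (dC (FF m) s z) (w (FF m s z))) ∈ Bf m j
    refine (hFLT m).2.2.2.2.2 j _ (ContinuousLinearMap.id ℝ (EE m)) _ ?_ ?_
    · rw [PZO_fd, PZO_q1, ContinuousLinearMap.id_comp]
    · refine (hFLT m).2.2.2.2.1 j _ _ ?_ (hj _)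
      rw [PZO_dC m s z hs, map_sub, q1_rr, sub_self]

end HDP
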