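import Pool.Agent.Work.MP_c3bd4f_as.Interface

set_option autoImplicit false

/-! # Block REL: the relative Poincare lemma -/

open scoped ContDiff Manifold Topology
open Set MeasureTheory

noncomputable section

namespace HDP

open HDC HDE

theorem REL_pf_zero {a b : ℕ} (h : EE a → EE b) : pf h (0 : EE b → Lam b) = 0 := by
  funext x
  simp [pf]

theorem REL_pf_add {a b : ℕ} (h : EE a → EE b) (θ κ : EE b → Lam b) :
    pf h (θ + κ) = pf h θ + pf h κ := by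
  funext x
  simp [pf]

theorem REL_step (hFRA : Stmt_FRA) (hFLT : Stmt_FLT) (hSTP : Stmt_STP)
    (Γ : Type) [Group Γ] (m k : ℕ) (ρ : Γ → EE m → EE m)
    (w : EE (m + m) → Lam (m + m)) (hA : Act ρ) (hw : Fr (k + 1) w) (hD : D w = 0)
    (hI : Iv (r2 ρ) w) (hr : pf (rr m) w = 0) (j : ℕ) :
    ∃ β w' : EE (m + m) → Lam (m + m), Fr k β ∧ Iv (r2 ρ) β ∧ (∀ x, β (dd m x) = 0) ∧
      Fr (k + 1) w' ∧ D w' = 0 ∧ Iv (r2 ρ) w' ∧ pf (rr m) w' = 0 ∧
      (∀ z, w' z ∈ Bf m j) ∧ w = D β + w' := by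
  obtain ⟨-, h2, -, h4, -, -⟩ := hFRA (m + m)
  induction j with
  | zero =>
    refine ⟨0, w, ⟨contDiff_const, fun x => Submodule.zero_mem _⟩, fun γ => REL_pf_zero _,
      fun x => rfl, hw, hD, hI, hr, fun z => (hFLT m).1 (w z), ?_⟩
    have h0 : D (0 : EE (m + m) → Lam (m + m)) = 0 := by
      have := (h4 (k + 1) (k + 1) w w hw hw).2.2
      rwa [sub_self, sub_self] at this
    rw [h0, zero_add]
  | succ j ih =>
    obtain ⟨β, w', b1, b2, b3, c1, c2, c3, c4, c5, e⟩ := ih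
    obtain ⟨β2, w2, d1, d2, d3, f1, f2, f3, f4, f5, e2⟩ :=
      hSTP Γ m k j ρ w' hA c1 c2 c3 c4 c5
    refine ⟨β + β2, w2, (h2 k β β2 1 b1 d1).1, fun γ => ?_, fun x => ?_, f1, f2, f3, ?_, f5, ?_⟩
    · rw [REL_pf_add, b2 γ, d2 γ]
    · rw [Pi.add_apply, b3, d3, add_zero]
    · funext z
      show pq _ (w2 (rr m z)) = 0
      rw [rr_eq, f4, map_zero]
    · rw [(h4 k k β β2 b1 d1).2.1, e, e2, add_assoc]

theorem p_REL (_hPFA : Stmt_PFA) (hFRA : Stmt_FRA) (hFLT : Stmt_FLT) (hSTP : Stmt_STP) :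
    Stmt_REL := by
  intro Γ _ m k ρ w hA hw hD hI hr
  obtain ⟨β, w', b1, b2, b3, -, -, -, -, c5, e⟩ :=
    REL_step hFRA hFLT hSTP Γ m k ρ w hA hw hD hI hr (m + 1)
  refine ⟨β, b1, b2, b3, ?_⟩
  have h0 : w' = 0 := by
    funext z
    exact (hFLT m).2.1 (w' z) (c5 z)
  rw [e, h0, add_zero]

end HDP
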