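import Pool.Agent.Work.MP_c3bd4f_as.Interface

set_option autoImplicit false

open scoped ContDiff Manifold Topology
open Set MeasureTheory

noncomputable section

namespace HDP

open HDC HDE

theorem STP_P0_zero {m : ℕ} : P0 (0 : EE (m + m) → Lam (m + m)) = 0 := by
  funext z
  unfold P0
  have h : ∀ s : ℝ, bq (FF m) (0 : EE (m + m) → Lam (m + m)) s z = 0 := by
    intro s
    unfold bq
    rw [Pi.zero_apply, map_zero, map_zero]
  simp only [h, intervalIntegral.integral_zero]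
  rfl

theorem p_STP (hPFA : Stmt_PFA) (hFRA : Stmt_FRA) (hFLT : Stmt_FLT) (hPZO : Stmt_PZO)
    (hCHI : Stmt_CHI) (hAVG : Stmt_AVG) (hAVI : Stmt_AVI) : Stmt_STP := by
  intro Γ _ m k j ρ w hA hw hDw hIv hrr hBf
  obtain ⟨S, χ, hχ⟩ := hCHI Γ m ρ hA
  obtain ⟨R1, R2, R3, R4, -, -⟩ := hFRA (m + m)
  obtain ⟨-, -, -, F4, -, -⟩ := hFLT m
  obtain ⟨Z1, Z2, Z3, Z4⟩ := hPZO m w
  obtain ⟨I1, I2, I3, I4, I5⟩ := hAVI Γ m ρ S hA hχ.lf
  have hG := hAVG Γ m ρ S hA hχ.lf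
  have hX0 : Fr 0 (X0 (m := m) χ) := by
    refine ⟨?_, fun z => (HDC.q_DEG (m + m)).2.2.2.2.2.2.2 _⟩
    have e : X0 (m := m) χ = fun z => χ (q1 m z) • (1 : Lam (m + m)) := by
      funext z
      exact Algebra.algebraMap_eq_smul_one _
    rw [e]
    have h1 : ContDiff ℝ ∞ (fun z : EE (m + m) => χ (q1 m z)) := hχ.sm.comp (q1 m).contDiff
    have h2 : ContDiff ℝ ∞ (fun _ : EE (m + m) => (1 : Lam (m + m))) := contDiff_const
    exact h1.smul h2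
  have hXS : ∀ z, q1 m z ∉ S → X0 (m := m) χ z = 0 := by
    intro z hz
    show algebraMap ℝ (Lam (m + m)) (χ (q1 m z)) = 0
    rw [hχ.sp _ hz, map_zero]
  have hDXS : ∀ z, q1 m z ∉ S → D (X0 (m := m) χ) z = 0 := (hG 0 _ hX0 hXS).2.2
  have hP : Fr k (P0 w) := Z1 k hw
  have hDP : D (P0 w) = w := by
    funext z
    have h1 := Z2 hw.sm z
    rw [hDw, hrr, STP_P0_zero, Pi.zero_apply, add_zero, sub_zero] at h1
    exact h1
  obtain ⟨v1, hv1⟩ : ∃ v1, v1 = X0 χ * P0 w := ⟨_, rfl⟩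
  obtain ⟨v2, hv2⟩ : ∃ v2, v2 = D (X0 χ) * P0 w := ⟨_, rfl⟩
  have hv1F : Fr k v1 := by
    have := R1 0 k _ _ hX0 hP
    rwa [zero_add, ← hv1] at this
  have hv2F : Fr (k + 1) v2 := by
    have := R1 (0 + 1) k _ _ (R3 0 _ hX0).1 hP
    rwa [← hv2, show 0 + 1 + k = k + 1 by ring] at this
  have hv1S : ∀ z, q1 m z ∉ S → v1 z = 0 := by
    intro z hz
    rw [hv1, Pi.mul_apply, hXS z hz, zero_mul]
  have hv2S : ∀ z, q1 m z ∉ S → v2 z = 0 := by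
    intro z hz
    rw [hv2, Pi.mul_apply, hDXS z hz, zero_mul]
  have hDv1 : D v1 = v2 + X0 χ * w := by
    have := (R4 0 k _ _ hX0 hP).1
    rw [← hv1, ← hv2, pow_zero, one_smul, hDP] at this
    exact this
  obtain ⟨G1, G2, -⟩ := hG k v1 hv1F hv1S
  obtain ⟨G4, -, -⟩ := hG (k + 1) v2 hv2F hv2S
  have hDβ : D (Av ρ v1) = Av ρ v2 + w := by
    rw [G2, hDv1, I2 v2 (X0 χ * w) hv2S (by
      intro z hz
      rw [Pi.mul_apply, hXS z hz, zero_mul]), I5 χ w hχ hIv]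
  have hw' : w = D (Av ρ v1) + -Av ρ v2 := by
    rw [hDβ]
    abel
  have hneg : -Av ρ v2 = w - D (Av ρ v1) := by
    rw [hDβ]
    abel
  have hF' : Fr (k + 1) (-Av ρ v2) := (R2 (k + 1) _ _ 1 G4 G4).2.2.1
  refine ⟨Av ρ v1, -Av ρ v2, G1, I1 v1 hv1S, ?_, hF', ?_, ?_, ?_, ?_, hw'⟩
  · refine I3 v1 (fun x => ?_)
    rw [hv1, Pi.mul_apply, Z3, mul_zero]
  · have h1 := (R4 (k + 1) (k + 1) w (D (Av ρ v1)) hw (R3 k _ G1).1).2.2
    rw [hneg, h1, hDw, (R3 k _ G1).2, sub_zero]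
  · intro γ
    obtain ⟨F, hF⟩ := hPFA.1 _ _ (r2 ρ γ)
    rw [← hF, map_neg, hF, I1 v2 hv2S γ]
  · intro x
    rw [Pi.neg_apply, I3 v2 (fun x => by rw [hv2, Pi.mul_apply, Z3, mul_zero]), neg_zero]
  · intro z
    rw [Pi.neg_apply]
    refine Submodule.neg_mem _ (I4 (j + 1) v2 (fun z => ?_) z)
    rw [hv2, Pi.mul_apply]
    exact F4 j χ z (P0 w z) hχ.sm (Z4 j hw.sm hBf z)

end HDP
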