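import Pool.Agent.Work.MP_c3bd4f_as.Interface2

set_option autoImplicit false

/-!
# Block UC1: deck transformations
-/

open scoped ContDiff Manifold Topology
open Set MeasureTheory

noncomputable section

namespace HDP

open HDC HDE

theorem UC1_lift {m : ℕ} {X : Type} [TopologicalSpace X] {p : EE m → X} (hp : IsCoveringMap p)
    (a b : EE m) (h : p a = p b) : ∃ F : C(EE m, EE m), F a = b ∧ ∀ x, p (F x) = p x := by
  obtain ⟨F, ⟨h1, h2⟩, -⟩ := hp.existsUnique_continuousMap_lifts ⟨p, hp.continuous⟩ a b h.symm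
  exact ⟨F, h1, fun x => congr_fun h2 x⟩

theorem UC1_eq {m : ℕ} {X : Type} [TopologicalSpace X] {p : EE m → X} (hp : IsCoveringMap p)
    {g₁ g₂ : EE m → EE m} (h₁ : Continuous g₁) (h₂ : Continuous g₂)
    (he : ∀ x, p (g₁ x) = p (g₂ x)) (a : EE m) (ha : g₁ a = g₂ a) : g₁ = g₂ :=
  hp.eq_of_comp_eq h₁ h₂ (funext he) a ha

theorem UC1_fix {m : ℕ} {X : Type} [TopologicalSpace X] {p : EE m → X} (hp : IsCoveringMap p)
    (γ : Dk p) (x : EE m) (hx : γ • x = x) : γ = 1 := by
  have h := UC1_eq hp (dk_cont p γ) continuous_id (fun y => dk_map p γ y) x hx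
  apply Subtype.ext
  apply Homeomorph.ext
  intro y
  exact congr_fun h y

theorem p_UC1 : Stmt_UC1 := by
  intro m X _ p hp
  refine ⟨fun a b hab => ?_, fun γ x hx => UC1_fix hp γ x hx, fun e => ?_⟩
  · obtain ⟨F, hF1, hF2⟩ := UC1_lift hp a b hab
    obtain ⟨G, hG1, hG2⟩ := UC1_lift hp b a hab.symm
    have h1 : (fun x => G (F x)) = id := UC1_eq hp (by fun_prop) continuous_id
      (fun x => (hG2 _).trans (hF2 _)) a (by simp [hF1, hG1])
    have h2 : (fun x => F (G x)) = id := UC1_eq hp (by fun_prop) continuous_id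
      (fun x => (hF2 _).trans (hG2 _)) b (by simp [hF1, hG1])
    let γ : EE m ≃ₜ EE m :=
      { toFun := F
        invFun := G
        left_inv := fun x => congr_fun h1 x
        right_inv := fun x => congr_fun h2 x
        continuous_toFun := F.continuous
        continuous_invFun := G.continuous }
    exact ⟨⟨γ, fun x => hF2 x⟩, hF1⟩
  · obtain ⟨q, he, hq⟩ := hp.isLocalHomeomorph e
    refine ⟨q.source, q.open_source, he, fun γ x hx hγ => ?_⟩
    refine UC1_fix hp γ x (q.injOn hγ hx ?_)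
    exact ((congr_fun hq _).symm.trans (dk_map p γ x)).trans (congr_fun hq x)

end HDP
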