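import Pool.Agent.Work.MP_c3bd4f_as.Interface2

set_option autoImplicit false

/-!
# Block UC3: the deck group acts properly discontinuously
-/

open scoped ContDiff Manifold Topology
open Set MeasureTheory

noncomputable section

namespace HDP

open HDC HDE

theorem UC3_local (hUC1 : Stmt_UC1) {m : ℕ} {X : Type} [TopologicalSpace X] [T2Space X]
    (p : EE m → X) (hp : IsCoveringMap p) (z : EE m × EE m) :
    ∃ W ∈ 𝓝 z, {γ : Dk p | ∃ w ∈ W, γ • w.1 = w.2}.Finite := by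
  obtain ⟨h1, -, h3⟩ := hUC1 m X p hp
  obtain ⟨x, y⟩ := z
  have hc : Continuous p := hp.continuous
  by_cases hxy : p x = p y
  · obtain ⟨δ, hδ⟩ := h1 x y hxy
    obtain ⟨U, hU, hxU, hUγ⟩ := h3 x
    have hV : IsOpen {v : EE m | δ⁻¹ • v ∈ U} := hU.preimage (dk_cont p δ⁻¹)
    have hyV : y ∈ {v : EE m | δ⁻¹ • v ∈ U} := by
      show δ⁻¹ • y ∈ U
      rw [← hδ, inv_smul_smul]
      exact hxU
    refine ⟨U ×ˢ {v : EE m | δ⁻¹ • v ∈ U},
      prod_mem_nhds (hU.mem_nhds hxU) (hV.mem_nhds hyV), ?_⟩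
    refine (Set.finite_singleton δ).subset ?_
    rintro γ ⟨w, ⟨hw1, hw2⟩, hw⟩
    have h4 : (δ⁻¹ * γ) • w.1 ∈ U := by
      rw [mul_smul, hw]
      exact hw2
    have h5 := hUγ (δ⁻¹ * γ) w.1 hw1 h4
    have h6 : γ = δ := by
      rw [inv_mul_eq_one] at h5
      exact h5.symm
    exact h6
  · obtain ⟨A, B, hA, hB, hxA, hyB, hAB⟩ := t2_separation hxy
    refine ⟨(p ⁻¹' A) ×ˢ (p ⁻¹' B),
      prod_mem_nhds ((hA.preimage hc).mem_nhds hxA) ((hB.preimage hc).mem_nhds hyB), ?_⟩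
    convert Set.finite_empty (α := Dk p)
    rw [Set.eq_empty_iff_forall_notMem]
    rintro γ ⟨w, ⟨hw1, hw2⟩, hw⟩
    have h4 : p w.1 ∈ A := hw1
    have h5 : p w.2 ∈ B := hw2
    rw [← hw, dk_map p γ w.1] at h5
    exact Set.disjoint_left.1 hAB h4 h5

theorem p_UC3 (hUC1 : Stmt_UC1) : Stmt_UC3 := by
  intro m X _ _ p hp R
  choose W hW hfin using UC3_local hUC1 p hp
  have hK : IsCompact (Metric.closedBall (0 : EE m) R ×ˢ Metric.closedBall (0 : EE m) R) :=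
    (isCompact_closedBall _ _).prod (isCompact_closedBall _ _)
  obtain ⟨t, -, ht⟩ := hK.elim_nhds_subcover W (fun z _ => hW z)
  refine (t.finite_toSet.biUnion fun z _ => hfin z).subset ?_
  rintro γ ⟨x, hx, hγx⟩
  have h1 : (x, γ • x) ∈ Metric.closedBall (0 : EE m) R ×ˢ Metric.closedBall (0 : EE m) R := by
    refine ⟨?_, ?_⟩
    · rw [mem_closedBall_zero_iff]
      exact hx
    · rw [mem_closedBall_zero_iff]
      exact hγx
  have h2 := ht h1
  simp only [Set.mem_iUnion] at h2 ⊢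
  obtain ⟨z, hz, hzW⟩ := h2
  exact ⟨z, hz, (x, γ • x), hzW, rfl⟩

end HDP
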