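import Pool.Agent.Work.MP_c3bd4f_as.Interface2

set_option autoImplicit false

open scoped ContDiff Manifold Topology
open Set MeasureTheory

noncomputable section

namespace HDP

open HDC HDE

theorem UC4_one {m : ℕ} {X : Type} [TopologicalSpace X] [ChartedSpace (EE m) X]
    [IsManifold 𝓘(ℝ, EE m) ∞ X] (p : EE m → X)
    (hp : IsLocalDiffeomorph 𝓘(ℝ, EE m) 𝓘(ℝ, EE m) ∞ p) :
    ∀ c ∈ atlas (EE m) X, ContDiffOn ℝ ∞ (fun y => c (p y)) (p ⁻¹' c.source) := by
  intro c hc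
  have h1 : ContMDiffOn 𝓘(ℝ, EE m) 𝓘(ℝ, EE m) ∞ c c.source :=
    contMDiffOn_of_mem_maximalAtlas (IsManifold.subset_maximalAtlas hc)
  have h2 : ContMDiffOn 𝓘(ℝ, EE m) 𝓘(ℝ, EE m) ∞ (fun y => c (p y)) (p ⁻¹' c.source) :=
    h1.comp hp.contMDiff.contMDiffOn subset_rfl
  exact contMDiffOn_iff_contDiffOn.1 h2

theorem UC4_two {m : ℕ} {X : Type} [TopologicalSpace X] [ChartedSpace (EE m) X]
    [IsManifold 𝓘(ℝ, EE m) ∞ X] (p : EE m → X)
    (hp : IsLocalDiffeomorph 𝓘(ℝ, EE m) 𝓘(ℝ, EE m) ∞ p) (a : ℕ) (U : Set (EE a))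
    (y : EE a → EE m) (hU : IsOpen U) (hy : ContinuousOn y U)
    (h : ∀ c ∈ atlas (EE m) X, ∀ x ∈ U, p (y x) ∈ c.source →
      ContDiffAt ℝ ∞ (fun z => c (p (y z))) x) : ContDiffOn ℝ ∞ y U := by
  intro x hx
  apply ContDiffAt.contDiffWithinAt
  obtain ⟨Q, hQ, hEq⟩ := hp (y x)
  set c := chartAt (EE m) (p (y x)) with hc
  have hcs : p (y x) ∈ c.source := mem_chart_source _ _
  have hca : c ∈ atlas (EE m) X := chart_mem_atlas _ _
  have hyx : ContinuousAt y x := hy.continuousAt (hU.mem_nhds hx)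
  have hpc : Continuous p := hp.contMDiff.continuous
  -- the local inverse
  have hs : ContMDiffAt 𝓘(ℝ, EE m) 𝓘(ℝ, EE m) ∞ c.symm (c (p (y x))) :=
    (contMDiffOn_symm_of_mem_maximalAtlas (IsManifold.subset_maximalAtlas hca)).contMDiffAt
      (c.open_target.mem_nhds (c.map_source hcs))
  have hpQ : p (y x) = Q.toPartialEquiv (y x) := hEq hQ
  have hpt : p (y x) ∈ Q.target := by
    rw [hpQ]
    exact Q.map_source' hQ
  have hq : ContMDiffAt 𝓘(ℝ, EE m) 𝓘(ℝ, EE m) ∞ Q.invFun (c.symm (c (p (y x)))) := by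
    rw [c.left_inv hcs]
    exact Q.contMDiffOn_invFun.contMDiffAt (Q.open_target.mem_nhds hpt)
  have hg : ContDiffAt ℝ ∞ (fun z => Q.invFun (c.symm z)) (c (p (y x))) :=
    contMDiffAt_iff_contDiffAt.1 (hq.comp (c (p (y x))) hs)
  have hcomp : ContDiffAt ℝ ∞ (fun z => Q.invFun (c.symm (c (p (y z))))) x :=
    ContDiffAt.comp (f := fun z => c (p (y z))) (g := fun z => Q.invFun (c.symm z)) x hg
      (h c hca x hx hcs)
  refine hcomp.congr_of_eventuallyEq ?_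
  have e1 : ∀ᶠ z in 𝓝 x, y z ∈ Q.source := hyx (Q.open_source.mem_nhds hQ)
  have e2 : ∀ᶠ z in 𝓝 x, p (y z) ∈ c.source :=
    (hpc.continuousAt.comp hyx) (c.open_source.mem_nhds hcs)
  filter_upwards [e1, e2] with z hz1 hz2
  rw [c.left_inv hz2, hEq hz1]
  exact (Q.left_inv' hz1).symm

theorem p_UC4 : Stmt_UC4 := by
  intro m X _ _ _ p hp
  refine ⟨UC4_one p hp, UC4_two p hp, fun γ => ?_⟩
  rw [← contDiffOn_univ]
  refine UC4_two p hp m univ (dr p γ) isOpen_univ (dk_cont p γ).continuousOn ?_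
  intro c hc x _ hx
  have h1 : (fun z => c (p (dr p γ z))) = fun z => c (p z) := by
    funext z
    exact congrArg c (dk_map p γ z)
  have h2 : p x ∈ c.source := by
    have : p (dr p γ x) = p x := dk_map p γ x
    rwa [this] at hx
  rw [h1]
  exact (UC4_one p hp c hc).contDiffAt
    ((c.open_source.preimage hp.contMDiff.continuous).mem_nhds h2)

end HDP
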