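import Pool.Agent.Work.MP_c3bd4f_as.Interface2

set_option autoImplicit false

/-!
# Block UC5 (helper10): the pullback of forms on `X` to `ℝ^m`
-/

open scoped ContDiff Manifold Topology
open Set MeasureTheory

noncomputable section

namespace HDP

open HDC HDE

theorem UC5_two : (2 : WithTop ℕ∞) ≤ ∞ := by
  have h : ((2 : ℕ∞) : WithTop ℕ∞) ≤ ((⊤ : ℕ∞) : WithTop ℕ∞) := WithTop.coe_le_coe.mpr le_top
  exact h

theorem UC5_key (hPQA : Stmt_PQA) {m : ℕ} {X : Type} [TopologicalSpace X] [ChartedSpace (EE m) X]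
    [IsManifold 𝓘(ℝ, EE m) ∞ X] {p : EE m → X} (hp : Continuous p)
    (hsm : ∀ c ∈ atlas (EE m) X, ContDiffOn ℝ ∞ (fun y => c (p y)) (p ⁻¹' c.source))
    {k : ℕ} {w : Fam m X} (hw : IsForm k w) {c c' : OpenPartialHomeomorph X (EE m)}
    (hc : c ∈ atlas (EE m) X) (hc' : c' ∈ atlas (EE m) X) (e : EE m) (he : p e ∈ c.source)
    (he' : p e ∈ c'.source) :
    pq (fderiv ℝ (fun y => c (p y)) e) (w c (c (p e))) =
      pq (fderiv ℝ (fun y => c' (p y)) e) (w c' (c' (p e))) := by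
  obtain ⟨-, hQ2, -, -, -, -, hQ7⟩ := hPQA
  have hopen : IsOpen (p ⁻¹' c.source) := c.open_source.preimage hp
  have h1 : DifferentiableAt ℝ (fun y => c (p y)) e :=
    ((hsm c hc).contDiffAt (hopen.mem_nhds he)).differentiableAt (by simp)
  obtain ⟨hO, hS, -⟩ := HDC.q_TRN m X c hc c' hc'
  have hz : c (p e) ∈ {z | z ∈ c.target ∧ c.symm z ∈ c'.source} := by
    refine ⟨c.map_source he, ?_⟩
    rw [c.left_inv he]
    exact he'
  have hT : DifferentiableAt ℝ (fun z => c' (c.symm z)) (c (p e)) :=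
    (hS.contDiffAt (hO.mem_nhds hz)).differentiableAt (by simp)
  have h3 : (fun y => c' (p y)) =ᶠ[𝓝 e] (fun z => c' (c.symm z)) ∘ fun y => c (p y) := by
    filter_upwards [hopen.mem_nhds he] with y hy
    simp only [Function.comp_apply]
    rw [c.left_inv hy]
  have h4 : fderiv ℝ (fun y => c' (p y)) e =
      (fderiv ℝ (fun z => c' (c.symm z)) (c (p e))).comp (fderiv ℝ (fun y => c (p y)) e) := by
    rw [h3.fderiv_eq]
    exact fderiv_comp e hT h1
  have h5 := hw.compat c hc c' hc' (c (p e)) (c.map_source he) hz.2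
  rw [c.left_inv he] at h5
  rw [h4, hQ2, h5, ← hQ7]

theorem UC5_smooth (hPQS : Stmt_PQS) {a b : ℕ} (h : EE a → EE b) (θ : EE b → Lam b) (e : EE a)
    (hh : ContDiffAt ℝ ∞ h e) (hθ : ContDiffAt ℝ ∞ θ (h e)) : ContDiffAt ℝ ∞ (pf h θ) e := by
  have hG : ContDiff ℝ ∞ (fun q : (EE a →L[ℝ] EE b) × Lam b => pq q.1 q.2) := (hPQS a b).1
  have hA' : ContDiffAt ℝ ∞ (fderiv ℝ h) e := hh.fderiv_right (by simp)
  have hW : ContDiffAt ℝ ∞ (fun y => θ (h y)) e := ContDiffAt.comp e hθ hh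
  have hP : ContDiffAt ℝ ∞ (fun y => (fderiv ℝ h y, θ (h y))) e := hA'.prodMk hW
  have h1 := hG.comp_contDiffAt e hP
  exact h1

theorem p_UC5 (hPQA : Stmt_PQA) (hPQS : Stmt_PQS) (hPFA : Stmt_PFA) : Stmt_UC5 := by
  intro m X _ _ _ p hp hsm k w hw
  have hkey := fun {c c' : OpenPartialHomeomorph X (EE m)} hc hc' e he he' =>
    UC5_key (c := c) (c' := c') hPQA hp hsm hw hc hc' e he he'
  have hopen : ∀ c : OpenPartialHomeomorph X (EE m), IsOpen (p ⁻¹' c.source) := fun c =>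
    c.open_source.preimage hp
  have h1 : ∀ c ∈ atlas (EE m) X, ∀ e, p e ∈ c.source →
      QF p w e = pf (fun y => c (p y)) (w c) e := by
    intro c hc e he
    exact hkey (chart_mem_atlas (EE m) (p e)) hc e (mem_chart_source _ _) he
  have hcd : ∀ c ∈ atlas (EE m) X, ∀ e, p e ∈ c.source →
      ContDiffAt ℝ ∞ (fun y => c (p y)) e := fun c hc e he =>
    (hsm c hc).contDiffAt ((hopen c).mem_nhds he)
  have hwd : ∀ c ∈ atlas (EE m) X, ∀ e, p e ∈ c.source → ContDiffAt ℝ ∞ (w c) (c (p e)) :=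
    fun c hc e he => (hw.smooth c hc).contDiffAt (c.open_target.mem_nhds (c.map_source he))
  have hev : ∀ c ∈ atlas (EE m) X, ∀ e, p e ∈ c.source →
      QF p w =ᶠ[𝓝 e] pf (fun y => c (p y)) (w c) := by
    intro c hc e he
    filter_upwards [(hopen c).mem_nhds he] with y hy
    exact h1 c hc y hy
  have h5 : ∀ (a : ℕ) (y : EE a → EE m) (x : EE a), DifferentiableAt ℝ y x →
      ∀ c ∈ atlas (EE m) X, p (y x) ∈ c.source → pf y (QF p w) x =
      pq (fderiv ℝ (fun z => c (p (y z))) x) (w c (c (p (y x)))) := by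
    intro a y x hy c hc hx
    have e1 : pf y (QF p w) x = pq (fderiv ℝ y x) (QF p w (y x)) := rfl
    rw [e1, h1 c hc (y x) hx]
    have e2 : pf (fun y => c (p y)) (w c) (y x) =
      pq (fderiv ℝ (fun y => c (p y)) (y x)) (w c (c (p (y x)))) := rfl
    rw [e2, ← hPQA.2.1]
    congr 1
    congr 1
    exact (fderiv_comp x ((hcd c hc (y x) hx).differentiableAt (by simp)) hy).symm
  refine ⟨h1, ⟨?_, ?_⟩, ?_, ?_, h5, ?_⟩
  · rw [contDiff_iff_contDiffAt]
    intro e
    have hc := chart_mem_atlas (EE m) (p e)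
    have he := mem_chart_source (EE m) (p e)
    refine ContDiffAt.congr_of_eventuallyEq ?_ (hev _ hc e he)
    exact UC5_smooth hPQS _ _ e (hcd _ hc e he) (hwd _ hc e he)
  · intro e
    exact hPQA.2.2.2.2.2.1 m m k _ _ (hw.deg _ (chart_mem_atlas (EE m) (p e)) _
      (mem_chart_target (EE m) (p e)))
  · funext e
    have hc := chart_mem_atlas (EE m) (p e)
    have he := mem_chart_source (EE m) (p e)
    have e1 : D (QF p w) e = D (pf (fun y => chartAt (EE m) (p e) (p y)) (w (chartAt (EE m) (p e)))) e := by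
      unfold D
      rw [(hev _ hc e he).fderiv_eq]
    rw [e1, hPFA.2.2.2.2 m m _ _ e ((hcd _ hc e he).of_le UC5_two)
      ((hwd _ hc e he).differentiableAt (by simp))]
    rfl
  · intro h hh hph
    funext x
    have hc := chart_mem_atlas (EE m) (p x)
    have hx := mem_chart_source (EE m) (p x)
    have hx' : p (h x) ∈ (chartAt (EE m) (p x)).source := by rw [hph]; exact hx
    rw [h5 m h x ((hh.differentiable (by simp)) x) _ hc hx', h1 _ hc x hx]
    have e2 : (fun z => chartAt (EE m) (p x) (p (h z))) = fun z => chartAt (EE m) (p x) (p z) := by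
      funext z
      rw [hph]
    rw [e2, hph]
    rfl
  · intro j
    funext e
    have e1 : (QF p w ^ j) e = (QF p w e) ^ j := rfl
    rw [e1]
    unfold QF
    rw [← map_pow]
    rfl

end HDP
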