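import Pool.Agent.Work.MP_c3bd4f_as.Interface2

set_option autoImplicit false

/-! # Block UC6: smooth maps in charts -/

open scoped ContDiff Manifold Topology
open Set MeasureTheory

noncomputable section

namespace HDP

open HDC HDE

theorem p_UC6 : Stmt_UC6 := by
  intro N m M X _ _ _ _ _ _ f hf
  refine ⟨hf.continuous, fun c hc c' hc' x hx hfx => ?_⟩
  have h1 : ContMDiffAt 𝓘(ℝ, EE N) 𝓘(ℝ, EE N) ∞ c.symm x :=
    contMDiffAt_symm_of_mem_maximalAtlas (IsManifold.subset_maximalAtlas hc) hx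
  have h2 : ContMDiffAt 𝓘(ℝ, EE N) 𝓘(ℝ, EE m) ∞ f (c.symm x) := hf _
  have h3 : ContMDiffAt 𝓘(ℝ, EE m) 𝓘(ℝ, EE m) ∞ c' (f (c.symm x)) :=
    contMDiffAt_of_mem_maximalAtlas (IsManifold.subset_maximalAtlas hc') hfx
  have h4 := h3.comp x (h2.comp x h1)
  exact contMDiffAt_iff_contDiffAt.1 h4

end HDP
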