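import Pool.Agent.Work.MP_c3bd4f_as.Interface2

set_option autoImplicit false

/-! # Block UC7: the fibre product is a covering with the deck group -/

open scoped ContDiff Manifold Topology
open Set MeasureTheory

noncomputable section

namespace HDP

open HDC HDE

theorem UC7_open {m : ℕ} {M X : Type} [TopologicalSpace M] [TopologicalSpace X]
    (f : M → X) (p : EE m → X) (hf : Continuous f) (cov : IsCoveringMap p) :
    IsOpenMap (fq f p) := by
  intro W hW
  rw [isOpen_iff_mem_nhds]
  rintro _ ⟨e0, he0, rfl⟩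
  obtain ⟨h, hh0, hhp⟩ := cov.isLocalHomeomorph (fg f p e0)
  obtain ⟨V, hV, hVW⟩ := isOpen_induced_iff.1 hW
  have hVm : ∀ z : FP f p, z.1 ∈ V ↔ z ∈ W := fun z =>
    iff_of_eq (congrArg (fun S : Set (FP f p) => z ∈ S) hVW)
  have hpe : ∀ y, p y = h y := fun y => congrFun hhp y
  have hft : f (fq f p e0) ∈ h.target := by
    rw [fp_eq f p e0, hpe]
    exact h.map_source hh0
  have hA : f ⁻¹' h.target ∈ 𝓝 (fq f p e0) := (h.open_target.preimage hf).mem_nhds hft
  have hs : h.symm (f (fq f p e0)) = fg f p e0 := by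
    rw [fp_eq f p e0, hpe, h.left_inv hh0]
  have hc : ContinuousAt (fun x => (x, h.symm (f x))) (fq f p e0) :=
    continuousAt_id.prodMk
      (ContinuousAt.comp (f := f) (g := h.symm) (h.continuousAt_symm hft) hf.continuousAt)
  have hV0 : ((fq f p e0, h.symm (f (fq f p e0))) : M × EE m) ∈ V := by
    rw [hs]
    exact (hVm e0).2 he0
  filter_upwards [hA, hc (hV.mem_nhds hV0)] with x hx1 hx2
  have hx3 : f x = p (h.symm (f x)) := by
    rw [hpe, h.right_inv hx1]
  exact ⟨⟨(x, h.symm (f x)), hx3⟩, (hVm ⟨(x, h.symm (f x)), hx3⟩).1 hx2, rfl⟩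

theorem p_UC7 (hUC1 : Stmt_UC1) : Stmt_UC7 := by
  intro m M X _ _ f p hf cov hp
  obtain ⟨u1, -, u3⟩ := hUC1 m X p cov
  have hq : Continuous (fq f p) := continuous_fst.comp continuous_subtype_val
  have hg : Continuous (fg f p) := continuous_snd.comp continuous_subtype_val
  have hsurj : Function.Surjective (fq f p) := fun x => by
    obtain ⟨y, hy⟩ := hp (f x)
    exact ⟨⟨(x, y), hy.symm⟩, rfl⟩
  have hopen : IsOpenMap (fq f p) := UC7_open f p hf cov
  exact
    { toIsQuotientMap := hopen.isQuotientMap hq hsurj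
      continuous_const_smul := fun γ =>
        Continuous.subtype_mk (hq.prodMk ((dk_cont p γ).comp hg)) _
      apply_eq_iff_mem_orbit := by
        intro z w
        constructor
        · intro h
          have h1 : p (fg f p w) = p (fg f p z) := by
            rw [← fp_eq f p w, ← fp_eq f p z, h]
          obtain ⟨γ, hγ⟩ := u1 _ _ h1
          refine ⟨γ, fp_ext f p ?_ ?_⟩
          · show fq f p (γ • w) = fq f p z
            rw [fq_smul, h]
          · show fg f p (γ • w) = fg f p z
            rw [fg_smul, hγ]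
        · rintro ⟨γ, rfl⟩
          exact fq_smul f p γ w
      disjoint := by
        intro e
        obtain ⟨U, hU, heU, hU1⟩ := u3 (fg f p e)
        refine ⟨fg f p ⁻¹' U, (hU.preimage hg).mem_nhds heU, ?_⟩
        rintro γ ⟨w, ⟨v, hv, hvw⟩, hw⟩
        refine hU1 γ (fg f p v) hv ?_
        rw [← fg_smul]
        have h2 : γ • v = w := hvw
        rw [h2]
        exact hw }

end HDP
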