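import Pool.Agent.Work.MP_c3bd4f_as.Interface2

set_option autoImplicit false

/-!
# Block UC8: the data for a map to a manifold covered by `ℝ^m`
-/

open scoped ContDiff Manifold Topology
open Set MeasureTheory

noncomputable section

namespace HDP

open HDC HDE

theorem UC8_fg_cont {m : ℕ} {M X : Type} [TopologicalSpace M] (f : M → X) (p : EE m → X) :
    Continuous (fg f p) :=
  (continuous_snd.comp continuous_subtype_val :
    Continuous (fun z : {z : M × EE m // f z.1 = p z.2} => z.1.2))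

theorem p_UC8 (hUC3 : Stmt_UC3) (hUC4 : Stmt_UC4) (hUC5 : Stmt_UC5) (hUC6 : Stmt_UC6)
    (hUC7 : Stmt_UC7) : Stmt_UC8 := by
  intro n m M X _ _ _ _ _ _ _ p f σ η w hcov hsurj hloc hf hσ hdσ hη hdη hw
  have hcont : Continuous p := hcov.continuous
  obtain ⟨hsm, hlift, hdr⟩ := hUC4 m X p hloc
  obtain ⟨hfc, hfs⟩ := hUC6 (2 * n) m M X f hf
  obtain ⟨_, hFr, hD, hinv, hpf, hpow⟩ := hUC5 m X p hcont hsm 2 σ hσ
  obtain ⟨_, hFr', hD', hinv', _, _⟩ := hUC5 m X p hcont hsm (2 * n + 1) η hη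
  -- sections
  have hsec : ∀ (c : OpenPartialHomeomorph M (EE (2 * n))) (U : Set (EE (2 * n)))
      (s : EE (2 * n) → FP f p), LSec (fq f p) c U s → ∀ z ∈ U,
      p (fg f p (s z)) = f (c.symm z) := by
    intro c U s hs z hz
    exact (fp_eq f p (s z)).symm.trans (congrArg f (hs.sec z hz))
  have hgm : ∀ c ∈ atlas (EE (2 * n)) M, ∀ (U : Set (EE (2 * n))) (s : EE (2 * n) → FP f p),
      LSec (fq f p) c U s → ContDiffOn ℝ ∞ (fun y => fg f p (s y)) U := by
    intro c hc U s hs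
    refine hlift (2 * n) U (fun y => fg f p (s y)) hs.op
      ((UC8_fg_cont f p).comp_continuousOn hs.cont) ?_
    intro c' hc' x hx hx'
    have hx2 : f (c.symm x) ∈ c'.source := by
      rw [← hsec c U s hs x hx]; exact hx'
    refine (hfs c hc c' hc' x (hs.sub hx) hx2).congr_of_eventuallyEq ?_
    filter_upwards [hs.op.mem_nhds hx] with z hz
    show c' (p (fg f p (s z))) = c' (f (c.symm z))
    rw [hsec c U s hs z hz]
  refine ⟨⟨hUC7 m M X f p hfc hcov hsurj, ⟨?_, ?_, hdr, hUC3 m X p hcov⟩, ⟨?_, hgm⟩, hFr, ?_, ?_,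
    hFr', ?_, ?_⟩, ?_⟩
  · intro x; exact one_smul _ x
  · intro γ δ x; exact mul_smul γ δ x
  · intro γ e; rfl
  · rw [hD]
    funext e
    have h0 : dF σ (chartAt (EE m) (p e)) (chartAt (EE m) (p e) (p e)) = 0 :=
      hdσ _ (chart_mem_atlas _ _) _ ((chartAt (EE m) (p e)).map_source (mem_chart_source _ _))
    show pq _ (dF σ (chartAt (EE m) (p e)) (chartAt (EE m) (p e) (p e))) = 0
    rw [h0, map_zero]
  · intro γ
    exact hinv (dr p γ) (hdr γ) (fun x => dk_map p γ x)
  · rw [hD', ← hpow]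
    funext e
    have h0 : dF η (chartAt (EE m) (p e)) (chartAt (EE m) (p e) (p e)) =
        (σ ^ (n + 1)) (chartAt (EE m) (p e)) (chartAt (EE m) (p e) (p e)) :=
      hdη _ (chart_mem_atlas _ _) _ ((chartAt (EE m) (p e)).map_source (mem_chart_source _ _))
    show pq _ (dF η (chartAt (EE m) (p e)) (chartAt (EE m) (p e) (p e))) =
      pq _ ((σ ^ (n + 1)) (chartAt (EE m) (p e)) (chartAt (EE m) (p e) (p e)))
    rw [h0]
  · intro γ
    exact hinv' (dr p γ) (hdr γ) (fun x => dk_map p γ x)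
  · intro c hc U s hs x hx
    have hUx : U ∈ 𝓝 x := hs.op.mem_nhds hx
    have hdiff : DifferentiableAt ℝ (fun y => fg f p (s y)) x :=
      ((hgm c hc U s hs).contDiffAt hUx).differentiableAt (by simp)
    have hmem : p (fg f p (s x)) ∈ (chartAt (EE m) (f (c.symm x))).source := by
      rw [hsec c U s hs x hx]; exact mem_chart_source _ _
    rw [hpf (2 * n) (fun y => fg f p (s y)) x hdiff (chartAt (EE m) (f (c.symm x)))
      (chart_mem_atlas _ _) hmem, hw c hc x (hs.sub hx)]
    have hev : (fun z => chartAt (EE m) (f (c.symm x)) (p (fg f p (s z)))) =ᶠ[𝓝 x]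
        (fun y => chartAt (EE m) (f (c.symm x)) (f (c.symm y))) := by
      filter_upwards [hUx] with z hz
      rw [hsec c U s hs z hz]
    rw [hev.fderiv_eq, hsec c U s hs x hx]
    rfl

end HDP
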