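import Pool.Agent.Work.MP_c3bd4f_as.B_ALH
import Pool.Agent.Work.MP_c3bd4f_as.B_AVG
import Pool.Agent.Work.MP_c3bd4f_as.B_AVI
import Pool.Agent.Work.MP_c3bd4f_as.B_CAR
import Pool.Agent.Work.MP_c3bd4f_as.B_CAS
import Pool.Agent.Work.MP_c3bd4f_as.B_CHF
import Pool.Agent.Work.MP_c3bd4f_as.B_CHI
import Pool.Agent.Work.MP_c3bd4f_as.B_DPF
import Pool.Agent.Work.MP_c3bd4f_as.B_DTS
import Pool.Agent.Work.MP_c3bd4f_as.B_EMG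
import Pool.Agent.Work.MP_c3bd4f_as.B_ESW
import Pool.Agent.Work.MP_c3bd4f_as.B_EUC
import Pool.Agent.Work.MP_c3bd4f_as.B_EVW
import Pool.Agent.Work.MP_c3bd4f_as.B_FLT
import Pool.Agent.Work.MP_c3bd4f_as.B_FNU
import Pool.Agent.Work.MP_c3bd4f_as.B_FNW
import Pool.Agent.Work.MP_c3bd4f_as.B_FNX
import Pool.Agent.Work.MP_c3bd4f_as.B_FRA
import Pool.Agent.Work.MP_c3bd4f_as.B_GE1
import Pool.Agent.Work.MP_c3bd4f_as.B_GE2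
import Pool.Agent.Work.MP_c3bd4f_as.B_GEO
import Pool.Agent.Work.MP_c3bd4f_as.B_GEV
import Pool.Agent.Work.MP_c3bd4f_as.B_GEX
import Pool.Agent.Work.MP_c3bd4f_as.B_GFX
import Pool.Agent.Work.MP_c3bd4f_as.B_GHC
import Pool.Agent.Work.MP_c3bd4f_as.B_GMA
import Pool.Agent.Work.MP_c3bd4f_as.B_GNC
import Pool.Agent.Work.MP_c3bd4f_as.B_GP0
import Pool.Agent.Work.MP_c3bd4f_as.B_GP1
import Pool.Agent.Work.MP_c3bd4f_as.B_GS0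
import Pool.Agent.Work.MP_c3bd4f_as.B_GS1
import Pool.Agent.Work.MP_c3bd4f_as.B_GSP
import Pool.Agent.Work.MP_c3bd4f_as.B_GU8
import Pool.Agent.Work.MP_c3bd4f_as.B_H3C
import Pool.Agent.Work.MP_c3bd4f_as.B_LFE
import Pool.Agent.Work.MP_c3bd4f_as.B_LFT
import Pool.Agent.Work.MP_c3bd4f_as.B_LSU
import Pool.Agent.Work.MP_c3bd4f_as.B_LSX
import Pool.Agent.Work.MP_c3bd4f_as.B_MAW
import Pool.Agent.Work.MP_c3bd4f_as.B_PFA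
import Pool.Agent.Work.MP_c3bd4f_as.B_PGA
import Pool.Agent.Work.MP_c3bd4f_as.B_PLD
import Pool.Agent.Work.MP_c3bd4f_as.B_PLF
import Pool.Agent.Work.MP_c3bd4f_as.B_PLH
import Pool.Agent.Work.MP_c3bd4f_as.B_PLM
import Pool.Agent.Work.MP_c3bd4f_as.B_PLV
import Pool.Agent.Work.MP_c3bd4f_as.B_PQA
import Pool.Agent.Work.MP_c3bd4f_as.B_PQS
import Pool.Agent.Work.MP_c3bd4f_as.B_PZO
import Pool.Agent.Work.MP_c3bd4f_as.B_R2A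
import Pool.Agent.Work.MP_c3bd4f_as.B_REL
import Pool.Agent.Work.MP_c3bd4f_as.B_STP
import Pool.Agent.Work.MP_c3bd4f_as.B_UC1
import Pool.Agent.Work.MP_c3bd4f_as.B_UC3
import Pool.Agent.Work.MP_c3bd4f_as.B_UC4
import Pool.Agent.Work.MP_c3bd4f_as.B_UC5
import Pool.Agent.Work.MP_c3bd4f_as.B_UC6
import Pool.Agent.Work.MP_c3bd4f_as.B_UC7
import Pool.Agent.Work.MP_c3bd4f_as.B_UC8
import Pool.Agent.Work.MP_c3bd4f_as.B_UFP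

set_option autoImplicit false

/-! # Assembly of the blocks -/

noncomputable section

namespace HDP

theorem q_ALH : Stmt_ALH := p_ALH 

theorem q_CHF : Stmt_CHF := p_CHF 

theorem q_CHI : Stmt_CHI := p_CHI q_CHF

theorem q_DTS : Stmt_DTS := p_DTS 

theorem q_EVW : Stmt_EVW := p_EVW 

theorem q_FRA : Stmt_FRA := p_FRA 

theorem q_GEV : Stmt_GEV := p_GEV 

theorem q_GHC : Stmt_GHC := p_GHC 

theorem q_GNC : Stmt_GNC := p_GNC 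

theorem q_GP0 : Stmt_GP0 := p_GP0 

theorem q_GP1 : Stmt_GP1 := p_GP1 

theorem q_GS0 : Stmt_GS0 := p_GS0 q_GP0 q_GHC

theorem q_GS1 : Stmt_GS1 := p_GS1 q_GP1 q_GHC

theorem q_H3C : Stmt_H3C := p_H3C 

theorem q_LFE : Stmt_LFE := p_LFE 

theorem q_LFT : Stmt_LFT := p_LFT 

theorem q_LSX : Stmt_LSX := p_LSX 

theorem q_PQA : Stmt_PQA := p_PQA 

theorem q_PQS : Stmt_PQS := p_PQS 

theorem q_UC1 : Stmt_UC1 := p_UC1 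

theorem q_UC3 : Stmt_UC3 := p_UC3 q_UC1

theorem q_UC4 : Stmt_UC4 := p_UC4 

theorem q_UC6 : Stmt_UC6 := p_UC6 

theorem q_UC7 : Stmt_UC7 := p_UC7 q_UC1

theorem q_CAS : Stmt_CAS := p_CAS q_PQS q_DTS

theorem q_DPF : Stmt_DPF := p_DPF q_PQA q_PQS

theorem q_EMG : Stmt_EMG := p_EMG q_LSX

theorem q_ESW : Stmt_ESW := p_ESW q_ALH q_H3C

theorem q_FLT : Stmt_FLT := p_FLT q_PQA

theorem q_LSU : Stmt_LSU := p_LSU q_LSX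

theorem q_PFA : Stmt_PFA := p_PFA q_PQA q_PQS q_DPF

theorem q_PGA : Stmt_PGA := p_PGA q_PQA q_DTS

theorem q_PLV : Stmt_PLV := p_PLV q_PGA q_LSU

theorem q_R2A : Stmt_R2A := p_R2A q_PFA

theorem q_UC5 : Stmt_UC5 := p_UC5 q_PQA q_PQS q_PFA

theorem q_UC8 : Stmt_UC8 := p_UC8 q_UC3 q_UC4 q_UC5 q_UC6 q_UC7

theorem q_UFP : Stmt_UFP := p_UFP q_PQA q_PQS q_PFA

theorem q_AVG : Stmt_AVG := p_AVG q_PFA q_FRA q_R2A

theorem q_AVI : Stmt_AVI := p_AVI q_PQA q_FLT q_R2A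

theorem q_CAR : Stmt_CAR := p_CAR q_PQA q_PQS q_DPF q_PFA q_DTS q_CAS

theorem q_GE1 : Stmt_GE1 := p_GE1 q_LSX q_LFT q_LFE q_EMG q_PLV q_R2A

theorem q_GSP : Stmt_GSP := p_GSP q_PQA q_PGA q_LSX q_EMG q_PLV

theorem q_GU8 : Stmt_GU8 := p_GU8 q_UC3 q_UC4 q_UC5 q_UC6 q_UC7

theorem q_PLD : Stmt_PLD := p_PLD q_PFA q_CAR q_LSX q_PLV

theorem q_PLF : Stmt_PLF := p_PLF q_PQA q_CAS q_PGA q_LSX q_PLV

theorem q_PLH : Stmt_PLH := p_PLH q_PFA q_PGA q_LSX q_PLV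

theorem q_PLM : Stmt_PLM := p_PLM q_PGA q_LSX q_PLV

theorem q_PZO : Stmt_PZO := p_PZO q_PQA q_PFA q_CAS q_CAR q_PGA q_FLT

theorem q_STP : Stmt_STP := p_STP q_PFA q_FRA q_FLT q_PZO q_CHI q_AVG q_AVI

theorem q_GE2 : Stmt_GE2 := p_GE2 q_R2A q_EMG q_PLH q_GSP

theorem q_REL : Stmt_REL := p_REL q_PFA q_FRA q_FLT q_STP

theorem q_EUC : Stmt_EUC := p_EUC q_PFA q_FRA q_ALH q_R2A q_REL

theorem q_GEO : Stmt_GEO := p_GEO q_PQA q_PFA q_R2A q_EUC q_PLF q_PLD q_PLM q_GE1 q_GE2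

theorem q_GEX : Stmt_GEX := p_GEX q_PFA q_R2A q_EUC q_PLF q_PLD q_PLM q_GE1 q_GE2

theorem q_GMA : Stmt_GMA := p_GMA q_GS0 q_GS1 q_GEX q_GEV

theorem q_MAW : Stmt_MAW := p_MAW q_GEO q_ESW q_EVW

theorem q_FNW : Stmt_FNW := p_FNW q_MAW

theorem q_FNX : Stmt_FNX := p_FNX q_UC8 q_FNW

theorem q_GFX : Stmt_GFX := p_GFX q_UC6 q_GMA q_GNC q_UFP q_GU8

theorem q_FNU : Stmt_FNU := p_FNU q_FNX

end HDP
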