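import Pool.Agent.Work.MP_c3bd4f_as.Interface

set_option autoImplicit false

open scoped ContDiff Manifold Topology
open Set MeasureTheory

noncomputable section

namespace HDP

open HDC HDE

theorem ALH_z {R : Type} [Ring R] (x y : R) : h2 0 x y = 1 := by
  unfold h2
  simp

theorem ALH_s {R : Type} [Ring R] (n : ℕ) (x y : R) :
    h2 (n + 1) x y = y ^ (n + 1) + x * h2 n x y := by
  unfold h2
  rw [Finset.sum_range_succ', Finset.mul_sum, add_comm]
  congr 1
  · simp
  · refine Finset.sum_congr rfl fun i _ => ?_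
    rw [pow_succ', mul_assoc, show n + 1 - (i + 1) = n - i by omega]

theorem ALH_t {R : Type} [Ring R] (n : ℕ) (x y : R) (h : x * y = y * x) :
    h2 (n + 1) x y = x ^ (n + 1) + y * h2 n x y := by
  unfold h2
  rw [Finset.sum_range_succ, Finset.mul_sum, add_comm]
  congr 1
  · simp
  · refine Finset.sum_congr rfl fun i hi => ?_
    have hi' : i < n + 1 := Finset.mem_range.1 hi
    rw [show n + 1 - i = n - i + 1 by omega, pow_succ', ← mul_assoc, ← mul_assoc]
    have hc : Commute (x ^ i) y := (show Commute x y from h).pow_left i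
    rw [hc.eq]

theorem ALH_one {R : Type} [Ring R] (n : ℕ) (x y : R) (h : x * y = y * x) :
    (y - x) * h2 n x y = y ^ (n + 1) - x ^ (n + 1) := by
  have h1 := ALH_s n x y
  have h3 := ALH_t n x y h
  rw [sub_mul]
  have h4 : y * h2 n x y = y ^ (n + 1) + x * h2 n x y - x ^ (n + 1) := by
    rw [← h1, h3]
    abel
  rw [h4]
  abel

theorem ALH_U {R : Type} [Ring R] [Algebra ℝ R] (n : ℕ) (x z : R) (h : x * z = z * x) :
    UU (n + 1) (n + 1) 1 x z = (x + z) ^ (n + 1) + x * UU n n 1 x z := by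
  unfold UU HP
  have hbc : ∀ i, bc (n + 1 + 1) (i + 1) = bc (n + 1) i + bc (n + 1) (i + 1) := by
    intro i
    unfold bc
    rw [Nat.choose_succ_succ]
    push_cast
    ring
  have hpow : (x + z) ^ (n + 1) =
      ∑ i ∈ Finset.range (n + 1 + 1), bc (n + 1) i • (x ^ i * z ^ (n + 1 - i)) := by
    rw [(show Commute x z from h).add_pow]
    refine Finset.sum_congr rfl fun i _ => ?_
    unfold bc
    rw [Nat.cast_smul_eq_nsmul, nsmul_eq_mul]
    exact ((Nat.cast_commute ((n + 1).choose i) (x ^ i * z ^ (n + 1 - i))).eq).symm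
  rw [hpow]
  rw [Finset.sum_range_succ', Finset.sum_range_succ' (fun i => bc (n + 1) i • _), Finset.mul_sum]
  have e0 : bc (n + 1 + 1) 0 = bc (n + 1) 0 := by
    unfold bc
    simp
  rw [e0]
  have e1 : ∀ i ∈ Finset.range (n + 1), bc (n + 1 + 1) (i + 1) •
      (x ^ (i + 1) * z ^ (n + 1 + 1 - 1 - (i + 1))) =
      bc (n + 1) (i + 1) • (x ^ (i + 1) * z ^ (n + 1 - (i + 1))) +
        x * (bc (n + 1) i • (x ^ i * z ^ (n + 1 - 1 - i))) := by
    intro i hi
    rw [hbc, add_smul, add_comm]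
    have a1 : n + 1 + 1 - 1 - (i + 1) = n + 1 - (i + 1) := by omega
    have a2 : n + 1 - 1 - i = n + 1 - (i + 1) := by omega
    rw [a1, a2, mul_smul_comm, ← mul_assoc, ← pow_succ']
  rw [Finset.sum_congr rfl e1, Finset.sum_add_distrib]
  have a3 : n + 1 + 1 - 1 - 0 = n + 1 - 0 := by omega
  rw [a3]
  abel

theorem ALH_two {R : Type} [Ring R] [Algebra ℝ R] (n : ℕ) (x y : R) (h : x * y = y * x) :
    UU n n 1 x (y - x) = h2 n x y := by
  have hz : x * (y - x) = (y - x) * x := by rw [mul_sub, sub_mul, h]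
  induction n with
  | zero =>
    rw [ALH_z]
    unfold UU HP bc
    simp
  | succ n ih =>
    rw [ALH_U n x (y - x) hz, ih, ALH_s, add_sub_cancel]

theorem ALH_h0 {R : Type} [Ring R] (x y z : R) : h3 0 x y z = 1 := by
  unfold h3
  simp [ALH_z]

theorem ALH_h {R : Type} [Ring R] (k : ℕ) (x y z : R) :
    h3 (k + 1) x y z = h2 (k + 1) y z + x * h3 k x y z := by
  unfold h3
  rw [Finset.sum_range_succ', Finset.mul_sum, add_comm]
  congr 1
  · simp
  · refine Finset.sum_congr rfl fun i _ => ?_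
    rw [pow_succ', mul_assoc, show k + 1 - (i + 1) = k - i by omega]

theorem p_ALH : Stmt_ALH := by
  intro R _ _
  refine ⟨fun n x y h => ALH_one n x y h, fun n x y h => ALH_two n x y h, ?_⟩
  intro k x y z hxy hxz hyz
  induction k with
  | zero =>
    rw [ALH_h0, mul_one, mul_one, ALH_s, ALH_s, ALH_s, ALH_z, ALH_z, ALH_z]
    refine ⟨?_, ?_⟩
    · simp only [pow_one, mul_one, zero_add]
      abel
    · simp only [pow_one, mul_one, zero_add]
      abel
  | succ k ih =>
    obtain ⟨i1, i2⟩ := ih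
    rw [ALH_h]
    have c1 : (y - x) * x = x * (y - x) := by rw [mul_sub, sub_mul, hxy]
    have c2 : (z - x) * x = x * (z - x) := by rw [mul_sub, sub_mul, hxz]
    refine ⟨?_, ?_⟩
    · rw [mul_add, ← mul_assoc, c1, mul_assoc, ← i1, ALH_s (k + 1) y z, ALH_s (k + 1) x z, mul_sub,
        sub_mul]
      abel
    · rw [mul_add, ← mul_assoc, c2, mul_assoc, ← i2, ALH_t (k + 1) y z hyz, ALH_s (k + 1) x y,
        mul_sub, sub_mul]
      abel

end HDP
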