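import Pool.Agent.Work.MP_c3bd4f_as.Interface

set_option autoImplicit false

/-!
# Calabi invariant of open manifolds, block EMG: the family `g ∘ Ψ`
-/

open scoped ContDiff Manifold Topology
open Set MeasureTheory

noncomputable section

namespace HDP

open HDC HDE

/-- Smoothness of `(t, y) ↦ g (Ψ t (s y))`. -/
theorem EMG_sm (hLSX : Stmt_LSX) {N m : ℕ} {M E Γ : Type} [TopologicalSpace M]
    [ChartedSpace (EE N) M] [IsManifold 𝓘(ℝ, EE N) ∞ M] [TopologicalSpace E] [Group Γ]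
    [MulAction Γ E] (q : E → M) (ρ : Γ → EE m → EE m) (hq : IsQuotientCoveringMap q Γ)
    (g : E → EE m) (Φ : ℝ → M → M) (Ψ : ℝ → E → E) (hg : Gm N q ρ g) (hΦ : SmI N Φ)
    (hΨ : Lft Γ q Φ Ψ) (c : OpenPartialHomeomorph M (EE N)) (hc : c ∈ atlas (EE N) M)
    (U : Set (EE N)) (s : EE N → E) (hs : LSec q c U s) :
    SmC U (fun t y => g (Ψ t (s y))) := by
  obtain ⟨-, hL2, hL3⟩ := hLSX M E Γ q hq
  obtain ⟨hcont, hP⟩ := HDC.q_PHL N M Φ hΦ
  unfold SmC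
  rintro ⟨t0, x0⟩ ⟨ht0, hx0⟩
  simp only at ht0 hx0
  set p1 : M := Φ t0 (c.symm x0) with hp1
  set e1 : E := Ψ t0 (s x0) with he1
  have hqe : q e1 = p1 := by
    rw [he1, hΨ.pr t0 ht0, hs.sec x0 hx0]
  set c' : OpenPartialHomeomorph M (EE N) := chartAt (EE N) p1 with hc'
  have hc'm : c' ∈ atlas (EE N) M := chart_mem_atlas _ _
  have hp1s : p1 ∈ c'.source := mem_chart_source _ _
  obtain ⟨U', s', hs', hxU', hse⟩ := hL2 N c' (c' p1) (c'.map_source hp1s) e1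
    (by rw [c'.left_inv hp1s, hqe])
  obtain ⟨⟨V, hV, hSS⟩, hsm⟩ := hP c hc c' hc'm
  have hmem : ((t0, x0) : ℝ × EE N) ∈ SS Φ c c' := ⟨ht0, hs.sub hx0, hp1s⟩
  have hmemV : ((t0, x0) : ℝ × EE N) ∈ V := by
    rw [hSS] at hmem
    exact hmem.2
  -- the set
  set S : Set (ℝ × EE N) := Icc (0 : ℝ) 1 ×ˢ U with hSdef
  have hxS : ((t0, x0) : ℝ × EE N) ∈ S := ⟨ht0, hx0⟩
  -- near the point, in S, we are in SS
  have hev : ∀ᶠ p in 𝓝[S] ((t0, x0) : ℝ × EE N), p ∈ SS Φ c c' := by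
    have h1 : ∀ᶠ p in 𝓝[S] ((t0, x0) : ℝ × EE N), p ∈ V :=
      mem_nhdsWithin_of_mem_nhds (hV.mem_nhds hmemV)
    filter_upwards [h1, self_mem_nhdsWithin] with p hp hpS
    rw [hSS]
    exact ⟨⟨hpS.1, mem_univ _⟩, hp⟩
  -- smoothness of φ within S
  have hφ0 : ContDiffWithinAt ℝ ∞ (fun p : ℝ × EE N => c' (Φ p.1 (c.symm p.2))) S (t0, x0) := by
    have h1 := hsm (t0, x0) hmem
    exact h1.mono_of_mem_nhdsWithin hev
  have hφc : ContinuousWithinAt (fun p : ℝ × EE N => c' (Φ p.1 (c.symm p.2))) S (t0, x0) :=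
    hφ0.continuousWithinAt
  have hU'n : U' ∈ 𝓝 (c' p1) := hs'.op.mem_nhds hxU'
  have hevU : ∀ᶠ p in 𝓝[S] ((t0, x0) : ℝ × EE N), c' (Φ p.1 (c.symm p.2)) ∈ U' :=
    hφc hU'n
  -- g ∘ s' smooth at c' p1
  have hgs : ContDiffAt ℝ ∞ (fun y => g (s' y)) (c' p1) :=
    (hg.sm c' hc'm U' s' hs').contDiffAt hU'n
  have hcomp : ContDiffWithinAt ℝ ∞
      (fun p : ℝ × EE N => g (s' (c' (Φ p.1 (c.symm p.2))))) S (t0, x0) :=
    ContDiffAt.comp_contDiffWithinAt (f := fun p : ℝ × EE N => c' (Φ p.1 (c.symm p.2)))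
      (g := fun y => g (s' y)) (t0, x0) hgs hφ0
  -- the two maps to E agree
  have hf : ContinuousWithinAt (fun p : ℝ × EE N => Ψ p.1 (s p.2)) S (t0, x0) := by
    have h1 : ContinuousWithinAt (fun p : ℝ × E => Ψ p.1 p.2) (Icc 0 1 ×ˢ univ) (t0, s x0) :=
      hΨ.ct (t0, s x0) ⟨ht0, mem_univ _⟩
    have h2 : ContinuousWithinAt (fun p : ℝ × EE N => ((p.1, s p.2) : ℝ × E)) S (t0, x0) := by
      have h3 : ContinuousWithinAt s U x0 := hs.cont x0 hx0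
      refine ContinuousWithinAt.prodMk continuousWithinAt_fst ?_
      exact ContinuousWithinAt.comp (f := fun p : ℝ × EE N => p.2) (g := s) (t := U)
        h3 continuousWithinAt_snd (fun p hp => hp.2)
    exact ContinuousWithinAt.comp (f := fun p : ℝ × EE N => ((p.1, s p.2) : ℝ × E))
      (g := fun p : ℝ × E => Ψ p.1 p.2) (t := Icc 0 1 ×ˢ univ) h1 h2
      (fun p hp => ⟨hp.1, mem_univ _⟩)
  have hf' : ContinuousWithinAt (fun p : ℝ × EE N => s' (c' (Φ p.1 (c.symm p.2)))) S (t0, x0) := by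
    have h3 : ContinuousAt s' (c' p1) := hs'.cont.continuousAt hU'n
    exact ContinuousAt.comp_continuousWithinAt
      (f := fun p : ℝ × EE N => c' (Φ p.1 (c.symm p.2))) (g := s') (x := ((t0, x0) : ℝ × EE N))
      h3 hφc
  have heq : ∀ᶠ p in 𝓝[S] ((t0, x0) : ℝ × EE N),
      (fun p : ℝ × EE N => Ψ p.1 (s p.2)) p =
        (fun p : ℝ × EE N => s' (c' (Φ p.1 (c.symm p.2)))) p := by
    refine hL3 (ℝ × EE N) _ _ S (t0, x0) hf hf' ?_ ?_
    · exact hse.symm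
    · filter_upwards [hev, hevU, self_mem_nhdsWithin] with p hp hpU hpS
      rw [hs'.sec _ hpU, hΨ.pr p.1 hpS.1, hs.sec _ hpS.2, c'.left_inv hp.2.2]
  refine hcomp.congr_of_eventuallyEq ?_ ?_
  · filter_upwards [heq] with p hp
    exact congrArg g hp
  · exact congrArg g hse.symm

theorem p_EMG (hLSX : Stmt_LSX) : Stmt_EMG := by
  intro N m M E Γ _ _ _ _ _ _ q ρ hq
  refine ⟨fun g Φ Ψ hg hΦ hΨ => ⟨fun t ht γ e => ?_, fun c hc U s hs =>
    EMG_sm hLSX q ρ hq g Φ Ψ hg hΦ hΨ c hc U s hs⟩, fun G G' hG hG' =>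
    ⟨fun t ht γ e => ?_, fun c hc U s hs => ?_⟩⟩
  · rw [hΨ.eqv t ht γ e, hg.eqv]
  · rw [hG.eqv t ht γ e, hG'.eqv t ht γ e, r2_pr]
  · exact contDiff_pr.comp_contDiffOn ((hG.sm c hc U s hs).prodMk (hG'.sm c hc U s hs))

end HDP
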