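import Pool.Agent.Work.MP_c3bd4f_as.Interface

set_option autoImplicit false

open scoped ContDiff Manifold Topology
open Set MeasureTheory

noncomputable section

namespace HDP

open HDC HDE

theorem p_GE2 (hR2A : Stmt_R2A) (hEMG : Stmt_EMG) (hPLH : Stmt_PLH) (hGSP : Stmt_GSP) :
    Stmt_GE2 := by
  intro n m M E Γ _ _ _ _ _ _ q ρ g Ω w H H' Φ Φ' Ψ Ψ' θ hq hA hg hH hH' hL hL' hθ hw
  obtain ⟨hE1, hE2⟩ := hEMG (2 * n) m M E Γ q ρ hq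
  have e1 := hE1 g Φ Ψ hg hH.iso.smooth hL
  have e2 := hE1 g Φ' Ψ' hg hH'.iso.smooth hL'
  have e3 := hE2 _ _ e1 e2
  have hr := (hR2A Γ m ρ hA).1
  obtain ⟨-, h1⟩ := hPLH (2 * n) (m + m) m M E Γ q (r2 ρ) ρ (q1 m) _ hq hr hA.sm
    (q1 m).contDiff (fun γ x => q1_r2 ρ γ x) e3
  obtain ⟨-, h2⟩ := hPLH (2 * n) (m + m) m M E Γ q (r2 ρ) ρ (q2 m) _ hq hr hA.sm
    (q2 m).contDiff (fun γ x => q2_r2 ρ γ x) e3
  have g1 := hGSP n m M E Γ q ρ g Ω w H Φ Ψ θ hq hA.sm hg hH hL hθ hw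
  have g2 := hGSP n m M E Γ q ρ g Ω w H' Φ' Ψ' θ hq hA.sm hg hH' hL' hθ hw
  have k1 := (h1 θ hθ).2
  have k2 := (h2 θ hθ).2
  simp only [q1_pr] at k1
  simp only [q2_pr] at k2
  exact ⟨fun t ht c hc x hx => (k1 t ht c hc x hx).symm.trans (g1 t ht c hc x hx).symm,
    fun t ht c hc x hx => (k2 t ht c hc x hx).symm.trans (g2 t ht c hc x hx).symm⟩

end HDP
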