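import Pool.Agent.Work.MP_c3bd4f_as.Interface3

set_option autoImplicit false

/-! # Block GS0: step 0 (helper55) -/

open scoped ContDiff Manifold Topology
open Set MeasureTheory

noncomputable section

namespace HDP

open HDC HDE

theorem GS0_vadd {N : ℕ} {M : Type} [TopologicalSpace M] [ChartedSpace (EE N) M] {K : Set M}
    {F G : PFam N M} (hF : Vn K F) (hG : Vn K G) : Vn K (F + G) := HDE.MAI_vadd hF hG

/-- A product with a factor in `Vn K`. -/
theorem GS0_vmul {N : ℕ} {M : Type} [TopologicalSpace M] [ChartedSpace (EE N) M] {K : Set M}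
    {g : PFam N M} (hV : Vn K g) (a b : PFam N M) : Vn K (a * (g * b)) := by
  refine ⟨fun t ht c hc x hx hxK => ?_, fun c hc x hx => ?_, fun c hc x hx => ?_⟩
  · change a t c x * (g t c x * b t c x) = 0
    rw [hV.cs t ht c hc x hx hxK, zero_mul, mul_zero]
  · change (a 0 c x * (g 0 c x * b 0 c x)).1 = 0
    rw [PL.mul_fst, PL.mul_fst, hV.v0 c hc x hx, zero_mul, mul_zero]
  · change (a 1 c x * (g 1 c x * b 1 c x)).1 = 0
    rw [PL.mul_fst, PL.mul_fst, hV.v1 c hc x hx, zero_mul, mul_zero]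

theorem p_GS0 (hGP0 : Stmt_GP0) (hGHC : Stmt_GHC) : Stmt_GS0 := by
  intro n M _ _ _ _ _ _ _ Ω vol K hn hS r j hj hjn hrj X Y g dg nu e hX hY hg hdg hnu he dX dY
    dgg ddg dnu de hV hgdg hdgdg
  obtain ⟨A1, A2, A3, A4, A5, A6, A7, A8⟩ := HDE.q_DFA (2 * n) M
  obtain ⟨B1, B2, B3, B4, B5⟩ := HDE.q_DDA (2 * n) M
  obtain ⟨Y1, -⟩ := HDE.q_HPC (2 * n) M Y Y hY hY dY dY
  obtain ⟨X1, -⟩ := HDE.q_HPC (2 * n) M X X hX hX dX dX
  obtain ⟨-, -, ⟨U1, U2⟩, ⟨W1, W2, W3⟩, -, -, -⟩ :=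
    hGHC (2 * n) M n r j X X Y Y hj hjn hrj hX hX hY hY dX dX dY dY
  have hcen : ∀ F : PFam (2 * n) M, DFm 2 F → ∀ t ∈ Icc (0 : ℝ) 1,
      ∀ c ∈ atlas (EE (2 * n)) M, ∀ x ∈ c.target, ∀ y, F t c x * y = y * F t c x :=
    fun F hF t ht c hc x hx y => (HDE.q_PLA (2 * n)).1 _ _ (A6 2 F hF t ht c hc x hx)
  -- the form `g Y^(j-1)`
  have hYp := Y1 (j - 1)
  have hYj := Y1 j
  have hXr := X1 (r + 1)
  have e1 : 1 + 2 * (j - 1) = 2 * j - 1 := by omega
  have hg1 : DFm (2 * j - 1) (g * Y ^ (j - 1)) := by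
    have := A3 1 (2 * (j - 1)) g _ hg hYp.1
    rwa [e1] at this
  have dg1 : DD (g * Y ^ (j - 1)) (dg * Y ^ (j - 1)) := by
    have := HDE.q_LBP (2 * n) M 1 (2 * (j - 1)) g (Y ^ (j - 1)) dg 0 hg hYp.1 dgg hYp.2
    simpa using this
  have hnu' : DFm (2 * j - 1) (nu - (j : ℝ) • (g * Y ^ (j - 1))) :=
    (A1 _ _ _ hnu (A2 _ _ _ hg1)).2
  have dnu' : DD (nu - (j : ℝ) • (g * Y ^ (j - 1)))
      (Y ^ j - (j : ℝ) • (dg * Y ^ (j - 1))) :=
    (B1 _ _ _ _ _ hnu (A2 _ _ _ hg1) dnu (B2 _ _ _ _ hg1 dg1)).2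
  -- the values
  have hval := fun (t : ℝ) (ht : t ∈ Icc (0 : ℝ) 1) (c) (hc : c ∈ atlas (EE (2 * n)) M) (x)
    (hx : x ∈ c.target) => hGP0 (PL (2 * n)) n r j (X t c x) (Y t c x) (g t c x) (dg t c x)
      (nu t c x) (e t c x) hj hrj (hcen X hX t ht c hc x hx) (hcen Y hY t ht c hc x hx)
      (hcen dg hdg t ht c hc x hx) (hgdg t ht c hc x hx) (hdgdg t ht c hc x hx)
  -- the form `E`, first part
  have hgU : DFm (1 + 2 * (n - j)) (g * UY n r j X Y) := A3 _ _ _ _ hg U1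
  have dgU : DD (g * UY n r j X Y) (dg * UY n r j X Y) := by
    have := HDE.q_LBP (2 * n) M 1 (2 * (n - j)) g (UY n r j X Y) dg 0 hg U1 dgg U2
    simpa using this
  have hE1 : DFm (2 * n) (nu * (g * UY n r j X Y)) := by
    have := A3 _ _ _ _ hnu hgU
    rwa [show 2 * j - 1 + (1 + 2 * (n - j)) = 2 * n by omega] at this
  have hodd : ((-1 : ℝ)) ^ (2 * j - 1) = -1 := by
    rw [show 2 * j - 1 = 2 * (j - 1) + 1 by omega, pow_succ, pow_mul]
    norm_num
  have dE1 : DD (nu * (g * UY n r j X Y))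
      (Y ^ j * (g * UY n r j X Y) - nu * (dg * UY n r j X Y)) := by
    have := HDE.q_LBP (2 * n) M (2 * j - 1) (1 + 2 * (n - j)) nu (g * UY n r j X Y) (Y ^ j)
      (dg * UY n r j X Y) hnu hgU dnu dgU
    rw [hodd, neg_smul, one_smul, ← sub_eq_add_neg] at this
    exact this
  have hG1 : DFm (2 * n + 1) (Y ^ j * (g * UY n r j X Y) - nu * (dg * UY n r j X Y)) := by
    have h1 := A3 _ _ _ _ hYj.1 hgU
    have h2 := A3 _ _ _ _ hnu (A3 _ _ _ _ hdg U1)
    rw [show 2 * j + (1 + 2 * (n - j)) = 2 * n + 1 by omega] at h1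
    rw [show 2 * j - 1 + (2 + 2 * (n - j)) = 2 * n + 1 by omega] at h2
    exact (A1 _ _ _ h1 h2).2
  -- second part
  have hodd2 : ((-1 : ℝ)) ^ (2 * r + 1) = -1 := by
    rw [pow_succ, pow_mul]
    norm_num
  have hE2 : DFm (2 * n) (e * (g * WY n r X Y)) ∧ DD (e * (g * WY n r X Y))
      (X ^ (r + 1) * (g * WY n r X Y) - e * (dg * WY n r X Y)) ∧
      DFm (2 * n + 1) (X ^ (r + 1) * (g * WY n r X Y) - e * (dg * WY n r X Y)) := by
    rcases lt_or_ge r n with hr | hr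
    · have W1' := W1 hr
      have hgW : DFm (1 + 2 * (n - r - 1)) (g * WY n r X Y) := A3 _ _ _ _ hg W1'
      have dgW : DD (g * WY n r X Y) (dg * WY n r X Y) := by
        have := HDE.q_LBP (2 * n) M 1 (2 * (n - r - 1)) g (WY n r X Y) dg 0 hg W1' dgg W2
        simpa using this
      refine ⟨?_, ?_, ?_⟩
      · have := A3 _ _ _ _ he hgW
        rwa [show 2 * r + 1 + (1 + 2 * (n - r - 1)) = 2 * n by omega] at this
      · have := HDE.q_LBP (2 * n) M (2 * r + 1) (1 + 2 * (n - r - 1)) e (g * WY n r X Y)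
          (X ^ (r + 1)) (dg * WY n r X Y) he hgW de dgW
        rw [hodd2, neg_smul, one_smul, ← sub_eq_add_neg] at this
        exact this
      · have h1 := A3 _ _ _ _ hXr.1 hgW
        have h2 := A3 _ _ _ _ he (A3 _ _ _ _ hdg W1')
        rw [show 2 * (r + 1) + (1 + 2 * (n - r - 1)) = 2 * n + 1 by omega] at h1
        rw [show 2 * r + 1 + (2 + 2 * (n - r - 1)) = 2 * n + 1 by omega] at h2
        exact (A1 _ _ _ h1 h2).2
    · have hr' : r = n := by omega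
      have hz := W3 hr'
      rw [hz]
      simp only [mul_zero, sub_zero]
      exact ⟨A8 _, B5, A8 _⟩
  have hE := (A1 _ _ _ hE1 hE2.1).1
  have hG := (A1 _ _ _ hG1 hE2.2.2).1
  have dE := (B1 _ _ _ _ _ hE1 hE2.1 dE1 hE2.2.1).1
  have hVE : Vn K (nu * (g * UY n r j X Y) + e * (g * WY n r X Y)) :=
    GS0_vadd (GS0_vmul hV _ _) (GS0_vmul hV _ _)
  have hN := HDE.q_STD n M Ω vol K hn hS _ _ hE hG hVE dE
  obtain ⟨N1, N2, N3, N4, N5, N6⟩ := HDE.q_NLA n M Ω vol K hS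
  refine ⟨nu - (j : ℝ) • (g * Y ^ (j - 1)), hnu', ?_, ?_, ?_⟩
  · refine B3 _ _ _ _ (fun t ht c hc x hx => rfl) (fun t ht c hc x hx => ?_) dnu'
    exact (hval t ht c hc x hx).1.symm
  · have hsub : nu - (j : ℝ) • (g * Y ^ (j - 1)) - nu = -((j : ℝ) • (g * Y ^ (j - 1))) := by
      abel
    rw [hsub]
    refine ⟨fun t ht c hc x hx hxK => ?_, fun c hc x hx => ?_, fun c hc x hx => ?_⟩
    · change -((j : ℝ) • (g t c x * (Y ^ (j - 1)) t c x)) = 0
      rw [hV.cs t ht c hc x hx hxK, zero_mul, smul_zero, neg_zero]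
    · change (-((j : ℝ) • (g 0 c x * (Y ^ (j - 1)) 0 c x))).1 = 0
      rw [PL.neg_fst, PL.smul_fst, PL.mul_fst, hV.v0 c hc x hx, zero_mul, smul_zero, neg_zero]
    · change (-((j : ℝ) • (g 1 c x * (Y ^ (j - 1)) 1 c x))).1 = 0
      rw [PL.neg_fst, PL.smul_fst, PL.mul_fst, hV.v1 c hc x hx, zero_mul, smul_zero, neg_zero]
  · refine N5 _ _ (fun t ht c hc x hx => ?_) hN
    change ((Y t c x) ^ j * (g t c x * (UY n r j X Y) t c x) -
        nu t c x * (dg t c x * (UY n r j X Y) t c x)) +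
        ((X t c x) ^ (r + 1) * (g t c x * (WY n r X Y) t c x) -
          e t c x * (dg t c x * (WY n r X Y) t c x)) =
      (nu t c x - (j : ℝ) • (g t c x * (Y t c x) ^ (j - 1))) *
        (UU n r j X (Y - dg)) t c x + e t c x * (WW n r X (Y - dg)) t c x -
        (nu t c x * (UU n r j X Y) t c x + e t c x * (WW n r X Y) t c x) +
        ((n : ℝ) + 1) • (g t c x * (X t c x + Y t c x) ^ n)
    rw [UU_apply, UU_apply, WW_apply, WW_apply, UY_apply, WY_apply]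
    change ((Y t c x) ^ j * (g t c x * UY n r j (X t c x) (Y t c x)) -
        nu t c x * (dg t c x * UY n r j (X t c x) (Y t c x))) +
        ((X t c x) ^ (r + 1) * (g t c x * WY n r (X t c x) (Y t c x)) -
          e t c x * (dg t c x * WY n r (X t c x) (Y t c x))) =
      (nu t c x - (j : ℝ) • (g t c x * (Y t c x) ^ (j - 1))) *
        UU n r j (X t c x) (Y t c x - dg t c x) + e t c x * WW n r (X t c x) (Y t c x - dg t c x) -
        (nu t c x * UU n r j (X t c x) (Y t c x) + e t c x * WW n r (X t c x) (Y t c x)) +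
        ((n : ℝ) + 1) • (g t c x * (X t c x + Y t c x) ^ n)
    rw [(hval t ht c hc x hx).2]
    abel

end HDP
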