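import Pool.Agent.Work.MP_c3bd4f_as.Interface

set_option autoImplicit false

/-!
# Block PFA: the pullback of forms on `ℝ^b` (helper18)
-/

open scoped ContDiff Manifold Topology
open Set MeasureTheory

noncomputable section

namespace HDP

open HDC HDE

theorem PFA_sm {a b : ℕ} {h : EE a → EE b} {θ : EE b → Lam b}
    (hq : ContDiff ℝ ∞ (fun q : (EE a →L[ℝ] EE b) × Lam b => pq q.1 q.2))
    (hh : ContDiff ℝ ∞ h) (hθ : ContDiff ℝ ∞ θ) : ContDiff ℝ ∞ (pf h θ) := by
  have h1 : ContDiff ℝ ∞ (fun x => fderiv ℝ h x) := hh.fderiv_right (by simp)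
  have h2 : ContDiff ℝ ∞ (fun x => θ (h x)) := hθ.comp hh
  have h3 : ContDiff ℝ ∞ (fun x => ((fderiv ℝ h x, θ (h x)) : (EE a →L[ℝ] EE b) × Lam b)) :=
    h1.prodMk h2
  have h4 : ContDiff ℝ ∞ ((fun q : (EE a →L[ℝ] EE b) × Lam b => pq q.1 q.2) ∘
      (fun x => ((fderiv ℝ h x, θ (h x)) : (EE a →L[ℝ] EE b) × Lam b))) := hq.comp h3
  exact h4

theorem p_PFA (hPQA : Stmt_PQA) (hPQS : Stmt_PQS) (hDPF : Stmt_DPF) : Stmt_PFA := by
  obtain ⟨-, hq2, hq3, -, -, hq6, -⟩ := hPQA
  refine ⟨?_, ?_, ?_, ?_, ?_⟩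
  · intro a b h
    refine ⟨{ toFun := pf h
              map_one' := ?_
              map_mul' := ?_
              map_zero' := ?_
              map_add' := ?_
              commutes' := ?_ }, fun θ => rfl⟩
    · funext x
      exact map_one (pq (fderiv ℝ h x))
    · intro θ κ
      funext x
      exact map_mul (pq (fderiv ℝ h x)) _ _
    · funext x
      exact map_zero (pq (fderiv ℝ h x))
    · intro θ κ
      funext x
      exact map_add (pq (fderiv ℝ h x)) _ _
    · intro r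
      funext x
      exact (pq (fderiv ℝ h x)).commutes r
  · intro a b c h k θ hh hk
    funext x
    change pq (fderiv ℝ h x) (pq (fderiv ℝ k (h x)) (θ (k (h x)))) =
      pq (fderiv ℝ (fun x => k (h x)) x) (θ (k (h x)))
    have h1 : fderiv ℝ (fun x => k (h x)) x = (fderiv ℝ k (h x)).comp (fderiv ℝ h x) :=
      fderiv_comp x (hk _) (hh _)
    rw [h1, hq2]
  · intro a θ
    funext x
    change pq (fderiv ℝ (fun x => x) x) (θ x) = θ x
    rw [fderiv_fun_id, hq3]
  · intro a b k h θ hh hθ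
    refine ⟨?_, fun x => hq6 a b k _ _ (hθ.dg _)⟩
    exact PFA_sm (hPQS a b).1 hh hθ.sm
  · intro a b h θ x hh hθ
    have hh1 : DifferentiableAt ℝ h x := hh.differentiableAt (by norm_num)
    have hA : HasFDerivAt (fderiv ℝ h) (fderiv ℝ (fderiv ℝ h) x) x := by
      have h1 : ContDiffAt ℝ 1 (fderiv ℝ h) x := hh.fderiv_right (by norm_num)
      exact (h1.differentiableAt (by norm_num)).hasFDerivAt
    have hsym : ∀ v u, fderiv ℝ (fderiv ℝ h) x v u = fderiv ℝ (fderiv ℝ h) x u v := by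
      have h1 := hh.isSymmSndFDerivAt (n := 2) (by simp)
      intro v u
      exact h1 v u
    have hff : HasFDerivAt (fun y => θ (h y)) ((fderiv ℝ θ (h x)).comp (fderiv ℝ h x)) x :=
      hθ.hasFDerivAt.comp x hh1.hasFDerivAt
    obtain ⟨L, hL, hLv⟩ := (hPQS a b).2.1 (EE a) x (fderiv ℝ h) (fun y => θ (h y)) _ _ hA hff
    have hL2 : fderiv ℝ (pf h θ) x = L := hL.fderiv
    have hLHS : D (pf h θ) x = ∑ i, dx i *
        (dpq (fderiv ℝ h x) (fderiv ℝ (fderiv ℝ h) x (ee i)) (θ (h x)) +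
          pq (fderiv ℝ h x) (fderiv ℝ θ (h x) (fderiv ℝ h x (ee i)))) := by
      unfold D
      rw [hL2]
      refine Finset.sum_congr rfl fun i _ => ?_
      rw [hLv]
      rfl
    rw [hLHS]
    simp only [mul_add, Finset.sum_add_distrib]
    rw [(hDPF a b).2.1 _ _ hsym, zero_add]
    exact (hDPF a b).2.2 (fderiv ℝ h x) (fderiv ℝ θ (h x)).toLinearMap

end HDP
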