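import Pool.Agent.Work.MP_c3bd4f_as.Interface

set_option autoImplicit false

/-! # Block R2A: the diagonal action -/

open scoped ContDiff Manifold Topology
open Set MeasureTheory

noncomputable section

namespace HDP

open HDC HDE

theorem p_R2A (hPFA : Stmt_PFA) : Stmt_R2A := by
  obtain ⟨-, h2, h3, -, -⟩ := hPFA
  intro Γ _ m ρ ha
  have hsm : ∀ γ, ContDiff ℝ ∞ (r2 ρ γ) := by
    intro γ
    have g1 : ContDiff ℝ ∞ (fun z : EE (m + m) => ρ γ (q1 m z)) :=
      (ha.sm γ).comp (q1 m).contDiff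
    have g2 : ContDiff ℝ ∞ (fun z : EE (m + m) => ρ γ (q2 m z)) :=
      (ha.sm γ).comp (q2 m).contDiff
    exact contDiff_pr.comp (g1.prodMk g2)
  have hmul : ∀ γ δ z, r2 ρ (γ * δ) z = r2 ρ γ (r2 ρ δ z) := by
    intro γ δ z
    apply ext_q
    · rw [q1_r2, q1_r2, q1_r2, ha.mul]
    · rw [q2_r2, q2_r2, q2_r2, ha.mul]
  refine ⟨hsm, hmul, ?_, ?_, ?_⟩
  · intro z
    apply ext_q
    · rw [q1_r2, ha.one]
    · rw [q2_r2, ha.one]
  · intro γ z
    have hd : DifferentiableAt ℝ (r2 ρ γ) z := ((hsm γ).differentiable (by simp)) z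
    have hdρ : DifferentiableAt ℝ (ρ γ) (q1 m z) := ((ha.sm γ).differentiable (by simp)) _
    have e1 : fderiv ℝ (fun z => q1 m (r2 ρ γ z)) z = (q1 m).comp (fderiv ℝ (r2 ρ γ) z) :=
      ((q1 m).hasFDerivAt.comp z hd.hasFDerivAt).fderiv
    have e2 : fderiv ℝ (fun z => ρ γ (q1 m z)) z = (fderiv ℝ (ρ γ) (q1 m z)).comp (q1 m) :=
      (hdρ.hasFDerivAt.comp z (q1 m).hasFDerivAt).fderiv
    rw [← e1, ← e2]
    congr 1
    funext y
    exact q1_r2 ρ γ y
  · intro γ δ w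
    rw [h2 _ _ _ (r2 ρ δ) (r2 ρ γ) w ((hsm δ).differentiable (by simp))
      ((hsm γ).differentiable (by simp))]
    congr 1
    funext z
    exact (hmul γ δ z).symm

end HDP
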