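import Pool.Agent.Work.MP_c3bd4f_as.Interface3

set_option autoImplicit false

/-!
# Block UFP (helper12): the pullback of forms by a smooth map `f : M → X`
-/

open scoped ContDiff Manifold Topology
open Set MeasureTheory

noncomputable section

namespace HDP

open HDC HDE

theorem UFP_two : (2 : WithTop ℕ∞) ≤ ∞ := by
  have h : ((2 : ℕ∞) : WithTop ℕ∞) ≤ ((⊤ : ℕ∞) : WithTop ℕ∞) := WithTop.coe_le_coe.mpr le_top
  exact h

theorem UFP_smooth (hPQS : Stmt_PQS) {a b : ℕ} (h : EE a → EE b) (θ : EE b → Lam b) (e : EE a)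
    (hh : ContDiffAt ℝ ∞ h e) (hθ : ContDiffAt ℝ ∞ θ (h e)) : ContDiffAt ℝ ∞ (pf h θ) e := by
  have hG : ContDiff ℝ ∞ (fun q : (EE a →L[ℝ] EE b) × Lam b => pq q.1 q.2) := (hPQS a b).1
  have hA' : ContDiffAt ℝ ∞ (fderiv ℝ h) e := hh.fderiv_right (by simp)
  have hW : ContDiffAt ℝ ∞ (fun y => θ (h y)) e := ContDiffAt.comp e hθ hh
  have hP : ContDiffAt ℝ ∞ (fun y => (fderiv ℝ h y, θ (h y))) e := hA'.prodMk hW
  have h1 := hG.comp_contDiffAt e hP
  exact h1

section

variable {N m : ℕ} {M X : Type} [TopologicalSpace M] [ChartedSpace (EE N) M]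
  [TopologicalSpace X] [ChartedSpace (EE m) X] {f : M → X}

theorem UFP_near (hf : Continuous f) (c : OpenPartialHomeomorph M (EE N))
    (c' : OpenPartialHomeomorph X (EE m)) {x : EE N} (hx : x ∈ c.target)
    (hs : f (c.symm x) ∈ c'.source) : ∀ᶠ y in 𝓝 x, y ∈ c.target ∧ f (c.symm y) ∈ c'.source := by
  have h1 : ContinuousAt (fun y => f (c.symm y)) x :=
    hf.continuousAt.comp (c.continuousAt_symm hx)
  exact (c.open_target.eventually_mem hx).and (h1.eventually_mem (c'.open_source.mem_nhds hs))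

theorem UFP_key [IsManifold 𝓘(ℝ, EE m) ∞ X] (hPQA : Stmt_PQA) (hf : Continuous f)
    (hsm : ∀ c ∈ atlas (EE N) M, ∀ c' ∈ atlas (EE m) X, ∀ x ∈ c.target,
      f (c.symm x) ∈ c'.source → ContDiffAt ℝ ∞ (fun y => c' (f (c.symm y))) x)
    {k : ℕ} {w : Fam m X} (hw : IsForm k w) {c : OpenPartialHomeomorph M (EE N)}
    {c1 c' : OpenPartialHomeomorph X (EE m)} (hc : c ∈ atlas (EE N) M)
    (hc1 : c1 ∈ atlas (EE m) X) (hc' : c' ∈ atlas (EE m) X) {x : EE N} (hx : x ∈ c.target)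
    (hs1 : f (c.symm x) ∈ c1.source) (hs' : f (c.symm x) ∈ c'.source) :
    pq (fderiv ℝ (fun y => c1 (f (c.symm y))) x) (w c1 (c1 (f (c.symm x)))) =
      pq (fderiv ℝ (fun y => c' (f (c.symm y))) x) (w c' (c' (f (c.symm x)))) := by
  obtain ⟨-, hQ2, -, -, -, -, hQ7⟩ := hPQA
  have h1 : DifferentiableAt ℝ (fun y => c1 (f (c.symm y))) x :=
    (hsm c hc c1 hc1 x hx hs1).differentiableAt (by simp)
  obtain ⟨hO, hS, -⟩ := HDC.q_TRN m X c1 hc1 c' hc'
  have hz : c1 (f (c.symm x)) ∈ {z | z ∈ c1.target ∧ c1.symm z ∈ c'.source} := by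
    refine ⟨c1.map_source hs1, ?_⟩
    rw [c1.left_inv hs1]
    exact hs'
  have hT : DifferentiableAt ℝ (fun z => c' (c1.symm z)) (c1 (f (c.symm x))) :=
    (hS.contDiffAt (hO.mem_nhds hz)).differentiableAt (by simp)
  have h3 : (fun y => c' (f (c.symm y))) =ᶠ[𝓝 x]
      (fun z => c' (c1.symm z)) ∘ fun y => c1 (f (c.symm y)) := by
    filter_upwards [UFP_near hf c c1 hx hs1] with y hy
    simp only [Function.comp_apply]
    rw [c1.left_inv hy.2]
  have h4 : fderiv ℝ (fun y => c' (f (c.symm y))) x =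
      (fderiv ℝ (fun z => c' (c1.symm z)) (c1 (f (c.symm x)))).comp
        (fderiv ℝ (fun y => c1 (f (c.symm y))) x) := by
    rw [h3.fderiv_eq]
    exact fderiv_comp x hT h1
  have h5 := hw.compat c1 hc1 c' hc' (c1 (f (c.symm x))) (c1.map_source hs1) hz.2
  rw [c1.left_inv hs1] at h5
  rw [h4, hQ2, h5, ← hQ7]

theorem UFP_compat [IsManifold 𝓘(ℝ, EE N) ∞ M] (hPQA : Stmt_PQA)
    (hsm : ∀ c ∈ atlas (EE N) M, ∀ c' ∈ atlas (EE m) X, ∀ x ∈ c.target,
      f (c.symm x) ∈ c'.source → ContDiffAt ℝ ∞ (fun y => c' (f (c.symm y))) x)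
    {w : Fam m X} (hform : ∀ c ∈ atlas (EE N) M, ∀ c' ∈ atlas (EE m) X, ∀ x ∈ c.target,
      f (c.symm x) ∈ c'.source → MPB (N := N) f w c x =
        pq (fderiv ℝ (fun y => c' (f (c.symm y))) x) (w c' (c' (f (c.symm x)))))
    {c c2 : OpenPartialHomeomorph M (EE N)} (hc : c ∈ atlas (EE N) M)
    (hc2 : c2 ∈ atlas (EE N) M) {x : EE N} (hx : x ∈ c.target) (hxs : c.symm x ∈ c2.source) :
    MPB (N := N) f w c x =
      pb (fderiv ℝ (fun y => c2 (c.symm y)) x) (MPB (N := N) f w c2 (c2 (c.symm x))) := by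
  have hc' : chartAt (EE m) (f (c.symm x)) ∈ atlas (EE m) X := chart_mem_atlas _ _
  have hq1 : f (c.symm x) ∈ (chartAt (EE m) (f (c.symm x))).source := mem_chart_source _ _
  generalize chartAt (EE m) (f (c.symm x)) = c' at hc' hq1
  have hx2 : c2 (c.symm x) ∈ c2.target := c2.map_source hxs
  have hx2s : c2.symm (c2 (c.symm x)) = c.symm x := c2.left_inv hxs
  have hq2 : f (c2.symm (c2 (c.symm x))) ∈ c'.source := by rw [hx2s]; exact hq1
  have e1 := hform c hc c' hc' x hx hq1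
  have e2 := hform c2 hc2 c' hc' _ hx2 hq2
  obtain ⟨hO, hsm', -⟩ := HDC.q_TRN N M c hc c2 hc2
  have hxO : x ∈ {x | x ∈ c.target ∧ c.symm x ∈ c2.source} := ⟨hx, hxs⟩
  have dT : DifferentiableAt ℝ (fun y => c2 (c.symm y)) x :=
    (hsm'.contDiffAt (hO.mem_nhds hxO)).differentiableAt (by simp)
  have dB : DifferentiableAt ℝ (fun y => c' (f (c2.symm y))) (c2 (c.symm x)) :=
    (hsm c2 hc2 c' hc' _ hx2 hq2).differentiableAt (by simp)
  have hev : (fun y => c' (f (c.symm y))) =ᶠ[𝓝 x]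
      (fun z => c' (f (c2.symm z))) ∘ (fun y => c2 (c.symm y)) := by
    filter_upwards [hO.mem_nhds hxO] with y hy
    show c' (f (c.symm y)) = c' (f (c2.symm (c2 (c.symm y))))
    rw [c2.left_inv hy.2]
  have hcomp : fderiv ℝ (fun y => c' (f (c.symm y))) x =
      (fderiv ℝ (fun z => c' (f (c2.symm z))) (c2 (c.symm x))).comp
        (fderiv ℝ (fun y => c2 (c.symm y)) x) := by
    rw [hev.fderiv_eq]
    exact fderiv_comp x dB dT
  rw [e1, e2, hcomp, hPQA.2.1, hx2s, hPQA.2.2.2.2.2.2]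

end

theorem p_UFP (hPQA : Stmt_PQA) (hPQS : Stmt_PQS) (hPFA : Stmt_PFA) : Stmt_UFP := by
  intro N m M X _ _ _ _ _ _ f hf hsm
  refine ⟨?_, ?_, ?_⟩
  · intro k w hw
    have h1 : ∀ c ∈ atlas (EE N) M, ∀ c' ∈ atlas (EE m) X, ∀ x ∈ c.target,
        f (c.symm x) ∈ c'.source → MPB (N := N) f w c x =
          pq (fderiv ℝ (fun y => c' (f (c.symm y))) x) (w c' (c' (f (c.symm x)))) := by
      intro c hc c' hc' x hx hs
      exact UFP_key hPQA hf hsm hw hc (chart_mem_atlas (EE m) (f (c.symm x))) hc' hx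
        (mem_chart_source _ _) hs
    have hev : ∀ c ∈ atlas (EE N) M, ∀ c' ∈ atlas (EE m) X, ∀ x ∈ c.target,
        f (c.symm x) ∈ c'.source → MPB (N := N) f w c =ᶠ[𝓝 x]
          pf (fun y => c' (f (c.symm y))) (w c') := by
      intro c hc c' hc' x hx hs
      filter_upwards [UFP_near hf c c' hx hs] with y hy
      exact h1 c hc c' hc' y hy.1 hy.2
    have hwd : ∀ c' ∈ atlas (EE m) X, ∀ q : X, q ∈ c'.source → ContDiffAt ℝ ∞ (w c') (c' q) :=
      fun c' hc' q hq =>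
        (hw.smooth c' hc').contDiffAt (c'.open_target.mem_nhds (c'.map_source hq))
    refine ⟨h1, ⟨?_, ?_, ?_⟩, ?_⟩
    · intro c hc x hx
      have hc' := chart_mem_atlas (EE m) (f (c.symm x))
      have hs := mem_chart_source (EE m) (f (c.symm x))
      refine ContDiffAt.contDiffWithinAt ?_
      refine ContDiffAt.congr_of_eventuallyEq ?_ (hev c hc _ hc' x hx hs)
      exact UFP_smooth hPQS _ _ x (hsm c hc _ hc' x hx hs) (hwd _ hc' _ hs)
    · intro c hc c2 hc2 x hx hxs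
      exact UFP_compat hPQA hsm h1 hc hc2 hx hxs
    · intro c hc x hx
      exact hPQA.2.2.2.2.2.1 N m k _ _ (hw.deg _ (chart_mem_atlas (EE m) (f (c.symm x))) _
        (mem_chart_target (EE m) (f (c.symm x))))
    · intro c hc x hx
      have hc' := chart_mem_atlas (EE m) (f (c.symm x))
      have hs := mem_chart_source (EE m) (f (c.symm x))
      have e1 : D (MPB (N := N) f w c) x =
          D (pf (fun y => chartAt (EE m) (f (c.symm x)) (f (c.symm y)))
            (w (chartAt (EE m) (f (c.symm x))))) x := by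
        unfold D
        rw [(hev c hc _ hc' x hx hs).fderiv_eq]
      change D (MPB (N := N) f w c) x = MPB (N := N) f (dF w) c x
      rw [e1, hPFA.2.2.2.2 N m _ _ x ((hsm c hc _ hc' x hx hs).of_le UFP_two)
        ((hwd _ hc' _ hs).differentiableAt (by simp))]
      rfl
  · intro w k
    funext c x
    have e1 : (MPB (N := N) f w ^ k) c x = (MPB (N := N) f w c x) ^ k := rfl
    rw [e1]
    unfold MPB
    rw [← map_pow]
    rfl
  · intro w w' h c hc x hx
    unfold MPB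
    rw [h _ (chart_mem_atlas (EE m) (f (c.symm x))) _ (mem_chart_target (EE m) (f (c.symm x)))]

end HDP
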