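import Pool.Agent.Work.MP_c3bd4f_as.Defs

set_option autoImplicit false

/-! # Basic lemmas on `ℝ^m × ℝ^m`, `h2`, `h3` -/

open scoped ContDiff Manifold Topology
open Set MeasureTheory

noncomputable section

namespace HDP

open HDC HDE

theorem q1_pr {m : ℕ} (x y : EE m) : q1 m (pr x y) = x := by
  simp [q1, pr]

theorem q2_pr {m : ℕ} (x y : EE m) : q2 m (pr x y) = y := by
  simp [q2, pr]

theorem pr_q {m : ℕ} (z : EE (m + m)) : pr (q1 m z) (q2 m z) = z := by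
  simp [q1, q2, pr]

theorem ext_q {m : ℕ} {z w : EE (m + m)} (h1 : q1 m z = q1 m w) (h2 : q2 m z = q2 m w) :
    z = w := by
  rw [← pr_q z, ← pr_q w, h1, h2]

theorem dd_eq {m : ℕ} (x : EE m) : dd m x = pr x x := by
  simp [dd, pr]

theorem q1_dd {m : ℕ} (x : EE m) : q1 m (dd m x) = x := by rw [dd_eq, q1_pr]

theorem q2_dd {m : ℕ} (x : EE m) : q2 m (dd m x) = x := by rw [dd_eq, q2_pr]

theorem rr_eq {m : ℕ} (z : EE (m + m)) : rr m z = dd m (q1 m z) := rfl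

theorem q1_rr {m : ℕ} (z : EE (m + m)) : q1 m (rr m z) = q1 m z := by rw [rr_eq, q1_dd]

theorem q2_rr {m : ℕ} (z : EE (m + m)) : q2 m (rr m z) = q1 m z := by rw [rr_eq, q2_dd]

theorem q1_FF {m : ℕ} (s : ℝ) (z : EE (m + m)) : q1 m (FF m s z) = q1 m z := by
  rw [FF, map_add, map_smul, map_smul, q1_rr, ← add_smul]
  simp

theorem FF_zero {m : ℕ} (z : EE (m + m)) : FF m 0 z = rr m z := by simp [FF]

theorem FF_one {m : ℕ} (z : EE (m + m)) : FF m 1 z = z := by simp [FF]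

theorem FF_dd {m : ℕ} (s : ℝ) (x : EE m) : FF m s (dd m x) = dd m x := by
  rw [FF, rr_eq, q1_dd, ← add_smul]
  simp

theorem q1_r2 {Γ : Type} {m : ℕ} (ρ : Γ → EE m → EE m) (γ : Γ) (z : EE (m + m)) :
    q1 m (r2 ρ γ z) = ρ γ (q1 m z) := by rw [r2, q1_pr]

theorem q2_r2 {Γ : Type} {m : ℕ} (ρ : Γ → EE m → EE m) (γ : Γ) (z : EE (m + m)) :
    q2 m (r2 ρ γ z) = ρ γ (q2 m z) := by rw [r2, q2_pr]

theorem r2_dd {Γ : Type} {m : ℕ} (ρ : Γ → EE m → EE m) (γ : Γ) (x : EE m) :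
    r2 ρ γ (dd m x) = dd m (ρ γ x) := by
  rw [r2, q1_dd, q2_dd, dd_eq]

theorem r2_pr {Γ : Type} {m : ℕ} (ρ : Γ → EE m → EE m) (γ : Γ) (x y : EE m) :
    r2 ρ γ (pr x y) = pr (ρ γ x) (ρ γ y) := by
  rw [r2, q1_pr, q2_pr]

theorem contDiff_pr {m : ℕ} : ContDiff ℝ ∞ (fun p : EE m × EE m => pr p.1 p.2) :=
  (spl m).symm.contDiff

theorem h2_apply {N : ℕ} {M : Type} [TopologicalSpace M] (k : ℕ) (X Y : PFam N M) (t : ℝ)
    (c : OpenPartialHomeomorph M (EE N)) (x : EE N) :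
    (h2 k X Y) t c x = h2 k (X t c x) (Y t c x) := by
  unfold h2
  simp only [Finset.sum_apply, Pi.mul_apply, Pi.pow_apply]

theorem h3_apply {N : ℕ} {M : Type} [TopologicalSpace M] (k : ℕ) (X Y Z : PFam N M) (t : ℝ)
    (c : OpenPartialHomeomorph M (EE N)) (x : EE N) :
    (h3 k X Y Z) t c x = h3 k (X t c x) (Y t c x) (Z t c x) := by
  unfold h3
  simp only [Finset.sum_apply, Pi.mul_apply, Pi.pow_apply, h2_apply]

theorem h2_apply' {a : ℕ} (k : ℕ) (X Y : EE a → Lam a) (x : EE a) :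
    (h2 k X Y) x = h2 k (X x) (Y x) := by
  unfold h2
  simp only [Finset.sum_apply, Pi.mul_apply, Pi.pow_apply]

theorem map_h2 {R S : Type} [Ring R] [Ring S] [Algebra ℝ R] [Algebra ℝ S] (h : R →ₐ[ℝ] S)
    (k : ℕ) (x y : R) : h (h2 k x y) = h2 k (h x) (h y) := by
  unfold h2
  simp only [map_sum, map_mul, map_pow]

end HDP
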