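import Pool.Agent.Work.MP_c3bd4f_hd.DefsS

set_option autoImplicit false

/-!
# Calabi invariant and Hofer norm: pullbacks of forms and the conclusion

The definitions of forms, symplectic forms, volume, Hamiltonians, the Hofer distance and the Calabi
invariant are in `Pool/Agent/Work/MP_c3bd4f_hd/DefsS.lean`.
-/

open scoped ContDiff Manifold Topology
open Set MeasureTheory

noncomputable section

namespace HDS

/-- The dual map of `A : ℝ^a → ℝ^b`. -/
def dmapE {a b : ℕ} (A : EuclideanSpace ℝ (Fin a) →L[ℝ] EuclideanSpace ℝ (Fin b)) :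
    VV b →ₗ[ℝ] VV a := A.toLinearMap.dualMap

/-- The pullback of forms by the linear map `A : ℝ^a → ℝ^b`. -/
def pull {a b : ℕ} (A : EuclideanSpace ℝ (Fin a) →L[ℝ] EuclideanSpace ℝ (Fin b)) (w : Lam b) :
    Lam a := ExteriorAlgebra.map (dmapE A) w

/-- `w = f^* σ`, where `f : M → X` is a map between manifolds of dimensions `N` and `m`: in all charts
`c` of `M` and `c'` of `X` the local expression of `w` is the pullback of that of `σ` by the local
expression `c' ∘ f ∘ c⁻¹` of `f`. -/
def IsPull {N m : ℕ} {M X : Type} [TopologicalSpace M]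
    [ChartedSpace (EuclideanSpace ℝ (Fin N)) M] [TopologicalSpace X]
    [ChartedSpace (EuclideanSpace ℝ (Fin m)) X] (f : M → X) (σ : Fam m X) (w : Fam N M) : Prop :=
  ∀ c ∈ atlas (EuclideanSpace ℝ (Fin N)) M, ∀ c' ∈ atlas (EuclideanSpace ℝ (Fin m)) X,
    ∀ x ∈ c.target, f (c.symm x) ∈ c'.source →
      w c x = pull (fderiv ℝ (fun y => c' (f (c.symm y))) x) (σ c' (c' (f (c.symm x))))

/-- There is exactly one symplectic volume measure of `(M, Ω)`, and if the volume is finite, then the
Calabi invariant descends to `Ham_c(M, Ω)`, its absolute value is at most the volume times the Hofer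
distance to the identity, and the Hofer diameter of `Ham_c(M, Ω)` is infinite. -/
def CalabiHofer (n : ℕ) {M : Type} [TopologicalSpace M]
    [ChartedSpace (EuclideanSpace ℝ (Fin (2 * n))) M] [MeasurableSpace M]
    (Ω : Fam (2 * n) M) : Prop :=
  ∃ vol : Measure M, (IsVol n Ω vol ∧ ∀ vol' : Measure M, IsVol n Ω vol' → vol' = vol) ∧
    (vol univ < ⊤ →
      (∀ (H H' : ℝ → M → ℝ) (φ : M → M), IsHam (2 * n) H → IsHam (2 * n) H' →
        Generates Ω H φ → Generates Ω H' φ → Cal vol H = Cal vol H') ∧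
      (∀ (H : ℝ → M → ℝ) (φ : M → M), IsHam (2 * n) H → Generates Ω H φ →
        |Cal vol H| ≤ (vol univ).toReal * hofer Ω φ) ∧
      ∀ C : ℝ, ∃ φ ∈ Ham Ω, C ≤ hofer Ω φ)

end HDS
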