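import Pool.Agent.Work.MP_c3bd4f_hd.Bridge
import Pool.Agent.Work.MP_c3bd4f_as.DefsT

set_option autoImplicit false

/-! # The conclusion in terms of the definitions of `DefsS` -/

namespace HDB

open scoped ContDiff Manifold
open Set MeasureTheory HDS

theorem calabiHofer_of (n : ℕ) (M : Type) [TopologicalSpace M] [T2Space M] [SecondCountableTopology M]
    [ChartedSpace (EuclideanSpace ℝ (Fin (2 * n))) M]
    [IsManifold 𝓘(ℝ, EuclideanSpace ℝ (Fin (2 * n))) ∞ M] [MeasurableSpace M] [BorelSpace M]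
    (Ω : Fam (2 * n) M) (hΩ : IsSymplectic n Ω)
    (h : ∀ vol : Measure M, HDC.IsVol n Ω vol → vol univ < ⊤ →
      (∀ (H H' : ℝ → M → ℝ) (φ : M → M), HDC.IsHam (2 * n) H → HDC.IsHam (2 * n) H' →
        HDC.Generates (N := 2 * n) Ω H φ → HDC.Generates (N := 2 * n) Ω H' φ →
        HDC.Cal vol H = HDC.Cal vol H') ∧
      (∀ (H : ℝ → M → ℝ) (φ : M → M), HDC.IsHam (2 * n) H →
        HDC.Generates (N := 2 * n) Ω H φ →
        |HDC.Cal vol H| ≤ (vol univ).toReal * HDC.hofer (N := 2 * n) Ω φ) ∧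
      ∀ C : ℝ, ∃ φ ∈ HDC.Ham (N := 2 * n) Ω, C ≤ HDC.hofer (N := 2 * n) Ω φ) :
    CalabiHofer n Ω := by
  obtain ⟨vol, h1, h2⟩ := HDC.q_EXV n M Ω (HDB.symp_of hΩ)
  refine ⟨vol, ⟨h1, h2⟩, fun hfin => ?_⟩
  obtain ⟨g1, g2, g3⟩ := h vol h1 hfin
  refine ⟨fun H H' φ hH hH' hg hg' => ?_, fun H φ hH hg => ?_, fun C => ?_⟩
  · exact g1 H H' φ ((HDB.ham_iff H).1 hH) ((HDB.ham_iff H').1 hH')
      ((HDB.gen_iff hΩ.form H φ).1 hg) ((HDB.gen_iff hΩ.form H' φ).1 hg')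
  · rw [HDB.hofer_eq hΩ.form φ]
    exact g2 H φ ((HDB.ham_iff H).1 hH) ((HDB.gen_iff hΩ.form H φ).1 hg)
  · obtain ⟨φ, hφ, hC⟩ := g3 C
    refine ⟨φ, ?_, ?_⟩
    · rw [HDB.Ham_eq hΩ.form]
      exact hφ
    · rw [HDB.hofer_eq hΩ.form φ]
      exact hC

end HDB
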