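import Pool.Agent.Work.MP_c3bd4f_as.BridgeT
import Pool.Agent.Work.MP_c3bd4f_as.All

set_option autoImplicit false

/-! # The special case of the manifolds covered by `ℝ^(2n)` -/

namespace HDB

open scoped ContDiff Manifold
open Set MeasureTheory HDS

theorem coveredByEuclidean (n : ℕ) (hn : 1 ≤ n) (M : Type)
    [TopologicalSpace M] [T2Space M] [SecondCountableTopology M] [Nonempty M]
    [ChartedSpace (EuclideanSpace ℝ (Fin (2 * n))) M]
    [IsManifold 𝓘(ℝ, EuclideanSpace ℝ (Fin (2 * n))) ∞ M] [MeasurableSpace M] [BorelSpace M]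
    (hM : ¬CompactSpace M) (Ω : Fam (2 * n) M) (hΩ : IsSymplectic n Ω)
    (p : EuclideanSpace ℝ (Fin (2 * n)) → M) (hp : IsCoveringMap p)
    (hps : Function.Surjective p)
    (hpd : IsLocalDiffeomorph 𝓘(ℝ, EuclideanSpace ℝ (Fin (2 * n)))
      𝓘(ℝ, EuclideanSpace ℝ (Fin (2 * n))) ∞ p) :
    CalabiHofer n Ω :=
  calabiHofer_of n M Ω hΩ fun vol h1 hfin =>
    HDP.q_FNU n M p Ω vol hn hM (HDB.symp_of hΩ) h1 hfin hp hps hpd

end HDB
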