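import Pool.Agent.Work.MP_c3bd4f_he.All

set_option autoImplicit false

/-!
# Calabi invariant of open manifolds with `Ω = d μ + (pullback from an aspherical space)`: definitions

`Γ` acts on `ℝ^m` by smooth maps `ρ γ`, properly discontinuously; `q : E → M` is a covering map with group `Γ` and
`g : E → ℝ^m` is smooth and equivariant.  Forms on `ℝ^b` are functions `θ : EE b → Lam b`.
-/

open scoped ContDiff Manifold Topology
open Set MeasureTheory

noncomputable section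

namespace HDP

open HDC HDE

/-! ## Forms on `ℝ^b` -/

/-- The pullback of forms by the linear map `A : ℝ^a → ℝ^b`. -/
def pq {a b : ℕ} (A : EE a →L[ℝ] EE b) : Lam b →ₐ[ℝ] Lam a :=
  ExteriorAlgebra.map A.toLinearMap.dualMap

/-- The derivative of `pq` at `A` in the direction `B`. -/
def dpq {a b : ℕ} (A B : EE a →L[ℝ] EE b) (x : Lam b) : Lam a :=
  deriv (fun s : ℝ => pq (A + s • B) x) 0

/-- The pullback of the form `θ` by the map `h`. -/
def pf {a b : ℕ} (h : EE a → EE b) (θ : EE b → Lam b) : EE a → Lam a :=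
  fun x => pq (fderiv ℝ h x) (θ (h x))

/-- `θ` is a smooth form of degree `k` on `ℝ^b`. -/
structure Fr {b : ℕ} (k : ℕ) (θ : EE b → Lam b) : Prop where
  sm : ContDiff ℝ ∞ θ
  dg : ∀ x, θ x ∈ ⋀[ℝ]^k (VV b)

/-- The family `C` of maps is smooth on `[0, 1] × U`. -/
def SmC {a b : ℕ} (U : Set (EE a)) (C : ℝ → EE a → EE b) : Prop :=
  ContDiffOn ℝ ∞ (fun p : ℝ × EE a => C p.1 p.2) (Icc 0 1 ×ˢ U)

/-- The velocity of the family `C`. -/
def dC {a b : ℕ} (C : ℝ → EE a → EE b) (s : ℝ) (z : EE a) : EE b :=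
  derivWithin (fun u => C u z) (Icc 0 1) s

/-- The pullback of `θ` by `(s, z) ↦ C s z` is `wq + ds ∧ bq`. -/
def wq {a b : ℕ} (C : ℝ → EE a → EE b) (θ : EE b → Lam b) (s : ℝ) (z : EE a) : Lam a :=
  pq (fderiv ℝ (C s) z) (θ (C s z))

/-- The pullback of `θ` by `(s, z) ↦ C s z` is `wq + ds ∧ bq`. -/
def bq {a b : ℕ} (C : ℝ → EE a → EE b) (θ : EE b → Lam b) (s : ℝ) (z : EE a) : Lam a :=
  pq (fderiv ℝ (C s) z) (ctr (dC C s z) (θ (C s z)))

/-- The pullback of `θ` by `(s, z) ↦ C s z`. -/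
def PG {a b : ℕ} (C : ℝ → EE a → EE b) (θ : EE b → Lam b) (s : ℝ) (z : EE a) : PL a :=
  ((wq C θ s z, bq C θ s z) : Lam a × Lam a)

/-! ## The group action and the product `ℝ^m × ℝ^m` -/

/-- `Γ` acts on `ℝ^m` by smooth maps, properly discontinuously. -/
structure Act {Γ : Type} [Group Γ] {m : ℕ} (ρ : Γ → EE m → EE m) : Prop where
  one : ∀ x, ρ 1 x = x
  mul : ∀ γ δ x, ρ (γ * δ) x = ρ γ (ρ δ x)
  sm : ∀ γ, ContDiff ℝ ∞ (ρ γ)
  fin : ∀ R : ℝ, {γ : Γ | ∃ x, ‖x‖ ≤ R ∧ ‖ρ γ x‖ ≤ R}.Finite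

/-- `θ` is invariant. -/
def Iv {Γ : Type} {m : ℕ} (ρ : Γ → EE m → EE m) (θ : EE m → Lam m) : Prop :=
  ∀ γ, pf (ρ γ) θ = θ

/-- `ℝ^(m + m) = ℝ^m × ℝ^m`. -/
def spl (m : ℕ) : EE (m + m) ≃L[ℝ] EE m × EE m :=
  ContinuousLinearEquiv.ofFinrankEq (by simp)

/-- The first projection. -/
def q1 (m : ℕ) : EE (m + m) →L[ℝ] EE m :=
  (ContinuousLinearMap.fst ℝ (EE m) (EE m)).comp (spl m : EE (m + m) →L[ℝ] EE m × EE m)

/-- The second projection. -/
def q2 (m : ℕ) : EE (m + m) →L[ℝ] EE m :=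
  (ContinuousLinearMap.snd ℝ (EE m) (EE m)).comp (spl m : EE (m + m) →L[ℝ] EE m × EE m)

/-- The point `(x, y)`. -/
def pr {m : ℕ} (x y : EE m) : EE (m + m) := (spl m).symm (x, y)

/-- The diagonal. -/
def dd (m : ℕ) : EE m →L[ℝ] EE (m + m) :=
  ((spl m).symm : EE m × EE m →L[ℝ] EE (m + m)).comp
    ((ContinuousLinearMap.id ℝ (EE m)).prod (ContinuousLinearMap.id ℝ (EE m)))

/-- The map `(x, y) ↦ (x, x)`. -/
def rr (m : ℕ) : EE (m + m) →L[ℝ] EE (m + m) := (dd m).comp (q1 m)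

/-- The diagonal action. -/
def r2 {Γ : Type} {m : ℕ} (ρ : Γ → EE m → EE m) (γ : Γ) (z : EE (m + m)) : EE (m + m) :=
  pr (ρ γ (q1 m z)) (ρ γ (q2 m z))

/-- The homotopy `(x, y) ↦ (x, (1 - s) x + s y)`. -/
def FF (m : ℕ) (s : ℝ) (z : EE (m + m)) : EE (m + m) := (1 - s) • rr m z + s • z

/-- The homotopy operator. -/
def P0 {m : ℕ} (w : EE (m + m) → Lam (m + m)) (z : EE (m + m)) : Lam (m + m) :=
  ∫ s in (0 : ℝ)..1, bq (FF m) w s z

/-- The average over the group. -/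
def Av {Γ : Type} {m : ℕ} (ρ : Γ → EE m → EE m) (w : EE (m + m) → Lam (m + m))
    (z : EE (m + m)) : Lam (m + m) := ∑ᶠ γ : Γ, pf (r2 ρ γ) w z

/-- The function `(x, y) ↦ χ x` as a form of degree `0`. -/
def X0 {m : ℕ} (χ : EE m → ℝ) (z : EE (m + m)) : Lam (m + m) :=
  algebraMap ℝ (Lam (m + m)) (χ (q1 m z))

/-- `S` is closed and its translates are locally finite. -/
structure Lf {Γ : Type} {m : ℕ} (ρ : Γ → EE m → EE m) (S : Set (EE m)) : Prop where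
  cl : IsClosed S
  lf : ∀ x, ∃ W ∈ 𝓝 x, {γ : Γ | ∃ y ∈ W, ρ γ y ∈ S}.Finite

/-- `χ` is smooth, zero outside of `S`, and the sum of its translates is `1`. -/
structure Chi {Γ : Type} {m : ℕ} (ρ : Γ → EE m → EE m) (S : Set (EE m)) (χ : EE m → ℝ) :
    Prop where
  sm : ContDiff ℝ ∞ χ
  lf : Lf ρ S
  sp : ∀ x ∉ S, χ x = 0
  sum : ∀ x, ∑ᶠ γ : Γ, χ (ρ γ x) = 1

/-- The forms with at least `j` factors from the first copy of `ℝ^m`. -/
def Bf (m j : ℕ) : Submodule ℝ (Lam (m + m)) :=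
  Submodule.span ℝ {z | ∃ u ∈ ⋀[ℝ]^j (VV m), ∃ y : Lam (m + m), z = pq (q1 m) u * y}

/-- The complete homogeneous polynomial in `x`, `y`. -/
def h2 {R : Type} [Ring R] (k : ℕ) (x y : R) : R := ∑ i ∈ Finset.range (k + 1), x ^ i * y ^ (k - i)

/-- The complete homogeneous polynomial in `x`, `y`, `z`. -/
def h3 {R : Type} [Ring R] (k : ℕ) (x y z : R) : R :=
  ∑ i ∈ Finset.range (k + 1), x ^ i * h2 (k - i) y z

/-! ## The covering space -/

/-- `s` is a continuous section of `q : E → M` over the open subset `U` of the target of the chart `c`. -/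
structure LSec {N : ℕ} {M E : Type} [TopologicalSpace M] [TopologicalSpace E] (q : E → M)
    (c : OpenPartialHomeomorph M (EE N)) (U : Set (EE N)) (s : EE N → E) : Prop where
  op : IsOpen U
  sub : U ⊆ c.target
  cont : ContinuousOn s U
  sec : ∀ y ∈ U, q (s y) = c.symm y

/-- `g : E → ℝ^m` is equivariant and smooth. -/
structure Gm (N : ℕ) {m : ℕ} {M E Γ : Type} [TopologicalSpace M] [ChartedSpace (EE N) M]
    [TopologicalSpace E] [SMul Γ E] (q : E → M) (ρ : Γ → EE m → EE m) (g : E → EE m) : Prop where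
  eqv : ∀ (γ : Γ) (e : E), g (γ • e) = ρ γ (g e)
  sm : ∀ c ∈ atlas (EE N) M, ∀ (U : Set (EE N)) (s : EE N → E), LSec q c U s →
    ContDiffOn ℝ ∞ (fun y => g (s y)) U

/-- `G : [0, 1] × E → ℝ^m` is equivariant and smooth. -/
structure EM (N : ℕ) {m : ℕ} {M E Γ : Type} [TopologicalSpace M] [ChartedSpace (EE N) M]
    [TopologicalSpace E] [SMul Γ E] (q : E → M) (ρ : Γ → EE m → EE m) (G : ℝ → E → EE m) :
    Prop where
  eqv : ∀ t ∈ Icc (0 : ℝ) 1, ∀ (γ : Γ) (e : E), G t (γ • e) = ρ γ (G t e)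
  sm : ∀ c ∈ atlas (EE N) M, ∀ (U : Set (EE N)) (s : EE N → E), LSec q c U s →
    SmC U (fun t y => G t (s y))

open scoped Classical in
/-- The form on `[0, 1] × M` with the lift `G^* θ` (`θ` invariant). -/
def Pl {N m : ℕ} {M E : Type} [TopologicalSpace M] [TopologicalSpace E] (q : E → M)
    (G : ℝ → E → EE m) (θ : EE m → Lam m) : PFam N M := fun t c x =>
  if h : ∃ v : PL N, ∃ (U : Set (EE N)) (s : EE N → E), x ∈ U ∧ LSec q c U s ∧
    v = PG (fun u y => G u (s y)) θ t x then h.choose else 0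

/-- `Ψ` is the lift of the isotopy `Φ`. -/
structure Lft {M E : Type} (Γ : Type) [TopologicalSpace M] [TopologicalSpace E] [SMul Γ E]
    (q : E → M) (Φ : ℝ → M → M) (Ψ : ℝ → E → E) : Prop where
  ct : ContinuousOn (fun p : ℝ × E => Ψ p.1 p.2) (Icc 0 1 ×ˢ univ)
  pr : ∀ t ∈ Icc (0 : ℝ) 1, ∀ e, q (Ψ t e) = Φ t (q e)
  zero : ∀ e, Ψ 0 e = e
  eqv : ∀ t ∈ Icc (0 : ℝ) 1, ∀ (γ : Γ) (e : E), Ψ t (γ • e) = γ • Ψ t e
  fx : ∀ e, (∀ t ∈ Icc (0 : ℝ) 1, Φ t (q e) = q e) → ∀ t ∈ Icc (0 : ℝ) 1, Ψ t e = e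

/-- The data: a covering with group `Γ`, an equivariant map to `ℝ^m`, invariant forms `σ`, `η` with `d σ = 0`,
`d η = σ ^ (n + 1)`. -/
structure Dat (n : ℕ) {m : ℕ} {M E Γ : Type} [TopologicalSpace M] [ChartedSpace (EE (2 * n)) M]
    [TopologicalSpace E] [Group Γ] [MulAction Γ E] (q : E → M) (ρ : Γ → EE m → EE m)
    (g : E → EE m) (σ η : EE m → Lam m) : Prop where
  cov : IsQuotientCoveringMap q Γ
  act : Act ρ
  gm : Gm (2 * n) q ρ g
  fs : Fr 2 σ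
  cs : D σ = 0
  is : Iv ρ σ
  fe : Fr (2 * n + 1) η
  ce : D η = σ ^ (n + 1)
  ie : Iv ρ η

/-- `w = g^* θ` (on `M`). -/
def PB {N m : ℕ} {M E : Type} [TopologicalSpace M] [ChartedSpace (EE N) M]
    [TopologicalSpace E] (q : E → M) (g : E → EE m) (θ : EE m → Lam m) (w : Fam N M) : Prop :=
  ∀ c ∈ atlas (EE N) M, ∀ (U : Set (EE N)) (s : EE N → E), LSec q c U s → ∀ x ∈ U,
    w c x = pf (fun y => g (s y)) θ x

end HDP
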