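import Pool.Agent.Work.MP_c3bd4f_as.Interface

set_option autoImplicit false

/-!
# Manifolds covered by `ℝ^m`: definitions

`X` is a manifold of dimension `m` with a smooth covering map `p : ℝ^m → X`, `f : M → X` is a smooth map.
-/

open scoped ContDiff Manifold Topology
open Set MeasureTheory

noncomputable section

namespace HDP

open HDC HDE

/-- The group of the deck transformations of `p : ℝ^m → X`. -/
def Dk {m : ℕ} {X : Type} (p : EE m → X) : Subgroup (EE m ≃ₜ EE m) where
  carrier := {γ | ∀ x, p (γ x) = p x}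
  mul_mem' := fun {γ δ} hγ hδ x => (hγ (δ x)).trans (hδ x)
  one_mem' := fun _ => rfl
  inv_mem' := fun {γ} hγ x => by
    have h := hγ (γ⁻¹ x)
    have h1 : γ (γ⁻¹ x) = x := γ.apply_symm_apply x
    rw [h1] at h
    exact h.symm

instance dkAct {m : ℕ} {X : Type} (p : EE m → X) : MulAction (Dk p) (EE m) where
  smul γ x := γ.1 x
  one_smul _ := rfl
  mul_smul _ _ _ := rfl

theorem dk_smul {m : ℕ} {X : Type} (p : EE m → X) (γ : Dk p) (x : EE m) : γ • x = γ.1 x := rfl

theorem dk_map {m : ℕ} {X : Type} (p : EE m → X) (γ : Dk p) (x : EE m) : p (γ • x) = p x :=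
  γ.2 x

theorem dk_cont {m : ℕ} {X : Type} (p : EE m → X) (γ : Dk p) :
    Continuous (fun x : EE m => γ • x) := γ.1.continuous

/-- The action of the deck group as a family of maps. -/
def dr {m : ℕ} {X : Type} (p : EE m → X) (γ : Dk p) (x : EE m) : EE m := γ • x

/-- The fibre product of `f : M → X` and `p : ℝ^m → X`. -/
def FP {m : ℕ} {M X : Type} (f : M → X) (p : EE m → X) : Type := {z : M × EE m // f z.1 = p z.2}

section

variable {m : ℕ} {M X : Type} (f : M → X) (p : EE m → X)

instance fpTop [TopologicalSpace M] : TopologicalSpace (FP f p) :=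
  inferInstanceAs (TopologicalSpace {z : M × EE m // f z.1 = p z.2})

instance fpAct : MulAction (Dk p) (FP f p) where
  smul γ z := ⟨(z.1.1, γ • z.1.2), z.2.trans (dk_map p γ z.1.2).symm⟩
  one_smul _ := rfl
  mul_smul _ _ _ := rfl

/-- The projection to `M`. -/
def fq (z : FP f p) : M := z.1.1

/-- The projection to `ℝ^m`. -/
def fg (z : FP f p) : EE m := z.1.2

theorem fq_smul (γ : Dk p) (z : FP f p) : fq f p (γ • z) = fq f p z := rfl

theorem fg_smul (γ : Dk p) (z : FP f p) : fg f p (γ • z) = γ • fg f p z := rfl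

theorem fp_eq (z : FP f p) : f (fq f p z) = p (fg f p z) := z.2

theorem fp_ext {z w : FP f p} (h1 : fq f p z = fq f p w) (h2 : fg f p z = fg f p w) : z = w :=
  Subtype.ext (Prod.ext h1 h2)

end

/-- The pullback of the form `w` on `X` by the map `p : ℝ^m → X`. -/
def QF {m : ℕ} {X : Type} [TopologicalSpace X] [ChartedSpace (EE m) X] (p : EE m → X)
    (w : Fam m X) (e : EE m) : Lam m :=
  pq (fderiv ℝ (fun y => chartAt (EE m) (p e) (p y)) e)
    (w (chartAt (EE m) (p e)) (chartAt (EE m) (p e) (p e)))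

/-- The pullback of the form `w` on `X` by the map `f : M → X`. -/
def MPB {N m : ℕ} {M X : Type} [TopologicalSpace M] [TopologicalSpace X]
    [ChartedSpace (EE m) X] (f : M → X) (w : Fam m X) : Fam N M := fun c x =>
  pq (fderiv ℝ (fun y => chartAt (EE m) (f (c.symm x)) (f (c.symm y))) x)
    (w (chartAt (EE m) (f (c.symm x))) (chartAt (EE m) (f (c.symm x)) (f (c.symm x))))

end HDP
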