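import Pool.Agent.Work.MP_c3bd4f_as.Interface2

set_option autoImplicit false

/-!
# The general theorem `Ω = f^* σ + ρ`, `σ ^ (r + 1)` exact on `X`, `ρ ^ j` exact on `M`: definitions
-/

open scoped ContDiff Manifold Topology
open Set MeasureTheory

noncomputable section

namespace HDP

open HDC HDE

/-- `(y - x) * hm k x y = y ^ k - x ^ k`; `hm (k + 1) = h2 k`, `hm 0 = 0`. -/
def hm {R : Type} [Ring R] (k : ℕ) (x y : R) : R := ∑ i ∈ Finset.range k, x ^ i * y ^ (k - 1 - i)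

/-- `∑ (l ≤ n - r), C(n+1, l+r+1) x ^ l y ^ (n - r - l)`. -/
def WW {R : Type} [Ring R] [Algebra ℝ R] (n r : ℕ) (x y : R) : R :=
  HP (n - r) (n - r + 1) (fun l => bc (n + 1) (l + r + 1)) x y

/-- The derivative of `UU n r j x y` with respect to `y`. -/
def UY {R : Type} [Ring R] [Algebra ℝ R] (n r j : ℕ) (x y : R) : R :=
  HP (n - j) (r + 1) (fun i => bc (n + 1) i * ((n : ℝ) + 1 - i - j)) x y

/-- The derivative of `WW n r x y` with respect to `y`. -/
def WY {R : Type} [Ring R] [Algebra ℝ R] (n r : ℕ) (x y : R) : R :=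
  HP (n - r - 1) (n - r + 1) (fun l => bc (n + 1) (l + r + 1) * ((n : ℝ) - r - l)) x y

/-- The quotient `(UU n r j x' y' - UU n r j x y) / (x' - x)` for `x + y = x' + y'`. -/
def AA {R : Type} [Ring R] [Algebra ℝ R] (n r j : ℕ) (x x' y y' : R) : R :=
  ∑ i ∈ Finset.range (r + 1), bc (n + 1) i •
    (hm i x x' * y' ^ (n + 1 - j - i) - x ^ i * hm (n + 1 - j - i) y y')

/-- The quotient `(WW n r x' y' - WW n r x y) / (x' - x)` for `x + y = x' + y'`. -/
def BB {R : Type} [Ring R] [Algebra ℝ R] (n r : ℕ) (x x' y y' : R) : R :=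
  ∑ l ∈ Finset.range (n - r + 1), bc (n + 1) (l + r + 1) •
    (hm l x x' * y' ^ (n - r - l) - x ^ l * hm (n - r - l) y y')

section

variable {N : ℕ} {M : Type} [TopologicalSpace M] (X X' Y Y' : PFam N M) (t : ℝ)
  (c : OpenPartialHomeomorph M (EE N)) (x : EE N)

theorem hm_apply (k : ℕ) : (hm k X Y) t c x = hm k (X t c x) (Y t c x) := by
  unfold hm
  simp only [Finset.sum_apply, Pi.mul_apply, Pi.pow_apply]

theorem UU_apply (n r j : ℕ) : (UU n r j X Y) t c x = UU n r j (X t c x) (Y t c x) :=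
  HP_apply _ _ _ _ _ _ _ _

theorem WW_apply (n r : ℕ) : (WW n r X Y) t c x = WW n r (X t c x) (Y t c x) :=
  HP_apply _ _ _ _ _ _ _ _

theorem UY_apply (n r j : ℕ) : (UY n r j X Y) t c x = UY n r j (X t c x) (Y t c x) :=
  HP_apply _ _ _ _ _ _ _ _

theorem WY_apply (n r : ℕ) : (WY n r X Y) t c x = WY n r (X t c x) (Y t c x) :=
  HP_apply _ _ _ _ _ _ _ _

theorem AA_apply (n r j : ℕ) : (AA n r j X X' Y Y') t c x =
    AA n r j (X t c x) (X' t c x) (Y t c x) (Y' t c x) := by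
  unfold AA
  simp only [Finset.sum_apply, Pi.smul_apply, Pi.sub_apply, Pi.mul_apply, Pi.pow_apply,
    hm_apply]

theorem BB_apply (n r : ℕ) : (BB n r X X' Y Y') t c x =
    BB n r (X t c x) (X' t c x) (Y t c x) (Y' t c x) := by
  unfold BB
  simp only [Finset.sum_apply, Pi.smul_apply, Pi.sub_apply, Pi.mul_apply, Pi.pow_apply,
    hm_apply]

end

/-- The data: a covering with group `Γ`, an equivariant map to `ℝ^m`, invariant forms `σ`, `η` with `d σ = 0`,
`d η = σ ^ (r + 1)`. -/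
structure DatR (n r : ℕ) {m : ℕ} {M E Γ : Type} [TopologicalSpace M]
    [ChartedSpace (EE (2 * n)) M] [TopologicalSpace E] [Group Γ] [MulAction Γ E] (q : E → M)
    (ρ : Γ → EE m → EE m) (g : E → EE m) (σ η : EE m → Lam m) : Prop where
  cov : IsQuotientCoveringMap q Γ
  act : Act ρ
  gm : Gm (2 * n) q ρ g
  fs : Fr 2 σ
  cs : D σ = 0
  is : Iv ρ σ
  fe : Fr (2 * r + 1) η
  ce : D η = σ ^ (r + 1)
  ie : Iv ρ η

/-- The data on `M`: `w` closed of degree `2`, `d e = w ^ (r + 1)`, `d μ = (Ω - w) ^ j`. -/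
structure DatM (n r j : ℕ) {M : Type} [TopologicalSpace M] [ChartedSpace (EE (2 * n)) M]
    (Ω w e μ : Fam (2 * n) M) : Prop where
  fw : IsForm 2 w
  cw : EqF (dF w) 0
  fe : IsForm (2 * r + 1) e
  ce : EqF (dF e) (w ^ (r + 1))
  fm : IsForm (2 * j - 1) μ
  cm : EqF (dF μ) ((Ω - w) ^ j)

end HDP
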