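import Pool.Agent.Work.MP_c3bd4f_as.Basic

set_option autoImplicit false

/-!
# Calabi invariant of open manifolds with `Ω = d μ + (pullback from an aspherical space)`: interface

The file of block `X` is `Pool/Agent/Work/MP_c3bd4f_as/B_X.lean`: `import Pool.Agent.Work.MP_c3bd4f_as.Interface`,
`open scoped ContDiff Manifold Topology`, `open Set MeasureTheory`, `noncomputable section`, `namespace HDP`,
`open HDC HDE`, `theorem p_X (hA : Stmt_A) (hB : Stmt_B) .. : Stmt_X` with the blocks of the column `uses` as hypotheses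
in that order; auxiliary lemmas with prefix `X_`.

THE BLOCKS OF `MP_c3bd4f_hd` AND `MP_c3bd4f_he` ARE PROVED: use `HDC.q_ALG`, `HDC.q_DEG`, .. (statements `HDC.Stmt_X` in
`MP_c3bd4f_hd/Interface.lean`, list in `MP_c3bd4f_hd/All.lean`) and `HDE.q_DFA`, `HDE.q_LBP`, .. (statements `HDE.Stmt_X` in
`MP_c3bd4f_he/Interface.lean`, list in `MP_c3bd4f_he/All.lean`) freely; they are not in the column `uses` and are written
`HDC.ALG`, `HDE.DFA`, .. in the proofs below.  `Basic.lean` has the simple lemmas on `spl`, `pr`, `dd`, `rr`, `FF`, `r2`, `h2`.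

NOTATION.  `ω` is a reserved token here: forms are called `w`.  `EE b → Lam b` and `PFam N M` are function types, the ring
operations are pointwise.  The letter `i` in `dx i`, `ee i` runs over `Fin a`.
-/

open scoped ContDiff Manifold Topology
open Set MeasureTheory

noncomputable section

namespace HDP

open HDC HDE

/-! ## A. Algebra -/

/-- BLOCK PQA (uses nothing): the pullback by a linear map.
PROOF.  As `PBA`, `DEG (4)` of HDC (files `B_PBA.lean`, `B_DEG.lean`).  (1) `ExteriorAlgebra.map_apply_ι`.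
(2) `ExteriorAlgebra.map_comp_map`, `LinearMap.dualMap_comp_dualMap`.  (3) `ExteriorAlgebra.map_id`.  (4), (5): `ExteriorAlgebra.induction`
(HDC.ALG (2), (3), (4) for products, linear forms, scalars).  (6) induction on `k` as in DEG (4).  (7) `rfl`. -/
def Stmt_PQA : Prop :=
  (∀ (a b : ℕ) (A : EE a →L[ℝ] EE b) (α : VV b), pq A (io α) = io (α ∘ₗ A.toLinearMap)) ∧
  (∀ (a b c : ℕ) (A : EE b →L[ℝ] EE c) (B : EE a →L[ℝ] EE b) (x : Lam c),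
    pq (A.comp B) x = pq B (pq A x)) ∧
  (∀ (a : ℕ) (x : Lam a), pq (ContinuousLinearMap.id ℝ (EE a)) x = x) ∧
  (∀ (a b : ℕ) (A : EE a →L[ℝ] EE b) (v : EE a) (x : Lam b), pq A (ctr (A v) x) = ctr v (pq A x)) ∧
  (∀ (a b : ℕ) (A : EE a →L[ℝ] EE b) (x : Lam b), pq A (inv x) = inv (pq A x)) ∧
  (∀ (a b k : ℕ) (A : EE a →L[ℝ] EE b) (x : Lam b), x ∈ ⋀[ℝ]^k (VV b) →
    pq A x ∈ ⋀[ℝ]^k (VV a)) ∧
  ∀ (a : ℕ) (A : EE a →L[ℝ] EE a) (x : Lam a), pq A x = pb A x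

/-- BLOCK PQS (uses nothing): smoothness of `pq` and the rule for its derivative.
PROOF.  As HDC.SMA (3), HDC.DRV (3) to (7) (files `B_SMA.lean`, `B_DRV.lean`), with `EE a →L EE b` in place of `EE N →L EE N`.
(1) with a basis of `Lam b` it suffices that `A ↦ pq A y` is smooth for each `y`: `ExteriorAlgebra.induction`.
(2) `G (A, y) = pq A y` is smooth, linear in `y`; its derivative at `(A, y)` is `(B, z) ↦ dpq A B y + pq A z`; chain rule.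
(3) to (6): `s ↦ pq (A + s • B) y` is differentiable and `pq` is an algebra homomorphism. -/
def Stmt_PQS : Prop := ∀ a b : ℕ,
  ContDiff ℝ ∞ (fun q : (EE a →L[ℝ] EE b) × Lam b => pq q.1 q.2) ∧
  (∀ (P : Type) [NormedAddCommGroup P] [NormedSpace ℝ P] (x : P) (A : P → EE a →L[ℝ] EE b)
    (f : P → Lam b) (A' : P →L[ℝ] (EE a →L[ℝ] EE b)) (f' : P →L[ℝ] Lam b), HasFDerivAt A A' x →
    HasFDerivAt f f' x → ∃ L : P →L[ℝ] Lam a, HasFDerivAt (fun y => pq (A y) (f y)) L x ∧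
      ∀ v, L v = dpq (A x) (A' v) (f x) + pq (A x) (f' v)) ∧
  (∀ (A B : EE a →L[ℝ] EE b) (α : VV b), dpq A B (io α) = io (α ∘ₗ B.toLinearMap)) ∧
  (∀ (A B : EE a →L[ℝ] EE b) (y z : Lam b),
    dpq A B (y * z) = dpq A B y * pq A z + pq A y * dpq A B z) ∧
  (∀ (A B : EE a →L[ℝ] EE b) (y z : Lam b), dpq A B (y + z) = dpq A B y + dpq A B z) ∧
  ∀ (A B : EE a →L[ℝ] EE b) (r : ℝ), dpq A B (algebraMap ℝ (Lam b) r) = 0

/-- BLOCK DPF (uses PQA, PQS): formulas for the derivative.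
PROOF.  (1) `ExteriorAlgebra.induction` on `y`: scalars: both sides `0`; `y = io α`: `io (α ∘ B) = ∑ i, α (B (ee i)) • dx i` (dual basis) and
`ctr (B (ee i)) (io α) = algebraMap (α (B (ee i)))`; products: HDC.ALG (2), (1) (`dx i * inv u = u * dx i`) and PQA (5), both sides satisfy the
rule `R (y z) = R y * pq A z + pq A y * R z`; sums.
(2) `∑ i, dx i * dpq A (S (ee i)) y = 0` by `ExteriorAlgebra.induction` as in `B_NAT.lean`: `y = io α`: `α ∘ S (ee i) = ∑ l, α (S (ee i) (ee l)) • dxB l`,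
symmetric times antisymmetric; products: `T (y z) = T y * pq z + inv (pq y) * T z`.
(3) `A (ee i) = ∑ k, dxB k (A (ee i)) • ee k`; exchange the sums: `∑ k, (∑ i, dxB k (A (ee i)) • dx i) * pq A (L (ee k))` and
`∑ i, dxB k (A (ee i)) • dx i = pq A (dx k)` (PQA (1)). -/
def Stmt_DPF : Prop := ∀ a b : ℕ,
  (∀ (A B : EE a →L[ℝ] EE b) (y : Lam b),
    dpq A B y = ∑ i : Fin a, dx i * pq A (ctr (B (ee i)) y)) ∧
  (∀ (A : EE a →L[ℝ] EE b) (S : EE a →L[ℝ] (EE a →L[ℝ] EE b)), (∀ u v, S u v = S v u) →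
    ∀ y : Lam b, ∑ i : Fin a, dx i * dpq A (S (ee i)) y = 0) ∧
  ∀ (A : EE a →L[ℝ] EE b) (L : EE b →ₗ[ℝ] Lam b),
    ∑ i : Fin a, dx i * pq A (L (A (ee i))) = pq A (∑ k : Fin b, dx k * L (ee k))

/-- BLOCK PFA (uses PQA, PQS, DPF): the pullback of forms on `ℝ^b`.
PROOF.  (1) pointwise (`pq` is an algebra homomorphism); build the `AlgHom` by hand or with `Pi.algHom`.  (2) chain rule
(`fderiv_comp`), PQA (2).  (3) `fderiv_id`, PQA (3).  (4) PQS (1) with `ContDiff.fderiv_right`, PQA (6).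
(5) as HDC.NAT: PQS (2) with `A y = fderiv ℝ h y`, `A'` symmetric (`ContDiffAt.isSymmSndFDerivAt`), `f = θ ∘ h`:
`D (pf h θ) x = ∑ dx i * dpq (A x) (A' (ee i)) (θ (h x)) + ∑ dx i * pq (A x) (θ' (A x (ee i)))`, `θ' = fderiv ℝ θ (h x)`; DPF (2), (3). -/
def Stmt_PFA : Prop :=
  (∀ (a b : ℕ) (h : EE a → EE b), ∃ F : (EE b → Lam b) →ₐ[ℝ] (EE a → Lam a),
    ∀ θ, F θ = pf h θ) ∧
  (∀ (a b c : ℕ) (h : EE a → EE b) (k : EE b → EE c) (θ : EE c → Lam c), Differentiable ℝ h →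
    Differentiable ℝ k → pf h (pf k θ) = pf (fun x => k (h x)) θ) ∧
  (∀ (a : ℕ) (θ : EE a → Lam a), pf (fun x => x) θ = θ) ∧
  (∀ (a b k : ℕ) (h : EE a → EE b) (θ : EE b → Lam b), ContDiff ℝ ∞ h → Fr k θ →
    Fr k (pf h θ)) ∧
  (∀ (a b : ℕ) (h : EE a → EE b) (θ : EE b → Lam b) (x : EE a), ContDiffAt ℝ 2 h x →
    DifferentiableAt ℝ θ (h x) → D (pf h θ) x = pf h (D θ) x)

/-- BLOCK FRA (uses nothing): calculus of smooth forms on `ℝ^b`.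
PROOF.  (1) HDC.SMA (1), `SetLike.mul_mem_graded`.  (2) submodule.  (3) `D θ x = ∑ dx i * fderiv ℝ θ x (ee i)` is smooth (`ContDiff.fderiv_right`,
HDC.SMA), HDC.DGD, HDC.DDZ (1).  (4) HDC.LBZ, HDC.DEG (1) for `inv (θ x)`; `fderiv_add`, `fderiv_sub`, `fderiv_const_smul`.
(5) `h2 j X Y = ∑ X ^ i * Y ^ (j - i)`; powers of `X`, `Y` by induction on the exponent with (1), (4) (`(-1)^(2 k) = 1`), finite sums by
induction.  (6) `1` is a scalar (HDC.DEG (8)), constant. -/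
def Stmt_FRA : Prop := ∀ b : ℕ,
  (∀ (k l : ℕ) (θ κ : EE b → Lam b), Fr k θ → Fr l κ → Fr (k + l) (θ * κ)) ∧
  (∀ (k : ℕ) (θ κ : EE b → Lam b) (r : ℝ), Fr k θ → Fr k κ →
    Fr k (θ + κ) ∧ Fr k (θ - κ) ∧ Fr k (-θ) ∧ Fr k (r • θ) ∧ Fr k (0 : EE b → Lam b)) ∧
  (∀ (k : ℕ) (θ : EE b → Lam b), Fr k θ → Fr (k + 1) (D θ) ∧ D (D θ) = 0) ∧
  (∀ (k l : ℕ) (θ κ : EE b → Lam b), Fr k θ → Fr l κ →
    D (θ * κ) = D θ * κ + (-1 : ℝ) ^ k • (θ * D κ) ∧ D (θ + κ) = D θ + D κ ∧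
      D (θ - κ) = D θ - D κ) ∧
  (∀ (j : ℕ) (X Y : EE b → Lam b), Fr 2 X → Fr 2 Y → D X = 0 → D Y = 0 →
    Fr (2 * j) (h2 j X Y) ∧ D (h2 j X Y) = 0) ∧
  Fr 0 (1 : EE b → Lam b)

/-- BLOCK ALH (uses nothing): complete homogeneous polynomials.
PROOF.  (1) `Commute.mul_geom_sum₂` or induction: `h2 (n+1) x y = x ^ (n+1) + y * h2 n x y` and `= y ^ (n+1) + x * h2 n x y`.
(2) Put `z = y - x` (commutes with `x`), `U n = UU n n 1 x z = ∑ i ∈ range (n+1), C(n+1,i) x^i z^(n-i)` (unfold `UU`, `HP`, `bc`).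
`C(n+1,i) = C(n,i) + C(n,i-1)` gives `U n = (x + z)^n + x * U (n-1)` for `n ≥ 1` (`Commute.add_pow`), and
`h2 n x y = y^n + x * h2 (n-1) x y`; `U 0 = 1 = h2 0`.  Induction on `n`.
(3) by induction on `k`: `h3 (k+1) x y z = h2 (k+1) y z + x * h3 k x y z` (`Finset.sum_range_succ'`).  First identity: `(y - x) h3 (k+1) =
(y - x) h2 (k+1) y z + x (h2 (k+1) y z - h2 (k+1) x z) = y h2 (k+1) y z - x h2 (k+1) x z`, and
`h2 (k+2) y z = z^(k+2) + y h2 (k+1) y z`, `h2 (k+2) x z = z^(k+2) + x h2 (k+1) x z`.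
Second identity: `(z - x) h3 (k+1) = (z - x) h2 (k+1) y z + x (h2 (k+1) y z - h2 (k+1) x y) = z h2 (k+1) y z - x h2 (k+1) x y`, and
`h2 (k+2) y z = y^(k+2) + z h2 (k+1) y z`, `h2 (k+2) x y = y^(k+2) + x h2 (k+1) x y`.  `k = 0`: `h3 0 = 1`. -/
def Stmt_ALH : Prop := ∀ (R : Type) [Ring R] [Algebra ℝ R],
  (∀ (n : ℕ) (x y : R), x * y = y * x → (y - x) * h2 n x y = y ^ (n + 1) - x ^ (n + 1)) ∧
  (∀ (n : ℕ) (x y : R), x * y = y * x → UU n n 1 x (y - x) = h2 n x y) ∧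
  ∀ (k : ℕ) (x y z : R), x * y = y * x → x * z = z * x → y * z = z * y →
    h2 (k + 1) y z - h2 (k + 1) x z = (y - x) * h3 k x y z ∧
    h2 (k + 1) y z - h2 (k + 1) x y = (z - x) * h3 k x y z

/-! ## B. Smooth families of maps -/

/-- BLOCK DTS (uses nothing): the derivative in `t` is smooth.
PROOF.  `S = Icc 0 1 ×ˢ U` has unique differentials (`uniqueDiffOn_Icc`, `UniqueDiffOn.prod`, `IsOpen.uniqueDiffOn`), so
`p ↦ fderivWithin ℝ f S p` is `ContDiffOn ℝ ∞` on `S` (`ContDiffOn.fderivWithin`).  The curve `u ↦ (u, x)` maps `Icc 0 1` to `S`: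
`HasFDerivWithinAt.comp_hasDerivWithinAt` gives (2) with the derivative `fderivWithin ℝ f S (t, x) (1, 0)`, and `derivWithin` is equal to it
(`HasDerivWithinAt.derivWithin`, `uniqueDiffOn_Icc`).  See `B_PDL.lean` of hd for the same argument in `x`. -/
def Stmt_DTS : Prop := ∀ (E F : Type) [NormedAddCommGroup E] [NormedSpace ℝ E]
  [NormedAddCommGroup F] [NormedSpace ℝ F] (f : ℝ × E → F) (U : Set E), IsOpen U →
  ContDiffOn ℝ ∞ f (Icc 0 1 ×ˢ U) →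
  ContDiffOn ℝ ∞ (fun p : ℝ × E => derivWithin (fun u => f (u, p.2)) (Icc 0 1) p.1)
    (Icc 0 1 ×ˢ U) ∧
  ∀ t ∈ Icc (0 : ℝ) 1, ∀ x ∈ U, HasDerivWithinAt (fun u => f (u, x))
    (derivWithin (fun u => f (u, x)) (Icc 0 1) t) (Icc 0 1) t

/-- BLOCK CAS (uses PQS, DTS): `wq` and `bq` are smooth.
PROOF.  `(t, x) ↦ fderiv ℝ (C t) x` is smooth on `Icc 0 1 ×ˢ U` (HDC.PDL with `univ ×ˢ U`), `(t, x) ↦ dC C t x` too (DTS), `θ (C t x)` too; compose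
with PQS (1) and HDC.SMA (2). -/
def Stmt_CAS : Prop := ∀ (a b : ℕ) (U : Set (EE a)) (C : ℝ → EE a → EE b) (θ : EE b → Lam b),
  IsOpen U → SmC U C → ContDiff ℝ ∞ θ →
  ContDiffOn ℝ ∞ (fun p : ℝ × EE a => wq C θ p.1 p.2) (Icc 0 1 ×ˢ U) ∧
  ContDiffOn ℝ ∞ (fun p : ℝ × EE a => bq C θ p.1 p.2) (Icc 0 1 ×ˢ U)

/-- BLOCK CAR (uses PQA, PQS, DPF, PFA, DTS, CAS): Cartan's formula for families.
PROOF.  (1) `C t` is smooth at `x` (HDC.PDL (1)): PFA (5) (`wq C θ t = pf (C t) θ`).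
(2) `(s, y) ↦ C s y` is smooth near `(t, x)` (`t` is interior).  `A s = fderiv ℝ (C s) x`; by HDC.MXP `A` has at `t` the derivative
`X' = fderiv ℝ X x`, `X y = dC C t y` (near `x`; at the interior time `t` `derivWithin` is `deriv`); `s ↦ θ (C s x)` has the derivative
`θ' (X x)`, `θ' = fderiv ℝ θ (C t x)`.  PQS (2) for `P = ℝ`: the derivative of `wq` is `dpq A X' y + pq A (θ' (X x))`, `A = A t`, `y = θ (C t x)`.
`D (bq C θ t) x`: PQS (2) for `z ↦ pq (fderiv (C t) z) (ctr (X z) (θ (C t z)))` (HDC.DRV (2) for the contraction): it is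
`∑ dx i * dpq A (S (ee i)) (ctr (X x) y) + ∑ dx i * pq A (ctr (X' (ee i)) y) + ∑ dx i * pq A (ctr (X x) (θ' (A (ee i))))`, `S` the second
derivative of `C t` at `x`, symmetric.  By DPF (2), (1), (3) (with `L v = ctr (X x) (θ' v)`) this is
`0 + dpq A X' y + pq A (∑ k, dx k * ctr (X x) (θ' (ee k)))`.
Finally `∑ k, dx k * ctr (X x) (θ' (ee k)) = θ' (X x) - ctr (X x) (D θ (C t x))` (HDC.ALG (2), (3): `ctr X (dx k * u) = dxB k X • u - dx k * ctr X u`,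
`∑ dxB k (X x) • θ' (ee k) = θ' (X x)`), and `bq C (D θ) t x = pq A (ctr (X x) (D θ (C t x)))`. -/
def Stmt_CAR : Prop := ∀ (a b : ℕ) (U : Set (EE a)) (C : ℝ → EE a → EE b) (θ : EE b → Lam b),
  IsOpen U → SmC U C → ContDiff ℝ ∞ θ →
  (∀ t ∈ Icc (0 : ℝ) 1, ∀ x ∈ U, D (wq C θ t) x = wq C (D θ) t x) ∧
  ∀ t ∈ Ioo (0 : ℝ) 1, ∀ x ∈ U,
    HasDerivAt (fun s => wq C θ s x) (bq C (D θ) t x + D (bq C θ t) x) t

/-- BLOCK PGA (uses PQA, DTS): the pullback `PG`.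
PROOF.  (1) all pointwise: `pq A` is an algebra homomorphism, `ctr v (x y) = ctr v x * y + inv x * ctr v y` (HDC.ALG (2)), `pq A (inv x) = inv (pq A x)`
(PQA (5)), `ctr v 1 = 0`; `PL.ext`, `PL.mul_fst`, `PL.mul_snd`.  Build the `AlgHom` by hand.
(2) PQA (6), HDC.DEG (2), (3).
(3) `fderiv (h ∘ C t) x = (fderiv h (C t x)).comp (fderiv (C t) x)` (HDC.PDL (1)), `dC (h ∘ C) t x = fderiv h (C t x) (dC C t x)` (DTS (2),
`HasFDerivAt.comp_hasDerivWithinAt`, `HasDerivWithinAt.derivWithin`); PQA (2), (4).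
(4) `fderiv (C t ∘ ψ) x = (fderiv (C t) (ψ x)).comp (fderiv ψ x)`, the velocity at `x` is that of `C` at `ψ x`; PQA (2).
(5) `Filter.EventuallyEq.fderiv_eq`, `Filter.Eventually.self_of_nhds`; `derivWithin_congr`.  (6) `pq A (ctr v 0) = 0`. -/
def Stmt_PGA : Prop :=
  (∀ (a b : ℕ) (C : ℝ → EE a → EE b), ∃ F : (EE b → Lam b) →ₐ[ℝ] (ℝ → EE a → PL a),
    ∀ θ, F θ = PG C θ) ∧
  (∀ (a b k : ℕ) (C : ℝ → EE a → EE b) (θ : EE b → Lam b) (t : ℝ) (x : EE a),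
    (∀ z, θ z ∈ ⋀[ℝ]^k (VV b)) → Hg k (PG C θ t x)) ∧
  (∀ (a b c : ℕ) (U : Set (EE a)) (C : ℝ → EE a → EE b) (h : EE b → EE c)
    (θ : EE c → Lam c), IsOpen U → SmC U C → ContDiff ℝ ∞ h → ∀ t ∈ Icc (0 : ℝ) 1, ∀ x ∈ U,
    PG (fun s y => h (C s y)) θ t x = PG C (pf h θ) t x) ∧
  (∀ (a a' b : ℕ) (U : Set (EE a)) (C : ℝ → EE a → EE b) (ψ : EE a' → EE a)
    (θ : EE b → Lam b), IsOpen U → SmC U C → ∀ t ∈ Icc (0 : ℝ) 1, ∀ x : EE a', ψ x ∈ U →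
    DifferentiableAt ℝ ψ x → PG (fun s y => C s (ψ y)) θ t x =
      ((pq (fderiv ℝ ψ x) (wq C θ t (ψ x)), pq (fderiv ℝ ψ x) (bq C θ t (ψ x))) :
        Lam a' × Lam a')) ∧
  (∀ (a b : ℕ) (C C' : ℝ → EE a → EE b) (θ : EE b → Lam b), ∀ t ∈ Icc (0 : ℝ) 1,
    ∀ x : EE a, (∀ᶠ y in 𝓝 x, C t y = C' t y) → (∀ s ∈ Icc (0 : ℝ) 1, C s x = C' s x) →
    PG C θ t x = PG C' θ t x) ∧
  ∀ (a b : ℕ) (C : ℝ → EE a → EE b) (θ : EE b → Lam b) (t : ℝ) (x : EE a), θ (C t x) = 0 →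
    PG C θ t x = 0

/-! ## C. Invariant forms on `ℝ^m × ℝ^m` -/

/-- BLOCK FLT (uses PQA): the filtration.
PROOF.  (1) `u = 1 ∈ ⋀^0` (HDC.DEG (8)), `z = pq (q1 m) 1 * z`.  (2) `u ∈ ⋀^(m+1) (VV m)` is `0` (HDC.DEG (5)).
(3) `span_induction`: `(pq u * y) * z = pq u * (y * z)`.
(4) `D (X0 χ) z = io (fderiv (χ ∘ q1) z) = io (fderiv χ (q1 z) ∘ q1) = pq (q1 m) (io (fderiv χ (q1 z)))` (HDC.DDZ (2), PQA (1)), and
`io α * u ∈ ⋀^(j+1)`.
(5) `q1 m v = 0`: `ctr v (pq (q1 m) u) = pq (q1 m) (ctr (q1 m v) u) = 0` (PQA (4), HDC.ALG: `ctr 0 = 0`), so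
`ctr v (pq u * y) = inv (pq u) * ctr v y = pq ((-1)^j • u) * ctr v y` (HDC.ALG (2), PQA (5), HDC.DEG (1)).
(6) `pq T (pq (q1 m) u * y) = pq (q1 m ∘ T) u * pq T y = pq (A ∘ q1 m) u * pq T y = pq (q1 m) (pq A u) * pq T y` (PQA (2), (6)). -/
def Stmt_FLT : Prop := ∀ m : ℕ,
  (∀ z : Lam (m + m), z ∈ Bf m 0) ∧ (∀ z : Lam (m + m), z ∈ Bf m (m + 1) → z = 0) ∧
  (∀ (j : ℕ) (z y : Lam (m + m)), z ∈ Bf m j → z * y ∈ Bf m j) ∧
  (∀ (j : ℕ) (χ : EE m → ℝ) (z : EE (m + m)) (y : Lam (m + m)), ContDiff ℝ ∞ χ → y ∈ Bf m j →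
    D (X0 χ) z * y ∈ Bf m (j + 1)) ∧
  (∀ (j : ℕ) (v : EE (m + m)) (y : Lam (m + m)), q1 m v = 0 → y ∈ Bf m j → ctr v y ∈ Bf m j) ∧
  ∀ (j : ℕ) (T : EE (m + m) →L[ℝ] EE (m + m)) (A : EE m →L[ℝ] EE m) (y : Lam (m + m)),
    (q1 m).comp T = A.comp (q1 m) → y ∈ Bf m j → pq T y ∈ Bf m j

/-- BLOCK PZO (uses PQA, PFA, CAS, CAR, PGA, FLT): the homotopy operator.
PROOF.  `FF m s z = (1 - s) • rr m z + s • z` is smooth on `ℝ × EE (m + m)`: `SmC univ (FF m)`.  `dC (FF m) s z = z - rr m z`, so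
`q1 m (dC ..) = 0` (`q1_rr`); `fderiv ℝ (FF m s) z = T s`, the linear map `(1 - s) • rr m + s • id`, with `(q1 m).comp (T s) = q1 m` (`q1_FF`).
(1) CAS (2) and HDE.PSM (1) with `U = univ` at `q.1 = 1` (compose with `z ↦ (1, z)`); degree: `bq ∈ ⋀^k` (PGA (2)), the integral stays in the closed
submodule (compose with a linear projection, or as in `he/B_PRM.lean`).
(2) for fixed `z`: `s ↦ wq (FF m) w s z` is continuous on `[0, 1]` (CAS (1)), with the derivative `bq (FF m) (D w) s z + D (bq (FF m) w s) z` on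
`(0, 1)` (CAR (2)), continuous on `[0, 1]`: `intervalIntegral.integral_eq_sub_of_hasDerivAt_of_le`.  `wq .. 1 z = w z` (`FF_one`, PFA (3)),
`wq .. 0 z = pf (rr m) w z` (`FF_zero`).  `D (P0 w) z = ∫ s in 0..1, D (bq (FF m) w s) z`: HDE.PSM (2), `D` is a finite sum of continuous linear
maps of `fderiv` (as in `he/B_PRM.lean`).
(3) `dC (FF m) s (dd x) = dd x - rr (dd x) = 0`, `ctr 0 _ = 0`.
(4) `w (FF m s z) ∈ Bf m j`; FLT (5) (`q1 m (dC ..) = 0`) and FLT (6) (`A = id`); integral in the closed (finite dimensional) submodule. -/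
def Stmt_PZO : Prop := ∀ (m : ℕ) (w : EE (m + m) → Lam (m + m)),
  (∀ k : ℕ, Fr (k + 1) w → Fr k (P0 w)) ∧
  (ContDiff ℝ ∞ w → ∀ z, D (P0 w) z + P0 (D w) z = w z - pf (rr m) w z) ∧
  (∀ x : EE m, P0 w (dd m x) = 0) ∧
  ∀ j : ℕ, ContDiff ℝ ∞ w → (∀ z, w z ∈ Bf m j) → ∀ z, P0 w z ∈ Bf m j

/-- BLOCK CHF (uses nothing): a function with locally finite translates.
PROOF.  For `i : ℕ` let `B i = closedBall 0 (i - 1/2)` (empty for `i = 0`), `A i = ⋃ γ, ρ γ ⁻¹' B i` and `O i = ball 0 (i + 1) \ A i`.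
`A i` is closed: the family `ρ γ ⁻¹' B i` is locally finite (only the finitely many `γ` of `Act.fin` with `R = max (‖x‖ + 1) (i + 1)` meet
`ball x 1`) and each is closed (`LocallyFinite.isClosed_iUnion`).  So `O i` is open: `IsOpen.exists_contDiff_support_eq` (for `n = ⊤`) gives
`f i : EE m → ℝ` smooth, `0 ≤ f i`, `support (f i) = O i`.
If `‖x‖ ≤ R` and `f i (ρ γ x) ≠ 0` then `ρ γ x ∉ A i`, so `x ∉ B i` (`ρ γ⁻¹ (ρ γ x) = x`), hence `i - 1/2 < R`; and `‖ρ γ x‖ < i + 1 ≤ R + 2`.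
`h x = ∑ᶠ i, f i x`: for `‖x‖ < R` only the `i ≤ R + 1` contribute (take `γ = 1`), so `h` is smooth (near `x` a finite sum: `contDiff_finsum`, or
`ContDiffAt.congr_of_eventuallyEq` with `∑ i ∈ range ..`), `0 ≤ h`.  (3): if `‖x‖ ≤ R`, `h (ρ γ x) ≠ 0` then some `f i (ρ γ x) ≠ 0`, so `‖ρ γ x‖ ≤ R + 2`: `Act.fin (R + 2)`
(for `R ≥ 0`; otherwise the set is empty).
(4): let `i` be the least number such that some `γ` has `‖ρ γ x‖ < i + 1` (exists for `γ = 1`); then `ρ γ x ∉ A i`: otherwise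
`‖ρ (δ γ) x‖ ≤ i - 1/2 < i` for some `δ`, so `i ≥ 1` and `i - 1` would do.  So `f i (ρ γ x) > 0` and `h (ρ γ x) ≥ f i (ρ γ x)`. -/
def Stmt_CHF : Prop := ∀ (Γ : Type) [Group Γ] (m : ℕ) (ρ : Γ → EE m → EE m), Act ρ →
  ∃ h : EE m → ℝ, ContDiff ℝ ∞ h ∧ (∀ x, 0 ≤ h x) ∧
    (∀ R : ℝ, {γ : Γ | ∃ x, ‖x‖ ≤ R ∧ h (ρ γ x) ≠ 0}.Finite) ∧ ∀ x, ∃ γ, 0 < h (ρ γ x)

/-- BLOCK CHI (uses CHF): the partition function.
PROOF.  `h` from CHF.  `F x = ∑ᶠ γ, h (ρ γ x)`: on `ball x0 1` it is the finite sum over `T = {γ | ∃ x, ‖x‖ ≤ ‖x0‖ + 1 ∧ h (ρ γ x) ≠ 0}`, so `F` is smooth;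
`F x > 0` (CHF (4), all terms `≥ 0`); `F (ρ δ x) = F x` (`Act.mul`, reindex with `Equiv.mulRight δ`: `finsum_comp_equiv`).
`χ = h / F` is smooth.  `S = closure (Function.support h)`; `χ x = 0` for `x ∉ S`.  `Lf ρ S`: for `x0` let `W = ball x0 1`; if `y ∈ W` and
`ρ γ y ∈ closure (support h)` then `ρ γ '' W = ρ γ⁻¹ ⁻¹' W` is an open neighbourhood of `ρ γ y`, so it contains some `ρ γ y'`, `y' ∈ W`, with
`h (ρ γ y') ≠ 0`: `γ` is in the finite set of CHF (3) for `R = ‖x0‖ + 1`.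
`∑ᶠ γ, χ (ρ γ x) = ∑ᶠ γ, h (ρ γ x) / F x = F x / F x = 1` (`finsum_mul` or a finite sum). -/
def Stmt_CHI : Prop := ∀ (Γ : Type) [Group Γ] (m : ℕ) (ρ : Γ → EE m → EE m), Act ρ →
  ∃ (S : Set (EE m)) (χ : EE m → ℝ), Chi ρ S χ

/-- BLOCK R2A (uses PFA): the diagonal action.
PROOF.  (1) `r2 ρ γ z = pr (ρ γ (q1 z)) (ρ γ (q2 z))` (`contDiff_pr`).  (2) `ext_q`, `q1_r2`, `q2_r2`, `Act.mul`.  (3) `Act.one`, `pr_q`.
(4) `fderiv` of `q1 m ∘ r2 ρ γ = ρ γ ∘ q1 m`: chain rule, `q1 m` is linear.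
(5) (2) and PFA (2), PFA (3) for `γ⁻¹`. -/
def Stmt_R2A : Prop := ∀ (Γ : Type) [Group Γ] (m : ℕ) (ρ : Γ → EE m → EE m), Act ρ →
  (∀ γ, ContDiff ℝ ∞ (r2 ρ γ)) ∧
  (∀ γ δ z, r2 ρ (γ * δ) z = r2 ρ γ (r2 ρ δ z)) ∧ (∀ z, r2 ρ (1 : Γ) z = z) ∧
  (∀ γ z, (q1 m).comp (fderiv ℝ (r2 ρ γ) z) = (fderiv ℝ (ρ γ) (q1 m z)).comp (q1 m)) ∧
  ∀ (γ δ : Γ) (w : EE (m + m) → Lam (m + m)),
    pf (r2 ρ δ) (pf (r2 ρ γ) w) = pf (r2 ρ (γ * δ)) w

/-- BLOCK AVG (uses PFA, FRA, R2A): averages are smooth.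
PROOF.  `w z = 0` if `q1 m z ∉ S`.  Near `z0` (`q1 m z ∈ W`, `W` from `Lf.lf` for `q1 m z0`, continuity of `q1 m`) only the `γ` in the finite set
`T = {γ | ∃ y ∈ W, ρ γ y ∈ S}` contribute (`pf (r2 ρ γ) w z = pq _ (w (r2 ρ γ z)) = 0` if `ρ γ (q1 m z) ∉ S`, `q1_r2`):
`Av ρ w z = ∑ γ ∈ T.toFinset, pf (r2 ρ γ) w z` near `z0` (`finsum_eq_sum_of_support_subset`).
(1) PFA (4), finite sums; `ContDiffAt` is local (`contDiff_iff_contDiffAt`); the degree: submodule.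
(2) `D` of the finite sum near `z0` (`Filter.EventuallyEq.fderiv_eq`, `fderiv_fun_sum`), PFA (5); `Av ρ (D w) z0` is the finite sum over the same `T` by (3).
(3) the complement of `S` is open, so `w = 0` near `z` and `D w z = 0`. -/
def Stmt_AVG : Prop := ∀ (Γ : Type) [Group Γ] (m : ℕ) (ρ : Γ → EE m → EE m) (S : Set (EE m)),
  Act ρ → Lf ρ S →
  ∀ (k : ℕ) (w : EE (m + m) → Lam (m + m)), Fr k w → (∀ z, q1 m z ∉ S → w z = 0) →
    Fr k (Av ρ w) ∧ D (Av ρ w) = Av ρ (D w) ∧ ∀ z, q1 m z ∉ S → D w z = 0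

/-- BLOCK AVI (uses PQA, FLT, R2A): algebraic properties of the average.
PROOF.  Finite support: `{γ | pf (r2 ρ γ) w z ≠ 0} ⊆ {γ | ρ γ (q1 m z) ∈ S}` is finite (`Lf.lf`, `q1_r2`).
(1) `pf (r2 ρ δ) (Av ρ w) z = pq A (∑ᶠ γ, pf (r2 ρ γ) w (r2 ρ δ z))`, `A = fderiv (r2 ρ δ) z`; `pq A` is additive and the support is finite
(`AddMonoidHom.map_finsum`), `= ∑ᶠ γ, pf (r2 ρ (γ * δ)) w z` (R2A (5) at the point `z`), reindex with `Equiv.mulRight δ` (`finsum_comp_equiv`).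
(2) `finsum_add_distrib` (finite supports; `pf` is additive: `map_add`).  (3) `r2_dd`: each term is `pq _ (w (dd m (ρ γ x))) = 0`.
(4) each term is in `Bf m j` (FLT (6), R2A (4)); `finsum_mem_induction`, or: `finsum` is a finite sum or `0`.
(5) `pf (r2 ρ γ) (X0 χ * θ) z = algebraMap (χ (ρ γ (q1 m z))) * pf (r2 ρ γ) θ z = χ (ρ γ (q1 m z)) • θ z` (`AlgHom.commutes`, `Iv`), so the sum is
`(∑ᶠ γ, χ (ρ γ (q1 m z))) • θ z = θ z` (`finsum_smul` with finite support). -/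
def Stmt_AVI : Prop := ∀ (Γ : Type) [Group Γ] (m : ℕ) (ρ : Γ → EE m → EE m) (S : Set (EE m)),
  Act ρ → Lf ρ S →
  (∀ w : EE (m + m) → Lam (m + m), (∀ z, q1 m z ∉ S → w z = 0) → Iv (r2 ρ) (Av ρ w)) ∧
  (∀ w w' : EE (m + m) → Lam (m + m), (∀ z, q1 m z ∉ S → w z = 0) →
    (∀ z, q1 m z ∉ S → w' z = 0) → Av ρ (w + w') = Av ρ w + Av ρ w') ∧
  (∀ w : EE (m + m) → Lam (m + m), (∀ x, w (dd m x) = 0) → ∀ x, Av ρ w (dd m x) = 0) ∧
  (∀ (j : ℕ) (w : EE (m + m) → Lam (m + m)), (∀ z, w z ∈ Bf m j) → ∀ z, Av ρ w z ∈ Bf m j) ∧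
  ∀ (χ : EE m → ℝ) (θ : EE (m + m) → Lam (m + m)), Chi ρ S χ → Iv (r2 ρ) θ →
    Av ρ (X0 χ * θ) = θ

/-- BLOCK STP (uses PFA, FRA, FLT, PZO, CHI, AVG, AVI): one step.
PROOF.  `χ`, `S` from CHI.  `X0 χ` is a smooth form of degree `0` (`q1 m` is linear), `X0 χ z = 0` and `D (X0 χ) z = 0` for `q1 m z ∉ S` (AVG (3)).
`β = Av ρ (X0 χ * P0 w)`, `w' = - Av ρ (D (X0 χ) * P0 w)`.
`D β = Av ρ (D (X0 χ * P0 w))` (AVG (2)), `D (X0 χ * P0 w) = D (X0 χ) * P0 w + X0 χ * D (P0 w)` (FRA (4), `k = 0`) and by PZO (2)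
`D (P0 w) = w - pf (rr m) w - P0 (D w) = w` (`D w = 0`, `P0 0 = 0`: the integrand is `pq _ (ctr _ 0) = 0`).  AVI (2), (5):
`D β = - w' + Av ρ (X0 χ * w) = - w' + w`.
Degrees: PZO (1), FRA (1) (`0 + k = k`, `0 + 1 + k = k + 1`), AVG (1).  `D w' = D w - D (D β) = 0` (FRA (4), (3)).
Invariance: AVI (1) and `pf` is additive (PFA (1)).  Vanishing on the diagonal: PZO (3) and AVI (3).
`w' z ∈ Bf m (j + 1)`: PZO (4), FLT (4), AVI (4), submodule. -/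
def Stmt_STP : Prop := ∀ (Γ : Type) [Group Γ] (m k j : ℕ) (ρ : Γ → EE m → EE m)
  (w : EE (m + m) → Lam (m + m)), Act ρ → Fr (k + 1) w → D w = 0 → Iv (r2 ρ) w →
  pf (rr m) w = 0 → (∀ z, w z ∈ Bf m j) →
  ∃ β w' : EE (m + m) → Lam (m + m), Fr k β ∧ Iv (r2 ρ) β ∧ (∀ x, β (dd m x) = 0) ∧
    Fr (k + 1) w' ∧ D w' = 0 ∧ Iv (r2 ρ) w' ∧ (∀ x, w' (dd m x) = 0) ∧
    (∀ z, w' z ∈ Bf m (j + 1)) ∧ w = D β + w'

/-- BLOCK REL (uses PFA, FRA, FLT, STP): the relative Poincare lemma.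
PROOF.  Claim for all `j`: there are `β_j` (degree `k`, invariant, zero on the diagonal) and `w_j` (degree `k + 1`, closed, invariant,
`pf (rr m) w_j = 0`, values in `Bf m j`) with `w = D β_j + w_j`.  `j = 0`: `β = 0`, `w_0 = w` (FLT (1)).  Step: STP for `w_j`; `β_(j+1) = β_j + β`
(FRA (2), (4), PFA (1) for the invariance), `w_(j+1) = w'`, `pf (rr m) w' z = pq _ (w' (rr m z)) = pq _ (w' (dd m (q1 m z))) = 0`.
At `j = m + 1`: `w_j = 0` (FLT (2)). -/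
def Stmt_REL : Prop := ∀ (Γ : Type) [Group Γ] (m k : ℕ) (ρ : Γ → EE m → EE m)
  (w : EE (m + m) → Lam (m + m)), Act ρ → Fr (k + 1) w → D w = 0 → Iv (r2 ρ) w →
  pf (rr m) w = 0 →
  ∃ β : EE (m + m) → Lam (m + m), Fr k β ∧ Iv (r2 ρ) β ∧ (∀ x, β (dd m x) = 0) ∧ D β = w

/-- BLOCK EUC (uses PFA, FRA, ALH, R2A, REL): the forms `κ` and `ξ` on `ℝ^m × ℝ^m`.
PROOF.  `s1 = pf (q1 m) σ`, `s2 = pf (q2 m) σ`: smooth of degree `2` (PFA (4)), closed (PFA (5)), invariant: `pf (r2 ρ γ) (pf (q1 m) σ) =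
pf (q1 m ∘ r2 ρ γ) σ = pf (ρ γ ∘ q1 m) σ = pf (q1 m) (pf (ρ γ) σ) = s1` (PFA (2), `q1_r2`); the same for `η`: `e1`, `e2`, and
`D e1 = s1 ^ (n+1)` (PFA (5), (1)).  `pf (rr m) s2 = pf (q2 m ∘ rr m) σ = pf (q1 m) σ = pf (rr m) s1` (`q2_rr`, `q1_rr`), the same for `η`.
`κ`: REL (`k = 1`) for `s2 - s1`.
`ξ`: REL (`k = 2 n`) for `w = κ * h2 n s1 s2 - (e2 - e1)`: degree `1 + 2 n` (FRA (5)), invariant (PFA (1), `map_h2`), closed:
`D (κ * h2 n s1 s2) = (s2 - s1) * h2 n s1 s2 - κ * 0 = s2 ^ (n+1) - s1 ^ (n+1)` (FRA (4), (5), ALH (1) pointwise or in the ring of forms; `s1 s2 = s2 s1` by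
HDC.CPW (1)).  `pf (rr m) w = 0`: `pf (rr m) κ z = pq _ (κ (dd m (q1 m z))) = 0` and `pf (rr m) e2 = pf (rr m) e1`. -/
def Stmt_EUC : Prop := ∀ (Γ : Type) [Group Γ] (m n : ℕ) (ρ : Γ → EE m → EE m)
  (σ η : EE m → Lam m), Act ρ → Fr 2 σ → D σ = 0 → Iv ρ σ → Fr (2 * n + 1) η →
  D η = σ ^ (n + 1) → Iv ρ η →
  ∃ κ ξ : EE (m + m) → Lam (m + m), Fr 1 κ ∧ Fr (2 * n) ξ ∧ Iv (r2 ρ) κ ∧ Iv (r2 ρ) ξ ∧
    (∀ x, κ (dd m x) = 0) ∧ (∀ x, ξ (dd m x) = 0) ∧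
    D κ = pf (q2 m) σ - pf (q1 m) σ ∧
    D ξ = κ * h2 n (pf (q1 m) σ) (pf (q2 m) σ) - (pf (q2 m) η - pf (q1 m) η)

/-! ## D. Covering spaces -/

/-- BLOCK LSX (uses nothing): local sections.
PROOF.  `hq.isCoveringMap` (`IsQuotientCoveringMap.isCoveringMap`), `IsCoveringMap.isLocalHomeomorph`.
(1) `q` is surjective (`hq.toIsQuotientMap.surjective`).  (2) an open partial homeomorphism `h` with `e ∈ h.source`, `q = h` (`IsLocalHomeomorph`);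
`U = c.target ∩ c.symm ⁻¹' h.target` is open (`c.isOpen_inter_preimage_symm`), `s = h.symm ∘ c.symm`.
(3) `h` as in (2) for `e = f x`: `f y`, `f' y ∈ h.source` for `y` near `x` in `S`, and `h` is injective on its source. -/
def Stmt_LSX : Prop := ∀ (M E Γ : Type) [TopologicalSpace M] [TopologicalSpace E] [Group Γ]
  [MulAction Γ E] (q : E → M), IsQuotientCoveringMap q Γ →
  (∀ p : M, ∃ e, q e = p) ∧
  (∀ (N : ℕ) (c : OpenPartialHomeomorph M (EE N)), ∀ x ∈ c.target, ∀ e : E, q e = c.symm x →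
    ∃ (U : Set (EE N)) (s : EE N → E), LSec q c U s ∧ x ∈ U ∧ s x = e) ∧
  ∀ (P : Type) [TopologicalSpace P] (f f' : P → E) (S : Set P) (x : P),
    ContinuousWithinAt f S x → ContinuousWithinAt f' S x → f x = f' x →
    (∀ᶠ y in 𝓝[S] x, q (f y) = q (f' y)) → ∀ᶠ y in 𝓝[S] x, f y = f' y

/-- BLOCK LSU (uses LSX): two local sections differ by an element of the group.
PROOF.  `q (s' x) = c.symm x = q (s x)`, so `s' x = γ • s x` (`hq.apply_eq_iff_mem_orbit`, `MulAction.mem_orbit_iff`).  LSX (3) with `P = EE N`,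
`S = univ` (`continuousWithinAt_univ`, `nhdsWithin_univ`), `f = s'`, `f' y = γ • s y` (continuous: `hq.toContinuousConstSMul`), `q (γ • s y) = q (s y) = c.symm y`
(`hq.map_smul`). -/
def Stmt_LSU : Prop := ∀ (N : ℕ) (M E Γ : Type) [TopologicalSpace M] [TopologicalSpace E]
  [Group Γ] [MulAction Γ E] (q : E → M), IsQuotientCoveringMap q Γ →
  ∀ (c : OpenPartialHomeomorph M (EE N)) (U U' : Set (EE N)) (s s' : EE N → E), LSec q c U s →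
  LSec q c U' s' → ∀ x ∈ U, x ∈ U' → ∃ γ : Γ, ∀ᶠ y in 𝓝 x, s' y = γ • s y

/-- BLOCK LFT (uses nothing): the lift of an isotopy.
PROOF.  `cov = hq.isCoveringMap`.  `unitInterval = Icc 0 1`.  `H : C(unitInterval × E, M)`, `H (t, e) = Φ t (q e)` (continuous:
`ContinuousOn.comp_continuous`), `H (0, e) = q e`.  `L = cov.liftHomotopy H (ContinuousMap.id E) _ : C(unitInterval × E, E)` with `q ∘ L = H` (`liftHomotopy_lifts`),
`L (0, e) = e` (`liftHomotopy_zero`).  `Ψ t e = L (projIcc 0 1 _ t, e)` (continuous in `(t, e)`).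
`eqv`: for fixed `γ`, `e` the curves `t ↦ L (t, γ • e)` and `t ↦ γ • L (t, e)` on `unitInterval` are continuous, have the same projection
`Φ t (q e)` (`hq.map_smul`) and agree at `0`: `cov.eq_of_comp_eq` (connected domain; see `IsCoveringMap.eq_of_comp_eq` and its use in
Mathlib `Topology/Homotopy/Lifting.lean`).  `fx`: the same with the constant curve `e`. -/
def Stmt_LFT : Prop := ∀ (M E Γ : Type) [TopologicalSpace M] [TopologicalSpace E] [Group Γ]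
  [MulAction Γ E] (q : E → M) (Φ : ℝ → M → M), IsQuotientCoveringMap q Γ →
  ContinuousOn (fun p : ℝ × M => Φ p.1 p.2) (Icc 0 1 ×ˢ univ) → (∀ p, Φ 0 p = p) →
  ∃ Ψ : ℝ → E → E, Lft Γ q Φ Ψ

/-- BLOCK LFE (uses nothing): the lifts of two isotopies with the same time one map have the same time one map.
PROOF.  Let `e : E`, `p = q e`.  There is `p' ∉ K` in `connectedComponent p` (otherwise the closed set `connectedComponent p ⊆ K` is compact, against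
`NoC M`).  `M` is locally path connected (`ChartedSpace.locPathConnectedSpace (EE N) M`), so `p'` is joined to `p` by a path
(`pathComponent_eq_connectedComponent` or `JoinedIn`): `τ : C(unitInterval, M)`, `τ 0 = p`, `τ 1 = p'`.  Lift: `T = cov.liftPath τ e _`, `q (T u) = τ u`, `T 0 = e`.
The maps `u ↦ Ψ 1 (T u)`, `u ↦ Ψ' 1 (T u)` are continuous (`Lft.ct` at `t = 1`) and cover `Φ 1 (τ u) = Φ' 1 (τ u)`; at `u = 1` both are `T 1`
(`Lft.fx`, `τ 1 ∉ K`).  `IsCoveringMap.eq_of_comp_eq` (connected domain): they agree at `u = 0`. -/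
def Stmt_LFE : Prop := ∀ (N : ℕ) (M E Γ : Type) [TopologicalSpace M] [T2Space M]
  [ChartedSpace (EE N) M] [TopologicalSpace E] [Group Γ] [MulAction Γ E] (q : E → M)
  (Φ Φ' : ℝ → M → M) (Ψ Ψ' : ℝ → E → E) (K : Set M), NoC M → IsQuotientCoveringMap q Γ →
  IsCompact K → (∀ t ∈ Icc (0 : ℝ) 1, ∀ p ∉ K, Φ t p = p) →
  (∀ t ∈ Icc (0 : ℝ) 1, ∀ p ∉ K, Φ' t p = p) → Φ 1 = Φ' 1 → Lft Γ q Φ Ψ → Lft Γ q Φ' Ψ' →
  ∀ e, Ψ 1 e = Ψ' 1 e

/-- BLOCK EMG (uses LSX): the family `g ∘ Ψ`.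
PROOF.  (1) Equivariance: `Lft.eqv`, `Gm.eqv`.  Smooth at `(t0, x0) ∈ Icc 0 1 ×ˢ U` for a section `s` over `U` in the chart `c`: `p1 = Φ t0 (c.symm x0)`,
`e1 = Ψ t0 (s x0)`, `q e1 = p1`, `c' = chartAt p1`, `U'`, `s'` from LSX (2) for `c'`, `c' p1`, `e1`.  Let `φ (t, y) = c' (Φ t (c.symm y))`, smooth on `SS Φ c c'`
(HDC.PHL), which is a neighbourhood of `(t0, x0)` in `Icc 0 1 ×ˢ U`; there `φ (t, y) ∈ U'` near `(t0, x0)`, and `Ψ t (s y) = s' (φ (t, y))` near `(t0, x0)`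
within `Icc 0 1 ×ˢ U` by LSX (3) (both are continuous within, equal at `(t0, x0)`, with the projection `Φ t (c.symm y)`: `c'.left_inv`).
So `g (Ψ t (s y)) = (g ∘ s') (φ (t, y))` near `(t0, x0)`, a composition of smooth maps (`Gm.sm`; `ContDiffWithinAt.comp`, `.congr_of_eventuallyEq`).
(2) `contDiff_pr`, `r2_pr`. -/
def Stmt_EMG : Prop := ∀ (N m : ℕ) (M E Γ : Type) [TopologicalSpace M] [ChartedSpace (EE N) M]
  [IsManifold 𝓘(ℝ, EE N) ∞ M] [TopologicalSpace E] [Group Γ] [MulAction Γ E] (q : E → M)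
  (ρ : Γ → EE m → EE m), IsQuotientCoveringMap q Γ →
  (∀ (g : E → EE m) (Φ : ℝ → M → M) (Ψ : ℝ → E → E), Gm N q ρ g → SmI N Φ → Lft Γ q Φ Ψ →
    EM N q ρ (fun t e => g (Ψ t e))) ∧
  ∀ G G' : ℝ → E → EE m, EM N q ρ G → EM N q ρ G' →
    EM N q (r2 ρ) (fun t e => pr (G t e) (G' t e))

/-! ## E. Pullbacks of invariant forms to `[0, 1] × M` -/

/-- BLOCK PLV (uses PGA, LSU): the value of `Pl`.
PROOF.  The condition in `Pl` holds; let `v = PG (fun u y => G u (s' y)) θ t x` with a section `s'` over `U' ∋ x` be the chosen value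
(`Exists.choose_spec`).  LSU: `s' y = γ • s y` near `x`, so `G u (s' y) = ρ γ (G u (s y))` near `x` for `u ∈ Icc 0 1` (`EM.eqv`): PGA (5) gives
`v = PG (fun u y => ρ γ (G u (s y))) θ t x`, PGA (3) `= PG (fun u y => G u (s y)) (pf (ρ γ) θ) t x`, and `pf (ρ γ) θ = θ`. -/
def Stmt_PLV : Prop := ∀ (N m : ℕ) (M E Γ : Type) [TopologicalSpace M] [ChartedSpace (EE N) M]
  [TopologicalSpace E] [Group Γ] [MulAction Γ E] (q : E → M) (ρ : Γ → EE m → EE m)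
  (G : ℝ → E → EE m) (θ : EE m → Lam m), IsQuotientCoveringMap q Γ →
  (∀ γ, ContDiff ℝ ∞ (ρ γ)) → EM N q ρ G → Iv ρ θ → ∀ t ∈ Icc (0 : ℝ) 1,
  ∀ c ∈ atlas (EE N) M, ∀ (U : Set (EE N)) (s : EE N → E), LSec q c U s → ∀ x ∈ U,
  Pl q G θ t c x = PG (fun u y => G u (s y)) θ t x

/-- BLOCK PLF (uses PQA, CAS, PGA, LSX, PLV): `Pl` gives smooth forms.
PROOF.  Write `C u y = G u (s y)` for a section `s` over `U` (LSX (1), (2): every `x ∈ c.target` is in such a `U`), `SmC U C` (`EM.sm`); on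
`Icc 0 1 ×ˢ U` `Pl q G θ t c y = PG C θ t y` (PLV).  Smoothness on `Icc 0 1 ×ˢ c.target` is local: CAS.  For fixed `t`: compose with `y ↦ (t, y)`.
Degree: PGA (2) (`Hg`); `k = 0`: the second component is `0`.
Compatibility for charts `c`, `c2` of the atlas at `x ∈ c.target`, `x2 = c2 (c.symm x)`: let `s2` be a section over `U2 ∋ x2` in the chart `c2`; with
`ψ y = c2 (c.symm y)` (HDC.TRN: smooth near `x`) `s2 ∘ ψ` is a section in the chart `c` over the open set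
`{y | y ∈ c.target ∧ c.symm y ∈ c2.source ∧ ψ y ∈ U2}`; PLV for it and PGA (4): the components are `pq (fderiv ψ x) (..)` of those at `x2`; `pq = pb` (PQA (7)). -/
def Stmt_PLF : Prop := ∀ (N m : ℕ) (M E Γ : Type) [TopologicalSpace M] [ChartedSpace (EE N) M]
  [IsManifold 𝓘(ℝ, EE N) ∞ M] [TopologicalSpace E] [Group Γ] [MulAction Γ E] (q : E → M)
  (ρ : Γ → EE m → EE m) (G : ℝ → E → EE m) (k : ℕ) (θ : EE m → Lam m),
  IsQuotientCoveringMap q Γ → (∀ γ, ContDiff ℝ ∞ (ρ γ)) → EM N q ρ G → Iv ρ θ → Fr k θ →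
  DFm k (Pl (N := N) q G θ)

/-- BLOCK PLD (uses PFA, CAR, LSX, PLV): `Pl` commutes with `d`.
PROOF.  `D θ` is invariant: `pf (ρ γ) (D θ) = D (pf (ρ γ) θ) = D θ` (PFA (5)).  For `x ∈ c.target` let `s` be a section over `U ∋ x` (LSX (1), (2)) and
`C u y = G u (s y)`.  `d0`: near `x` the first component of `Pl q G θ t c y` is `wq C θ t y` (PLV), CAR (1) (`Filter.EventuallyEq.fderiv_eq`).
`d1`: for `u` near `t ∈ Ioo 0 1` the first component at `x` is `wq C θ u x`, and near `x` the second component is `bq C θ t y`: CAR (2). -/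
def Stmt_PLD : Prop := ∀ (N m : ℕ) (M E Γ : Type) [TopologicalSpace M] [ChartedSpace (EE N) M]
  [IsManifold 𝓘(ℝ, EE N) ∞ M] [TopologicalSpace E] [Group Γ] [MulAction Γ E] (q : E → M)
  (ρ : Γ → EE m → EE m) (G : ℝ → E → EE m) (θ : EE m → Lam m),
  IsQuotientCoveringMap q Γ → (∀ γ, ContDiff ℝ ∞ (ρ γ)) → EM N q ρ G → Iv ρ θ →
  ContDiff ℝ ∞ θ → DD (Pl (N := N) q G θ) (Pl q G (D θ))

/-- BLOCK PLM (uses PGA, LSX, PLV): `Pl` is a homomorphism at each point.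
PROOF.  A section `s` over `U ∋ x` (LSX (1), (2)), PLV, and PGA (1) composed with the evaluation at `t`, `x` (`Pi.evalAlgHom` twice). -/
def Stmt_PLM : Prop := ∀ (N m : ℕ) (M E Γ : Type) [TopologicalSpace M] [ChartedSpace (EE N) M]
  [TopologicalSpace E] [Group Γ] [MulAction Γ E] (q : E → M) (ρ : Γ → EE m → EE m)
  (G : ℝ → E → EE m), IsQuotientCoveringMap q Γ → (∀ γ, ContDiff ℝ ∞ (ρ γ)) → EM N q ρ G →
  ∀ t ∈ Icc (0 : ℝ) 1, ∀ c ∈ atlas (EE N) M, ∀ x ∈ c.target,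
  ∃ F : (EE m → Lam m) →ₐ[ℝ] PL N, ∀ θ, Iv ρ θ → Pl q G θ t c x = F θ

/-- BLOCK PLH (uses PFA, PGA, LSX, PLV): composition with an equivariant map.
PROOF.  (1) `ContDiff.comp_contDiffOn`.  (2) `pf (ρ γ) (pf h θ) = pf (h ∘ ρ γ) θ = pf (ρ' γ ∘ h) θ = pf h (pf (ρ' γ) θ) = pf h θ` (PFA (2)).
(3) a section (LSX), PLV for both sides, PGA (3). -/
def Stmt_PLH : Prop := ∀ (N a b : ℕ) (M E Γ : Type) [TopologicalSpace M]
  [ChartedSpace (EE N) M] [TopologicalSpace E] [Group Γ] [MulAction Γ E] (q : E → M)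
  (ρ : Γ → EE a → EE a) (ρ' : Γ → EE b → EE b) (h : EE a → EE b) (G : ℝ → E → EE a),
  IsQuotientCoveringMap q Γ → (∀ γ, ContDiff ℝ ∞ (ρ γ)) → (∀ γ, ContDiff ℝ ∞ (ρ' γ)) →
  ContDiff ℝ ∞ h → (∀ γ x, h (ρ γ x) = ρ' γ (h x)) → EM N q ρ G →
  EM N q ρ' (fun t e => h (G t e)) ∧ ∀ θ : EE b → Lam b, Iv ρ' θ →
    Iv ρ (pf h θ) ∧ EqP (Pl (N := N) (M := M) q (fun t e => h (G t e)) θ) (Pl q G (pf h θ))

/-- BLOCK GSP (uses PQA, PGA, LSX, EMG, PLV): the pullback of `w = g^* θ` by the isotopy.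
PROOF.  At `(t, c, x)` of the region: `s` a section in `c` over `U ∋ x`, `p1 = Φ t (c.symm x)`, `e1 = Ψ t (s x)`, `c' = chartAt p1`, `s'` a section in `c'` over
`U' ∋ c' p1` with `s' (c' p1) = e1` (LSX (2)).  `φ u y = c' (Φ u (c.symm y))`.  As in EMG: `g (Ψ t (s y)) = (g ∘ s') (φ t y)` for `y` near `x`, and
`g (Ψ u (s x)) = (g ∘ s') (φ u x)` for `u` near `t` in `Icc 0 1` (LSX (3)).  `A = fderiv (φ t) x`, `B = fderiv (g ∘ s') (c' p1)`, `V = XX Ω H t c' (c' p1)`.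
By `Flw.ode` (HDC.XHS (3)) `u ↦ φ u x` has the derivative `V` at `t` within `Icc 0 1`; so the velocity of `u ↦ g (Ψ u (s x))` is `B V`, and
`fderiv (g ∘ Ψ t ∘ s) x = B.comp A` (`g ∘ s'` is differentiable at `c' p1`: `Gm.sm`; `φ t` at `x`: HDC.PHL, HDC.PDL (1)).
`GS .. = (pb A (w c' (c' p1)), pb A (ctr V (w c' (c' p1))))` (definition of `PBK`, `cF`), `w c' (c' p1) = pq B (θ (g e1))` (`PB`).  PQA (7), (2), (4):
`pb A (pq B y) = pq (B.comp A) y`, `pb A (ctr V (pq B y)) = pb A (pq B (ctr (B V) y)) = pq (B.comp A) (ctr (B V) y)`.  These are the components of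
`PG (fun u y => g (Ψ u (s y))) θ t x = Pl .. t c x` (PLV with EMG (1)). -/
def Stmt_GSP : Prop := ∀ (n m : ℕ) (M E Γ : Type) [TopologicalSpace M]
  [ChartedSpace (EE (2 * n)) M] [IsManifold 𝓘(ℝ, EE (2 * n)) ∞ M] [TopologicalSpace E]
  [Group Γ] [MulAction Γ E] (q : E → M) (ρ : Γ → EE m → EE m) (g : E → EE m)
  (Ω w : Fam (2 * n) M) (H : ℝ → M → ℝ) (Φ : ℝ → M → M) (Ψ : ℝ → E → E) (θ : EE m → Lam m),
  IsQuotientCoveringMap q Γ → (∀ γ, ContDiff ℝ ∞ (ρ γ)) → Gm (2 * n) q ρ g → HS n Ω H Φ →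
  Lft Γ q Φ Ψ → Iv ρ θ → PB q g θ w →
  EqP (GS Ω H Φ w) (Pl q (fun t e => g (Ψ t e)) θ)

/-! ## F. The theorem -/

/-- BLOCK GE1 (uses LSX, LFT, LFE, EMG, PLV, R2A): the map `G`.
PROOF.  `Φ`, `Φ'` are continuous on `Icc 0 1 ×ˢ univ` (HDC.PHL from `HS.iso.smooth`) and fixed off `K` (HDC.OFK (1)).  `Ψ`, `Ψ'` from LFT, `Ψ 1 = Ψ' 1`
(LFE).  `EM`: EMG (1) twice, (2).
`Vn K (Pl q G θ)`: for `x ∈ c.target` a section `s` over `U ∋ x` (LSX (1), (2)), PLV (the maps `r2 ρ γ` are smooth: R2A (1)):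
`Pl q G θ t c x = PG (fun u y => G u (s y)) θ t x`; if `G t (s x) = pr a a = dd m a` then `θ (G t (s x)) = 0`, so both components are `0` (`map_zero`; unfold
`PG`, `wq`, `bq`).  Off `K`: `q (s x) = c.symm x ∉ K`, `Lft.fx`: `Ψ t (s x) = s x = Ψ' t (s x)`.  `t = 0`: `Lft.zero`.  `t = 1`: `Ψ 1 = Ψ' 1`. -/
def Stmt_GE1 : Prop := ∀ (n m : ℕ) (M E Γ : Type) [TopologicalSpace M] [T2Space M]
  [ChartedSpace (EE (2 * n)) M] [IsManifold 𝓘(ℝ, EE (2 * n)) ∞ M] [TopologicalSpace E]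
  [Group Γ] [MulAction Γ E] (q : E → M) (ρ : Γ → EE m → EE m) (g : E → EE m)
  (Ω : Fam (2 * n) M) (H H' : ℝ → M → ℝ) (Φ Φ' : ℝ → M → M) (K : Set M),
  IsQuotientCoveringMap q Γ → Act ρ → Gm (2 * n) q ρ g → NoC M → TwoH n Ω H H' Φ Φ' K →
  ∃ Ψ Ψ' : ℝ → E → E, Lft Γ q Φ Ψ ∧ Lft Γ q Φ' Ψ' ∧
    EM (2 * n) q (r2 ρ) (fun t e => pr (g (Ψ t e)) (g (Ψ' t e))) ∧
    ∀ θ : EE (m + m) → Lam (m + m), Iv (r2 ρ) θ → (∀ x, θ (dd m x) = 0) →
      Vn K (Pl (N := 2 * n) q (fun t e => pr (g (Ψ t e)) (g (Ψ' t e))) θ)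

/-- BLOCK GE2 (uses R2A, EMG, PLH, GSP): the pullbacks of forms from the two factors.
PROOF.  `G t e = pr (g (Ψ t e)) (g (Ψ' t e))`, `EM (2 n) q (r2 ρ) G` (EMG (1), (2); `SmI` is `HS.iso.smooth`).  PLH (2) with `h = q1 m` (`q1_r2`):
`EqP (Pl q (fun t e => q1 m (G t e)) θ) (Pl q G (pf (q1 m) θ))`, and `q1 m (G t e) = g (Ψ t e)` (`q1_pr`), so the left side is `Pl q (fun t e => g (Ψ t e)) θ`, which is
`GS Ω H Φ w` on the region (GSP).  The same for `q2 m`. -/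
def Stmt_GE2 : Prop := ∀ (n m : ℕ) (M E Γ : Type) [TopologicalSpace M]
  [ChartedSpace (EE (2 * n)) M] [IsManifold 𝓘(ℝ, EE (2 * n)) ∞ M] [TopologicalSpace E]
  [Group Γ] [MulAction Γ E] (q : E → M) (ρ : Γ → EE m → EE m) (g : E → EE m)
  (Ω w : Fam (2 * n) M) (H H' : ℝ → M → ℝ) (Φ Φ' : ℝ → M → M) (Ψ Ψ' : ℝ → E → E)
  (θ : EE m → Lam m), IsQuotientCoveringMap q Γ → Act ρ → Gm (2 * n) q ρ g → HS n Ω H Φ →
  HS n Ω H' Φ' → Lft Γ q Φ Ψ → Lft Γ q Φ' Ψ' → Iv ρ θ → PB q g θ w →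
  EqP (Pl q (fun t e => pr (g (Ψ t e)) (g (Ψ' t e))) (pf (q1 m) θ)) (GS Ω H Φ w) ∧
  EqP (Pl q (fun t e => pr (g (Ψ t e)) (g (Ψ' t e))) (pf (q2 m) θ)) (GS Ω H' Φ' w)

/-- BLOCK GEO (uses PQA, PFA, R2A, EUC, PLF, PLD, PLM, GE1, GE2): the forms `c` and `xi` on `[0, 1] × M`.
PROOF.  `Ψ`, `Ψ'`, `G t e = pr (g (Ψ t e)) (g (Ψ' t e))` from GE1; `κ`, `ξ` from EUC; `c = Pl q G κ`, `xi = Pl q G ξ`: `DFm` by PLF, `Vn K` by GE1, `DD` by PLD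
(`r2 ρ γ` is smooth: R2A (1)).
`DD c (Pl q G (D κ))`, `D κ = pf (q2 m) σ - pf (q1 m) σ`.  The forms `pf (q1 m) σ`, .. are invariant under `r2 ρ` (`pf (r2 ρ γ) (pf (q1 m) σ) =
pf (q1 m ∘ r2 ρ γ) σ = pf (ρ γ ∘ q1 m) σ = pf (q1 m) (pf (ρ γ) σ)`: PFA (2), `q1_r2`).  At each point of the region PLM gives a homomorphism `F`; `map_sub`:
`Pl q G (D κ) = Pl q G (pf (q2 m) σ) - Pl q G (pf (q1 m) σ) = GS Ω H' Φ' w - GS Ω H Φ w` (GE2).  HDE.DDA (3).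
`DD xi (Pl q G (D ξ))`: the same with `map_sub`, `map_mul`, `map_h2`, `h2_apply`; and `Pl q G (pf (q1 m) η) = GS Ω H Φ 0` (GE2 with `w = 0`:
`PB q g η 0` because `pf (g ∘ s) η x` has degree `2 n + 1 > 2 n`: PQA (6), HDC.DEG (5)) `= 0` (HDE.GSM (1), `map_zero`); the same for `q2`. -/
def Stmt_GEO : Prop := ∀ (n m : ℕ) (M E Γ : Type) [TopologicalSpace M] [T2Space M]
  [ChartedSpace (EE (2 * n)) M] [IsManifold 𝓘(ℝ, EE (2 * n)) ∞ M] [TopologicalSpace E]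
  [Group Γ] [MulAction Γ E] (q : E → M) (ρ : Γ → EE m → EE m) (g : E → EE m)
  (σ η : EE m → Lam m) (Ω w : Fam (2 * n) M) (H H' : ℝ → M → ℝ) (Φ Φ' : ℝ → M → M)
  (K : Set M), Dat n q ρ g σ η → NoC M → TwoH n Ω H H' Φ Φ' K → PB q g σ w →
  ∃ c xi : PFam (2 * n) M, DFm 1 c ∧ DFm (2 * n) xi ∧ Vn K c ∧ Vn K xi ∧
    DD c (GS Ω H' Φ' w - GS Ω H Φ w) ∧ DD xi (c * h2 n (GS Ω H Φ w) (GS Ω H' Φ' w))

/-- BLOCK H3C (uses nothing): the polynomials `h2`, `h3` in closed forms are closed.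
PROOF.  `h2 k X Y = HP k (k + 1) (fun _ => 1) X Y` (`one_smul`): HDE.HPC (2).  `h3 k X Y Z = ∑ X ^ i * h2 (k - i) Y Z`: HDE.HPC (1), HDE.LBP (`(-1)^(2 i) = 1`),
HDE.DFA (3) with `2 i + 2 (k - i) = 2 k` for `i ≤ k`; finite sums by induction (HDE.DFA (1), HDE.DDA (1)). -/
def Stmt_H3C : Prop := ∀ (N : ℕ) (M : Type) [TopologicalSpace M] [ChartedSpace (EE N) M]
  [IsManifold 𝓘(ℝ, EE N) ∞ M] (k : ℕ) (X Y Z : PFam N M), DFm 2 X → DFm 2 Y → DFm 2 Z →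
  DD X 0 → DD Y 0 → DD Z 0 →
  DFm (2 * k) (h2 k X Y) ∧ DD (h2 k X Y) 0 ∧ DFm (2 * k) (h3 k X Y Z) ∧ DD (h3 k X Y Z) 0

/-- BLOCK ESW (uses ALH, H3C): the step from `Φ` to `Φ'`.
PROOF.  `n = k + 1`, `T = h3 k X X' wt`.  At the points of the region (values of degree `2` are central: HDE.PLA (1), HDE.DFA (6)), with ALH (2), (3):
`UU n n 1 X' (wt - X') = h2 n X' wt`, `UU n n 1 X (wt - X) = h2 n X wt`, `h2 n X' wt - h2 n X wt = (X' - X) T`, `h2 n X' wt - h2 n X X' = (wt - X) T`.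
So with `nu' = nu - c`: `nu' h2 n X' wt - nu h2 n X wt = nu (X' - X) T - c (wt - X) T - c h2 n X X'`.
`E = nu * (c * T)` has degree `1 + (1 + 2 k) = 2 n`, `Vn K E` (factor `c`: `(x y).1 = x.1 y.1`, and `c = 0` off `K`), and by HDE.LBP (`T` closed: H3C)
`DD E ((wt - X) * (c * T) - nu * ((X' - X) * T))`.  HDE.STD for `-E` (or `(-1) • E`) and for `-xi`: both derivatives are `Nl`; their sum agrees with the
claim on the region (`wt - X` is central): HDE.NLA (4), (5).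
`DD nu' ((wt - X) - (X' - X))`: HDE.DDA (1), and `(wt - X) - (X' - X) = wt - X'` (`sub_sub_sub_cancel_right`).  `nu' - nu = -c`. -/
def Stmt_ESW : Prop := ∀ (n : ℕ) (M : Type) [TopologicalSpace M] [T2Space M]
  [SecondCountableTopology M] [ChartedSpace (EE (2 * n)) M] [IsManifold 𝓘(ℝ, EE (2 * n)) ∞ M]
  [MeasurableSpace M] [BorelSpace M] (Ω : Fam (2 * n) M) (vol : Measure M) (K : Set M), 1 ≤ n →
  Sg n Ω vol K → ∀ X X' wt nu c xi : PFam (2 * n) M, DFm 2 X → DFm 2 X' → DFm 2 wt →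
  DD X 0 → DD X' 0 → DD wt 0 → DFm 1 nu → DFm 1 c → DFm (2 * n) xi → DD nu (wt - X) →
  DD c (X' - X) → Vn K c → Vn K xi → DD xi (c * h2 n X X') →
  ∃ nu' : PFam (2 * n) M, DFm 1 nu' ∧ DD nu' (wt - X') ∧ Vn K (nu' - nu) ∧
    Nl n Ω vol K (nu' * UU n n 1 X' (wt - X') - nu * UU n n 1 X (wt - X))

/-- BLOCK EVW (uses nothing): the start value.
PROOF.  As `he/B_EVL.lean` (with `r = n`, `j = 1`): with the algebra homomorphism `h` of HDE.GSM (1) the left side is `h f`,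
`f = μ * UU n n 1 w (Ω - w)`; the values of `f` on targets have degree `1 + 2 n > 2 n`, so `EqF f 0` (HDC.DEG (5)), HDE.GSM (2), `h 0 = 0`. -/
def Stmt_EVW : Prop := ∀ (n : ℕ) (M : Type) [TopologicalSpace M] [ChartedSpace (EE (2 * n)) M]
  [IsManifold 𝓘(ℝ, EE (2 * n)) ∞ M] (Ω μ w : Fam (2 * n) M) (H : ℝ → M → ℝ) (Φ : ℝ → M → M),
  IsForm 2 Ω → IsForm 1 μ → IsForm 2 w →
  EqP (GS Ω H Φ μ * UU n n 1 (GS Ω H Φ w) (GS Ω H Φ Ω - GS Ω H Φ w)) 0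

/-- BLOCK MAW (uses GEO, ESW, EVW): the Calabi invariant.
PROOF.  As `he/B_MAI.lean`.  `w = Ω - dF μ` is a form of degree `2` (HDC.FO1, HDC.FO2), `EqF (dF w) 0` (`Ω` closed, HDC.DDZ (1); `Ω c` and
`D (μ c)` are differentiable on the open target).  `w0 = GS Ω`, `w1 = GS' Ω`, `X = GS w`, `X' = GS' w` (`GS` for `H, Φ`, `GS'` for `H', Φ'`): degree `2`, closed (HDE.GSD,
HDE.GSM).  `nu0 = GS μ`: `DD nu0 (GS (dF μ))`, `GS (dF μ) = w0 - X` because `dF μ = Ω - w` (`sub_sub_cancel`) and `GS` is an algebra homomorphism.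
`g = gg' - gg`, `dg = w0 - w1` (HDE.GDF).  `X ^ (n+1) = 0` on the region: degree `2 n + 2` and `2 n + 1` of the components (HDE.HPC (1), HDE.DFA (6), HDC.DEG (5)).
HDE.S0L with `r = n`, `j = 1`, `Y = w0 - X`: `nu1` with `DD nu1 ((Y - dg)^1)`, `Y - dg = w1 - X`, `X + Y = w0`.
GEO (for `w`): `c`, `xi`.  ESW with `wt = w1`, `nu = nu1`: `nu2`.
`ka = nu2 - GS' μ` has degree `1`, is closed, `Vn K ka` (sum of `nu2 - nu1`, `nu1 - nu0`, `GS μ - GS' μ`: HDE.VMU).  HDE.ENB (`r = n`): `Nl (ka * UU n n 1 X' (w1 - X'))`.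
EVW for both: `nu0 * UU n n 1 X (w0 - X)` and `GS' μ * UU n n 1 X' (w1 - X')` are `0` on the region.  Adding up (HDE.NLA (4), (5)): `(n+1) • (g * w0^n)` is `Nl`;
HDE.GVL, HDE.NLA (2): `(n+1) (Cal H' - Cal H) = 0`. -/
def Stmt_MAW : Prop := ∀ (n m : ℕ) (M E Γ : Type) [TopologicalSpace M] [T2Space M]
  [SecondCountableTopology M] [ChartedSpace (EE (2 * n)) M] [IsManifold 𝓘(ℝ, EE (2 * n)) ∞ M]
  [MeasurableSpace M] [BorelSpace M] [TopologicalSpace E] [Group Γ] [MulAction Γ E]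
  (q : E → M) (ρ : Γ → EE m → EE m) (g : E → EE m) (σ η : EE m → Lam m)
  (Ω μ : Fam (2 * n) M) (vol : Measure M) (K : Set M), 1 ≤ n → Sg n Ω vol K → NoC M →
  Dat n q ρ g σ η → IsForm 1 μ → PB q g σ (Ω - dF μ) →
  ∀ (H H' : ℝ → M → ℝ) (Φ Φ' : ℝ → M → M), TwoH n Ω H H' Φ Φ' K → Cal vol H = Cal vol H'

/-- BLOCK FNW (uses MAW): the theorem.
PROOF.  Exactly as `he/B_FNE.lean` (with MAW in place of MAI, `NoC M` is a hypothesis). -/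
def Stmt_FNW : Prop := ∀ (n m : ℕ) (M E Γ : Type) [TopologicalSpace M] [T2Space M]
  [SecondCountableTopology M] [ChartedSpace (EE (2 * n)) M] [IsManifold 𝓘(ℝ, EE (2 * n)) ∞ M]
  [MeasurableSpace M] [BorelSpace M] [Nonempty M] [TopologicalSpace E] [Group Γ]
  [MulAction Γ E] (q : E → M) (ρ : Γ → EE m → EE m) (g : E → EE m) (σ η : EE m → Lam m)
  (Ω μ : Fam (2 * n) M) (vol : Measure M), 1 ≤ n → NoC M → IsSymplectic n Ω → IsVol n Ω vol →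
  vol univ < ⊤ → Dat n q ρ g σ η → IsForm 1 μ → PB q g σ (Ω - dF μ) →
  (∀ (H H' : ℝ → M → ℝ) (φ : M → M), IsHam (2 * n) H → IsHam (2 * n) H' → Generates Ω H φ →
    Generates Ω H' φ → Cal vol H = Cal vol H') ∧
  (∀ (H : ℝ → M → ℝ) (φ : M → M), IsHam (2 * n) H → Generates Ω H φ →
    |Cal vol H| ≤ (vol univ).toReal * hofer Ω φ) ∧
  ∀ C : ℝ, ∃ φ ∈ Ham Ω, C ≤ hofer Ω φ

end HDP
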