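import Pool.Agent.Work.MP_c3bd4f_as.Defs2

set_option autoImplicit false

/-!
# Manifolds covered by `ℝ^m`: interface (part 2)

Same conventions as `Interface.lean`; the file of block `X` is `Pool/Agent/Work/MP_c3bd4f_as/B_X.lean`, it imports
`Pool.Agent.Work.MP_c3bd4f_as.Interface2`, `namespace HDP`, `open HDC HDE`.  The blocks PQA, PQS, PFA, .. of the column `uses` are in
`Interface.lean`.
-/

open scoped ContDiff Manifold Topology
open Set MeasureTheory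

noncomputable section

namespace HDP

open HDC HDE

/-- BLOCK UC1 (uses nothing): deck transformations.
PROOF.  `EE m` is simply connected (contractible) and locally path connected.  (1) `cov.existsUnique_continuousMap_lifts` (Mathlib
`Topology/Homotopy/Lifting.lean`) for `f = p`: `F a = b`, `p ∘ F = p`; in the same way `F' b = a`, `p ∘ F' = p`.  `F' ∘ F` and `id` lift `p` and agree at `a`,
so they are equal (uniqueness, or `IsCoveringMap.eq_of_comp_eq`), and `F ∘ F' = id`: a homeomorphism.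
(2) `γ` and `id` are continuous lifts of `p` which agree at `x`: `IsCoveringMap.eq_of_comp_eq` (`EE m` is connected).
(3) `p` is a local homeomorphism: it is injective on an open `U ∋ e`; if `x`, `γ • x ∈ U` then `γ • x = x`, so `γ = 1` by (2). -/
def Stmt_UC1 : Prop := ∀ (m : ℕ) (X : Type) [TopologicalSpace X] (p : EE m → X),
  IsCoveringMap p →
  (∀ a b : EE m, p a = p b → ∃ γ : Dk p, γ • a = b) ∧
  (∀ (γ : Dk p) (x : EE m), γ • x = x → γ = 1) ∧
  ∀ e : EE m, ∃ U : Set (EE m), IsOpen U ∧ e ∈ U ∧ ∀ γ : Dk p, ∀ x ∈ U, γ • x ∈ U → γ = 1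

/-- BLOCK UC3 (uses UC1): the deck group acts properly discontinuously.
PROOF.  `K = closedBall 0 R` is compact.  Claim: every `(x, y)` has an open neighbourhood `U ×ˢ V` with `{γ | ∃ u ∈ U, γ • u ∈ V}` finite.  If `p x ≠ p y`: disjoint
open sets `A ∋ p x`, `B ∋ p y` (`t2_separation`), `U = p ⁻¹' A`, `V = p ⁻¹' B` (`p` is continuous): the set is empty (`dk_map`).  If `p x = p y`: `y = δ • x`
(UC1 (1)), `U` from UC1 (3) for `x`, `V = {v | δ⁻¹ • v ∈ U}`: if `u ∈ U`, `γ • u ∈ V` then `(δ⁻¹ * γ) • u ∈ U`, so `γ = δ`: at most one element.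
`K ×ˢ K` is compact: finitely many such neighbourhoods cover it (`IsCompact.elim_nhds_subcover`), and
`{γ | ∃ x, ‖x‖ ≤ R ∧ ‖γ • x‖ ≤ R}` is contained in the union of the finite sets. -/
def Stmt_UC3 : Prop := ∀ (m : ℕ) (X : Type) [TopologicalSpace X] [T2Space X] (p : EE m → X),
  IsCoveringMap p → ∀ R : ℝ, {γ : Dk p | ∃ x, ‖x‖ ≤ R ∧ ‖dr p γ x‖ ≤ R}.Finite

/-- BLOCK UC4 (uses nothing): smoothness.
PROOF.  (1) `hp.contMDiff` composed with the chart (`contMDiffOn_of_mem_maximalAtlas`, `IsManifold.subset_maximalAtlas`), `contMDiffOn_iff_contDiffOn`.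
(2) at `x ∈ U`: `c = chartAt (p (y x))`.  `hp (y x)` gives a `PartialDiffeomorph` `Q` with `y x ∈ Q.source`, `p = Q` on `Q.source`, `Q.symm` smooth on the open
`Q.target`.  Near `x`: `y z ∈ Q.source` and `p (y z) ∈ c.source` (continuity), so `y z = Q.symm (p (y z)) = (Q.symm ∘ c.symm) (c (p (y z)))`.
`Q.symm ∘ c.symm` is smooth at `c (p (y x))` (`contMDiffOn_symm_of_mem_maximalAtlas`, `ContMDiffAt.comp`, `contMDiffAt_iff_contDiffAt`).
(3) (2) with `a = m`, `U = univ`, `y x = dr p γ x` (continuous: `dk_cont`), `c (p (y z)) = c (p z)` (`dk_map`), smooth by (1) (the set is open: `p` is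
continuous). -/
def Stmt_UC4 : Prop := ∀ (m : ℕ) (X : Type) [TopologicalSpace X] [ChartedSpace (EE m) X]
  [IsManifold 𝓘(ℝ, EE m) ∞ X] (p : EE m → X),
  IsLocalDiffeomorph 𝓘(ℝ, EE m) 𝓘(ℝ, EE m) ∞ p →
  (∀ c ∈ atlas (EE m) X, ContDiffOn ℝ ∞ (fun y => c (p y)) (p ⁻¹' c.source)) ∧
  (∀ (a : ℕ) (U : Set (EE a)) (y : EE a → EE m), IsOpen U → ContinuousOn y U →
    (∀ c ∈ atlas (EE m) X, ∀ x ∈ U, p (y x) ∈ c.source →
      ContDiffAt ℝ ∞ (fun z => c (p (y z))) x) → ContDiffOn ℝ ∞ y U) ∧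
  ∀ γ : Dk p, ContDiff ℝ ∞ (dr p γ)

/-- BLOCK UC5 (uses PQA, PQS, PFA): the pullback of forms on `X` to `ℝ^m`.
PROOF.  (1) as HDC.PBX (`hd/B_PBX.lean`): `c1 = chartAt (p e)`; near `e`: `c ∘ p = (c ∘ c1.symm) ∘ (c1 ∘ p)`, so `fderiv (c ∘ p) e = T ∘ fderiv (c1 ∘ p) e`,
`T = fderiv (c ∘ c1.symm) (c1 (p e))` (HDC.TRN); `IsForm.compat` for `c1`, `c`: `w c1 (c1 (p e)) = pb T (w c (c (p e)))`; PQA (7), (2).
(2) on the open set `p ⁻¹' c.source` `QF p w = pf (c ∘ p) (w c)`: smooth (PQS (1), `ContDiffOn.fderiv_of_isOpen`, `w c` smooth on `c.target`), degree PQA (6).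
(3) near `e`: PFA (5) for `h = c ∘ p`, `θ = w c`, `c = chartAt (p e)` (`Filter.EventuallyEq.fderiv_eq`), and (1) by definition of `QF p (dF w)`.
(4) `pf h (QF p w) x = pq (fderiv h x) (pq (fderiv (c ∘ p) (h x)) ..)`, `c = chartAt (p x)` (by (1), `p (h x) = p x ∈ c.source`), `= pq (fderiv (c ∘ p ∘ h) x) ..` (PQA (2),
chain rule) and `c ∘ p ∘ h = c ∘ p`.
(5) the same computation: `pf y (QF p w) x = pq (fderiv (c' ∘ p ∘ y) x) (w c' (c' (p (y x))))` for every chart `c'` with `p (y x) ∈ c'.source`.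
(6) for `w ^ j`, products: by definition `QF p` is pointwise an algebra homomorphism applied to a value. -/
def Stmt_UC5 : Prop := ∀ (m : ℕ) (X : Type) [TopologicalSpace X] [ChartedSpace (EE m) X]
  [IsManifold 𝓘(ℝ, EE m) ∞ X] (p : EE m → X), Continuous p →
  (∀ c ∈ atlas (EE m) X, ContDiffOn ℝ ∞ (fun y => c (p y)) (p ⁻¹' c.source)) →
  ∀ (k : ℕ) (w : Fam m X), IsForm k w →
  (∀ c ∈ atlas (EE m) X, ∀ e, p e ∈ c.source → QF p w e = pf (fun y => c (p y)) (w c) e) ∧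
  Fr k (QF p w) ∧ D (QF p w) = QF p (dF w) ∧
  (∀ h : EE m → EE m, ContDiff ℝ ∞ h → (∀ x, p (h x) = p x) → pf h (QF p w) = QF p w) ∧
  (∀ (a : ℕ) (y : EE a → EE m) (x : EE a), DifferentiableAt ℝ y x → ∀ c ∈ atlas (EE m) X,
    p (y x) ∈ c.source → pf y (QF p w) x =
      pq (fderiv ℝ (fun z => c (p (y z))) x) (w c (c (p (y x))))) ∧
  ∀ j : ℕ, QF p (w ^ j) = QF p w ^ j

/-- BLOCK UC6 (uses nothing): smooth maps in charts.
PROOF.  `hf.contMDiffAt` composed with `c'` (`contMDiffOn_of_mem_maximalAtlas`) and `c.symm` (`contMDiffOn_symm_of_mem_maximalAtlas`), at the interior point `x` of the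
open `c.target`; `contMDiffAt_iff_contDiffAt`.  Continuity: `hf.continuous`. -/
def Stmt_UC6 : Prop := ∀ (N m : ℕ) (M X : Type) [TopologicalSpace M] [ChartedSpace (EE N) M]
  [IsManifold 𝓘(ℝ, EE N) ∞ M] [TopologicalSpace X] [ChartedSpace (EE m) X]
  [IsManifold 𝓘(ℝ, EE m) ∞ X] (f : M → X), ContMDiff 𝓘(ℝ, EE N) 𝓘(ℝ, EE m) ∞ f →
  Continuous f ∧ ∀ c ∈ atlas (EE N) M, ∀ c' ∈ atlas (EE m) X, ∀ x ∈ c.target,
    f (c.symm x) ∈ c'.source → ContDiffAt ℝ ∞ (fun y => c' (f (c.symm y))) x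

/-- BLOCK UC7 (uses UC1): the fibre product is a covering with group `Dk p`.
PROOF.  Local sections: for `e0 = (x0, y0)` in `FP f p` let `h` be an open partial homeomorphism with `y0 ∈ h.source`, `p = h` (`cov.isLocalHomeomorph`);
on the open set `A = f ⁻¹' h.target ∋ x0` put `s x = (x, h.symm (f x))`, continuous, `fq (s x) = x`, `s x0 = e0`.
`fq` is continuous, surjective (`p` is surjective) and open: if `W` is open and `e0 ∈ W` then `{x ∈ A | s x ∈ W}` is a neighbourhood of `x0` contained in `fq '' W`.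
So it is a quotient map (`IsOpenMap.isQuotientMap`, or `IsOpenQuotientMap.isQuotientMap`).
`ContinuousConstSMul`: `dk_cont`, `Continuous.subtype_mk`, `Continuous.prodMk`.
Orbits: if `fq z = fq w` then `p (fg z) = f _ = p (fg w)`, so `fg z = γ • fg w` (UC1 (1)) and `z = γ • w` (`fp_ext`); conversely `fq_smul`.
`disjoint`: `U` from UC1 (3) for `fg e`; the neighbourhood `fg ⁻¹' U`. -/
def Stmt_UC7 : Prop := ∀ (m : ℕ) (M X : Type) [TopologicalSpace M] [TopologicalSpace X]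
  (f : M → X) (p : EE m → X), Continuous f → IsCoveringMap p → Function.Surjective p →
  IsQuotientCoveringMap (fq f p) (Dk p)

/-- BLOCK UC8 (uses UC3, UC4, UC5, UC6, UC7): the data for a map to a manifold covered by `ℝ^m`.
PROOF.  `p` is continuous.  `cov`: UC7 (UC6 for the continuity of `f`).  `act`: `one`, `mul` are `rfl`, `sm` is UC4 (3), `fin` is UC3.
`gm`: `eqv` is `fg_smul`.  `sm`: for a section `s` over `U` in the chart `c`: `y x = fg (s x)` is continuous, `p (y x) = f (fq (s x)) = f (c.symm x)` (`fp_eq`, `LSec.sec`) for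
`x ∈ U`, so `c' (p (y z)) = c' (f (c.symm z))` near `x` is smooth at `x` (UC6): UC4 (2).
`fs`, `fe`: UC5 (2).  `cs`: `D (QF p σ) = QF p (dF σ)`, which is `0`: `QF` evaluates `dF σ` at a point of the target of a chart of the atlas
(`mem_chart_source`, `c.map_source`), where it is `0`; `map_zero`.  `ce`: the same with `QF p (σ ^ (n+1)) = QF p σ ^ (n+1)` (UC5 (6)).  `is`, `ie`: UC5 (4) with
`h = dr p γ`, `dk_map`.
`PB`: UC5 (5) with `y z = fg (s z)` and `c' = chartAt (f (c.symm x))`: `pf y (QF p σ) x = pq (fderiv (fun z => c' (p (y z))) x) (σ c' (c' (p (y x))))`, and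
`p (y z) = f (c.symm z)` near `x`: this is `MPB f σ c x = w c x`. -/
def Stmt_UC8 : Prop := ∀ (n m : ℕ) (M X : Type) [TopologicalSpace M]
  [ChartedSpace (EE (2 * n)) M] [IsManifold 𝓘(ℝ, EE (2 * n)) ∞ M] [TopologicalSpace X]
  [T2Space X] [ChartedSpace (EE m) X] [IsManifold 𝓘(ℝ, EE m) ∞ X] (p : EE m → X)
  (f : M → X) (σ η : Fam m X) (w : Fam (2 * n) M), IsCoveringMap p → Function.Surjective p →
  IsLocalDiffeomorph 𝓘(ℝ, EE m) 𝓘(ℝ, EE m) ∞ p →
  ContMDiff 𝓘(ℝ, EE (2 * n)) 𝓘(ℝ, EE m) ∞ f → IsForm 2 σ → EqF (dF σ) 0 →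
  IsForm (2 * n + 1) η → EqF (dF η) (σ ^ (n + 1)) → EqF w (MPB f σ) →
  Dat n (fq f p) (dr p) (fg f p) (QF p σ) (QF p η) ∧ PB (fq f p) (fg f p) (QF p σ) w

/-- BLOCK FNX (uses UC8, FNW): the theorem for maps to manifolds covered by `ℝ^m`.
PROOF.  UC8 for `w = Ω - dF μ`, then FNW. -/
def Stmt_FNX : Prop := ∀ (n m : ℕ) (M X : Type) [TopologicalSpace M] [T2Space M]
  [SecondCountableTopology M] [ChartedSpace (EE (2 * n)) M] [IsManifold 𝓘(ℝ, EE (2 * n)) ∞ M]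
  [MeasurableSpace M] [BorelSpace M] [Nonempty M] [TopologicalSpace X] [T2Space X]
  [ChartedSpace (EE m) X] [IsManifold 𝓘(ℝ, EE m) ∞ X] (p : EE m → X) (f : M → X)
  (σ η : Fam m X) (Ω μ : Fam (2 * n) M) (vol : Measure M), 1 ≤ n → NoC M →
  IsSymplectic n Ω → IsVol n Ω vol → vol univ < ⊤ → IsCoveringMap p →
  Function.Surjective p → IsLocalDiffeomorph 𝓘(ℝ, EE m) 𝓘(ℝ, EE m) ∞ p →
  ContMDiff 𝓘(ℝ, EE (2 * n)) 𝓘(ℝ, EE m) ∞ f → IsForm 2 σ → EqF (dF σ) 0 →
  IsForm (2 * n + 1) η → EqF (dF η) (σ ^ (n + 1)) → IsForm 1 μ →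
  EqF (Ω - dF μ) (MPB f σ) →
  (∀ (H H' : ℝ → M → ℝ) (φ : M → M), IsHam (2 * n) H → IsHam (2 * n) H' → Generates Ω H φ →
    Generates Ω H' φ → Cal vol H = Cal vol H') ∧
  (∀ (H : ℝ → M → ℝ) (φ : M → M), IsHam (2 * n) H → Generates Ω H φ →
    |Cal vol H| ≤ (vol univ).toReal * hofer Ω φ) ∧
  ∀ C : ℝ, ∃ φ ∈ Ham Ω, C ≤ hofer Ω φ

/-- BLOCK FNU (uses FNX): the theorem for manifolds with the universal covering `ℝ^(2n)`.
PROOF.  FNX with `X = M`, `f = id` (`contMDiff_id`), `σ = Ω`, `η = 0`, `μ = 0`.  `M = p (EE (2 n))` is connected (`p` is continuous and surjective), so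
`connectedComponent x = univ` is not compact: `NoC M`.  `IsForm k 0`: all fields `0` (`map_zero`, `Submodule.zero_mem`); `dF 0 = 0` (`fderiv` of a constant,
`mul_zero`); `Ω c x ^ (n + 1)` has degree `2 n + 2 > 2 n`, so it is `0` (HDC.FO2 (6), HDC.DEG (5)).  `EqF (Ω - dF 0) (MPB id Ω)`: `MPB id Ω c x =
pq (fderiv (fun y => c1 (c.symm y)) x) (Ω c1 (c1 (c.symm x)))`, `c1 = chartAt (c.symm x)`, which is `Ω c x` by `IsForm.compat` (`pq = pb` by `rfl`). -/
def Stmt_FNU : Prop := ∀ (n : ℕ) (M : Type) [TopologicalSpace M] [T2Space M]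
  [SecondCountableTopology M] [ChartedSpace (EE (2 * n)) M] [IsManifold 𝓘(ℝ, EE (2 * n)) ∞ M]
  [MeasurableSpace M] [BorelSpace M] [Nonempty M] (p : EE (2 * n) → M) (Ω : Fam (2 * n) M)
  (vol : Measure M), 1 ≤ n → ¬ CompactSpace M → IsSymplectic n Ω → IsVol n Ω vol →
  vol univ < ⊤ → IsCoveringMap p → Function.Surjective p →
  IsLocalDiffeomorph 𝓘(ℝ, EE (2 * n)) 𝓘(ℝ, EE (2 * n)) ∞ p →
  (∀ (H H' : ℝ → M → ℝ) (φ : M → M), IsHam (2 * n) H → IsHam (2 * n) H' → Generates Ω H φ →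
    Generates Ω H' φ → Cal vol H = Cal vol H') ∧
  (∀ (H : ℝ → M → ℝ) (φ : M → M), IsHam (2 * n) H → Generates Ω H φ →
    |Cal vol H| ≤ (vol univ).toReal * hofer Ω φ) ∧
  ∀ C : ℝ, ∃ φ ∈ Ham Ω, C ≤ hofer Ω φ

end HDP
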