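import Pool.Agent.Work.MP_c3bd4f_as.Defs3

set_option autoImplicit false

/-!
# The general theorem `Ω = f^* σ + ρ`: interface (part 3)

Same conventions as `Interface.lean`; the file of block `X` is `Pool/Agent/Work/MP_c3bd4f_as/B_X.lean`, it imports
`Pool.Agent.Work.MP_c3bd4f_as.Interface3`, `namespace HDP`, `open HDC HDE`.

IDEA.  `S = nu * UU n r j X Y + e * WW n r X Y` (`Y ^ j = d nu`, `X ^ (r+1) = d e`) is a primitive of `(X + Y) ^ (n+1)`.  For the pullbacks by `Φ`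
and by `Φ'` it is `0` (degree `2 n + 1` on `M`); we go from one to the other by steps whose differences have integral `0`, except
for the term `(n+1) g (GS Ω)^n`.
-/

open scoped ContDiff Manifold Topology
open Set MeasureTheory

noncomputable section

namespace HDP

open HDC HDE

/-- BLOCK GP0 (uses nothing): the algebra of step 0.
PROOF.  Extends HDE.AL0 (`he/B_AL0.lean`).  `dg` is central with square `0`: `(rho - dg)^k = rho^k - k dg rho^(k-1)`, so (1),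
`UU w (rho - dg) = UU w rho - dg UY`, `WW w (rho - dg) = WW w rho - dg WY` (in `UY` the coefficient `n + 1 - i - j` is `0` if `i = n + 1 - j`; in `WY` `n - r - l`
is `0` if `l = n - r`).  (2): expand with `g dg = 0`: the left side is `- nu dg UY - j g rho^(j-1) UU - e dg WY`, and
`rho^j g UY + j g rho^(j-1) UU + w^(r+1) g WY = (n+1) g (w + rho)^n`: the coefficient of `w^i rho^(n-i)` for `i ≤ r` is `C(n+1,i) ((n+1-i-j) + j)`
and for `i = l + r + 1 > r` it is `C(n+1,i) (n - r - l) = C(n+1,i) (n+1-i)`; `(n+1-i) C(n+1,i) = (n+1) C(n,i)` (`Nat.choose_mul_succ_eq`; `i = n + 1` gives `0`),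
`Commute.add_pow`, split the sum over `range (n + 1)` at `r + 1`. -/
def Stmt_GP0 : Prop := ∀ (R : Type) [Ring R] [Algebra ℝ R] (n r j : ℕ) (w rho g dg nu e : R),
  1 ≤ j → r + j ≤ n + 1 → (∀ y, w * y = y * w) → (∀ y, rho * y = y * rho) →
  (∀ y, dg * y = y * dg) → g * dg = 0 → dg * dg = 0 →
  (rho - dg) ^ j = rho ^ j - (j : ℝ) • (dg * rho ^ (j - 1)) ∧
  (nu - (j : ℝ) • (g * rho ^ (j - 1))) * UU n r j w (rho - dg) + e * WW n r w (rho - dg) -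
      (nu * UU n r j w rho + e * WW n r w rho) =
    (rho ^ j * (g * UY n r j w rho) - nu * (dg * UY n r j w rho)) +
      (w ^ (r + 1) * (g * WY n r w rho) - e * (dg * WY n r w rho)) -
      ((n : ℝ) + 1) • (g * (w + rho) ^ n)

/-- BLOCK GP1 (uses nothing): the algebra of step 1.
PROOF.  The commutative case first (`R` a commutative `ℝ`-algebra).  `hm k x y` satisfies `(y - x) * hm k x y = y ^ k - x ^ k` (`Commute.mul_geom_sum₂`, reindex) and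
`x'^i y'^m - x^i y^m = (x' - x) (hm i x x' * y'^m - x^i * hm m y y')` (because `y' - y = -(x' - x)`): (1), (2) by summation.  (4) and (5) are clear.
(P) `y^j UU n r j x y + x^(r+1) WW n r x y = (x + y)^(n+1)`: the binomial theorem, split at `i = r`.
(3): first in `P = MvPolynomial (Fin 3) ℝ` for `x = X 0`, `x' = X 0 + X 1`, `y = X 2`, `y' = X 2 - X 1`: multiply by `δ = X 1 ≠ 0` (`P` is a domain,
`mul_left_cancel₀`); with (1), (2), (4): `δ * left = (y^j - y'^j) U' - (x'^(r+1) - x^(r+1)) W' = y^j U' + x^(r+1) W' - (x' + y')^(n+1)` by (P) for `x', y'`, and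
`δ * right = y^j (U' - U) + x^(r+1) (W' - W) = y^j U' + x^(r+1) W' - (x + y)^(n+1)` by (P) for `x, y`; `x + y = x' + y'`.  Apply `MvPolynomial.aeval` with
`X 0 ↦ x`, `X 1 ↦ x' - x`, `X 2 ↦ y` (`map_sum`, `map_mul`, ..: lemmas `f (UU ..) = UU (f ..) ..` for algebra homomorphisms `f`).
General `R`: `x, x', y, y'` are in the commutative ring `Subalgebra.center ℝ R`; apply the inclusion. -/
def Stmt_GP1 : Prop := ∀ (R : Type) [Ring R] [Algebra ℝ R] (n r j : ℕ) (x x' y y' : R),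
  1 ≤ j → r + j ≤ n + 1 → (∀ z, x * z = z * x) → (∀ z, x' * z = z * x') →
  (∀ z, y * z = z * y) → (∀ z, y' * z = z * y') → x + y = x' + y' →
  UU n r j x' y' - UU n r j x y = (x' - x) * AA n r j x x' y y' ∧
  WW n r x' y' - WW n r x y = (x' - x) * BB n r x x' y y' ∧
  hm j y y' * UU n r j x' y' - hm (r + 1) x x' * WW n r x' y' =
    y ^ j * AA n r j x x' y y' + x ^ (r + 1) * BB n r x x' y y' ∧
  (x' - x) * hm j y y' = y ^ j - y' ^ j ∧ hm (r + 1) x x' = h2 r x x'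

/-- BLOCK GHC (uses nothing): the polynomials in closed forms of degree `2` are closed.
PROOF.  `UU`, `WW`, `UY`, `WY` are `HP ..`: HDE.HPC (2) (as in `he/B_S0L.lean`: a nonzero coefficient forces `i ≤ n - j`, `l ≤ n - r - 1`).
If `r = n` the only coefficient of `WY` is `n - r - 0 = 0`, and `hm 0 = 0` gives `BB = 0`.  `hm k X Y` (`k ≥ 1`): sum of `X ^ i * Y ^ (k - 1 - i)`, of degree `2 (k - 1)`, closed
(HDE.HPC (1), HDE.LBP with `(-1)^(2 i) = 1`, HDE.DFA (1), HDE.DDA (1), induction over the sum; or `hm (k+1) = HP k (k+1) (fun _ => 1)`).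
`AA`: the terms `hm i X X' * Y' ^ (n+1-j-i)` (`i ≥ 1`; `0` if `i = 0`) and `X ^ i * hm (n+1-j-i) Y Y'` (`0` if `i = n+1-j`) have degree `2 (n - j)`; the same for `BB`
with `2 (n - r - 1)`. -/
def Stmt_GHC : Prop := ∀ (N : ℕ) (M : Type) [TopologicalSpace M] [ChartedSpace (EE N) M]
  [IsManifold 𝓘(ℝ, EE N) ∞ M] (n r j : ℕ) (X X' Y Y' : PFam N M), 1 ≤ j → j ≤ n →
  r + j ≤ n + 1 → DFm 2 X → DFm 2 X' → DFm 2 Y → DFm 2 Y' → DD X 0 → DD X' 0 → DD Y 0 →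
  DD Y' 0 →
  (DFm (2 * (n + 1 - j)) (UU n r j X Y) ∧ DD (UU n r j X Y) 0) ∧
  (DFm (2 * (n - r)) (WW n r X Y) ∧ DD (WW n r X Y) 0) ∧
  (DFm (2 * (n - j)) (UY n r j X Y) ∧ DD (UY n r j X Y) 0) ∧
  ((r < n → DFm (2 * (n - r - 1)) (WY n r X Y)) ∧ DD (WY n r X Y) 0 ∧
    (r = n → WY n r X Y = 0)) ∧
  (DFm (2 * (n - j)) (AA n r j X X' Y Y') ∧ DD (AA n r j X X' Y Y') 0) ∧
  ((r < n → DFm (2 * (n - r - 1)) (BB n r X X' Y Y')) ∧ DD (BB n r X X' Y Y') 0 ∧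
    (r = n → BB n r X X' Y Y' = 0)) ∧
  (DFm (2 * (j - 1)) (hm j Y Y') ∧ DD (hm j Y Y') 0)

/-- BLOCK GS0 (uses GP0, GHC): step 0.
PROOF.  As `he/B_S0L.lean`.  `nu' = nu - j • (g Y^(j-1))`, `DD nu' (Y^j - j • (dg Y^(j-1))) = DD nu' ((Y - dg)^j)` (GP0 (1)).
`E = nu * (g * UY n r j X Y) + e * (g * WY n r X Y)` has degree `2 n` (`(2 j - 1) + 1 + 2 (n - j)`, `(2 r + 1) + 1 + 2 (n - r - 1)`; for `r = n` the second summand is `0`),
`Vn K E` (the factor `g`; `he/B_S0L.lean`), and by HDE.LBP (`nu`, `e` have odd degree)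
`DD E ((Y^j * (g * UY) - nu * (dg * UY)) + (X^(r+1) * (g * WY) - e * (dg * WY)))`.  HDE.STD for `E`, and GP0 (2) at the points of the region (the values of
degree `2` are central: HDE.PLA (1), HDE.DFA (6)). -/
def Stmt_GS0 : Prop := ∀ (n : ℕ) (M : Type) [TopologicalSpace M] [T2Space M]
  [SecondCountableTopology M] [ChartedSpace (EE (2 * n)) M] [IsManifold 𝓘(ℝ, EE (2 * n)) ∞ M]
  [MeasurableSpace M] [BorelSpace M] (Ω : Fam (2 * n) M) (vol : Measure M) (K : Set M), 1 ≤ n →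
  Sg n Ω vol K → ∀ r j : ℕ, 1 ≤ j → j ≤ n → r + j ≤ n + 1 →
  ∀ X Y g dg nu e : PFam (2 * n) M, DFm 2 X → DFm 2 Y → DFm 1 g → DFm 2 dg →
  DFm (2 * j - 1) nu → DFm (2 * r + 1) e → DD X 0 → DD Y 0 → DD g dg → DD dg 0 →
  DD nu (Y ^ j) → DD e (X ^ (r + 1)) → Vn K g → EqP (g * dg) 0 → EqP (dg * dg) 0 →
  ∃ nu' : PFam (2 * n) M, DFm (2 * j - 1) nu' ∧ DD nu' ((Y - dg) ^ j) ∧ Vn K (nu' - nu) ∧
    Nl n Ω vol K (nu' * UU n r j X (Y - dg) + e * WW n r X (Y - dg) -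
      (nu * UU n r j X Y + e * WW n r X Y) + ((n : ℝ) + 1) • (g * (X + Y) ^ n))

/-- BLOCK GS1 (uses GP1, GHC): step 1.
PROOF.  `Y = wt - X`, `Y' = wt - X'`, `δ = X' - X = Y - Y'`; `U' = UU n r j X' Y'`, `W' = WW n r X' Y'`, `A = AA n r j X X' Y Y'`, `B = BB n r X X' Y Y'`.
`nu' = nu - c * hm j Y Y'`: `DD nu' (Y^j - δ hm j Y Y') = DD nu' (Y'^j)` (HDE.LBP: `hm` closed; GP1 (4)); degree `1 + 2 (j - 1) = 2 j - 1`; `Vn K (nu' - nu)` (factor `c`).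
`Z = (e' - e) - c * h2 r X X'` satisfies `DD (-xi) Z`.  At the points of the region, by GP1 (1), (2), (3), (5) (all even values are central):
`nu' U' + e' W' - (nu U + e W) = nu δ A + e δ B - c (hm j Y Y' U' - h2 r X X' W') + Z W' = (nu δ A - c Y^j A) + (e δ B - c X^(r+1) B) + Z W'`.
`E = -(nu * (c * A)) - e * (c * B) + (-xi) * W'`: degree `2 n` (`(2 j - 1) + 1 + 2 (n - j)`; `(2 r + 1) + 1 + 2 (n - r - 1)`, for `r = n` `B = 0`; `2 r + 2 (n - r)`), `Vn K E`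
(factors `c`, `xi`), and by HDE.LBP: `DD (nu (c A)) (Y^j (c A) - nu (δ A))`, `DD (e (c B)) (X^(r+1) (c B) - e (δ B))`, `DD ((-xi) W') (Z W')`.  So `DD E` is the form above
(on the region).  HDE.STD. -/
def Stmt_GS1 : Prop := ∀ (n : ℕ) (M : Type) [TopologicalSpace M] [T2Space M]
  [SecondCountableTopology M] [ChartedSpace (EE (2 * n)) M] [IsManifold 𝓘(ℝ, EE (2 * n)) ∞ M]
  [MeasurableSpace M] [BorelSpace M] (Ω : Fam (2 * n) M) (vol : Measure M) (K : Set M), 1 ≤ n →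
  Sg n Ω vol K → ∀ r j : ℕ, 1 ≤ j → j ≤ n → r + j ≤ n + 1 →
  ∀ X X' wt nu e e' c xi : PFam (2 * n) M, DFm 2 X → DFm 2 X' → DFm 2 wt → DD X 0 →
  DD X' 0 → DD wt 0 → DFm (2 * j - 1) nu → DFm (2 * r + 1) e → DFm (2 * r + 1) e' →
  DFm 1 c → DFm (2 * r) xi → DD nu ((wt - X) ^ j) → DD e (X ^ (r + 1)) →
  DD e' (X' ^ (r + 1)) → DD c (X' - X) → Vn K c → Vn K xi →
  DD xi (c * h2 r X X' - (e' - e)) →
  ∃ nu' : PFam (2 * n) M, DFm (2 * j - 1) nu' ∧ DD nu' ((wt - X') ^ j) ∧ Vn K (nu' - nu) ∧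
    Nl n Ω vol K (nu' * UU n r j X' (wt - X') + e' * WW n r X' (wt - X') -
      (nu * UU n r j X (wt - X) + e * WW n r X (wt - X)))

/-- BLOCK GEX (uses PFA, R2A, EUC, PLF, PLD, PLM, GE1, GE2): the forms `c` and `xi` on `[0, 1] × M`.
PROOF.  As `B_GEO.lean` with `n` replaced by `r` in EUC (which is stated for every number); the terms `Pl q G (pf (q1 m) η) = GS Ω H Φ e`,
`Pl q G (pf (q2 m) η) = GS Ω H' Φ' e` (GE2 with `PB q g η e`) stay. -/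
def Stmt_GEX : Prop := ∀ (n m r : ℕ) (M E Γ : Type) [TopologicalSpace M] [T2Space M]
  [ChartedSpace (EE (2 * n)) M] [IsManifold 𝓘(ℝ, EE (2 * n)) ∞ M] [TopologicalSpace E]
  [Group Γ] [MulAction Γ E] (q : E → M) (ρ : Γ → EE m → EE m) (g : E → EE m)
  (σ η : EE m → Lam m) (Ω w e : Fam (2 * n) M) (H H' : ℝ → M → ℝ) (Φ Φ' : ℝ → M → M)
  (K : Set M), DatR n r q ρ g σ η → NoC M → TwoH n Ω H H' Φ Φ' K → PB q g σ w →
  PB q g η e →
  ∃ c xi : PFam (2 * n) M, DFm 1 c ∧ DFm (2 * r) xi ∧ Vn K c ∧ Vn K xi ∧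
    DD c (GS Ω H' Φ' w - GS Ω H Φ w) ∧
    DD xi (c * h2 r (GS Ω H Φ w) (GS Ω H' Φ' w) - (GS Ω H' Φ' e - GS Ω H Φ e))

/-- BLOCK GEV (uses nothing): the start value.
PROOF.  As `he/B_EVL.lean`: with the algebra homomorphism `h` of HDE.GSM (1) the left side is `h f`,
`f = μ * UU n r j w (Ω - w) + e * WW n r w (Ω - w)`; the values of `f` on targets have degree `(2 j - 1) + 2 (n + 1 - j) = (2 r + 1) + 2 (n - r) = 2 n + 1`, so
`EqF f 0` (HDC.DEG (5)); HDE.GSM (2), `h 0 = 0`. -/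
def Stmt_GEV : Prop := ∀ (n r j : ℕ) (M : Type) [TopologicalSpace M]
  [ChartedSpace (EE (2 * n)) M] [IsManifold 𝓘(ℝ, EE (2 * n)) ∞ M] (Ω w e μ : Fam (2 * n) M)
  (H : ℝ → M → ℝ) (Φ : ℝ → M → M), 1 ≤ j → r + j ≤ n + 1 → IsForm 2 Ω → IsForm 2 w →
  IsForm (2 * r + 1) e → IsForm (2 * j - 1) μ →
  EqP (GS Ω H Φ μ * UU n r j (GS Ω H Φ w) (GS Ω H Φ Ω - GS Ω H Φ w) +
    GS Ω H Φ e * WW n r (GS Ω H Φ w) (GS Ω H Φ Ω - GS Ω H Φ w)) 0

/-- BLOCK GNC (uses nothing): no compact component if `r + 2 j ≤ n + 1`.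
PROOF.  As `he/B_NCA.lean`.  `r + j ≤ n` and `r + 1 ≤ n`.  With `ρ = Ω - w` (forms of degree `2` on `M`), `θ = HP (n - j) (r + 1) (bc n) w ρ * μ +
HP (n - r - 1) (n - r) (fun l => bc n (l + r + 1)) w ρ * e` is a form of degree `2 n - 1` with `dF θ = ρ^j * HP .. + w^(r+1) * HP .. = (w + ρ)^n = Ω^n` on the targets (binomial
theorem split at `i = r`: for `i ≤ r` `ρ^j ρ^(n-j-i) = ρ^(n-i)`, for `i = l + r + 1` `w^(r+1) w^l`).  The rest (indicator of a compact component, Stokes, positive volume) as in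
`he/B_NCA.lean`. -/
def Stmt_GNC : Prop := ∀ (n r j : ℕ) (M : Type) [TopologicalSpace M] [T2Space M]
  [SecondCountableTopology M] [ChartedSpace (EE (2 * n)) M] [IsManifold 𝓘(ℝ, EE (2 * n)) ∞ M]
  [MeasurableSpace M] [BorelSpace M] (Ω w e μ : Fam (2 * n) M) (vol : Measure M),
  IsSymplectic n Ω → IsVol n Ω vol → vol univ < ⊤ → 1 ≤ j → r + 2 * j ≤ n + 1 →
  DatM n r j Ω w e μ → NoC M

/-- BLOCK GMA (uses GS0, GS1, GEX, GEV): the Calabi invariant.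
PROOF.  As `he/B_MAI.lean`, `B_MAW.lean`.  `j ≤ n`, `r + j ≤ n + 1` in both cases.  `w0 = GS Ω`, `w1 = GS' Ω`, `X = GS w`, `X' = GS' w`, `e0 = GS e`, `e1 = GS' e`,
`nu0 = GS μ` (`GS` for `H, Φ`, `GS'` for `H', Φ'`): HDE.GSD, HDE.GSM give the degrees, `DD` closed, `DD e0 (X^(r+1))`, `DD e1 (X'^(r+1))`, `DD nu0 ((w0 - X)^j)`,
`DD (GS' μ) ((w1 - X')^j)`.  `g = gg' - gg`, `dg = w0 - w1` (HDE.GDF).  GS0 with `Y = w0 - X`: `nu1`; `Y - dg = w1 - X`, `X + Y = w0`.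
GEX: `c`, `xi`.  GS1 with `wt = w1`, `nu = nu1`, `e = e0`, `e' = e1`: `nu2`.
`ka = nu2 - GS' μ` is closed, `Vn K ka` (`nu2 - nu1`, `nu1 - nu0`, `GS μ - GS' μ`: HDE.VMU).  `Nl (ka * UU n r j X' (w1 - X'))`: HDE.ENA (`r + 2 j ≤ n + 1`, `m = GS' μ`) or HDE.ENB
(`j = 1`).  GEV twice.  So `(n+1) • (g * w0^n)` is `Nl` (HDE.NLA): step 0 + step 1 - `ka * UU` = `(n+1) • (g w0^n)` + `(GS' μ U' + e1 W')` - `(nu0 U + e0 W)`.  HDE.GVL. -/
def Stmt_GMA : Prop := ∀ (n m r j : ℕ) (M E Γ : Type) [TopologicalSpace M] [T2Space M]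
  [SecondCountableTopology M] [ChartedSpace (EE (2 * n)) M] [IsManifold 𝓘(ℝ, EE (2 * n)) ∞ M]
  [MeasurableSpace M] [BorelSpace M] [TopologicalSpace E] [Group Γ] [MulAction Γ E]
  (q : E → M) (ρ : Γ → EE m → EE m) (g : E → EE m) (σ η : EE m → Lam m)
  (Ω w e μ : Fam (2 * n) M) (vol : Measure M) (K : Set M), 1 ≤ n → 1 ≤ j →
  (r + 2 * j ≤ n + 1 ∨ (j = 1 ∧ r ≤ n)) → Sg n Ω vol K → NoC M → DatR n r q ρ g σ η →
  DatM n r j Ω w e μ → PB q g σ w → PB q g η e →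
  ∀ (H H' : ℝ → M → ℝ) (Φ Φ' : ℝ → M → M), TwoH n Ω H H' Φ Φ' K → Cal vol H = Cal vol H'

/-- BLOCK UFP (uses PQA, PQS, PFA): the pullback of forms by a smooth map `f : M → X`.
PROOF.  Let `F` be the hypothesis: `f` is continuous and `c' ∘ f ∘ c.symm` is smooth at `x` if `f (c.symm x) ∈ c'.source`.
(1) as HDC.PBX: two charts at the point `f (c.symm x)`; `IsForm.compat`, chain rule, PQA (7), (2).  (2) smooth: near `x` use (1) with a fixed `c'`, PQS (1); degree PQA (6);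
compatibility for `c`, `c2`: `c' ∘ f ∘ c.symm = (c' ∘ f ∘ c2.symm) ∘ (c2 ∘ c.symm)` near `x` (HDC.TRN), (1), PQA (2).
(3) near `x`: (1) with fixed `c'`, PFA (5) (pointwise).  (4) pointwise, `pq` is an algebra homomorphism.  (5) the values at points of targets of charts of the atlas. -/
def Stmt_UFP : Prop := ∀ (N m : ℕ) (M X : Type) [TopologicalSpace M] [ChartedSpace (EE N) M]
  [IsManifold 𝓘(ℝ, EE N) ∞ M] [TopologicalSpace X] [ChartedSpace (EE m) X]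
  [IsManifold 𝓘(ℝ, EE m) ∞ X] (f : M → X), Continuous f →
  (∀ c ∈ atlas (EE N) M, ∀ c' ∈ atlas (EE m) X, ∀ x ∈ c.target,
    f (c.symm x) ∈ c'.source → ContDiffAt ℝ ∞ (fun y => c' (f (c.symm y))) x) →
  (∀ (k : ℕ) (w : Fam m X), IsForm k w →
    (∀ c ∈ atlas (EE N) M, ∀ c' ∈ atlas (EE m) X, ∀ x ∈ c.target,
      f (c.symm x) ∈ c'.source → MPB (N := N) f w c x =
        pq (fderiv ℝ (fun y => c' (f (c.symm y))) x) (w c' (c' (f (c.symm x))))) ∧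
    IsForm k (MPB (N := N) f w) ∧
    EqF (dF (MPB (N := N) (M := M) f w)) (MPB f (dF w))) ∧
  (∀ (w : Fam m X) (k : ℕ), MPB (N := N) f (w ^ k) = MPB f w ^ k) ∧
  ∀ w w' : Fam m X, EqF w w' → EqF (MPB (N := N) (M := M) f w) (MPB f w')

/-- BLOCK GU8 (uses UC3, UC4, UC5, UC6, UC7): the data for a map to a manifold covered by `ℝ^m`.
PROOF.  As `B_UC8.lean` with `r` in place of `n`; the last statement (for all forms `w` on `X`) is the argument for `PB` there. -/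
def Stmt_GU8 : Prop := ∀ (n m r : ℕ) (M X : Type) [TopologicalSpace M]
  [ChartedSpace (EE (2 * n)) M] [IsManifold 𝓘(ℝ, EE (2 * n)) ∞ M] [TopologicalSpace X]
  [T2Space X] [ChartedSpace (EE m) X] [IsManifold 𝓘(ℝ, EE m) ∞ X] (p : EE m → X)
  (f : M → X) (σ η : Fam m X), IsCoveringMap p → Function.Surjective p →
  IsLocalDiffeomorph 𝓘(ℝ, EE m) 𝓘(ℝ, EE m) ∞ p →
  ContMDiff 𝓘(ℝ, EE (2 * n)) 𝓘(ℝ, EE m) ∞ f → IsForm 2 σ → EqF (dF σ) 0 →
  IsForm (2 * r + 1) η → EqF (dF η) (σ ^ (r + 1)) →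
  DatR n r (fq f p) (dr p) (fg f p) (QF p σ) (QF p η) ∧
  ∀ (k : ℕ) (w : Fam m X) (w' : Fam (2 * n) M), IsForm k w → EqF w' (MPB f w) →
    PB (fq f p) (fg f p) (QF p w) w'

/-- BLOCK GFX (uses UC6, GMA, GNC, UFP, GU8): the theorem.
PROOF.  `f` is smooth in charts (UC6).  `e = MPB f η`: a form of degree `2 r + 1` (UFP (2)), `dF e = MPB f (dF η) = MPB f (σ^(r+1)) = (MPB f σ)^(r+1) = w^(r+1)` on the targets (UFP (3), (5),
(4), `EqF w (MPB f σ)`).  `w` is a form of degree `2` (it agrees with `MPB f σ` on the targets: HDC.FO2 (8), (4), (5)), `dF w = dF (MPB f σ) = MPB f (dF σ) = MPB f 0 = 0` (HDC.CNG).  So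
`DatM n r j Ω w e μ`.  `NoC M`: GNC or the hypothesis.  `DatR` and `PB` for `w`, `e`: GU8.  Then (1): `K` = union of the compact supports of `H` and `H'`, GMA; (2), (3) as
`he/B_FNE.lean` (`B_FNW.lean`). -/
def Stmt_GFX : Prop := ∀ (n m r j : ℕ) (M X : Type) [TopologicalSpace M] [T2Space M]
  [SecondCountableTopology M] [ChartedSpace (EE (2 * n)) M] [IsManifold 𝓘(ℝ, EE (2 * n)) ∞ M]
  [MeasurableSpace M] [BorelSpace M] [Nonempty M] [TopologicalSpace X] [T2Space X]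
  [ChartedSpace (EE m) X] [IsManifold 𝓘(ℝ, EE m) ∞ X] (p : EE m → X) (f : M → X)
  (σ η : Fam m X) (Ω w μ : Fam (2 * n) M) (vol : Measure M), 1 ≤ n → 1 ≤ j →
  (r + 2 * j ≤ n + 1 ∨ (j = 1 ∧ r ≤ n ∧ NoC M)) →
  IsSymplectic n Ω → IsVol n Ω vol → vol univ < ⊤ → IsCoveringMap p →
  Function.Surjective p → IsLocalDiffeomorph 𝓘(ℝ, EE m) 𝓘(ℝ, EE m) ∞ p →
  ContMDiff 𝓘(ℝ, EE (2 * n)) 𝓘(ℝ, EE m) ∞ f → IsForm 2 σ → EqF (dF σ) 0 →
  IsForm (2 * r + 1) η → EqF (dF η) (σ ^ (r + 1)) → EqF w (MPB f σ) →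
  IsForm (2 * j - 1) μ → EqF (dF μ) ((Ω - w) ^ j) →
  (∀ (H H' : ℝ → M → ℝ) (φ : M → M), IsHam (2 * n) H → IsHam (2 * n) H' → Generates Ω H φ →
    Generates Ω H' φ → Cal vol H = Cal vol H') ∧
  (∀ (H : ℝ → M → ℝ) (φ : M → M), IsHam (2 * n) H → Generates Ω H φ →
    |Cal vol H| ≤ (vol univ).toReal * hofer Ω φ) ∧
  ∀ C : ℝ, ∃ φ ∈ Ham Ω, C ≤ hofer Ω φ

end HDP
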